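import Pool.Agent.HRF.Defs

/-!
# HRF-A1 : uniqueness of lifts, first properties of `Star` and `ext`

Throughout `E` is a Hausdorff space and `D : E → ℂ³` is a local homeomorphism.
-/

namespace HRF

open Set Filter Topology Matrix

variable {E : Type*} [TopologicalSpace E]

/-- Unique lifting on a preconnected set: two maps with the same composition with `D` which agree
at one point of the preconnected set `S` agree on `S`.

Proof. `IsSeparatedMap.eqOn_of_comp_eqOn` (file `Mathlib/Topology/SeparatedMap.lean`) applied to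
`D`: it is separated because `E` is T2 (`T2Space.isSeparatedMap`), and locally injective because it
is a local homeomorphism (`IsLocalHomeomorph.isLocallyInjective`). -/
theorem lift_unique [T2Space E] {D : E → V} (hD : IsLocalHomeomorph D)
    {X : Type*} [TopologicalSpace X] {S : Set X} (hS : IsPreconnected S) {c c' : X → E}
    (hc : ContinuousOn c S) (hc' : ContinuousOn c' S) (h : ∀ t ∈ S, D (c t) = D (c' t))
    {t₀ : X} (ht₀ : t₀ ∈ S) (h0 : c t₀ = c' t₀) : ∀ t ∈ S, c t = c' t := by
  have h1 := (T2Space.isSeparatedMap D).eqOn_of_comp_eqOn hD.isLocallyInjective hS hc hc' h ht₀ h0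
  exact fun t ht => h1 ht

/-- Every lift computes `ext`.

Proof. For `t = 1`: `ext D x v` is the value at `1` of the chosen lift, and two lifts of the same
segment agree on `[0,1]` by `lift_unique` (both start at `x`). For general `t ∈ [0,1]`:
`s ↦ c (s * t)` is a lift of `t • v` (note `D (c (s*t)) = D x + (s*t) • v = D x + s • (t • v)`,
continuity: composition of `c` with `s ↦ s * t` which maps `[0,1]` into `[0,1]`); its value at `1`
is `c t`. -/
theorem IsLift.ext_eq [T2Space E] {D : E → V} (hD : IsLocalHomeomorph D) {x : E} {v : V}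
    {c : ℝ → E} (hc : IsLift D x v c) :
    ∀ t ∈ Icc (0:ℝ) 1, t • v ∈ Star D x ∧ c t = ext D x (t • v) := by
  have key : ∀ (w : V) (d : ℝ → E), IsLift D x w d → d 1 = ext D x w := by
    intro w d hd
    have hex : ∃ c, IsLift D x w c := ⟨d, hd⟩
    unfold ext
    rw [dif_pos hex]
    have h1 := Classical.choose_spec hex
    have h0 : (0 : ℝ) ∈ Icc (0 : ℝ) 1 := ⟨le_rfl, zero_le_one⟩
    exact lift_unique hD isPreconnected_Icc hd.1 h1.1
      (fun t ht => by rw [hd.2.2 t ht, h1.2.2 t ht]) h0 (by rw [hd.2.1, h1.2.1]) 1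
      ⟨zero_le_one, le_rfl⟩
  intro t ht
  have hlift : IsLift D x (t • v) (fun s => c (s * t)) := by
    have hmaps : MapsTo (fun s : ℝ => s * t) (Icc (0 : ℝ) 1) (Icc (0 : ℝ) 1) := by
      intro s hs
      exact ⟨mul_nonneg hs.1 ht.1, mul_le_one₀ hs.2 ht.1 ht.2⟩
    refine ⟨hc.1.comp (by fun_prop) hmaps, ?_, fun s hs => ?_⟩
    · show c (0 * t) = x
      rw [zero_mul]
      exact hc.2.1
    · show D (c (s * t)) = D x + s • t • v
      rw [hc.2.2 _ (hmaps hs), mul_smul]
  refine ⟨⟨_, hlift⟩, ?_⟩
  have h2 := key _ _ hlift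
  simp only [one_mul] at h2
  exact h2

/-- Proof. Take the lift `c` chosen in the definition of `ext` and evaluate at `1`. -/
theorem D_ext {D : E → V} {x : E} {v : V} (hv : v ∈ Star D x) : D (ext D x v) = D x + v := by
  have hex : ∃ c, IsLift D x v c := hv
  unfold ext
  rw [dif_pos hex, (Classical.choose_spec hex).2.2 1 ⟨zero_le_one, le_rfl⟩, one_smul]

/-- Proof. The constant path. -/
theorem zero_mem_Star {D : E → V} {x : E} : (0 : V) ∈ Star D x := by
  exact ⟨fun _ => x, continuousOn_const, rfl, fun t _ => by rw [smul_zero, add_zero]⟩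

/-- Proof. The constant path `x` is a lift of `0`; use `IsLift.ext_eq` with `t = 1`. -/
theorem ext_zero [T2Space E] {D : E → V} (hD : IsLocalHomeomorph D) {x : E} : ext D x 0 = x := by
  have h : IsLift D x 0 (fun _ => x) :=
    ⟨continuousOn_const, rfl, fun t _ => by rw [smul_zero, add_zero]⟩
  have h1 := (h.ext_eq hD 1 ⟨zero_le_one, le_rfl⟩).2
  rw [smul_zero] at h1
  exact h1.symm

/-- `Star D x` is star shaped. Proof. `IsLift.ext_eq`. -/
theorem smul_mem_Star [T2Space E] {D : E → V} (hD : IsLocalHomeomorph D) {x : E} {v : V}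
    (hv : v ∈ Star D x) {t : ℝ} (ht : t ∈ Icc (0:ℝ) 1) : t • v ∈ Star D x := by
  obtain ⟨c, hc⟩ := hv
  exact (IsLift.ext_eq hD hc t ht).1

/-- `t ↦ ext D x (t • v)` is a lift of the segment.

Proof. Take a lift `c`; by `IsLift.ext_eq` it agrees with `t ↦ ext D x (t • v)` on `[0,1]`;
`ContinuousOn.congr`. -/
theorem isLift_ext [T2Space E] {D : E → V} (hD : IsLocalHomeomorph D) {x : E} {v : V}
    (hv : v ∈ Star D x) : IsLift D x v (fun t => ext D x (t • v)) := by
  obtain ⟨c, hc⟩ := hv
  have h := IsLift.ext_eq hD hc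
  refine ⟨hc.1.congr fun t ht => (h t ht).2.symm, ?_, fun t ht => ?_⟩
  · show ext D x ((0 : ℝ) • v) = x
    rw [← (h 0 ⟨le_rfl, zero_le_one⟩).2]
    exact hc.2.1
  · show D (ext D x (t • v)) = D x + t • v
    rw [← (h t ht).2]
    exact hc.2.2 t ht

end HRF
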