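import Pool.Agent.HRF.A2

/-!
# HRF-A3 : sections, change of base point, gluing, concatenation
-/

namespace HRF

open Set Filter Topology Matrix

variable {E : Type*} [TopologicalSpace E]

/-- A continuous section over a set containing the segment `[0,z]` computes `ext`.

Proof. `t ↦ σ (t • z)` is a lift of the segment (`t • z ∈ segment ℝ 0 z`), starting at
`σ 0 = x`; use `IsLift.ext_eq` with `t = 1`. -/
theorem ext_of_section [T2Space E] {D : E → V} (hD : IsLocalHomeomorph D) {x : E} {C : Set V}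
    {σ : V → E} (hσ : ContinuousOn σ C) (hσD : ∀ z ∈ C, D (σ z) = D x + z) {z : V}
    (hseg : segment ℝ 0 z ⊆ C) (h0 : σ 0 = x) : z ∈ Star D x ∧ ext D x z = σ z := by
  have hmem : ∀ t ∈ Icc (0:ℝ) 1, t • z ∈ C := by
    intro t ht
    apply hseg
    exact ⟨1 - t, t, by linarith [ht.2], ht.1, by ring, by simp⟩
  have hlift : IsLift D x z (fun t => σ (t • z)) := by
    refine ⟨hσ.comp (by fun_prop) fun t ht => hmem t ht, ?_, fun t ht => hσD _ (hmem t ht)⟩
    simp only [zero_smul]
    exact h0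
  have h01 : (1:ℝ) ∈ Icc (0:ℝ) 1 := by simp
  have h := hlift.ext_eq hD 1 h01
  simp only [one_smul] at h
  exact ⟨h.1, h.2.symm⟩

/-- Change of base point along a segment of `Star D x`.

Proof. `t ↦ ext D x (z + t • (z' - z))` is continuous on `[0,1]` (`continuousOn_ext_right`, the
segment lies in `Star D x`), starts at `ext D x z`, and `D` of it is `D x + z + t • (z' - z)` by
`D_ext`, `= D (ext D x z) + t • (z' - z)`. So it is a lift; `IsLift.ext_eq` at `t = 1`. -/
theorem ext_add_of_segment [T2Space E] {D : E → V} (hD : IsLocalHomeomorph D) {x : E} {z z' : V}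
    (h : segment ℝ z z' ⊆ Star D x) :
    z' - z ∈ Star D (ext D x z) ∧ ext D (ext D x z) (z' - z) = ext D x z' := by
  have hmem : ∀ t ∈ Icc (0:ℝ) 1, z + t • (z' - z) ∈ Star D x := by
    intro t ht
    apply h
    refine ⟨1 - t, t, by linarith [ht.2], ht.1, by ring, ?_⟩
    module
  have h01 : (1:ℝ) ∈ Icc (0:ℝ) 1 := by simp
  have hlift : IsLift D (ext D x z) (z' - z) (fun t => ext D x (z + t • (z' - z))) := by
    refine ⟨(continuousOn_ext_right hD x).comp (by fun_prop) fun t ht => hmem t ht, ?_, ?_⟩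
    · simp only [zero_smul, add_zero]
    · intro t ht
      rw [D_ext (hmem t ht), D_ext (h (left_mem_segment ℝ z z'))]
      abel
  have h2 := hlift.ext_eq hD 1 h01
  simp only [one_smul, add_sub_cancel] at h2
  exact ⟨h2.1, h2.2.symm⟩

/-- Change of base point in a convex subset of `Star D x`. Proof. `ext_add_of_segment` and
`Convex.segment_subset`. -/
theorem ext_convex [T2Space E] {D : E → V} (hD : IsLocalHomeomorph D) {x : E} {C : Set V}
    (hC : Convex ℝ C) (hCS : C ⊆ Star D x) {z z' : V} (hz : z ∈ C) (hz' : z' ∈ C) :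
    z' - z ∈ Star D (ext D x z) ∧ ext D (ext D x z) (z' - z) = ext D x z' :=
  ext_add_of_segment hD ((hC.segment_subset hz hz').trans hCS)

/-- Reversal. Proof. `ext_add_of_segment` with `z = w`, `z' = 0` (the segment `[w, 0]` is in the
star domain by `smul_mem_Star`; every point of `segment ℝ w 0` is `t • w` with `t ∈ [0,1]`), and
`ext_zero`. -/
theorem ext_neg [T2Space E] {D : E → V} (hD : IsLocalHomeomorph D) {x : E} {w : V}
    (hw : w ∈ Star D x) : -w ∈ Star D (ext D x w) ∧ ext D (ext D x w) (-w) = x := by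
  have h : segment ℝ w 0 ⊆ Star D x := by
    rintro _ ⟨a, b, ha, hb, hab, rfl⟩
    rw [smul_zero, add_zero]
    exact smul_mem_Star hD hw ⟨ha, by linarith⟩
  have h2 := ext_add_of_segment hD h
  rw [zero_sub, ext_zero hD] at h2
  exact h2

theorem a3_concat [T2Space E] {D : E → V} (hD : IsLocalHomeomorph D) {x : E} {w : V} {a b : ℝ}
    (ha : 0 ≤ a) (hb : 0 ≤ b) (h1 : a • w ∈ Star D x) (h2 : b • w ∈ Star D (ext D x (a • w))) :
    (a + b) • w ∈ Star D x ∧ ext D x ((a + b) • w) = ext D (ext D x (a • w)) (b • w) := by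
  rcases ha.eq_or_lt with ha0 | ha0
  · subst ha0
    rw [zero_smul, ext_zero hD] at h2 ⊢
    rw [zero_add]
    exact ⟨h2, rfl⟩
  rcases hb.eq_or_lt with hb0 | hb0
  · subst hb0
    rw [zero_smul, ext_zero hD, add_zero]
    exact ⟨h1, rfl⟩
  have hl : 0 < a + b := by positivity
  set s : ℝ := a / (a + b) with hs
  have hs0 : 0 < s := by positivity
  have hs1' : 1 - s = b / (a + b) := by
    rw [hs]
    field_simp
    ring
  have hs1 : 0 < 1 - s := by
    rw [hs1']
    positivity
  obtain ⟨k1, k2, k3⟩ := isLift_ext hD h1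
  obtain ⟨l1, l2, l3⟩ := isLift_ext hD h2
  have h01 : (1:ℝ) ∈ Icc (0:ℝ) 1 := by simp
  set c₁ : ℝ → E := fun t => ext D x (t • a • w) with hc₁
  set c₂ : ℝ → E := fun t => ext D (ext D x (a • w)) (t • b • w) with hc₂
  have hc11 : c₁ 1 = ext D x (a • w) := by
    simp only [hc₁, one_smul]
  have hc20 : c₂ 0 = ext D x (a • w) := l2
  set c : ℝ → E := fun t => if t ≤ s then c₁ (t / s) else c₂ ((t - s) / (1 - s)) with hc
  have e1 : ∀ t ∈ Icc (0:ℝ) s, c t = c₁ (t / s) := by
    intro t ht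
    rw [hc]
    simp only
    rw [if_pos ht.2]
  have e2 : ∀ t ∈ Icc s 1, c t = c₂ ((t - s) / (1 - s)) := by
    intro t ht
    rw [hc]
    simp only
    split_ifs with h
    · have hts : t = s := le_antisymm h ht.1
      rw [hts, div_self hs0.ne', sub_self, zero_div, hc11, hc20]
    · rfl
  have m1 : ∀ t ∈ Icc (0:ℝ) s, t / s ∈ Icc (0:ℝ) 1 := by
    intro t ht
    exact ⟨div_nonneg ht.1 hs0.le, (div_le_one hs0).2 ht.2⟩
  have m2 : ∀ t ∈ Icc s 1, (t - s) / (1 - s) ∈ Icc (0:ℝ) 1 := by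
    intro t ht
    exact ⟨div_nonneg (by linarith [ht.1]) hs1.le, (div_le_one hs1).2 (by linarith [ht.2])⟩
  have hsu : Icc (0:ℝ) 1 = Icc 0 s ∪ Icc s 1 :=
    (Icc_union_Icc_eq_Icc hs0.le (by linarith)).symm
  have hlift : IsLift D x ((a + b) • w) c := by
    refine ⟨?_, ?_, ?_⟩
    · rw [hsu]
      refine ContinuousOn.union_of_isClosed ?_ ?_ isClosed_Icc isClosed_Icc
      · refine ContinuousOn.congr ?_ e1
        exact k1.comp (by fun_prop) m1
      · refine ContinuousOn.congr ?_ e2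
        exact l1.comp (by fun_prop) m2
    · rw [e1 0 ⟨le_rfl, hs0.le⟩, zero_div]
      exact k2
    · intro t ht
      rw [hsu] at ht
      rcases ht with ht | ht
      · rw [e1 t ht, k3 _ (m1 t ht), smul_smul, smul_smul]
        congr 2
        rw [hs]
        field_simp
      · rw [e2 t ht, l3 _ (m2 t ht), D_ext h1, add_assoc, smul_smul, smul_smul, ← add_smul]
        congr 2
        rw [hs1', hs]
        field_simp
        ring
  have h := hlift.ext_eq hD 1 h01
  rw [one_smul, e2 1 ⟨by linarith, le_rfl⟩, div_self hs1.ne'] at h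
  refine ⟨h.1, ?_⟩
  rw [← h.2]
  simp only [hc₂, one_smul]

/-- Gluing. Let `C₁ ⊆ Star D x` be convex, `q ∈ C₁`, `C₂` open convex contained in
`Star D (ext D x q)`, and `p` a point with `t • p ∈ C₁` for all `t ∈ [0,1)` and `p - q ∈ C₂`.
Then `p ∈ Star D x`.

Proof. As `C₂` is open and `t • p - q → p - q` as `t → 1`, choose `t₀ ∈ [0,1)` with
`t₀ • p - q ∈ C₂`. Put `y = ext D x q`. Define `c t = ext D x (t • p)` for `t ≤ t₀` and
`c t = ext D y (t • p - q)` for `t > t₀`. On `[0,t₀]` the points `t • p` are in `C₁ ⊆ Star D x`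
(note `0 • p ∈ C₁`); on `[t₀,1]` the points `t • p - q` are in the convex set `C₂` (convex
combinations of `t₀ • p - q` and `p - q`). The two formulas agree at `t₀` by `ext_convex` (in `C₁`,
from `q` to `t₀ • p`). So `c` is continuous (`ContinuousOn.if`/`ContinuousOn.union_of_isClosed` on
`Icc 0 t₀ ∪ Icc t₀ 1`), `c 0 = ext D x 0 = x`, `D (c t) = D x + t • p` in both cases by `D_ext`.
Conclude by `IsLift.ext_eq`. -/
theorem glue [T2Space E] {D : E → V} (hD : IsLocalHomeomorph D) {x : E} {C₁ C₂ : Set V}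
    (hC₁ : Convex ℝ C₁) (h₁ : C₁ ⊆ Star D x) (hC₂ : Convex ℝ C₂) (hC₂o : IsOpen C₂) {q p : V}
    (hq : q ∈ C₁) (h₂ : C₂ ⊆ Star D (ext D x q)) (hp1 : ∀ t ∈ Ico (0:ℝ) 1, t • p ∈ C₁)
    (hp2 : p - q ∈ C₂) : p ∈ Star D x ∧ ext D x p = ext D (ext D x q) (p - q) := by
  obtain ⟨t, ht, htC⟩ : ∃ t ∈ Ico (0:ℝ) 1, t • p - q ∈ C₂ := by
    have hcont : Continuous (fun t : ℝ => t • p - q) := by fun_prop
    have h1 : (fun t : ℝ => t • p - q) ⁻¹' C₂ ∈ 𝓝 (1:ℝ) := by
      refine (hC₂o.preimage hcont).mem_nhds ?_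
      change (1:ℝ) • p - q ∈ C₂
      rw [one_smul]
      exact hp2
    obtain ⟨l, hl, hl2⟩ := exists_Ioc_subset_of_mem_nhds h1 ⟨0, by norm_num⟩
    have hm : max l 0 < 1 := max_lt hl (by norm_num)
    refine ⟨(max l 0 + 1) / 2, ⟨?_, by linarith⟩, ?_⟩
    · have := le_max_right l 0
      linarith
    · apply hl2
      have := le_max_left l 0
      exact ⟨by linarith, by linarith⟩
  have h1 := h₁ (hp1 t ht)
  have h2 := ext_convex hD hC₁ h₁ hq (hp1 t ht)
  have h3 := ext_convex hD hC₂ h₂ htC hp2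
  rw [h2.2] at h3
  have e : p - q - (t • p - q) = (1 - t) • p := by module
  rw [e] at h3
  have h4 := a3_concat hD ht.1 (by linarith [ht.2]) h1 h3.1
  have e2 : t + (1 - t) = 1 := by ring
  rw [e2, one_smul, h3.2] at h4
  exact h4

/-- Concatenation of collinear segments.

Proof. If `a + b = 0` then `a = b = 0`, everything is `ext_zero`. Otherwise let `s = a / (a + b)`
and concatenate: `c t = ext D x ((t * (a + b)) • w)` for `t ≤ s` and
`c t = ext D (ext D x (a • w)) ((t * (a+b) - a) • w)` for `t ≥ s`; use `smul_mem_Star`/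
`isLift_ext` for the membership and continuity. At `t = s` both values are `ext D x (a • w)`
(`ext_zero`). Then `IsLift.ext_eq` at `t = 1`. -/
theorem concat [T2Space E] {D : E → V} (hD : IsLocalHomeomorph D) {x : E} {w : V} {a b : ℝ}
    (ha : 0 ≤ a) (hb : 0 ≤ b) (h1 : a • w ∈ Star D x) (h2 : b • w ∈ Star D (ext D x (a • w))) :
    (a + b) • w ∈ Star D x ∧ ext D x ((a + b) • w) = ext D (ext D x (a • w)) (b • w) :=
  a3_concat hD ha hb h1 h2

end HRF
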