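import Pool.Agent.HRF.A3

/-!
# HRF-A4 : equivariance, completeness, openness, uniform extension
-/

namespace HRF

open Set Filter Topology Matrix

variable {E : Type*} [TopologicalSpace E]

/-- Equivariance of `Star` and `ext`.

Proof. If `c` is a lift of `[D x, D x + v]` from `x` then `T ∘ c` is a lift of
`[D (T x), D (T x) + L v]` from `T x`:
`D (T (c t)) = L (D x + t • v) + b = D (T x) + t • (L v)`. Use `IsLift.ext_eq` at `1`. -/
theorem ext_equiv [T2Space E] {D : E → V} (hD : IsLocalHomeomorph D) {T : E → E}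
    (hT : Continuous T) {L : Mat} {b : V} (hTD : ∀ x, D (T x) = L *ᵥ D x + b) {x : E} {v : V}
    (hv : v ∈ Star D x) : L *ᵥ v ∈ Star D (T x) ∧ ext D (T x) (L *ᵥ v) = T (ext D x v) := by
  obtain ⟨c, hc⟩ := hv
  have h01 : (1:ℝ) ∈ Icc (0:ℝ) 1 := by simp
  have h1 := hc.ext_eq hD 1 h01
  rw [one_smul] at h1
  have hlift : IsLift D (T x) (L *ᵥ v) (fun t => T (c t)) := by
    refine ⟨hT.comp_continuousOn hc.1, ?_, ?_⟩
    · simp only [hc.2.1]
    · intro t ht
      rw [hTD, hTD, hc.2.2 t ht, mulVec_add, mulVec_smul]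
      abel
  have h2 := hlift.ext_eq hD 1 h01
  rw [one_smul] at h2
  exact ⟨h2.1, by rw [← h2.2, h1.2]⟩

/-- Open image. Proof. Let `w ∈ W`, `y = ext D x w`. For `v` in a small ball `B` around `0` such
that `w + v ∈ W`, `ext D x (w + v)` is continuous in `v`, and `D (ext D x (w+v)) = D y + v`.
Let `U ∋ y` be open with `D|_U` injective and `D '' U` open (local homeomorphism), and `g` the
inverse; for `v` small `ext D x (w + v) ∈ U` so `ext D x (w + v) = g (D y + v)`. Hence the image of
`W` contains `g '' (small ball around D y)`, which is a neighbourhood of `y`.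
Alternatively: the map `ext D x : W → E` is continuous and `D ∘ ext D x = (D x + ·)` is an open
embedding, and `D` is a local homeomorphism, so `ext D x` is an open map on `W`
(`IsLocalHomeomorph.of_comp`-type lemmas applied to the subtype map). -/
theorem isOpen_image_ext [T2Space E] {D : E → V} (hD : IsLocalHomeomorph D) {x : E} {W : Set V}
    (hW : IsOpen W) (hWS : W ⊆ Star D x) : IsOpen (ext D x '' W) := by
  rw [isOpen_iff_forall_mem_open]
  rintro _ ⟨w, hw, rfl⟩
  obtain ⟨e, he1, rfl⟩ := hD (ext D x w)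
  have hN : IsOpen (W ∩ ext e x ⁻¹' e.source) :=
    ((continuousOn_ext_right hD x).mono hWS).isOpen_inter_preimage hW e.open_source
  have hM : IsOpen ((fun v : V => e x + v) '' (W ∩ ext e x ⁻¹' e.source)) :=
    (Homeomorph.addLeft (e x)).isOpenMap _ hN
  have hMt : (fun v : V => e x + v) '' (W ∩ ext e x ⁻¹' e.source) ⊆ e.target := by
    rintro _ ⟨v, ⟨hv1, hv2⟩, rfl⟩
    simp only
    rw [← D_ext (hWS hv1)]
    exact e.map_source hv2
  have himg : ext e x '' (W ∩ ext e x ⁻¹' e.source) =
      e.symm '' ((fun v : V => e x + v) '' (W ∩ ext e x ⁻¹' e.source)) := by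
    rw [image_image]
    refine image_congr fun v hv => ?_
    rw [← D_ext (hWS hv.1), e.left_inv hv.2]
  refine ⟨ext e x '' (W ∩ ext e x ⁻¹' e.source), image_mono inter_subset_left, ?_,
    ⟨w, ⟨hw, he1⟩, rfl⟩⟩
  rw [himg]
  exact e.symm.isOpen_image_of_subset_source hM hMt

/-- If one star domain is everything, `D` is bijective.

Proof. `R = ext D x '' univ` is open by `isOpen_image_ext`, nonempty, and closed: it is the set
`{y | ext D x (D y - D x) = y}` (if `y = ext D x v` then `D y - D x = v` by `D_ext`), and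
`y ↦ ext D x (D y - D x)` is continuous (`continuousOn_ext_right`), so `isClosed_eq`. As `E` is
connected `R = univ` (`IsClopen.eq_univ`). Injectivity: if `D y = D y'`, then
`y = ext D x (D y - D x) = y'`. Surjectivity: `D (ext D x (v - D x)) = v`. -/
theorem bijective_of_star_univ [T2Space E] [ConnectedSpace E] {D : E → V}
    (hD : IsLocalHomeomorph D) {x : E} (h : Star D x = univ) : Function.Bijective D := by
  have hall : ∀ v : V, v ∈ Star D x := fun v => by rw [h]; exact mem_univ v
  have hcont : Continuous (ext D x) := by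
    rw [← continuousOn_univ, ← h]
    exact continuousOn_ext_right hD x
  have hR : ext D x '' univ = {y | ext D x (D y - D x) = y} := by
    ext y
    constructor
    · rintro ⟨v, -, rfl⟩
      change ext D x (D (ext D x v) - D x) = ext D x v
      rw [D_ext (hall v), add_sub_cancel_left]
    · intro hy
      exact ⟨_, mem_univ _, hy⟩
  have hcl : IsClosed (ext D x '' univ) := by
    rw [hR]
    exact isClosed_eq (hcont.comp (hD.continuous.sub continuous_const)) continuous_id
  have hop : IsOpen (ext D x '' univ) :=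
    isOpen_image_ext hD isOpen_univ (by rw [h])
  have huniv : ext D x '' univ = univ :=
    IsClopen.eq_univ ⟨hcl, hop⟩ ⟨_, 0, mem_univ _, rfl⟩
  have key : ∀ y : E, ext D x (D y - D x) = y := by
    intro y
    have : y ∈ ext D x '' univ := by rw [huniv]; exact mem_univ y
    rw [hR] at this
    exact this
  constructor
  · intro y y' hy
    rw [← key y, ← key y', hy]
  · intro v
    exact ⟨ext D x (v - D x), by rw [D_ext (hall _), add_sub_cancel]⟩

/-- Uniform extension. If there is an open neighbourhood `C` of `0` contained in the star domain of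
`ext D x (t • w)` for all `t ∈ [0,1)` with `t • w ∈ Star D x`, then `w ∈ Star D x`.

Proof. Choose `N ≥ 1` with `(1/N : ℝ) • w ∈ C` (`C` is a neighbourhood of `0` and
`(1/N) • w → 0`). By induction on `k ≤ N`, `(k/N : ℝ) • w ∈ Star D x`: `k = 0` is `zero_mem_Star`;
step: `k < N`, `t = k/N ∈ [0,1)`, so `(1/N) • w ∈ C ⊆ Star D (ext D x (t • w))`, and `concat` gives
`((k+1)/N) • w ∈ Star D x`. For `k = N` this is the claim. -/
theorem mem_star_of_uniform [T2Space E] {D : E → V} (hD : IsLocalHomeomorph D) {x : E} {w : V}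
    {C : Set V} (hC : C ∈ 𝓝 (0 : V))
    (h : ∀ t ∈ Ico (0:ℝ) 1, t • w ∈ Star D x → C ⊆ Star D (ext D x (t • w))) :
    w ∈ Star D x := by
  obtain ⟨n, hn⟩ : ∃ n : ℕ, (1 / ((n : ℝ) + 1)) • w ∈ C := by
    have h1 : Tendsto (fun n : ℕ => (1 / ((n : ℝ) + 1)) • w) atTop (𝓝 ((0 : ℝ) • w)) :=
      tendsto_one_div_add_atTop_nhds_zero_nat.smul_const w
    rw [zero_smul] at h1
    exact (h1.eventually hC).exists
  have hn0 : (0 : ℝ) < (n : ℝ) + 1 := by positivity
  have key : ∀ k : ℕ, k ≤ n + 1 → ((k : ℝ) / ((n : ℝ) + 1)) • w ∈ Star D x := by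
    intro k
    induction k with
    | zero =>
      intro _
      rw [Nat.cast_zero, zero_div, zero_smul]
      exact zero_mem_Star
    | succ k ih =>
      intro hk
      have h1 := ih (by omega)
      have hk' : (k : ℝ) < (n : ℝ) + 1 := by
        have : k < n + 1 := by omega
        exact_mod_cast this
      have h2 := h _ ⟨by positivity, (div_lt_one hn0).2 hk'⟩ h1 hn
      have h3 := (concat hD (by positivity) (by positivity) h1 h2).1
      have e : (k : ℝ) / ((n : ℝ) + 1) + 1 / ((n : ℝ) + 1) = ((k + 1 : ℕ) : ℝ) / ((n : ℝ) + 1) := by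
        rw [Nat.cast_add, Nat.cast_one]
        ring
      rwa [e] at h3
  have h4 := key (n + 1) le_rfl
  have e : ((n + 1 : ℕ) : ℝ) / ((n : ℝ) + 1) = 1 := by
    rw [Nat.cast_add, Nat.cast_one]
    exact div_self hn0.ne'
  rwa [e, one_smul] at h4

end HRF
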