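import Pool.Agent.HRF.A3

/-!
# HRF-A5 : first countability, uniform radius, compactness
-/

namespace HRF

open Set Filter Topology Matrix

variable {E : Type*} [TopologicalSpace E]

/-- `E` is first countable. Proof. Every point has an open neighbourhood homeomorphic (by `D`) to
an open subset of `V`; in detail `𝓝 x = comap D (𝓝 (D x)) ⊓ 𝓟 U` for the source `U` of a local
inverse, which is countably generated. Or use `IsLocalHomeomorph.map_nhds_eq` and the local inverse
`OpenPartialHomeomorph`: `𝓝 x = map e.symm (𝓝 (D x))`, and `Filter.map.isCountablyGenerated`. -/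
theorem firstCountable {D : E → V} (hD : IsLocalHomeomorph D) : FirstCountableTopology E := by
  constructor
  intro x
  obtain ⟨e, hx, he⟩ := hD x
  have h1 : map e.symm (𝓝 (e x)) = 𝓝 x := by
    have h2 := e.symm.map_nhds_eq (x := e x) (e.map_source hx)
    rwa [e.left_inv hx] at h2
  rw [← h1]
  infer_instance

theorem a5_norm_le {v : V} {ρ : ℝ} (hρ : 0 ≤ ρ) (h : nsq v ≤ ρ ^ 2) : ‖v‖ ≤ ρ := by
  rw [pi_norm_le_iff_of_nonneg hρ]
  intro i
  have h1 : Complex.normSq (v i) ≤ nsq v :=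
    Finset.single_le_sum (f := fun i => Complex.normSq (v i))
      (fun j _ => Complex.normSq_nonneg _) (Finset.mem_univ i)
  have h2 : ‖v i‖ ^ 2 ≤ ρ ^ 2 := by
    rw [← Complex.normSq_eq_norm_sq]
    exact h1.trans h
  exact abs_le_of_sq_le_sq' h2 hρ |>.2

theorem a5_norm_lt {v : V} {ρ : ℝ} (hρ : 0 < ρ) (h : nsq v < ρ ^ 2) : ‖v‖ < ρ := by
  rw [pi_norm_lt_iff hρ]
  intro i
  have h1 : Complex.normSq (v i) ≤ nsq v :=
    Finset.single_le_sum (f := fun i => Complex.normSq (v i))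
      (fun j _ => Complex.normSq_nonneg _) (Finset.mem_univ i)
  have h2 : ‖v i‖ ^ 2 < ρ ^ 2 := by
    rw [← Complex.normSq_eq_norm_sq]
    exact h1.trans_lt h
  exact lt_of_pow_lt_pow_left₀ 2 hρ.le h2

theorem a5_cont_nsq : Continuous nsq := by
  unfold nsq
  exact continuous_finsetSum _ fun i _ => Complex.continuous_normSq.comp (continuous_apply i)

/-- Uniform radius over a compact set.

Proof. For `y ∈ K`: `0 ∈ Star D y`, so by `isOpen_starGraph` there are a neighbourhood `W_y` of `y`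
and `ρ_y > 0` with `v ∈ Star D y'` for `y' ∈ W_y`, `nsq v < ρ_y ^ 2` (`{v | nsq v < ρ^2}` is
contained in the sup-norm ball of radius `ρ`: `‖v i‖^2 ≤ nsq v`). Take a finite subcover and the
minimum of the radii. (`IsCompact.induction_on` works well: the property (∃ r > 0, …) is monotone
and stable under unions.) -/
theorem uniform_radius [T2Space E] {D : E → V} (hD : IsLocalHomeomorph D) {K : Set E}
    (hK : IsCompact K) : ∃ r : ℝ, 0 < r ∧ ∀ y ∈ K, ∀ v : V, nsq v < r ^ 2 → v ∈ Star D y := by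
  refine IsCompact.induction_on (p := fun s => ∃ r : ℝ, 0 < r ∧ ∀ y ∈ s, ∀ v : V,
    nsq v < r ^ 2 → v ∈ Star D y) hK ?_ ?_ ?_ ?_
  · exact ⟨1, one_pos, fun y hy => absurd hy (Set.notMem_empty y)⟩
  · rintro s t hst ⟨r, hr, h⟩
    exact ⟨r, hr, fun y hy => h y (hst hy)⟩
  · rintro s t ⟨r, hr, h⟩ ⟨r', hr', h'⟩
    refine ⟨min r r', lt_min hr hr', fun y hy v hv => ?_⟩
    rcases hy with hy | hy
    · exact h y hy v (hv.trans_le (pow_le_pow_left₀ (lt_min hr hr').le (min_le_left _ _) 2))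
    · exact h' y hy v (hv.trans_le (pow_le_pow_left₀ (lt_min hr hr').le (min_le_right _ _) 2))
  · intro x _
    have h1 : {q : E × V | q.2 ∈ Star D q.1} ∈ 𝓝 (x, (0 : V)) :=
      (isOpen_starGraph hD).mem_nhds zero_mem_Star
    rw [nhds_prod_eq, Filter.mem_prod_iff] at h1
    obtain ⟨W, hW, O, hO, hWO⟩ := h1
    obtain ⟨ρ, hρ, hball⟩ := Metric.mem_nhds_iff.1 hO
    refine ⟨W, mem_nhdsWithin_of_mem_nhds hW, ρ, hρ, fun y hy v hv => ?_⟩
    have h2 : v ∈ O := hball (by
      rw [Metric.mem_ball, dist_zero_right]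
      exact a5_norm_lt hρ hv)
    exact hWO (Set.mk_mem_prod hy h2)

/-- Proof. `{v | nsq v ≤ r'^2}` is closed and bounded, hence compact; the set in question is the
image of the compact set `K ×ˢ {v | nsq v ≤ r'^2}`, on which `(y,v) ↦ ext D y v` is continuous
(`continuousOn_ext`). -/
theorem isCompact_ball_ext [T2Space E] {D : E → V} (hD : IsLocalHomeomorph D) {K : Set E}
    (hK : IsCompact K) {r' : ℝ} (h : ∀ y ∈ K, ∀ v : V, nsq v ≤ r' ^ 2 → v ∈ Star D y) :
    IsCompact {e : E | ∃ y ∈ K, ∃ v : V, nsq v ≤ r' ^ 2 ∧ e = ext D y v} := by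
  have hc : IsCompact {v : V | nsq v ≤ r' ^ 2} := by
    refine Metric.isCompact_of_isClosed_isBounded (isClosed_le a5_cont_nsq continuous_const) ?_
    refine (Metric.isBounded_iff_subset_closedBall 0).2 ⟨|r'|, fun v hv => ?_⟩
    rw [Metric.mem_closedBall, dist_zero_right]
    refine a5_norm_le (abs_nonneg _) ?_
    rw [sq_abs]
    exact hv
  have h1 : {e : E | ∃ y ∈ K, ∃ v : V, nsq v ≤ r' ^ 2 ∧ e = ext D y v} =
      (fun q : E × V => ext D q.1 q.2) '' (K ×ˢ {v : V | nsq v ≤ r' ^ 2}) := by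
    ext e
    constructor
    · rintro ⟨y, hy, v, hv, rfl⟩
      exact ⟨(y, v), ⟨hy, hv⟩, rfl⟩
    · rintro ⟨⟨y, v⟩, ⟨hy, hv⟩, rfl⟩
      exact ⟨y, hy, v, hv, rfl⟩
  rw [h1]
  exact (hK.prod hc).image_of_continuousOn ((continuousOn_ext hD).mono fun q hq =>
    h q.1 hq.1 q.2 hq.2)

end HRF
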