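import Pool.Agent.HRF.Defs

/-!
# HRF-B1 : the top direction of an element of `O(3,ℂ)`
-/

namespace HRF

open Set Filter Topology Matrix

theorem b1_dot (v : V) : star v ⬝ᵥ v = (nsq v : ℂ) := by
  unfold dotProduct nsq
  push_cast
  refine Finset.sum_congr rfl fun i _ => ?_
  rw [Pi.star_apply, mul_comm]
  exact Complex.mul_conj _

theorem b1_nsq_nonneg (v : V) : 0 ≤ nsq v := Finset.sum_nonneg fun _ _ => Complex.normSq_nonneg _

theorem b1_nsq_star (v : V) : nsq (star v) = nsq v := by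
  unfold nsq
  refine Finset.sum_congr rfl fun i _ => ?_
  rw [Pi.star_apply]
  exact Complex.normSq_conj _

theorem b1_R (B : Mat) (v : V) : star v ⬝ᵥ ((Bᴴ * B) *ᵥ v) = (nsq (B *ᵥ v) : ℂ) := by
  rw [← b1_dot, star_mulVec, ← mulVec_mulVec, dotProduct_mulVec]

theorem b1_parseval (b : OrthonormalBasis (Fin 3) ℂ (EuclideanSpace ℂ (Fin 3))) (v w : V) :
    star v ⬝ᵥ w = ∑ i, star (star (b i).ofLp ⬝ᵥ v) * (star (b i).ofLp ⬝ᵥ w) := by
  have h := b.sum_inner_mul_inner (WithLp.toLp 2 v) (WithLp.toLp 2 w)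
  simp only [EuclideanSpace.inner_eq_star_dotProduct] at h
  rw [dotProduct_comm (star v) w, ← h]
  refine Finset.sum_congr rfl fun i _ => ?_
  rw [← star_dotProduct, dotProduct_comm (star v), dotProduct_comm w]

/-- the expansions of `nsq v` and `nsq (B v)` -/
theorem b1_expand {B : Mat} (b : OrthonormalBasis (Fin 3) ℂ (EuclideanSpace ℂ (Fin 3)))
    (l : Fin 3 → ℝ) (hb : ∀ i, (Bᴴ * B)ᵀ *ᵥ star (b i).ofLp = (l i : ℂ) • star (b i).ofLp) (v : V) :
    nsq v = ∑ i, Complex.normSq (star (b i).ofLp ⬝ᵥ v) ∧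
      nsq (B *ᵥ v) = ∑ i, l i * Complex.normSq (star (b i).ofLp ⬝ᵥ v) := by
  have hns : ∀ z : ℂ, star z * z = (Complex.normSq z : ℂ) := fun z => by
    rw [mul_comm]
    exact Complex.mul_conj _
  constructor
  · have h := b1_parseval b v v
    rw [b1_dot] at h
    have h2 : ∑ i, star (star (b i).ofLp ⬝ᵥ v) * (star (b i).ofLp ⬝ᵥ v) =
        ((∑ i, Complex.normSq (star (b i).ofLp ⬝ᵥ v) : ℝ) : ℂ) := by
      push_cast
      exact Finset.sum_congr rfl fun i _ => hns _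
    rw [h2] at h
    exact_mod_cast h
  · have h := b1_parseval b v ((Bᴴ * B) *ᵥ v)
    have h0 : star v ⬝ᵥ ((Bᴴ * B) *ᵥ v) = (nsq (B *ᵥ v) : ℂ) := by
      rw [← b1_dot, star_mulVec, ← mulVec_mulVec, dotProduct_mulVec]
    rw [h0] at h
    have h2 : ∑ i, star (star (b i).ofLp ⬝ᵥ v) * (star (b i).ofLp ⬝ᵥ ((Bᴴ * B) *ᵥ v)) =
        ((∑ i, l i * Complex.normSq (star (b i).ofLp ⬝ᵥ v) : ℝ) : ℂ) := by
      push_cast
      refine Finset.sum_congr rfl fun i _ => ?_
      rw [dotProduct_mulVec, ← mulVec_transpose, hb i, smul_dotProduct, smul_eq_mul, ← hns]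
      ring
    rw [h2] at h
    exact_mod_cast h

/-- If `B ∈ O(3,ℂ)` is not bounded by `M ≥ 1` then it has top data with `μ > M`.

Proof. Let `R = Bᴴ * B` (conjugate transpose), a Hermitian positive definite matrix with
`nsq (B *ᵥ v) = (star v ⬝ᵥ R *ᵥ v).re`. From `Bᵀ * B = 1` we get `B * Bᵀ = 1`, `B⁻¹ = Bᵀ` and,
conjugating, `(Bᴴ)⁻¹ = B̄` (entrywise conjugate; `Bᴴ * B̄ = (Bᵀ B)‾ = 1`, `B̄ * Bᴴ = 1`). Hence
`R̄ * R = Bᵀ B̄ Bᴴ B = Bᵀ (B̄ Bᴴ) B = Bᵀ B = 1`: so `R̄ = R⁻¹`  (*).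
Spectral theorem (`Matrix.IsHermitian.eigenvalues`, `eigenvectorBasis`,
`Matrix.IsHermitian.mulVec_eigenvectorBasis`): an orthonormal basis `e₀, e₁, e₂` with
`R e_i = λ_i e_i`, `λ_i > 0`, and `nsq (B v) = ∑ λ_i |⟨e_i, v⟩|²`, `nsq v = ∑ |⟨e_i, v⟩|²` where
`⟨e, v⟩ = star e ⬝ᵥ v`. Let `μ = max λ_i`, attained at `e`. As
`nsq (B v) ≤ μ nsq v` for all `v`, the hypothesis forces `μ > M ≥ 1`.
By (*): `R (star e) = μ⁻¹ • star e`: conjugating `R e = μ e` gives `R̄ (star e) = μ star e`, so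
`star e = μ R (star e)`.
So `star e` is an eigenvector for `μ⁻¹ < 1 < μ`, hence orthogonal to `e`:
`star (star e) ⬝ᵥ e = e ⬝ᵥ e = 0` (for Hermitian `R`: `μ (e⬝e) = e ⬝ᵥ R e = …= μ⁻¹ (e⬝e)`).
Put `n = star e`. Then `nsq n = 1` and `n ⬝ᵥ n = 0`.
grow: `nsq (B u) ≥ μ |⟨e, u⟩|² = μ |star e ⬝ᵥ u|² = μ |u ⬝ᵥ n|²`.
contr: let `n ⬝ᵥ v = 0`, i.e. `⟨e, v⟩ = 0`. All eigenvalues of `R` on `e^⊥` are `≤ 1`: the
eigenvalues are `μ`, `μ⁻¹` (eigenvectors `e`, `star e`) and the third one `λ`, and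
`det R = |det B|² = 1` (`det B = ±1`) gives `λ = 1`.
(An alternative for this step without listing eigenvalues: let `λ` be the maximum of
`nsq (B v)` on unit vectors `v ⊥ e`; it is an eigenvalue of `R` with an eigenvector `f ⊥ e`
(`R` preserves `e^⊥`). If `λ > 1` then as above `star f` is an eigenvector for `λ⁻¹ < 1`; then
`e, f, star e, star f` with eigenvalues `μ, λ > 1` and `μ⁻¹, λ⁻¹ < 1`: the eigenspaces for
eigenvalues `> 1` contain the 2-dimensional space `span(e,f)`, those for eigenvalues `< 1` contain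
the 2-dimensional space `span(star e, star f)`, orthogonal to each other, impossible in
dimension 3.)
Write `v = a (star e) + b m` with `m` a unit vector orthogonal to `e` and `star e`, `R m = λ m`:
`nsq (B v) = μ⁻¹ |a|² + λ |b|² ≤ |a|² + |b|² = nsq v`. -/
theorem exists_top {B : Mat} (hB : Bᵀ * B = 1) {M : ℝ} (hM : 1 ≤ M)
    (h : ¬ ∀ v : V, nsq (B *ᵥ v) ≤ M * nsq v) : ∃ (μ : ℝ) (n : V), M < μ ∧ Top B μ n := by
  have hBB : B * Bᵀ = 1 := mul_eq_one_comm.1 hB
  have hR : (Bᴴ * B).IsHermitian := isHermitian_conjTranspose_mul_self B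
  -- `R * Rᵀ = 1`
  have hRR : (Bᴴ * B) * (Bᴴ * B)ᵀ = 1 := by
    have h1 : Bᴴ * Bᵀᴴ = 1 := by
      rw [← conjTranspose_mul, hB, conjTranspose_one]
    have h2 : (Bᴴ)ᵀ = Bᵀᴴ := rfl
    rw [transpose_mul, h2, ← Matrix.mul_assoc, Matrix.mul_assoc Bᴴ B Bᵀ, hBB, Matrix.mul_one, h1]
  have hRR' : (Bᴴ * B)ᵀ * (Bᴴ * B) = 1 := mul_eq_one_comm.1 hRR
  set b := hR.eigenvectorBasis with hbdef
  set l := hR.eigenvalues with hldef
  have hb : ∀ i, (Bᴴ * B) *ᵥ (b i).ofLp = (l i : ℂ) • (b i).ofLp := fun i => by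
    have h1 := hR.mulVec_eigenvectorBasis i
    rw [h1]
    funext j
    rw [Pi.smul_apply, Pi.smul_apply, Complex.real_smul, smul_eq_mul]
  have hbT : ∀ i, (Bᴴ * B)ᵀ *ᵥ star (b i).ofLp = (l i : ℂ) • star (b i).ofLp := fun i => by
    have h1 := congrArg star (hb i)
    rw [star_mulVec, hR.eq, ← mulVec_transpose, star_smul] at h1
    rw [h1]
    congr 1
    exact Complex.conj_ofReal _
  have hexp := b1_expand b l hbT
  have hnb : ∀ i, nsq (b i).ofLp = 1 := fun i => by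
    have h1 := b.orthonormal.1 i
    have h2 := EuclideanSpace.norm_sq_eq (b i)
    rw [h1, one_pow] at h2
    rw [h2]
    unfold nsq
    exact Finset.sum_congr rfl fun j _ => Complex.normSq_eq_norm_sq _
  have hl0 : ∀ i, 0 ≤ l i := fun i => by
    have h1 := b1_R B (b i).ofLp
    rw [hb i, dotProduct_smul, b1_dot, hnb i, Complex.ofReal_one, smul_eq_mul, mul_one] at h1
    have h2 : l i = nsq (B *ᵥ (b i).ofLp) := by exact_mod_cast h1
    rw [h2]
    exact b1_nsq_nonneg _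
  -- the determinant
  have hdet : l 0 * l 1 * l 2 = 1 := by
    have h1 := hR.det_eq_prod_eigenvalues
    rw [Fin.prod_univ_three, det_mul, det_conjTranspose] at h1
    have h2 : B.det * B.det = 1 := by
      have h3 := congrArg det hB
      rwa [det_mul, det_transpose, det_one] at h3
    have h3 : star B.det * B.det = 1 := by
      rcases mul_self_eq_one_iff.1 h2 with h4 | h4
      · rw [h4, star_one, one_mul]
      · rw [h4, star_neg, star_one, neg_mul_neg, one_mul]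
    rw [h3] at h1
    have h5 : ((1 : ℝ) : ℂ) = ((l 0 * l 1 * l 2 : ℝ) : ℂ) := by
      push_cast
      exact h1
    exact (Complex.ofReal_injective h5).symm
  -- the largest eigenvalue
  obtain ⟨m, hm⟩ : ∃ m : Fin 3, ∀ i, l i ≤ l m := Finite.exists_max l
  have hup : ∀ v : V, nsq (B *ᵥ v) ≤ l m * nsq v := fun v => by
    rw [(hexp v).1, (hexp v).2, Finset.mul_sum]
    exact Finset.sum_le_sum fun i _ => mul_le_mul_of_nonneg_right (hm i) (Complex.normSq_nonneg _)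
  have hMμ : M < l m := by
    push Not at h
    obtain ⟨v, hv⟩ := h
    have h1 := hv.trans_le (hup v)
    have h2 := b1_nsq_nonneg v
    by_contra hc
    push Not at hc
    have h3 := mul_le_mul_of_nonneg_right hc h2
    linarith
  have hμ1 : 1 < l m := lt_of_le_of_lt hM hMμ
  have hlpos : ∀ i, 0 < l i := fun i => by
    rcases (hl0 i).eq_or_lt with h0 | h0
    · exfalso
      fin_cases i
      · simp only [Fin.zero_eta] at h0
        rw [← h0, zero_mul, zero_mul] at hdet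
        exact zero_ne_one hdet
      · simp only [Fin.mk_one] at h0
        rw [← h0, mul_zero, zero_mul] at hdet
        exact zero_ne_one hdet
      · simp only [Fin.reduceFinMk] at h0
        rw [← h0, mul_zero] at hdet
        exact zero_ne_one hdet
    · exact h0
  -- `R (star e) = λ⁻¹ star e`, so `1 ≤ μ λ`
  have hlow : ∀ i, 1 ≤ l m * l i := fun i => by
    have h1 : (Bᴴ * B) *ᵥ ((Bᴴ * B)ᵀ *ᵥ star (b i).ofLp) = star (b i).ofLp := by
      rw [mulVec_mulVec, hRR, one_mulVec]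
    rw [hbT i, mulVec_smul] at h1
    have h2 : star (star (b i).ofLp) ⬝ᵥ ((Bᴴ * B) *ᵥ star (b i).ofLp) =
        (nsq (B *ᵥ star (b i).ofLp) : ℂ) := by
      rw [← b1_dot, star_mulVec, ← mulVec_mulVec, dotProduct_mulVec]
    have h3 : (l i : ℂ) * (nsq (B *ᵥ star (b i).ofLp) : ℂ) = 1 := by
      rw [← h2, ← smul_eq_mul, ← dotProduct_smul, h1, b1_dot, b1_nsq_star, hnb i, Complex.ofReal_one]
    have h4 : l i * nsq (B *ᵥ star (b i).ofLp) = 1 := by exact_mod_cast h3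
    have h5 := hup (star (b i).ofLp)
    rw [b1_nsq_star, hnb i, mul_one] at h5
    have h6 := mul_le_mul_of_nonneg_left h5 (hl0 i)
    linarith
  -- the other eigenvalues are at most one
  have hle : ∀ i, i ≠ m → l i ≤ 1 := by
    intro i hi
    obtain ⟨j, hj⟩ : ∃ j, l m * l i * l j = 1 := by
      fin_cases m <;> fin_cases i
      · exact absurd rfl hi
      · exact ⟨2, hdet⟩
      · exact ⟨1, by simp only [Fin.zero_eta, Fin.reduceFinMk] at *; linarith⟩
      · exact ⟨2, by simp only [Fin.zero_eta, Fin.mk_one] at *; linarith⟩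
      · exact absurd rfl hi
      · exact ⟨0, by simp only [Fin.mk_one, Fin.reduceFinMk] at *; linarith⟩
      · exact ⟨1, by simp only [Fin.zero_eta, Fin.reduceFinMk] at *; linarith⟩
      · exact ⟨0, by simp only [Fin.mk_one, Fin.reduceFinMk] at *; linarith⟩
      · exact absurd rfl hi
    have h1 := mul_le_mul_of_nonneg_left (hlow j) (hl0 i)
    linarith
  -- `e ⬝ e = 0`
  have hee : (b m).ofLp ⬝ᵥ (b m).ofLp = 0 := by
    have h1 : (Bᴴ * B)ᵀ *ᵥ ((Bᴴ * B) *ᵥ (b m).ofLp) = (b m).ofLp := by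
      rw [mulVec_mulVec, hRR', one_mulVec]
    rw [hb m, mulVec_smul] at h1
    have h2 : (b m).ofLp ⬝ᵥ ((Bᴴ * B) *ᵥ (b m).ofLp) = (l m : ℂ) * ((b m).ofLp ⬝ᵥ (b m).ofLp) := by
      rw [hb m, dotProduct_smul, smul_eq_mul]
    have h3 : (l m : ℂ) * ((b m).ofLp ⬝ᵥ ((Bᴴ * B) *ᵥ (b m).ofLp)) = (b m).ofLp ⬝ᵥ (b m).ofLp := by
      rw [dotProduct_mulVec, ← mulVec_transpose, ← smul_eq_mul, ← smul_dotProduct, h1]
    rw [h2] at h3
    have h4 : ((l m : ℂ) * (l m : ℂ) - 1) * ((b m).ofLp ⬝ᵥ (b m).ofLp) = 0 := by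
      linear_combination h3
    rcases mul_eq_zero.1 h4 with h5 | h5
    · exfalso
      have h6 : ((l m * l m - 1 : ℝ) : ℂ) = 0 := by
        push_cast
        exact h5
      have h7 : l m * l m - 1 = 0 := by exact_mod_cast h6
      nlinarith
    · exact h5
  refine ⟨l m, star (b m).ofLp, hMμ, hμ1, ?_, ?_, ?_, ?_⟩
  · rw [b1_nsq_star, hnb]
  · rw [star_dotProduct_star, hee, star_zero]
  · intro v hv
    rw [(hexp v).1, (hexp v).2]
    refine Finset.sum_le_sum fun i _ => ?_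
    by_cases hi : i = m
    · rw [hi, hv, map_zero, mul_zero]
    · have h1 := mul_le_mul_of_nonneg_right (hle i hi) (Complex.normSq_nonneg (star (b i).ofLp ⬝ᵥ v))
      rwa [one_mul] at h1
  · intro u
    rw [(hexp u).2, dotProduct_comm u]
    exact Finset.single_le_sum (f := fun i => l i * Complex.normSq (star (b i).ofLp ⬝ᵥ u))
      (fun i _ => mul_nonneg (hl0 i) (Complex.normSq_nonneg _)) (Finset.mem_univ m)

end HRF
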