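import Pool.Agent.HRF.Defs

/-!
# HRF-B2 : small facts of linear algebra
-/

namespace HRF

open Set Filter Topology Matrix

theorem nsq_nonneg (v : V) : 0 ≤ nsq v := by
  exact Finset.sum_nonneg fun i _ => Complex.normSq_nonneg _

theorem nsq_eq_zero {v : V} : nsq v = 0 ↔ v = 0 := by
  unfold nsq
  rw [Finset.sum_eq_zero_iff_of_nonneg fun i _ => Complex.normSq_nonneg _]
  constructor
  · intro h
    funext i
    exact Complex.normSq_eq_zero.1 (h i (Finset.mem_univ i))
  · rintro rfl i _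
    exact Complex.normSq_eq_zero.2 rfl

/-- `nsq (c • v) = |c|² nsq v` (complex scalars). -/
theorem nsq_smul (c : ℂ) (v : V) : nsq (c • v) = Complex.normSq c * nsq v := by
  unfold nsq
  rw [Finset.mul_sum]
  refine Finset.sum_congr rfl fun i _ => ?_
  rw [Pi.smul_apply, smul_eq_mul, Complex.normSq_mul]

/-- `nsq (t • v) = t² nsq v` (real scalars). -/
theorem nsq_rsmul (t : ℝ) (v : V) : nsq (t • v) = t ^ 2 * nsq v := by
  unfold nsq
  rw [Finset.mul_sum]
  refine Finset.sum_congr rfl fun i _ => ?_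
  rw [Pi.smul_apply, Complex.real_smul, Complex.normSq_mul, Complex.normSq_ofReal, sq]

theorem continuous_nsq : Continuous nsq := by
  exact continuous_finsetSum _ fun i _ => Complex.continuous_normSq.comp (continuous_apply i)

/-- Each coordinate is bounded by `nsq`. -/
theorem norm_sq_le_nsq (v : V) : ‖v‖ ^ 2 ≤ nsq v := by
  have h : ‖v‖ ≤ Real.sqrt (nsq v) := by
    refine (pi_norm_le_iff_of_nonneg (Real.sqrt_nonneg _)).2 fun i => ?_
    refine Real.le_sqrt_of_sq_le ?_
    rw [← Complex.normSq_eq_norm_sq]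
    exact Finset.single_le_sum (f := fun i => Complex.normSq (v i))
      (fun j _ => Complex.normSq_nonneg _) (Finset.mem_univ i)
  calc ‖v‖ ^ 2 ≤ Real.sqrt (nsq v) ^ 2 := pow_le_pow_left₀ (norm_nonneg _) h 2
    _ = nsq v := Real.sq_sqrt (nsq_nonneg v)

theorem nsq_le_norm_sq (v : V) : nsq v ≤ 3 * ‖v‖ ^ 2 := by
  have h : ∀ i, Complex.normSq (v i) ≤ ‖v‖ ^ 2 := fun i => by
    rw [Complex.normSq_eq_norm_sq]
    exact pow_le_pow_left₀ (norm_nonneg _) (norm_le_pi_norm v i) 2
  unfold nsq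
  rw [Fin.sum_univ_three]
  linarith [h 0, h 1, h 2]

theorem b2_convex {a b : ℝ} (ha : 0 ≤ a) (hb : 0 ≤ b) (hab : a + b = 1) (v w : V) :
    nsq (a • v + b • w) ≤ a * nsq v + b * nsq w := by
  unfold nsq
  rw [Finset.mul_sum, Finset.mul_sum, ← Finset.sum_add_distrib]
  refine Finset.sum_le_sum fun i _ => ?_
  rw [Pi.add_apply, Pi.smul_apply, Pi.smul_apply, Complex.real_smul, Complex.real_smul]
  have hb' : b = 1 - a := by linarith
  subst hb'
  simp only [Complex.normSq_apply, Complex.add_re, Complex.add_im, Complex.mul_re, Complex.mul_im,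
    Complex.ofReal_re, Complex.ofReal_im, zero_mul, sub_zero, add_zero]
  nlinarith [mul_nonneg (mul_nonneg ha hb) (sq_nonneg ((v i).re - (w i).re)),
    mul_nonneg (mul_nonneg ha hb) (sq_nonneg ((v i).im - (w i).im))]

/-- The balls are convex. Proof. Expand, or: `nsq v = (‖toLp 2 v‖)^2` (the Euclidean norm) and
`convex_ball`; or write the set as intersection: direct computation
`nsq (a • v + b • w) ≤ a nsq v + b nsq w` for `a, b ≥ 0, a + b = 1` (coordinatewise convexity of
`Complex.normSq`). -/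
theorem convex_nsq_lt (R : ℝ) : Convex ℝ {v : V | nsq v < R} := by
  intro v hv w hw a b ha hb hab
  rcases ha.eq_or_lt with h0 | h0
  · have hb1 : b = 1 := by linarith
    subst hb1
    rw [← h0, zero_smul, one_smul, zero_add]
    exact hw
  · have h1 := b2_convex ha hb hab v w
    have h2 : a * nsq v < a * R := mul_lt_mul_of_pos_left hv h0
    have h3 : b * nsq w ≤ b * R := mul_le_mul_of_nonneg_left (le_of_lt hw) hb
    show nsq (a • v + b • w) < R
    calc nsq (a • v + b • w) ≤ a * nsq v + b * nsq w := h1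
      _ < a * R + b * R := add_lt_add_of_lt_of_le h2 h3
      _ = R := by rw [← add_mul, hab, one_mul]

theorem convex_nsq_le (R : ℝ) : Convex ℝ {v : V | nsq v ≤ R} := by
  intro v hv w hw a b ha hb hab
  have h1 := b2_convex ha hb hab v w
  have h2 : a * nsq v ≤ a * R := mul_le_mul_of_nonneg_left hv ha
  have h3 : b * nsq w ≤ b * R := mul_le_mul_of_nonneg_left hw hb
  show nsq (a • v + b • w) ≤ R
  calc nsq (a • v + b • w) ≤ a * nsq v + b * nsq w := h1
    _ ≤ a * R + b * R := add_le_add h2 h3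
    _ = R := by rw [← add_mul, hab, one_mul]

theorem isCompact_nsq_le (R : ℝ) : IsCompact {v : V | nsq v ≤ R} := by
  refine Metric.isCompact_of_isClosed_isBounded (isClosed_le continuous_nsq continuous_const) ?_
  refine (Metric.isBounded_closedBall (x := (0 : V)) (r := Real.sqrt R)).subset fun v hv => ?_
  rw [mem_closedBall_zero_iff]
  exact Real.le_sqrt_of_sq_le ((norm_sq_le_nsq v).trans hv)

/-- Cauchy-Schwarz for the bilinear product. Proof. Cauchy-Schwarz
(`Finset.sum_mul_sq_le_sq_mul_sq`/`inner_mul_le_norm_mul_norm`) for `star w` and `z`. -/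
theorem normSq_dot_le (w z : V) : Complex.normSq (w ⬝ᵥ z) ≤ nsq w * nsq z := by
  have h1 : ‖w ⬝ᵥ z‖ ≤ ∑ i, ‖w i‖ * ‖z i‖ := by
    unfold dotProduct
    refine (norm_sum_le _ _).trans (Finset.sum_le_sum fun i _ => ?_)
    rw [norm_mul]
  have h2 : (∑ i, ‖w i‖ * ‖z i‖) ^ 2 ≤ (∑ i, ‖w i‖ ^ 2) * ∑ i, ‖z i‖ ^ 2 :=
    Finset.sum_mul_sq_le_sq_mul_sq _ _ _
  have h3 : ∀ v : V, ∑ i, ‖v i‖ ^ 2 = nsq v := fun v => by
    unfold nsq
    exact Finset.sum_congr rfl fun i _ => (Complex.normSq_eq_norm_sq _).symm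
  rw [h3, h3] at h2
  rw [Complex.normSq_eq_norm_sq]
  exact (pow_le_pow_left₀ (norm_nonneg _) h1 2).trans h2

/-- `w ⬝ᵥ star w = nsq w`. -/
theorem dot_star_self (w : V) : w ⬝ᵥ star w = (nsq w : ℂ) := by
  unfold dotProduct nsq
  push_cast
  refine Finset.sum_congr rfl fun i _ => ?_
  rw [Pi.star_apply]
  exact Complex.mul_conj _

theorem b2_iso {n0 n1 n2 u0 u1 u2 : ℂ} (h0 : n0 ≠ 0) (hnn : n0 * n0 + n1 * n1 + n2 * n2 = 0)
    (huu : u0 * u0 + u1 * u1 + u2 * u2 = 0) (hun : u0 * n0 + u1 * n1 + u2 * n2 = 0) :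
    u1 = u0 / n0 * n1 ∧ u2 = u0 / n0 * n2 := by
  have e1 : (n0 * u1 - n1 * u0) ^ 2 + (n0 * u2 - n2 * u0) ^ 2 = 0 := by
    linear_combination n0 ^ 2 * huu + u0 ^ 2 * hnn - 2 * n0 * u0 * hun
  have e2 : (n0 * u1 - n1 * u0) * n1 + (n0 * u2 - n2 * u0) * n2 = 0 := by
    linear_combination n0 * hun - u0 * hnn
  have e3 : ((n0 * u1 - n1 * u0) * n0) ^ 2 = 0 := by
    linear_combination (n0 * u1 - n1 * u0) ^ 2 * hnn - n2 ^ 2 * e1 -
      ((n0 * u1 - n1 * u0) * n1 - (n0 * u2 - n2 * u0) * n2) * e2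
  have e4 : n0 * u1 - n1 * u0 = 0 := by
    have := (pow_eq_zero_iff two_ne_zero).1 e3
    exact (mul_eq_zero.1 this).resolve_right h0
  have e5 : n0 * u2 - n2 * u0 = 0 := by
    rw [e4, zero_pow two_ne_zero, zero_add] at e1
    exact (pow_eq_zero_iff two_ne_zero).1 e1
  constructor
  · field_simp
    linear_combination e4
  · field_simp
    linear_combination e5

/-- In `ℂ³`, an isotropic vector orthogonal to a nonzero isotropic vector is parallel to it.

Proof. Let `n ≠ 0`, `n·n = 0`, `u·u = 0`, `u·n = 0`. Consider the cross product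
`w = n ×₃ u`. The identity `|n × u|² = (n·n)(u·u) - (n·u)²` gives `w·w = 0`, and
`n × (n × u) = n (n·u) - u (n·n) = 0`, similarly `u × w = 0`. If `w ≠ 0` then `n = α w`, `u = β w`
(from `n × w = 0` with `w ≠ 0`), so `w = n × u = 0`, contradiction. So `n × u = 0` and, as
`n ≠ 0`, `u = κ n`.
More elementary: `n·n = 0` and `n ≠ 0`: some coordinate of `n` is nonzero, say `n₀ ≠ 0` (the
other cases are symmetric). Put `v = u - (u₀/n₀) n`; then `v₀ = 0`, `v·v = 0`, `v·n = 0`. So
`v₁² + v₂² = 0` and `v₁ n₁ + v₂ n₂ = 0`. From the first `v₂ = ± i v₁`; then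
`v₁ (n₁ ± i n₂) = 0`. If `v₁ ≠ 0`: `n₁ = ∓ i n₂`, so `n₁² + n₂² = 0`, so `n₀² = 0`,
contradiction. So `v = 0`. -/
theorem isotropic_parallel {n u : V} (hn : n ≠ 0) (hnn : n ⬝ᵥ n = 0) (huu : u ⬝ᵥ u = 0)
    (hun : u ⬝ᵥ n = 0) : ∃ κ : ℂ, u = κ • n := by
  have f1 : n 0 * n 0 + n 1 * n 1 + n 2 * n 2 = 0 := by
    rw [← hnn, dotProduct, Fin.sum_univ_three]
  have f2 : u 0 * u 0 + u 1 * u 1 + u 2 * u 2 = 0 := by
    rw [← huu, dotProduct, Fin.sum_univ_three]
  have f3 : u 0 * n 0 + u 1 * n 1 + u 2 * n 2 = 0 := by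
    rw [← hun, dotProduct, Fin.sum_univ_three]
  by_cases h0 : n 0 = 0
  · by_cases h1 : n 1 = 0
    · have h2 : n 2 ≠ 0 := by
        intro h2
        apply hn
        funext i
        fin_cases i
        · exact h0
        · exact h1
        · exact h2
      obtain ⟨g1, g2⟩ := b2_iso (n0 := n 2) (n1 := n 0) (n2 := n 1) (u0 := u 2) (u1 := u 0)
        (u2 := u 1) h2 (by linear_combination f1) (by linear_combination f2)
        (by linear_combination f3)
      refine ⟨u 2 / n 2, ?_⟩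
      funext i
      fin_cases i
      · exact g1
      · exact g2
      · exact (div_mul_cancel₀ _ h2).symm
    · obtain ⟨g1, g2⟩ := b2_iso (n0 := n 1) (n1 := n 0) (n2 := n 2) (u0 := u 1) (u1 := u 0)
        (u2 := u 2) h1 (by linear_combination f1) (by linear_combination f2)
        (by linear_combination f3)
      refine ⟨u 1 / n 1, ?_⟩
      funext i
      fin_cases i
      · exact g1
      · exact (div_mul_cancel₀ _ h1).symm
      · exact g2
  · obtain ⟨g1, g2⟩ := b2_iso h0 f1 f2 f3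
    refine ⟨u 0 / n 0, ?_⟩
    funext i
    fin_cases i
    · exact (div_mul_cancel₀ _ h0).symm
    · exact g1
    · exact g2

theorem b2_mulVec_le (B : Mat) (v : V) :
    nsq (B *ᵥ v) ≤ (∑ i, ∑ j, Complex.normSq (B i j)) * nsq v := by
  unfold nsq
  rw [Finset.sum_mul]
  refine Finset.sum_le_sum fun i _ => ?_
  exact normSq_dot_le (fun j => B i j) v

/-- The sets of matrices of top data: a bound for `μ` by the matrix.

Proof. `grow` for `u = star n`: `μ * 1 ≤ nsq (B *ᵥ star n)`, and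
`nsq (B *ᵥ v) ≤ (∑ i, ∑ j, normSq (B i j)) * nsq v` (Cauchy-Schwarz for each row), with
`nsq (star n) = nsq n = 1`. -/
theorem Top.le_bound {B : Mat} {μ : ℝ} {n : V} (h : Top B μ n) :
    μ ≤ ∑ i, ∑ j, Complex.normSq (B i j) := by
  have h1 := h.grow (star n)
  have h2 := b2_mulVec_le B (star n)
  have h3 : nsq (star n) = 1 := by
    rw [← h.nsq_n]
    unfold nsq
    refine Finset.sum_congr rfl fun i _ => ?_
    rw [Pi.star_apply]
    exact Complex.normSq_conj _
  have h4 : star n ⬝ᵥ n = 1 := by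
    rw [dotProduct_comm, dot_star_self, h.nsq_n, Complex.ofReal_one]
  rw [h4, map_one, mul_one] at h1
  rw [h3, mul_one] at h2
  exact h1.trans h2

end HRF
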