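import Pool.Agent.HRF.A4
import Pool.Agent.HRF.A5
import Pool.Agent.HRF.B1
import Pool.Agent.HRF.B2

/-!
# HRF-C1 : slab sequences exist at singular boundary points
-/

namespace HRF

open Set Filter Topology Matrix

variable {Γ E : Type*} [Group Γ] [TopologicalSpace E] [MulAction Γ E] [T2Space E]

/-- Inverse of the holonomy. Proof. `L γ⁻¹ * L γ = L 1 = 1` and `(L γ)ᵀ * L γ = 1`. -/
theorem Dev.L_inv (S : Dev Γ E) (γ : Γ) : S.L γ⁻¹ = (S.L γ)ᵀ := by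
  have h1 : S.L γ * S.L γ⁻¹ = 1 := by rw [← S.L_mul, mul_inv_cancel, S.L_one]
  calc S.L γ⁻¹ = ((S.L γ)ᵀ * S.L γ) * S.L γ⁻¹ := by rw [S.orth, one_mul]
    _ = (S.L γ)ᵀ := by rw [mul_assoc, h1, mul_one]

/-- Star domains are equivariant (both directions).

Proof. `ext_equiv` for `T = (γ • ·)` gives `→`; the converse from `γ⁻¹`
(`L γ⁻¹ *ᵥ (L γ *ᵥ v) = v`, `γ⁻¹ • γ • x = x`). -/
theorem Dev.mem_star_smul (S : Dev Γ E) (γ : Γ) (x : E) (v : V) :
    S.L γ *ᵥ v ∈ Star S.D (γ • x) ↔ v ∈ Star S.D x := by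
  constructor
  · intro h
    have h2 := (ext_equiv S.hD (T := fun x => γ⁻¹ • x) (S.cont γ⁻¹) (L := S.L γ⁻¹) (b := S.b γ⁻¹)
      (fun x => S.equiv γ⁻¹ x) h).1
    have h3 : S.L γ⁻¹ *ᵥ (S.L γ *ᵥ v) = v := by
      rw [Matrix.mulVec_mulVec, ← S.L_mul, inv_mul_cancel, S.L_one, Matrix.one_mulVec]
    rw [h3] at h2
    simpa using h2
  · intro h
    exact (ext_equiv S.hD (T := fun x => γ • x) (S.cont γ) (L := S.L γ) (b := S.b γ)
      (fun x => S.equiv γ x) h).1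

theorem Dev.ext_smul (S : Dev Γ E) (γ : Γ) (x : E) {v : V} (hv : v ∈ Star S.D x) :
    ext S.D (γ • x) (S.L γ *ᵥ v) = γ • ext S.D x v := by
  exact (ext_equiv S.hD (T := fun x => γ • x) (S.cont γ) (L := S.L γ) (b := S.b γ)
      (fun x => S.equiv γ x) hv).2

/-- The slab at `x`: if `γ • x ∈ K` and `r` is a uniform radius on `K`, then
`{v | nsq (L γ v) < r²} ⊆ Star x`. Proof. `Dev.mem_star_smul` and the uniform radius. -/
theorem Dev.slab_subset (S : Dev Γ E) {r : ℝ}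
    (hr : ∀ y ∈ S.K, ∀ v : V, nsq v < r ^ 2 → v ∈ Star S.D y) {γ : Γ} {x : E}
    (hx : γ • x ∈ S.K) {v : V} (hv : nsq (S.L γ *ᵥ v) < r ^ 2) : v ∈ Star S.D x :=
  (S.mem_star_smul γ x v).1 (hr _ hx _ hv)

theorem c1_ray {C : Set V} (hC : Convex ℝ C) (hCo : IsOpen C)
    (h0 : (0 : V) ∈ C) {p : V} (hp : p ∈ closure C) {t : ℝ} (ht : t ∈ Ico (0:ℝ) 1) : t • p ∈ C := by
  have h1 : (0 : V) ∈ interior C := by rwa [hCo.interior_eq]
  have h2 := hC.combo_interior_closure_mem_interior h1 hp (a := 1 - t) (b := t)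
    (by linarith [ht.2]) ht.1 (by ring)
  rw [smul_zero, zero_add, hCo.interior_eq] at h2
  exact h2

/-- Unboundedness of the holonomies along a sequence going to a singular point.

Let `C ⊆ Star x` be convex, open, `0 ∈ C`, `p ∈ closure C`, `p ∉ Star x`, `q k ∈ C`, `q k → p`,
`γ k • ext x (q k) ∈ K`. Then for every `M`, eventually `L (γ k)` is not bounded by `M`.

Proof. Let `r` be a uniform radius for `S.K` (`uniform_radius`). Suppose for infinitely many `k`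
`nsq (L (γ k) v) ≤ M nsq v` for all `v`; we may enlarge `M` to `M ≥ 1`. Let
`C₂ = {v | nsq v < r² / M}`, convex (`convex_nsq_lt`), open. For such `k`,
`C₂ ⊆ Star (ext x (q k))` by `Dev.slab_subset`. As `q k → p`, for such `k` large enough
`p - q k ∈ C₂`. For `t ∈ [0,1)`, `t • p ∈ C`: `C` is open convex, `0 ∈ C = interior C`,
`p ∈ closure C` (`Convex.combo_interior_closure_mem_interior` with `0` and `p`). Then `glue`
(with `C₁ = C`, `q = q k`) gives `p ∈ Star x`, contradiction. -/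
theorem unbounded (S : Dev Γ E) {x : E} {C : Set V} (hC : Convex ℝ C) (hCo : IsOpen C)
    (h0 : (0 : V) ∈ C) (hCS : C ⊆ Star S.D x) {p : V} (hp : p ∈ closure C)
    (hpS : p ∉ Star S.D x) {q : ℕ → V} (hq : ∀ k, q k ∈ C) (hqp : Tendsto q atTop (𝓝 p))
    {γ : ℕ → Γ} (hγ : ∀ k, γ k • ext S.D x (q k) ∈ S.K) (M : ℝ) :
    ∀ᶠ k in atTop, ¬ ∀ v : V, nsq (S.L (γ k) *ᵥ v) ≤ M * nsq v := by
  obtain ⟨r, hr0, hr⟩ := uniform_radius S.hD S.hK
  set M' := max M 1 with hM'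
  have hM1 : 0 < M' := lt_of_lt_of_le one_pos (le_max_right _ _)
  set C₂ : Set V := {v | nsq v < r ^ 2 / M'} with hC₂
  have hC₂c : Convex ℝ C₂ := convex_nsq_lt _
  have hC₂o : IsOpen C₂ := isOpen_lt continuous_nsq continuous_const
  have h0C : (0 : V) ∈ C₂ := by
    show nsq (0 : V) < r ^ 2 / M'
    rw [nsq_eq_zero.2 rfl]
    positivity
  have hev : ∀ᶠ k in atTop, p - q k ∈ C₂ := by
    have h1 : Tendsto (fun k => p - q k) atTop (𝓝 (p - p)) := tendsto_const_nhds.sub hqp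
    rw [sub_self] at h1
    exact h1 (hC₂o.mem_nhds h0C)
  filter_upwards [hev] with k hk hb
  apply hpS
  refine (glue S.hD hC hCS hC₂c hC₂o (hq k) ?_ (fun t ht => c1_ray hC hCo h0 hp ht) hk).1
  intro v hv
  refine S.slab_subset hr (hγ k) ?_
  have hv' : nsq v < r ^ 2 / M' := hv
  rw [lt_div_iff₀ hM1] at hv'
  calc nsq (S.L (γ k) *ᵥ v) ≤ M * nsq v := hb v
    _ ≤ M' * nsq v := mul_le_mul_of_nonneg_right (le_max_left _ _) (nsq_nonneg v)
    _ < r ^ 2 := by rw [mul_comm]; exact hv'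

/-- Existence of slab sequences.

Proof. `q⁰ k = (1 - 1/(k+1)) • p ∈ C` (as in `unbounded`), `γ⁰ k` from `S.cover`. By `unbounded`,
for every `j` there is `k_j` (increasing in `j`) such that `L (γ⁰ k_j)` is not bounded by `j + 1`;
`exists_top` gives `μ j > j + 1` and `ν j`. The `ν j` are in the compact set `{nsq ≤ 1}`: pass to a
subsequence converging to some `n`. -/
theorem slab_exists (S : Dev Γ E) {x : E} {C : Set V} (hC : Convex ℝ C) (hCo : IsOpen C)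
    (h0 : (0 : V) ∈ C) (hCS : C ⊆ Star S.D x) {p : V} (hp : p ∈ closure C)
    (hpS : p ∉ Star S.D x) :
    ∃ (q : ℕ → V) (γ : ℕ → Γ) (μ : ℕ → ℝ) (ν : ℕ → V) (n : V),
      (∀ k, q k ∈ C) ∧ SlabSeq S x q γ μ ν p n := by
  set q : ℕ → V := fun k => (1 - 1 / ((k : ℝ) + 1)) • p with hq
  have hqC : ∀ k, q k ∈ C := by
    intro k
    apply c1_ray hC hCo h0 hp
    have hk : (0 : ℝ) < (k : ℝ) + 1 := by positivity
    constructor
    · rw [sub_nonneg, div_le_one hk]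
      linarith [(Nat.cast_nonneg k : (0 : ℝ) ≤ k)]
    · have : 0 < 1 / ((k : ℝ) + 1) := by positivity
      linarith
  have hqp : Tendsto q atTop (𝓝 p) := by
    have h1 : Tendsto (fun k : ℕ => (1 : ℝ) - 1 / ((k : ℝ) + 1)) atTop (𝓝 (1 - 0)) :=
      tendsto_const_nhds.sub tendsto_one_div_add_atTop_nhds_zero_nat
    have h2 := h1.smul_const p
    rw [sub_zero, one_smul] at h2
    exact h2
  choose γ hγ using fun k => S.cover (ext S.D x (q k))
  have hub := unbounded S hC hCo h0 hCS hp hpS hqC hqp hγ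
  -- a strictly increasing sequence of indices
  have hex : ∀ (j : ℕ) (N : ℕ), ∃ k > N, ∃ (μ : ℝ) (n : V), (j : ℝ) + 1 < μ ∧ Top (S.L (γ k)) μ n := by
    intro j N
    obtain ⟨k, hk1, hk2⟩ := ((hub ((j : ℝ) + 1)).and (eventually_gt_atTop N)).exists
    obtain ⟨μ, n, h1, h2⟩ := exists_top (S.orth (γ k)) (M := (j : ℝ) + 1)
      (by linarith [(Nat.cast_nonneg j : (0 : ℝ) ≤ j)]) hk1
    exact ⟨k, hk2, μ, n, h1, h2⟩
  obtain ⟨φ, hφ, hφ2⟩ := Filter.extraction_forall_of_frequently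
    (P := fun j k => ∃ (μ : ℝ) (n : V), (j : ℝ) + 1 < μ ∧ Top (S.L (γ k)) μ n) (by
      intro j
      rw [Filter.frequently_atTop]
      intro N
      obtain ⟨k, hk, h⟩ := hex j N
      exact ⟨k, hk.le, h⟩)
  choose μ ν hμ hν using hφ2
  have hK : IsCompact {v : V | nsq v ≤ 1} := isCompact_nsq_le 1
  obtain ⟨n, -, ψ, hψ, hψn⟩ := hK.tendsto_subseq (x := ν) (fun k => (hν k).nsq_n.le)
  refine ⟨q ∘ φ ∘ ψ, γ ∘ φ ∘ ψ, μ ∘ ψ, ν ∘ ψ, n, fun k => hqC _, ?_⟩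
  refine ⟨fun k => hCS (hqC _), fun k => hγ _, fun k => hν _, ?_, ?_, hψn⟩
  · refine Tendsto.comp ?_ hψ.tendsto_atTop
    refine tendsto_atTop_mono (fun k => (hμ k).le) ?_
    exact tendsto_atTop_add_const_right _ _ tendsto_natCast_atTop_atTop
  · exact (hqp.comp hφ.tendsto_atTop).comp hψ.tendsto_atTop

/-- A subsequence of a slab sequence is a slab sequence. -/
theorem SlabSeq.comp {S : Dev Γ E} {x : E} {q : ℕ → V} {γ : ℕ → Γ} {μ : ℕ → ℝ} {ν : ℕ → V}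
    {p n : V} (h : SlabSeq S x q γ μ ν p n) {φ : ℕ → ℕ} (hφ : StrictMono φ) :
    SlabSeq S x (q ∘ φ) (γ ∘ φ) (μ ∘ φ) (ν ∘ φ) p n :=
  ⟨fun k => h.mem _, fun k => h.inK _, fun k => h.top _, h.tends_μ.comp hφ.tendsto_atTop,
    h.tends_q.comp hφ.tendsto_atTop, h.tends_ν.comp hφ.tendsto_atTop⟩

/-- The limit direction is a unit isotropic vector. Proof. Limits of `nsq (ν k) = 1`,
`ν k ⬝ᵥ ν k = 0`. -/
theorem SlabSeq.lim {S : Dev Γ E} {x : E} {q : ℕ → V} {γ : ℕ → Γ} {μ : ℕ → ℝ} {ν : ℕ → V}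
    {p n : V} (h : SlabSeq S x q γ μ ν p n) : nsq n = 1 ∧ n ⬝ᵥ n = 0 ∧ n ≠ 0 := by
  have h1 : nsq n = 1 := by
    have h2 : Tendsto (fun k => nsq (ν k)) atTop (𝓝 (nsq n)) :=
      (continuous_nsq.tendsto n).comp h.tends_ν
    have h3 : (fun k => nsq (ν k)) = fun _ => (1 : ℝ) := funext fun k => (h.top k).nsq_n
    rw [h3] at h2
    exact tendsto_nhds_unique h2 tendsto_const_nhds |>.symm ▸ rfl
  have h4 : n ⬝ᵥ n = 0 := by
    have hc : Continuous fun v : V => v ⬝ᵥ v := by fun_prop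
    have h2 : Tendsto (fun k => ν k ⬝ᵥ ν k) atTop (𝓝 (n ⬝ᵥ n)) :=
      (hc.tendsto n).comp h.tends_ν
    have h3 : (fun k => ν k ⬝ᵥ ν k) = fun _ => (0 : ℂ) := funext fun k => (h.top k).iso
    rw [h3] at h2
    exact tendsto_nhds_unique h2 tendsto_const_nhds
  refine ⟨h1, h4, ?_⟩
  rintro rfl
  rw [nsq_eq_zero.2 rfl] at h1
  exact zero_ne_one h1

end HRF
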