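import Pool.Agent.HRF.C1

/-!
# HRF-C2 : the slab escape lemma
-/

namespace HRF

open Set Filter Topology Matrix

variable {Γ E : Type*} [Group Γ] [TopologicalSpace E] [MulAction Γ E] [T2Space E]

/-- One step: a path `z` in `Star x` starting at `q` and staying in the slab
`q + {v | n·v = 0, |v| ≤ r'}` ends at a point whose `γ`-image is in the compact set
`K_{r'} = {ext y v | y ∈ K, |v| ≤ r'}`.

Proof. Let `y = ext x q`, `B = L γ`, `w t = B (z t - q)`. By `Top.contr`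
`nsq (w t) ≤ nsq (z t - q) ≤ r'^2`. So `w t ∈ Star (γ • y)` (as `γ • y ∈ K`), and
`c₂ t = γ⁻¹ • ext (γ • y) (w t)` is a continuous path (on `[0,1]`; `continuousOn_ext_right`,
`S.cont`) with `D (c₂ t) = L γ⁻¹ (D (γ • y) + w t) + b γ⁻¹ = D y + (z t - q) = D x + z t`
(by `Dev.ext_smul`/`ext_equiv` for `γ⁻¹`: `c₂ t = ext y (z t - q)`, since
`L γ⁻¹ (w t) = z t - q`; this is the cleanest). The path `c₁ t = ext x (z t)` is continuous
with the same `D`, and both start at `y` (`z 0 = q`; `c₂ 0 = ext y 0 = y`). By `lift_unique`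
`c₁ 1 = c₂ 1`, i.e. `γ • ext x (z 1) = ext (γ • y) (w 1)`. -/
theorem slab_step (S : Dev Γ E) {r' : ℝ}
    (hr' : ∀ y ∈ S.K, ∀ v : V, nsq v ≤ r' ^ 2 → v ∈ Star S.D y) {x : E} {q : V}
    (hq : q ∈ Star S.D x) {γ : Γ} (hγ : γ • ext S.D x q ∈ S.K) {μ : ℝ} {ν : V}
    (hT : Top (S.L γ) μ ν) {z : ℝ → V} (hz0 : z 0 = q) (hzc : ContinuousOn z (Icc 0 1))
    (hzS : ∀ t ∈ Icc (0:ℝ) 1, z t ∈ Star S.D x)
    (hzn : ∀ t ∈ Icc (0:ℝ) 1, ν ⬝ᵥ (z t - q) = 0)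
    (hzr : ∀ t ∈ Icc (0:ℝ) 1, nsq (z t - q) ≤ r' ^ 2) :
    ∃ y ∈ S.K, ∃ v : V, nsq v ≤ r' ^ 2 ∧ γ • ext S.D x (z 1) = ext S.D y v := by
  have hD := S.hD
  have hy : ∀ t ∈ Icc (0:ℝ) 1, z t - q ∈ Star S.D (ext S.D x q) := by
    intro t ht
    have h1 : nsq (S.L γ *ᵥ (z t - q)) ≤ r' ^ 2 := (hT.contr _ (hzn t ht)).trans (hzr t ht)
    exact (S.mem_star_smul γ _ _).1 (hr' _ hγ _ h1)
  have hc1 : ContinuousOn (fun t => ext S.D x (z t)) (Icc 0 1) :=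
    (continuousOn_ext_right hD x).comp hzc hzS
  have hc2 : ContinuousOn (fun t => ext S.D (ext S.D x q) (z t - q)) (Icc 0 1) :=
    (continuousOn_ext_right hD _).comp (hzc.sub continuousOn_const) hy
  have h01 : (0:ℝ) ∈ Icc (0:ℝ) 1 := ⟨le_rfl, zero_le_one⟩
  have h11 : (1:ℝ) ∈ Icc (0:ℝ) 1 := ⟨zero_le_one, le_rfl⟩
  have heq := lift_unique hD (isPreconnected_Icc (a := (0:ℝ)) (b := 1)) hc1 hc2 (fun t ht => by
    rw [D_ext (hzS t ht), D_ext (hy t ht), D_ext hq]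
    abel) h01 (by
      simp only [hz0, sub_self]
      exact (ext_zero hD).symm) 1 h11
  refine ⟨_, hγ, S.L γ *ᵥ (z 1 - q), (hT.contr _ (hzn 1 h11)).trans (hzr 1 h11), ?_⟩
  rw [S.ext_smul γ _ (hy 1 h11)]
  exact congrArg (fun e => γ • e) heq

/-- Slab escape: impossible to have, for all `k`, paths `z k` in `Star x` from `q k` inside the
slabs, whose end points converge to a point of `Star x`.

Proof. By `slab_step`, `γ k • e k ∈ K_{r'}` with `e k = ext x (z k 1) → e = ext x w`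
(continuity of `ext x` at `w ∈ Star x`, which is open). The set
`C = K_{r'} ∪ {e k | k} ∪ {e}` is compact (`isCompact_ball_ext`,
`Tendsto.isCompact_insert_range`). All `γ k` are in the finite set
`F = {γ | ∃ x ∈ C, γ • x ∈ C}` (`S.pd`). So `μ k ≤ ∑ |L (γ k) i j|² ≤` a constant
(`Top.le_bound`, finite set), contradicting `μ k → ∞`. -/
theorem slab_escape (S : Dev Γ E) {r' : ℝ}
    (hr' : ∀ y ∈ S.K, ∀ v : V, nsq v ≤ r' ^ 2 → v ∈ Star S.D y) {x : E} {q : ℕ → V}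
    {γ : ℕ → Γ} {μ : ℕ → ℝ} {ν : ℕ → V} {p n : V} (h : SlabSeq S x q γ μ ν p n)
    {z : ℕ → ℝ → V} (hz0 : ∀ k, z k 0 = q k) (hzc : ∀ k, ContinuousOn (z k) (Icc 0 1))
    (hzS : ∀ k, ∀ t ∈ Icc (0:ℝ) 1, z k t ∈ Star S.D x)
    (hzn : ∀ k, ∀ t ∈ Icc (0:ℝ) 1, ν k ⬝ᵥ (z k t - q k) = 0)
    (hzr : ∀ k, ∀ t ∈ Icc (0:ℝ) 1, nsq (z k t - q k) ≤ r' ^ 2) {w : V} (hw : w ∈ Star S.D x)
    (hzw : Tendsto (fun k => z k 1) atTop (𝓝 w)) : False := by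
  have hD := S.hD
  have hstep := fun k => slab_step S hr' (h.mem k) (h.inK k) (h.top k) (hz0 k) (hzc k) (hzS k)
    (hzn k) (hzr k)
  have hcont : ContinuousAt (ext S.D x) w :=
    (continuousOn_ext_right hD x).continuousAt ((isOpen_Star hD x).mem_nhds hw)
  have hlim : Tendsto (fun k => ext S.D x (z k 1)) atTop (𝓝 (ext S.D x w)) := hcont.tendsto.comp hzw
  have hC1 := isCompact_ball_ext hD S.hK hr'
  have hC2 := hlim.isCompact_insert_range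
  have hC := hC1.union hC2
  have hfin := S.pd _ hC
  have hmem : ∀ k, γ k ∈ {g : Γ | ∃ e ∈ ({e : E | ∃ y ∈ S.K, ∃ v : V, nsq v ≤ r' ^ 2 ∧
      e = ext S.D y v} ∪ insert (ext S.D x w) (Set.range fun k => ext S.D x (z k 1))),
      g • e ∈ ({e : E | ∃ y ∈ S.K, ∃ v : V, nsq v ≤ r' ^ 2 ∧ e = ext S.D y v} ∪
        insert (ext S.D x w) (Set.range fun k => ext S.D x (z k 1)))} := by
    intro k
    obtain ⟨y, hy, v, hv, he⟩ := hstep k
    exact ⟨ext S.D x (z k 1), Or.inr (Or.inr ⟨k, rfl⟩), Or.inl ⟨y, hy, v, hv, he⟩⟩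
  obtain ⟨M, hM⟩ := (hfin.image fun g => ∑ i, ∑ j, Complex.normSq (S.L g i j)).bddAbove
  have hle : ∀ k, μ k ≤ M := fun k =>
    (h.top k).le_bound.trans (hM (Set.mem_image_of_mem _ (hmem k)))
  obtain ⟨k, hk⟩ := (h.tends_μ.eventually (eventually_gt_atTop M)).exists
  exact absurd (hle k) (not_le.2 hk)

/-- The same with (for infinitely many `k`). Proof. Extract a subsequence
(`Filter.extraction_of_frequently_atTop`), `SlabSeq.comp`. -/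
theorem slab_escape_freq (S : Dev Γ E) {r' : ℝ}
    (hr' : ∀ y ∈ S.K, ∀ v : V, nsq v ≤ r' ^ 2 → v ∈ Star S.D y) {x : E} {q : ℕ → V}
    {γ : ℕ → Γ} {μ : ℕ → ℝ} {ν : ℕ → V} {p n : V} (h : SlabSeq S x q γ μ ν p n)
    {z : ℕ → ℝ → V} {w : V} (hw : w ∈ Star S.D x)
    (hz : ∃ᶠ k in atTop, z k 0 = q k ∧ ContinuousOn (z k) (Icc 0 1) ∧
      (∀ t ∈ Icc (0:ℝ) 1, z k t ∈ Star S.D x) ∧
      (∀ t ∈ Icc (0:ℝ) 1, ν k ⬝ᵥ (z k t - q k) = 0) ∧
      (∀ t ∈ Icc (0:ℝ) 1, nsq (z k t - q k) ≤ r' ^ 2))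
    (hzw : Tendsto (fun k => z k 1) atTop (𝓝 w)) : False := by
  obtain ⟨φ, hφ, hP⟩ := Filter.extraction_of_frequently_atTop hz
  exact slab_escape S hr' (h.comp hφ) (z := fun k => z (φ k)) (fun k => (hP k).1)
    (fun k => (hP k).2.1) (fun k => (hP k).2.2.1) (fun k => (hP k).2.2.2.1)
    (fun k => (hP k).2.2.2.2) hw (hzw.comp hφ.tendsto_atTop)

end HRF
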