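import Pool.Agent.HRF.D1

/-!
# HRF-D2 : boundedness and closedness
-/

namespace HRF

open Set Filter Topology Matrix

/-- Bound for the points of an ellipsoid. Proof. Take `w = Pi.single i 1` in the definition:
`|z_i|² ≤ T_ii + 2 Re (z_i conj y_i)`, so `|z_i - y_i|² ≤ Re T_ii + |y_i|²`, hence
`|z_i|² ≤ 2 |z_i - y_i|² + 2 |y_i|² ≤ 2 Re T_ii + 4 |y_i|²`. Sum over `i`. -/
theorem nsq_le_of_mem_cEll {c : Par} {z : V} (hz : z ∈ cEll c) :
    nsq z ≤ 2 * (∑ i, ‖c.2 i i‖) + 4 * nsq c.1 := by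
  have key : ∀ i : Fin 3, Complex.normSq (z i) ≤ 2 * ‖c.2 i i‖ + 4 * Complex.normSq (c.1 i) := by
    intro i
    have h := hz (Pi.single i 1)
    have h1 : (Pi.single i 1 : V) ⬝ᵥ z = z i := single_one_dotProduct i z
    have h2 : (Pi.single i 1 : V) ⬝ᵥ c.1 = c.1 i := single_one_dotProduct i c.1
    have h3 : qf c.2 (Pi.single i 1) = (c.2 i i).re := by
      unfold qf
      have hs : star (Pi.single i 1 : V) = Pi.single i 1 := by
        ext j
        by_cases hj : j = i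
        · subst hj; simp
        · simp [hj]
      rw [hs, single_one_dotProduct, mulVec_single_one]
      rfl
    rw [h1, h2, h3] at h
    have h4 : (c.2 i i).re ≤ ‖c.2 i i‖ := Complex.re_le_norm _
    have h5 : (z i * star (c.1 i)).re = (z i).re * (c.1 i).re + (z i).im * (c.1 i).im := by
      simp [Complex.mul_re]
    rw [h5] at h
    rw [Complex.normSq_apply] at h ⊢
    rw [Complex.normSq_apply]
    nlinarith [sq_nonneg ((z i).re - 2 * (c.1 i).re), sq_nonneg ((z i).im - 2 * (c.1 i).im)]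
  unfold nsq
  rw [Finset.mul_sum, Finset.mul_sum, ← Finset.sum_add_distrib]
  exact Finset.sum_le_sum fun i _ => key i

/-- The closed ellipsoid relation is closed. Proof. Intersection over `w` of closed conditions,
continuous in `(c, z)`. -/
theorem isClosed_cEll : IsClosed {q : Par × V | q.2 ∈ cEll q.1} := by
  have h : {q : Par × V | q.2 ∈ cEll q.1} = ⋂ w : V, {q : Par × V |
      Complex.normSq (w ⬝ᵥ q.2) ≤ qf q.1.2 w + 2 * ((w ⬝ᵥ q.2) * star (w ⬝ᵥ q.1.1)).re} := by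
    ext q
    simp only [mem_iInter, Set.mem_ofPred_eq]
    rfl
  rw [h]
  refine isClosed_iInter fun w => isClosed_le ?_ ?_
  · exact Complex.continuous_normSq.comp (Continuous.dotProduct continuous_const continuous_snd)
  · have h1 : Continuous fun q : Par × V => qf q.1.2 w :=
      continuous_qf.comp ((continuous_snd.comp continuous_fst).prodMk continuous_const)
    have h2 : Continuous fun q : Par × V => w ⬝ᵥ q.2 :=
      Continuous.dotProduct continuous_const continuous_snd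
    have h3 : Continuous fun q : Par × V => w ⬝ᵥ q.1.1 :=
      Continuous.dotProduct continuous_const (continuous_fst.comp continuous_fst)
    exact h1.add (continuous_const.mul (Complex.continuous_re.comp
      (h2.mul (continuous_star.comp h3))))

/-- Sequential compactness, in the form used in the convexity theorem.

Proof. `{nsq ≤ R}` is compact (`isCompact_nsq_le`) and so is `[0,1]`: apply
`IsCompact.tendsto_subseq` to the product `Icc 0 1 ×ˢ {nsq ≤ R}`; the complement of `O` is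
closed. -/
theorem exists_limit {O : Set V} (hO : IsOpen O) {t : ℕ → ℝ} (ht : ∀ j, t j ∈ Icc (0:ℝ) 1)
    {z : ℕ → V} {R : ℝ} (hz : ∀ j, nsq (z j) ≤ R) (hzO : ∀ j, z j ∉ O) :
    ∃ (φ : ℕ → ℕ) (t₀ : ℝ) (z₀ : V), StrictMono φ ∧ t₀ ∈ Icc (0:ℝ) 1 ∧
      Tendsto (t ∘ φ) atTop (𝓝 t₀) ∧ Tendsto (z ∘ φ) atTop (𝓝 z₀) ∧ z₀ ∉ O := by
  have hK : IsCompact (Icc (0:ℝ) 1 ×ˢ ({v : V | nsq v ≤ R} ∩ Oᶜ)) :=
    isCompact_Icc.prod ((isCompact_nsq_le R).inter_right hO.isClosed_compl)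
  obtain ⟨a, ha, φ, hφ, hlim⟩ := hK.tendsto_subseq (x := fun j => (t j, z j))
    (fun j => ⟨ht j, hz j, hzO j⟩)
  rw [nhds_prod_eq] at hlim
  exact ⟨φ, a.1, a.2, hφ, ha.1, tendsto_fst.comp hlim, tendsto_snd.comp hlim, ha.2.2⟩

/-- Small ellipsoids: if the parameter is small the ellipsoid is contained in a given
neighbourhood of `0`. Proof. `nsq_le_of_mem_cEll`, `Ell_subset_cEll` and `‖v‖² ≤ nsq v`. -/
theorem Ell_subset_of_small {O : Set V} (hO : O ∈ 𝓝 (0 : V)) :
    ∃ δ : ℝ, 0 < δ ∧ ∀ c : Par, nsq c.1 < δ → (∀ i, ‖c.2 i i‖ < δ) → Ell c ⊆ O := by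
  obtain ⟨ε, hε, hball⟩ := Metric.mem_nhds_iff.1 hO
  refine ⟨ε ^ 2 / 20, by positivity, fun c h1 h2 z hz => hball ?_⟩
  have h3 := nsq_le_of_mem_cEll (Ell_subset_cEll c hz)
  have h4 : ∑ i, ‖c.2 i i‖ ≤ ∑ _i : Fin 3, ε ^ 2 / 20 := Finset.sum_le_sum fun i _ => (h2 i).le
  rw [Finset.sum_const, Finset.card_univ, Fintype.card_fin, nsmul_eq_mul] at h4
  push_cast at h4
  have h5 := norm_sq_le_nsq z
  rw [mem_ball_zero_iff]
  have h6 : ‖z‖ ^ 2 < ε ^ 2 := by nlinarith [sq_pos_of_pos hε]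
  exact lt_of_pow_lt_pow_left₀ 2 hε.le h6

/-- Centred ellipsoids exhaust `V`. Proof. `Ell (s • (0, T)) = {z | |w·z|² < s qf T w}` and
`|w·z|² ≤ nsq w * nsq z`, `qf T w ≥ m nsq w` (`exists_lower`); any `s > nsq z / m` works. -/
theorem mem_Ell_centred {T : Mat} (hT : IsPar ((0 : V), T)) (z : V) :
    ∃ s₀ : ℝ, 0 < s₀ ∧ ∀ s : ℝ, s₀ < s → z ∈ Ell (s • ((0 : V), T)) := by
  obtain ⟨m, hm, hlow⟩ := exists_lower (T := T) hT.2
  have hz0 := nsq_nonneg z
  refine ⟨nsq z / m + 1, by positivity, fun s hs w hw => ?_⟩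
  have hw0 : 0 < nsq w := lt_of_le_of_ne (nsq_nonneg w) fun h => hw (nsq_eq_zero.1 h.symm)
  have h1 : (s • ((0 : V), T)).1 = 0 := by simp
  have h2 : (s • ((0 : V), T)).2 = s • T := rfl
  rw [h1, h2, dotProduct_zero, star_zero, mul_zero, Complex.zero_re, mul_zero, add_zero, qf_smul]
  have h3 := normSq_dot_le w z
  have h4 := hlow w
  have hs0 : 0 < s := lt_of_le_of_lt (by positivity) hs
  have h5 : nsq z < s * m := by
    have : nsq z / m < s := by linarith
    rwa [div_lt_iff₀ hm] at this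
  calc Complex.normSq (w ⬝ᵥ z) ≤ nsq w * nsq z := h3
    _ < nsq w * (s * m) := mul_lt_mul_of_pos_left h5 hw0
    _ = s * (m * nsq w) := by ring
    _ ≤ s * qf T w := mul_le_mul_of_nonneg_left h4 hs0.le

end HRF
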