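import Pool.Agent.HRF.D1

/-!
# HRF-D3 : ellipsoids and planes

Notation: for `c = (y, T)`, `P = PP c = T + y y^*`, so that for all covectors `w`
`w P w^* = qf T w + |w·y|²`, and `z ∈ Ell c` iff `|w·(z - y)|² < w P w^*` for all `w ≠ 0`
(expand the square). `ctr u c = y + ((1 - u·y) / (u P u^*)) P u^*`.
-/

namespace HRF

open Set Filter Topology Matrix

theorem d3_vec (a b w : V) : vecMulVec a (star b) *ᵥ star w = star (w ⬝ᵥ b) • a := by
  ext i
  simp only [mulVec, dotProduct, vecMulVec_apply, Pi.smul_apply, smul_eq_mul, Pi.star_apply,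
    star_sum, star_mul', Finset.sum_mul]
  refine Finset.sum_congr rfl fun j _ => ?_
  ring

/-- the sesquilinear form of a Hermitian matrix -/
theorem d3_herm {M : Mat} (hM : M.IsHermitian) (w u : V) :
    star (w ⬝ᵥ (M *ᵥ star u)) = u ⬝ᵥ (M *ᵥ star w) := by
  rw [← Matrix.star_dotProduct_star, star_mulVec, star_star, hM.eq, ← Matrix.dotProduct_mulVec]

theorem d3_real {M : Mat} (hM : M.IsHermitian) (w : V) :
    w ⬝ᵥ (M *ᵥ star w) = ((qf M w : ℝ) : ℂ) := by
  have h := d3_herm hM w w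
  exact (Complex.conj_eq_iff_re.1 h).symm

/-- expansion of `(w - s u) M (w - s u)^*` -/
theorem d3_expand {M : Mat} (hM : M.IsHermitian) (w u : V) (s : ℂ) :
    qf M (w - s • u) = qf M w - 2 * (star s * (w ⬝ᵥ (M *ᵥ star u))).re +
      Complex.normSq s * qf M u := by
  have h1 : (w - s • u) ⬝ᵥ (M *ᵥ star (w - s • u)) =
      w ⬝ᵥ (M *ᵥ star w) - star s * (w ⬝ᵥ (M *ᵥ star u)) - s * (u ⬝ᵥ (M *ᵥ star w)) +
        (s * star s) * (u ⬝ᵥ (M *ᵥ star u)) := by
    rw [star_sub, star_smul, Matrix.mulVec_sub, Matrix.mulVec_smul, sub_dotProduct,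
      dotProduct_sub, dotProduct_sub, dotProduct_smul, smul_dotProduct, smul_dotProduct,
      dotProduct_smul, smul_eq_mul, smul_eq_mul, smul_eq_mul, smul_eq_mul]
    ring
  have h2 : s * (u ⬝ᵥ (M *ᵥ star w)) = star (star s * (w ⬝ᵥ (M *ᵥ star u))) := by
    rw [star_mul', star_star, d3_herm hM]
  have h3 : s * star s = ((Complex.normSq s : ℝ) : ℂ) := Complex.mul_conj s
  have h4 : (star (star s * (w ⬝ᵥ (M *ᵥ star u)))).re = (star s * (w ⬝ᵥ (M *ᵥ star u))).re :=
    Complex.conj_re _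
  unfold qf
  rw [h1, h2, h3, Complex.add_re, Complex.sub_re, Complex.sub_re, h4, Complex.re_ofReal_mul]
  ring

/-- Cauchy-Schwarz for a nonnegative Hermitian form -/
theorem d3_cs {M : Mat} (hM : M.IsHermitian) (hp : ∀ w : V, 0 ≤ qf M w) (w u : V) :
    Complex.normSq (w ⬝ᵥ (M *ᵥ star u)) ≤ qf M w * qf M u := by
  set b := w ⬝ᵥ (M *ᵥ star u) with hb
  have hN := Complex.normSq_nonneg b
  have h1 : ∀ t : ℝ, 0 ≤ (Complex.normSq b * qf M u) * (t * t) + (-(2 * Complex.normSq b)) * t +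
      qf M w := by
    intro t
    have h2 := hp (w - ((t : ℂ) * b) • u)
    rw [d3_expand hM, ← hb] at h2
    have h3 : star ((t : ℂ) * b) * b = ((t * Complex.normSq b : ℝ) : ℂ) := by
      rw [star_mul', Complex.ofReal_mul, ← Complex.mul_conj]
      have h4 : star (t : ℂ) = (t : ℂ) := Complex.conj_ofReal t
      have h5 : star b = (starRingEnd ℂ) b := rfl
      rw [h4, h5]
      ring
    rw [h3, Complex.ofReal_re, Complex.normSq_mul, Complex.normSq_ofReal] at h2
    linarith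
  have h2 := discrim_le_zero h1
  unfold discrim at h2
  rcases hN.eq_or_lt with h | h
  · rw [← h]
    exact mul_nonneg (hp w) (hp u)
  · have h3 : Complex.normSq b * (Complex.normSq b - qf M w * qf M u) ≤ 0 := by nlinarith
    by_contra hcon
    push Not at hcon
    have : 0 < Complex.normSq b * (Complex.normSq b - qf M w * qf M u) :=
      mul_pos h (by linarith)
    linarith

theorem d3_PP_herm {c : Par} (hc : c.2.IsHermitian) : (PP c).IsHermitian := by
  unfold PP
  refine hc.add ?_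
  unfold Matrix.IsHermitian
  ext i j
  simp only [conjTranspose_apply, vecMulVec_apply, Pi.star_apply, star_mul', star_star]
  ring

theorem d3_qf_PP (c : Par) (w : V) : qf (PP c) w = qf c.2 w + Complex.normSq (w ⬝ᵥ c.1) := by
  unfold PP
  rw [qf_add, qf_vecMulVec]
  congr 1
  have h : (w ⬝ᵥ c.1) * star (w ⬝ᵥ c.1) = ((Complex.normSq (w ⬝ᵥ c.1) : ℝ) : ℂ) :=
    Complex.mul_conj _
  rw [h, Complex.ofReal_re]

/-- `w P w^*` is real and equals `qf T w + |w·y|²` (`T` Hermitian).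
Proof. `w ⬝ᵥ T *ᵥ star w` is real for Hermitian `T` (it equals its conjugate), and
`w ⬝ᵥ (vecMulVec y (star y)) *ᵥ star w = (w·y) * conj (w·y)`. -/
theorem dot_PP {c : Par} (hc : c.2.IsHermitian) (w : V) :
    w ⬝ᵥ (PP c *ᵥ star w) = ((qf c.2 w + Complex.normSq (w ⬝ᵥ c.1) : ℝ) : ℂ) := by
  rw [d3_real (d3_PP_herm hc), d3_qf_PP]

theorem d3_sq (w z y : V) : Complex.normSq (w ⬝ᵥ (z - y)) =
    Complex.normSq (w ⬝ᵥ z) + Complex.normSq (w ⬝ᵥ y) - 2 * ((w ⬝ᵥ z) * star (w ⬝ᵥ y)).re := by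
  rw [dotProduct_sub, Complex.normSq_sub]
  rfl

/-- Proof. Expand `|w·z - w·y|² = |w·z|² - 2 Re ((w·z) conj(w·y)) + |w·y|²`. -/
theorem mem_Ell_iff {c : Par} {z : V} : z ∈ Ell c ↔ ∀ w : V, w ≠ 0 →
    Complex.normSq (w ⬝ᵥ (z - c.1)) < qf c.2 w + Complex.normSq (w ⬝ᵥ c.1) := by
  refine forall_congr' fun w => forall_congr' fun _ => ?_
  rw [d3_sq]
  constructor <;> intro h <;> linarith

theorem mem_cEll_iff {c : Par} {z : V} : z ∈ cEll c ↔ ∀ w : V,
    Complex.normSq (w ⬝ᵥ (z - c.1)) ≤ qf c.2 w + Complex.normSq (w ⬝ᵥ c.1) := by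
  refine forall_congr' fun w => ?_
  rw [d3_sq]
  constructor <;> intro h <;> linarith

/-- A point of the ellipsoid on the plane. Proof. Take `w = u` in the definition of `Ell`:
`1 = |u·z|² < qf T u + 2 Re (1 * conj (u·y)) = φ_u(c)` (note `u ≠ 0`). -/
theorem one_lt_phi {c : Par} {u z : V} (hz : z ∈ Ell c) (huz : u ⬝ᵥ z = 1) : 1 < phi u c := by
  have hu : u ≠ 0 := by
    rintro rfl
    rw [zero_dotProduct] at huz
    exact zero_ne_one huz
  have h := hz u hu
  rw [huz, map_one, one_mul] at h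
  have h2 : (star (u ⬝ᵥ c.1)).re = (u ⬝ᵥ c.1).re := Complex.conj_re _
  rw [h2] at h
  unfold phi
  linarith

/-- Same for the closed ellipsoid. -/
theorem one_le_phi {c : Par} {u z : V} (hz : z ∈ cEll c) (huz : u ⬝ᵥ z = 1) : 1 ≤ phi u c := by
  have h := hz u
  rw [huz, map_one, one_mul] at h
  have h2 : (star (u ⬝ᵥ c.1)).re = (u ⬝ᵥ c.1).re := Complex.conj_re _
  rw [h2] at h
  unfold phi
  linarith

theorem d3_pos {c : Par} (hc : IsPar c) {u : V} (hu : u ≠ 0) : 0 < qf (PP c) u := by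
  rw [d3_qf_PP]
  have h1 := hc.2 u hu
  have h2 := Complex.normSq_nonneg (u ⬝ᵥ c.1)
  linarith

/-- The centre of the section lies on the plane. Proof. `u P u^* = qf T u + |u·y|² > 0` by `dot_PP`
and `IsPar`; so `u · ctr = u·y + (1 - u·y) = 1`. -/
theorem dot_ctr {c : Par} (hc : IsPar c) {u : V} (hu : u ≠ 0) : u ⬝ᵥ ctr u c = 1 := by
  unfold ctr
  have h1 : u ⬝ᵥ (PP c *ᵥ star u) ≠ 0 := by
    rw [d3_real (d3_PP_herm hc.1)]
    exact_mod_cast (d3_pos hc hu).ne'
  rw [dotProduct_add, dotProduct_smul, smul_eq_mul, div_mul_cancel₀ _ h1]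
  ring

theorem d3_key {c : Par} (u : V) :
    Complex.normSq (1 - u ⬝ᵥ c.1) = qf (PP c) u - (phi u c - 1) := by
  rw [Complex.normSq_sub, d3_qf_PP, map_one, one_mul]
  unfold phi
  rw [Complex.conj_re]
  ring

/-- If `φ_u(c) > 1` the centre of the section is in the open ellipsoid.

Proof. By `mem_Ell_iff` we need `|w·(ctr - y)|² < w P w^*` for `w ≠ 0`. With
`ω = 1 - u·y`, `κ = u P u^* > 0` (real): `w·(ctr - y) = (ω/κ) (w P u^*)` where
`w P u^* = w ⬝ᵥ P *ᵥ star u`. Cauchy-Schwarz for the positive definite Hermitian form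
`(w, u) ↦ w P u^*`: `|w P u^*|² ≤ (w P w^*) κ` (proof: for all complex `s`,
`(w - s u) P (w - s u)^* ≥ 0`; take `s = (w P u^*)/κ`). Hence
`|w·(ctr - y)|² ≤ (|ω|²/κ) (w P w^*)`. And `|ω|² < κ` is equivalent to `φ_u(c) > 1`:
`|ω|² = 1 - 2 Re (u·y) + |u·y|²`, `κ = qf T u + |u·y|²`, so `κ - |ω|² = φ_u(c) - 1`.
Finally `w P w^* ≥ qf T w > 0`. -/
theorem ctr_mem_Ell {c : Par} (hc : IsPar c) {u : V} (hu : u ≠ 0) (h : 1 < phi u c) :
    ctr u c ∈ Ell c := by
  rw [mem_Ell_iff]
  intro w hw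
  have hκ := d3_pos hc hu
  have hP := d3_PP_herm hc.1
  have hnn : ∀ v : V, 0 ≤ qf (PP c) v := by
    intro v
    by_cases hv : v = 0
    · subst hv
      unfold qf
      rw [zero_dotProduct]
      exact le_refl _
    · exact (d3_pos hc hv).le
  have hcs := d3_cs hP hnn w u
  rw [← d3_qf_PP]
  have e : w ⬝ᵥ (ctr u c - c.1) =
      ((1 - u ⬝ᵥ c.1) / ((qf (PP c) u : ℝ) : ℂ)) * (w ⬝ᵥ (PP c *ᵥ star u)) := by
    unfold ctr
    rw [add_sub_cancel_left, dotProduct_smul, smul_eq_mul, d3_real hP u]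
  rw [e, Complex.normSq_mul, Complex.normSq_div, Complex.normSq_ofReal, d3_key]
  set κ := qf (PP c) u
  have hw' := d3_pos hc hw
  have h1 : (κ - (phi u c - 1)) / (κ * κ) * Complex.normSq (w ⬝ᵥ (PP c *ᵥ star u)) ≤
      (κ - (phi u c - 1)) / (κ * κ) * (qf (PP c) w * κ) := by
    refine mul_le_mul_of_nonneg_left hcs ?_
    refine div_nonneg ?_ (mul_pos hκ hκ).le
    have := d3_key (c := c) u
    rw [← this]
    exact Complex.normSq_nonneg _
  refine lt_of_le_of_lt h1 ?_
  have h2 : (κ - (phi u c - 1)) / (κ * κ) * (qf (PP c) w * κ) =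
      qf (PP c) w * ((κ - (phi u c - 1)) / κ) := by
    field_simp
  rw [h2]
  have h3 : (κ - (phi u c - 1)) / κ < 1 := by
    rw [div_lt_one hκ]
    linarith
  calc qf (PP c) w * ((κ - (phi u c - 1)) / κ) < qf (PP c) w * 1 := mul_lt_mul_of_pos_left h3 hw'
    _ = qf (PP c) w := mul_one _

/-- Uniqueness of the touching point.

Proof. Put `ω = 1 - u·y = u·(z - y)`, `κ = u P u^*`. `φ_u(c) = 1` gives `|ω|² = κ > 0` (see
`ctr_mem_Ell`). For every covector `w` and every real `s`, `mem_cEll_iff` for `u + s w` says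
`|ω + s w·(z-y)|² ≤ (u + s w) P (u + s w)^* = κ + 2 s Re (w P u^*) + s² w P w^*`.
As there is equality at `s = 0`, the derivatives at `0` agree:
`Re (conj(ω) w·(z - y)) = Re (w P u^*)`. Replacing `w` by `i w` gives the same for imaginary parts,
so `conj(ω) w·(z - y) = w·(P u^*)` for all `w`, i.e. `conj(ω) • (z - y) = P u^*`. Multiply by
`ω/κ = 1/conj(ω)`: `z - y = (ω/κ) • P u^*`. -/
theorem eq_ctr {c : Par} (hc : IsPar c) {u z : V} (hz : z ∈ cEll c) (huz : u ⬝ᵥ z = 1)
    (h : phi u c = 1) : z = ctr u c := by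
  have hu : u ≠ 0 := by
    rintro rfl
    rw [zero_dotProduct] at huz
    exact zero_ne_one huz
  have hκ := d3_pos hc hu
  have hP := d3_PP_herm hc.1
  rw [mem_cEll_iff] at hz
  set d : V := z - c.1 with hd
  set ω : ℂ := 1 - u ⬝ᵥ c.1 with hω
  have hud : u ⬝ᵥ d = ω := by rw [hd, dotProduct_sub, huz]
  have hωκ : Complex.normSq ω = qf (PP c) u := by
    rw [hω, d3_key, h]
    ring
  -- the form `P - d d^*`
  set M : Mat := PP c + (-1 : ℝ) • vecMulVec d (star d) with hM
  have hqM : ∀ w, qf M w = qf (PP c) w - Complex.normSq (w ⬝ᵥ d) := by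
    intro w
    rw [hM, qf_add, qf_smul, qf_vecMulVec]
    have h1 : (w ⬝ᵥ d) * star (w ⬝ᵥ d) = ((Complex.normSq (w ⬝ᵥ d) : ℝ) : ℂ) :=
      Complex.mul_conj _
    rw [h1, Complex.ofReal_re]
    ring
  have hdh : (vecMulVec d (star d)).IsHermitian := by
    unfold Matrix.IsHermitian
    ext i j
    simp only [conjTranspose_apply, vecMulVec_apply, Pi.star_apply, star_mul', star_star]
    ring
  have hMh : M.IsHermitian := hP.add (d1_herm_smul _ hdh)
  have hnn : ∀ w : V, 0 ≤ qf M w := by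
    intro w
    rw [hqM, d3_qf_PP]
    have := hz w
    linarith
  have hMu : qf M u = 0 := by
    rw [hqM, hud, hωκ, sub_self]
  have hker : ∀ w : V, w ⬝ᵥ (M *ᵥ star u) = 0 := by
    intro w
    have h1 := d3_cs hMh hnn w u
    rw [hMu, mul_zero] at h1
    exact Complex.normSq_eq_zero.1 (le_antisymm h1 (Complex.normSq_nonneg _))
  have hMv : M *ᵥ star u = 0 := by
    funext i
    have h1 := hker (Pi.single i 1)
    rw [single_one_dotProduct] at h1
    exact h1
  have hPu : PP c *ᵥ star u = star ω • d := by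
    rw [hM, Matrix.add_mulVec, Matrix.smul_mulVec, d3_vec, hud] at hMv
    have h1 : PP c *ᵥ star u = -((-1 : ℝ) • (star ω • d)) := eq_neg_of_add_eq_zero_left hMv
    rw [h1]
    simp
  have hω0 : ω ≠ 0 := by
    intro h0
    rw [h0, map_zero] at hωκ
    exact hκ.ne hωκ
  have hω1 : ω * star ω = ((qf (PP c) u : ℝ) : ℂ) := by
    rw [← hωκ]
    exact Complex.mul_conj ω
  unfold ctr
  rw [d3_real hP u, hPu, smul_smul, ← hω, div_mul_eq_mul_div, hω1, div_self, one_smul, hd]
  · abel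
  · exact_mod_cast hκ.ne'

/-- Joint continuity of the centre. Proof. All the operations are continuous, and the denominator
does not vanish (`dot_PP`, `IsPar`, `u ≠ 0`). -/
theorem continuousAt_ctr {c : Par} (hc : IsPar c) {u : V} (hu : u ≠ 0) :
    ContinuousAt (fun q : V × Par => ctr q.1 q.2) (u, c) := by
  have hPP : Continuous fun q : V × Par => PP q.2 := by
    unfold PP
    exact (continuous_snd.comp continuous_snd).add
      ((continuous_fst.comp continuous_snd).matrix_vecMulVec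
        (continuous_fst.comp continuous_snd).star)
  have hPu : Continuous fun q : V × Par => PP q.2 *ᵥ star q.1 :=
    hPP.matrix_mulVec continuous_fst.star
  have hden : Continuous fun q : V × Par => q.1 ⬝ᵥ (PP q.2 *ᵥ star q.1) :=
    continuous_fst.dotProduct hPu
  have hnum : Continuous fun q : V × Par => 1 - q.1 ⬝ᵥ q.2.1 :=
    continuous_const.sub (continuous_fst.dotProduct (continuous_fst.comp continuous_snd))
  have h0 : u ⬝ᵥ (PP c *ᵥ star u) ≠ 0 := by
    rw [d3_real (d3_PP_herm hc.1)]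
    exact_mod_cast (d3_pos hc hu).ne'
  unfold ctr
  refine ContinuousAt.add (continuous_fst.comp continuous_snd).continuousAt ?_
  have hdiv : ContinuousAt (fun q : V × Par => (1 - q.1 ⬝ᵥ q.2.1) / (q.1 ⬝ᵥ (PP q.2 *ᵥ star q.1)))
      (u, c) := hnum.continuousAt.div hden.continuousAt h0
  exact hdiv.smul hPu.continuousAt

theorem continuous_phi : Continuous fun q : V × Par => phi q.1 q.2 := by
  unfold phi
  have h1 : Continuous fun q : V × Par => q.1 ⬝ᵥ q.2.1 :=
    continuous_fst.dotProduct (continuous_fst.comp continuous_snd)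
  have h2 : Continuous fun q : V × Par => qf q.2.2 q.1 :=
    continuous_qf.comp (Continuous.prodMk (continuous_snd.comp continuous_snd) continuous_fst)
  exact (continuous_const.mul (Complex.continuous_re.comp h1)).add h2

/-- `phi u` is additive and homogeneous in the parameter. -/
theorem phi_add (u : V) (c c' : Par) : phi u (c + c') = phi u c + phi u c' := by
  unfold phi
  show 2 * (u ⬝ᵥ (c.1 + c'.1)).re + qf (c.2 + c'.2) u = _
  rw [dotProduct_add, Complex.add_re, qf_add]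
  ring

theorem phi_smul (u : V) (s : ℝ) (c : Par) : phi u (s • c) = s * phi u c := by
  unfold phi
  show 2 * (u ⬝ᵥ (s • c.1)).re + qf (s • c.2) u = _
  rw [dotProduct_smul, Complex.real_smul, Complex.re_ofReal_mul, qf_smul]
  ring

end HRF
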