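import Pool.Agent.HRF.C2
import Pool.Agent.HRF.D2
import Pool.Agent.HRF.D3

/-!
# HRF-C3 : tangency
-/

namespace HRF

open Set Filter Topology Matrix

variable {Γ E : Type*} [Group Γ] [TopologicalSpace E] [MulAction Γ E] [T2Space E]

theorem c3_tendsto_dot {a b : ℕ → V} {a₀ b₀ : V} (ha : Tendsto a atTop (𝓝 a₀))
    (hb : Tendsto b atTop (𝓝 b₀)) : Tendsto (fun k => a k ⬝ᵥ b k) atTop (𝓝 (a₀ ⬝ᵥ b₀)) := by
  unfold dotProduct
  refine tendsto_finsetSum _ fun i _ => ?_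
  exact ((tendsto_pi_nhds.1 ha) i).mul ((tendsto_pi_nhds.1 hb) i)

/-- Tangency: the limit plane `p + n^⊥` of a slab sequence in a convex open set `C ⊆ Star x`,
`p ∈ closure C`, misses `C`.

Proof. Let `r` be a uniform radius for `K`, `r' = r/2`. Suppose `w ∈ C`, `n·(w - p) = 0`. For
`s ∈ (0,1]`, `w_s = p + s (w - p) ∈ C` (`Convex.combo_interior_closure_mem_interior`) and
`n·(w_s - p) = 0`. Choose `s` with `nsq (w_s - p) < (r'/2)²`, and rename `w = w_s`.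
Define `w_k = w - (n-direction correction)`: we need `w_k → w` with `ν_k·(w_k - q_k) = 0`. Since
`nsq n = 1`, `n·(star n) = 1`; for large `k`, `ν_k·(star n) ≠ 0` (it tends to `1`), and
`w_k = w - ((ν_k·(w - q_k)) / (ν_k·(star n))) • star n` works:
`ν_k·(w - q_k) → n·(w - p) = 0`.
For `k` large `w_k ∈ C` (open) and `nsq (w_k - q_k) ≤ r'^2`. The straight path
`z_k t = q_k + t (w_k - q_k)` is in `C ⊆ Star x`, `ν_k·(z_k t - q_k) = 0`,
`nsq (z_k t - q_k) = t² nsq (w_k - q_k) ≤ r'^2`, `z_k 1 = w_k → w ∈ Star x`. This contradicts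
`slab_escape_freq`. -/
theorem tangency (S : Dev Γ E) {x : E} {C : Set V} (hC : Convex ℝ C) (hCo : IsOpen C)
    (hCS : C ⊆ Star S.D x) {q : ℕ → V} {γ : ℕ → Γ} {μ : ℕ → ℝ}
    {ν : ℕ → V} {p n : V} (hp : p ∈ closure C) (hq : ∀ k, q k ∈ C)
    (h : SlabSeq S x q γ μ ν p n) : ∀ w ∈ C, n ⬝ᵥ (w - p) ≠ 0 := by
  intro w₀ hw₀ hnw₀
  obtain ⟨r, hr0, hr⟩ := uniform_radius S.hD S.hK
  set r' := r / 2 with hr'd
  have hr'0 : 0 < r' := by positivity
  have hr' : ∀ y ∈ S.K, ∀ v : V, nsq v ≤ r' ^ 2 → v ∈ Star S.D y := by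
    intro y hy v hv
    refine hr y hy v (lt_of_le_of_lt hv ?_)
    have : r' < r := by rw [hr'd]; linarith
    nlinarith
  -- the point `w`
  set N := nsq (w₀ - p) with hN
  have hN0 : 0 ≤ N := nsq_nonneg _
  set s := min 1 ((r' / 2) / (1 + N)) with hs
  have hs0 : 0 < s := lt_min one_pos (by positivity)
  have hs1 : s ≤ 1 := min_le_left _ _
  have hsN : s * (1 + N) ≤ r' / 2 := by
    have h1 : s ≤ (r' / 2) / (1 + N) := min_le_right _ _
    rwa [le_div_iff₀ (by positivity)] at h1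
  set w : V := s • w₀ + (1 - s) • p with hw
  have hwC : w ∈ C := by
    have h1 := hC.combo_interior_closure_mem_interior (x := w₀) (y := p)
      (by rw [hCo.interior_eq]; exact hw₀) hp hs0 (by linarith : 0 ≤ 1 - s) (by ring)
    rwa [hCo.interior_eq] at h1
  have hwp : w - p = s • (w₀ - p) := by
    rw [hw]; module
  have hnw : n ⬝ᵥ (w - p) = 0 := by
    rw [hwp, dotProduct_smul, hnw₀, smul_zero]
  have hwr : nsq (w - p) < r' ^ 2 := by
    rw [hwp, nsq_rsmul, ← hN]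
    have h1 : s ^ 2 * N ≤ (s * (1 + N)) ^ 2 := by
      have : 0 ≤ s ^ 2 := by positivity
      nlinarith
    have h2 : (s * (1 + N)) ^ 2 ≤ (r' / 2) ^ 2 := by
      have : 0 ≤ s * (1 + N) := by positivity
      exact pow_le_pow_left₀ this hsN 2
    have h3 : (r' / 2) ^ 2 < r' ^ 2 := by nlinarith [sq_pos_of_pos hr'0]
    linarith
  obtain ⟨hn1, -, -⟩ := h.lim
  have hnn : n ⬝ᵥ star n = 1 := by rw [dot_star_self, hn1]; simp
  have ha : Tendsto (fun k => ν k ⬝ᵥ star n) atTop (𝓝 1) := by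
    rw [← hnn]
    exact c3_tendsto_dot h.tends_ν tendsto_const_nhds
  have hb : Tendsto (fun k => ν k ⬝ᵥ (w - q k)) atTop (𝓝 0) := by
    rw [← hnw]
    exact c3_tendsto_dot h.tends_ν (tendsto_const_nhds.sub h.tends_q)
  set wk : ℕ → V := fun k => w - ((ν k ⬝ᵥ (w - q k)) / (ν k ⬝ᵥ star n)) • star n with hwk
  have hwkt : Tendsto wk atTop (𝓝 w) := by
    have h1 : Tendsto (fun k => (ν k ⬝ᵥ (w - q k)) / (ν k ⬝ᵥ star n)) atTop (𝓝 (0 / 1)) :=
      hb.div ha one_ne_zero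
    have h2 : Tendsto (fun k => w - ((ν k ⬝ᵥ (w - q k)) / (ν k ⬝ᵥ star n)) • star n) atTop
        (𝓝 (w - ((0 : ℂ) / 1) • star n)) :=
      tendsto_const_nhds.sub (h1.smul_const (star n))
    rw [zero_div, zero_smul, sub_zero] at h2
    exact h2
  have hne : ∀ᶠ k in atTop, ν k ⬝ᵥ star n ≠ 0 := ha.eventually_ne one_ne_zero
  have hC' : ∀ᶠ k in atTop, wk k ∈ C := hwkt.eventually_mem (hCo.mem_nhds hwC)
  have hr'' : ∀ᶠ k in atTop, nsq (wk k - q k) < r' ^ 2 := by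
    have h1 : Tendsto (fun k => nsq (wk k - q k)) atTop (𝓝 (nsq (w - p))) :=
      (continuous_nsq.tendsto _).comp (hwkt.sub h.tends_q)
    exact h1.eventually_lt_const hwr
  refine slab_escape_freq S hr' h (z := fun k t => q k + t • (wk k - q k)) (w := w)
    (hCS hwC) ?_ ?_
  · refine Eventually.frequently ?_
    filter_upwards [hne, hC', hr''] with k hk1 hk2 hk3
    have hperp : ν k ⬝ᵥ (wk k - q k) = 0 := by
      have h1 : wk k - q k = (w - q k) - ((ν k ⬝ᵥ (w - q k)) / (ν k ⬝ᵥ star n)) • star n := by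
        rw [hwk]; module
      rw [h1, dotProduct_sub, dotProduct_smul, smul_eq_mul, div_mul_cancel₀ _ hk1, sub_self]
    refine ⟨by simp, ?_, ?_, ?_, ?_⟩
    · exact (continuous_const.add (continuous_id.smul continuous_const)).continuousOn
    · intro t ht
      apply hCS
      have h1 : q k + t • (wk k - q k) = (1 - t) • q k + t • wk k := by module
      show q k + t • (wk k - q k) ∈ C
      rw [h1]
      exact hC (hq k) hk2 (by linarith [ht.2]) ht.1 (by ring)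
    · intro t _
      have h1 : q k + t • (wk k - q k) - q k = t • (wk k - q k) := by module
      show ν k ⬝ᵥ (q k + t • (wk k - q k) - q k) = 0
      rw [h1, dotProduct_smul, hperp, smul_zero]
    · intro t ht
      have h1 : q k + t • (wk k - q k) - q k = t • (wk k - q k) := by module
      show nsq (q k + t • (wk k - q k) - q k) ≤ r' ^ 2
      rw [h1, nsq_rsmul]
      have h2 : t ^ 2 ≤ 1 := pow_le_one₀ ht.1 ht.2
      have h3 := nsq_nonneg (wk k - q k)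
      nlinarith
  · have h1 : (fun k => q k + (1 : ℝ) • (wk k - q k)) = wk := by
      funext k; module
    show Tendsto (fun k => q k + (1 : ℝ) • (wk k - q k)) atTop (𝓝 w)
    rw [h1]
    exact hwkt

/-- For an ellipsoid: `n·p ≠ 0` and `u = (n·p)⁻¹ n` satisfies `φ_u(c) = 1`; moreover with
`u_k = (ν_k·q_k)⁻¹ ν_k` (where `ν_k·q_k ≠ 0` for large `k`), `u_k → u` and
`φ_{u_k}(c) > 1` for large `k`.

Proof. `0 ∈ Ell c`, so `tangency` (with `w = 0`) gives `n·p ≠ 0`. The closure of `Ell c` contains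
`cEll c`: for `p ∈ cEll c`, `t • p ∈ Ell c` for `t < 1` (`smul_mem_Ell`). If `φ_u(c) > 1` then
`w = ctr u c ∈ Ell c` (`ctr_mem_Ell`) has `u·w = 1`, i.e. `n·(w - p) = 0`, contradicting
`tangency`. And `φ_u(c) ≥ 1` by `one_le_phi` (`p ∈ cEll c`, `u·p = 1`). For large `k`,
`ν_k·q_k ≠ 0` as it tends to `n·p`; `u_k·q_k = 1` and `q_k ∈ Ell c` give `φ_{u_k}(c) > 1`
(`one_lt_phi`). -/
theorem contact_phi (S : Dev Γ E) {x : E} {c : Par} (hc : c ∈ Dom S.D x) {q : ℕ → V}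
    {γ : ℕ → Γ} {μ : ℕ → ℝ} {ν : ℕ → V} {p n : V} (hp : p ∈ cEll c) (hq : ∀ k, q k ∈ Ell c)
    (h : SlabSeq S x q γ μ ν p n) :
    n ⬝ᵥ p ≠ 0 ∧ phi ((n ⬝ᵥ p)⁻¹ • n) c = 1 ∧
      Tendsto (fun k => (ν k ⬝ᵥ q k)⁻¹ • ν k) atTop (𝓝 ((n ⬝ᵥ p)⁻¹ • n)) ∧
      (∀ᶠ k in atTop, ν k ⬝ᵥ q k ≠ 0) ∧
      (∀ᶠ k in atTop, 1 < phi ((ν k ⬝ᵥ q k)⁻¹ • ν k) c) := by
  have h0 : (0 : V) ∈ Ell c := zero_mem_Ell.2 hc.1.2
  have hcl : p ∈ closure (Ell c) := by
    have h1 : Tendsto (fun k : ℕ => (1 - 1 / ((k : ℝ) + 1)) • p) atTop (𝓝 ((1 - 0 : ℝ) • p)) :=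
      (tendsto_const_nhds.sub tendsto_one_div_add_atTop_nhds_zero_nat).smul_const p
    rw [sub_zero, one_smul] at h1
    refine mem_closure_of_tendsto h1 (Eventually.of_forall fun k => ?_)
    refine smul_mem_Ell hc.1 hp ⟨?_, ?_⟩
    · rw [sub_nonneg, div_le_one (by positivity)]
      have : (0 : ℝ) ≤ k := Nat.cast_nonneg k
      linarith
    · have : 0 < 1 / ((k : ℝ) + 1) := by positivity
      linarith
  have htan := tangency S (convex_Ell c) (isOpen_Ell c) hc.2 hcl hq h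
  have hnp : n ⬝ᵥ p ≠ 0 := by
    intro h1
    apply htan 0 h0
    rw [dotProduct_sub, h1, dotProduct_zero, sub_zero]
  obtain ⟨-, -, hn0⟩ := h.lim
  set u : V := (n ⬝ᵥ p)⁻¹ • n with hu
  have hup : u ⬝ᵥ p = 1 := by
    rw [hu, smul_dotProduct, smul_eq_mul, inv_mul_cancel₀ hnp]
  have hu0 : u ≠ 0 := by
    intro h1
    rw [h1, zero_dotProduct] at hup
    exact zero_ne_one hup
  have hd : Tendsto (fun k => ν k ⬝ᵥ q k) atTop (𝓝 (n ⬝ᵥ p)) :=
    c3_tendsto_dot h.tends_ν h.tends_q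
  have hne : ∀ᶠ k in atTop, ν k ⬝ᵥ q k ≠ 0 := hd.eventually_ne hnp
  refine ⟨hnp, ?_, (hd.inv₀ hnp).smul h.tends_ν, hne, ?_⟩
  · refine le_antisymm ?_ (one_le_phi hp hup)
    by_contra h1
    push Not at h1
    have h2 := ctr_mem_Ell hc.1 hu0 h1
    have h3 := dot_ctr hc.1 hu0
    apply htan _ h2
    have h4 : u ⬝ᵥ (ctr u c - p) = 0 := by rw [dotProduct_sub, h3, hup, sub_self]
    rw [hu, smul_dotProduct, smul_eq_mul, ← hu] at h4
    exact (mul_eq_zero.1 h4).resolve_left (inv_ne_zero hnp)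
  · filter_upwards [hne] with k hk
    refine one_lt_phi (hq k) ?_
    rw [smul_dotProduct, smul_eq_mul, inv_mul_cancel₀ hk]

end HRF
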