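import Pool.Agent.HRF.C3

/-!
# HRF-C4 : the core lemma
-/

namespace HRF

open Set Filter Topology Matrix

variable {Γ E : Type*} [Group Γ] [TopologicalSpace E] [MulAction Γ E] [T2Space E]

/-- The path `z_k` of the core lemma, by one formula. -/
noncomputable def c4_z (q w : V) (u : V) (P : ℝ → Par) (τ : ℝ) (s : ℝ) : V :=
  (1 - min (2 * s) 1) • q + (min (2 * s) 1 - 1) • w + ctr u (P (max (2 * s - 1) 0 * τ))

theorem c4_z_left {q w u : V} {P : ℝ → Par} {τ s : ℝ} (hw : w = ctr u (P 0)) (hs : s ≤ 1 / 2) :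
    c4_z q w u P τ s = (1 - 2 * s) • q + (2 * s) • w := by
  unfold c4_z
  have h1 : min (2 * s) 1 = 2 * s := min_eq_left (by linarith)
  have h2 : max (2 * s - 1) 0 = 0 := max_eq_right (by linarith)
  rw [h1, h2, zero_mul, ← hw, sub_smul (2 * s) 1 w, one_smul]
  abel

theorem c4_z_right {q w u : V} {P : ℝ → Par} {τ s : ℝ} (hs : 1 / 2 ≤ s) :
    c4_z q w u P τ s = ctr u (P ((2 * s - 1) * τ)) := by
  unfold c4_z
  have h1 : min (2 * s) 1 = 1 := min_eq_right (by linarith)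
  have h2 : max (2 * s - 1) 0 = 2 * s - 1 := max_eq_left (by linarith)
  rw [h1, h2]
  simp

/-- **Core lemma.** Let `c ∈ Dom x`, `p ∈ cEll c`, with a slab sequence `q k ∈ Ell c`, `q k → p`;
`u_k = (ν_k·q_k)⁻¹ ν_k`, `u = (n·p)⁻¹ n`. There is no path `P : [0,1] → Dom x` with `P 0 = c` such
that `φ_u(P t) > 1` for all `t ∈ (0,1]` and, for infinitely many `k`, `φ_{u_k}(P t) > 1` for all
`t ∈ [0,1]`.

Proof. Let `r` be a uniform radius for `S.K` and `r' = r/2`. By `contact_phi`, `φ_u(c) = 1`,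
`u_k → u`, and by `eq_ctr`, `p = ctr u c` (`u·p = 1`, `p ∈ cEll c`). By `continuousAt_ctr` and the
continuity of `P` at `0`, there are `τ ∈ (0,1]` and `k₀` such that for `k ≥ k₀` and
`t ∈ [0,τ]`: `nsq (ctr u_k (P t) - q_k) ≤ r'^2` (both `ctr u_k (P t)` and `q_k` are close to
`p`; `ν_k·q_k ≠ 0`).
For the infinitely many `k ≥ k₀` of the hypothesis define `z_k : [0,1] → V` by
`z_k s = (1 - 2 s) • q_k + (2 s) • ctr u_k c` for `s ≤ 1/2` and
`z_k s = ctr u_k (P ((2 s - 1) τ))` for `s ≥ 1/2` (they agree at `s = 1/2` since `P 0 = c`).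
* continuity: `s ↦ ctr u_k (P ((2s-1) τ))` is continuous by `continuousAt_ctr` and `hP`;
  `ContinuousOn.if` or union of two closed intervals.
* `z_k s ∈ Star x`: for `s ≤ 1/2` it is in the convex set `Ell c` (`q_k ∈ Ell c`,
  `ctr u_k c ∈ Ell c` by `ctr_mem_Ell` as `φ_{u_k}(P 0) > 1`); for `s ≥ 1/2` it is in
  `Ell (P t) ⊆ Star x` by `ctr_mem_Ell`.
* `u_k·z_k s = 1` (`dot_ctr`, `u_k·q_k = 1`), hence `ν_k·(z_k s - q_k) = 0`.
* `nsq (z_k s - q_k) ≤ r'^2`: for `s ≤ 1/2` it is `(2s)² nsq (ctr u_k c - q_k)`.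
* end point: `z_k 1 = ctr u_k (P τ) → w = ctr u (P τ) ∈ Ell (P τ) ⊆ Star x` since
  `φ_u(P τ) > 1`.
This contradicts `slab_escape_freq`. -/
theorem core (S : Dev Γ E) {x : E} {c : Par} (hc : c ∈ Dom S.D x) {q : ℕ → V}
    {γ : ℕ → Γ} {μ : ℕ → ℝ} {ν : ℕ → V} {p n : V} (hp : p ∈ cEll c) (hq : ∀ k, q k ∈ Ell c)
    (h : SlabSeq S x q γ μ ν p n) {P : ℝ → Par} (hP : ContinuousOn P (Icc 0 1)) (hP0 : P 0 = c)
    (hPD : ∀ t ∈ Icc (0:ℝ) 1, P t ∈ Dom S.D x)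
    (hu : ∀ t ∈ Ioc (0:ℝ) 1, 1 < phi ((n ⬝ᵥ p)⁻¹ • n) (P t))
    (huk : ∃ᶠ k in atTop, ∀ t ∈ Icc (0:ℝ) 1, 1 < phi ((ν k ⬝ᵥ q k)⁻¹ • ν k) (P t)) :
    False := by
  obtain ⟨r, hr0, hr⟩ := uniform_radius S.hD S.hK
  have hr' : ∀ y ∈ S.K, ∀ v : V, nsq v ≤ (r / 2) ^ 2 → v ∈ Star S.D y := by
    intro y hy v hv
    apply hr y hy v
    nlinarith
  obtain ⟨hnp, hphi, htend, hev1, -⟩ := contact_phi S hc hp hq h
  obtain ⟨-, -, hn0⟩ := h.lim
  set u : V := (n ⬝ᵥ p)⁻¹ • n with hudef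
  have hu0 : u ≠ 0 := smul_ne_zero (inv_ne_zero hnp) hn0
  have hup : u ⬝ᵥ p = 1 := by
    rw [hudef, smul_dotProduct, smul_eq_mul, inv_mul_cancel₀ hnp]
  have hpc : p = ctr u c := eq_ctr hc.1 hp hup hphi
  -- joint continuity
  have hPt : Tendsto P (𝓝[Icc 0 1] 0) (𝓝 c) := by
    have := hP 0 ⟨le_refl 0, zero_le_one⟩
    rw [ContinuousWithinAt, hP0] at this
    exact this
  have hH : Tendsto (fun a : V × ℝ × V => nsq (ctr a.1 (P a.2.1) - a.2.2))
      (𝓝 u ×ˢ (𝓝[Icc 0 1] (0:ℝ) ×ˢ 𝓝 p)) (𝓝 0) := by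
    have h1 : Tendsto (fun a : V × ℝ × V => (a.1, P a.2.1))
        (𝓝 u ×ˢ (𝓝[Icc 0 1] (0:ℝ) ×ˢ 𝓝 p)) (𝓝 (u, c)) := by
      rw [nhds_prod_eq]
      exact Tendsto.prodMk tendsto_fst (hPt.comp (tendsto_fst.comp tendsto_snd))
    have h2 : Tendsto (fun a : V × ℝ × V => ctr a.1 (P a.2.1))
        (𝓝 u ×ˢ (𝓝[Icc 0 1] (0:ℝ) ×ˢ 𝓝 p)) (𝓝 (ctr u c)) :=
      Tendsto.comp (g := fun q : V × Par => ctr q.1 q.2) (continuousAt_ctr hc.1 hu0) h1
    have h3 : Tendsto (fun a : V × ℝ × V => a.2.2)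
        (𝓝 u ×ˢ (𝓝[Icc 0 1] (0:ℝ) ×ˢ 𝓝 p)) (𝓝 p) := tendsto_snd.comp tendsto_snd
    have h4 := h2.sub h3
    rw [← hpc, sub_self] at h4
    have h5 := (continuous_nsq.tendsto 0).comp h4
    have h6 : nsq (0 : V) = 0 := nsq_eq_zero.mpr rfl
    rw [h6] at h5
    exact h5
  have hHev := hH.eventually (gt_mem_nhds (show (0:ℝ) < (r / 2) ^ 2 by positivity))
  rw [eventually_prod_iff] at hHev
  obtain ⟨pa, hpa, pb, hpb, hab⟩ := hHev
  rw [eventually_prod_iff] at hpb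
  obtain ⟨pt, hpt, pq, hpq, htq⟩ := hpb
  obtain ⟨ε, hε, hεt⟩ := Metric.mem_nhdsWithin_iff.mp hpt
  set τ : ℝ := min (ε / 2) 1 with hτdef
  have hτ0 : 0 < τ := lt_min (by positivity) one_pos
  have hτ1 : τ ≤ 1 := min_le_right _ _
  have hτε : τ < ε := lt_of_le_of_lt (min_le_left _ _) (by linarith)
  have hsmall : ∀ᶠ k in atTop, ∀ t ∈ Icc (0:ℝ) τ,
      nsq (ctr ((ν k ⬝ᵥ q k)⁻¹ • ν k) (P t) - q k) ≤ (r / 2) ^ 2 := by
    filter_upwards [htend.eventually hpa, h.tends_q.eventually hpq] with k hk1 hk2 t ht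
    have ht' : pt t := by
      apply hεt
      refine ⟨?_, ht.1, le_trans ht.2 hτ1⟩
      rw [Metric.mem_ball, Real.dist_eq, sub_zero, abs_of_nonneg ht.1]
      exact lt_of_le_of_lt ht.2 hτε
    exact le_of_lt (hab hk1 (htq ht' hk2))
  -- the paths
  have hPτ : P τ ∈ Dom S.D x := hPD τ ⟨hτ0.le, hτ1⟩
  refine slab_escape_freq S hr' h
    (z := fun k s => c4_z (q k) (ctr ((ν k ⬝ᵥ q k)⁻¹ • ν k) (P 0)) ((ν k ⬝ᵥ q k)⁻¹ • ν k) P τ s)
    (w := ctr u (P τ)) (hPτ.2 (ctr_mem_Ell hPτ.1 hu0 (hu τ ⟨hτ0, hτ1⟩))) ?_ ?_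
  · refine (huk.and_eventually (hev1.and hsmall)).mono ?_
    rintro k ⟨hk1, hk2, hk3⟩
    have hνk : ν k ≠ 0 := by
      intro h0
      have h1 := (h.top k).nsq_n
      rw [h0, nsq_eq_zero.mpr rfl] at h1
      exact zero_ne_one h1
    set uk : V := (ν k ⬝ᵥ q k)⁻¹ • ν k with hukdef
    have huk0 : uk ≠ 0 := smul_ne_zero (inv_ne_zero hk2) hνk
    have hukq : uk ⬝ᵥ q k = 1 := by
      rw [hukdef, smul_dotProduct, smul_eq_mul, inv_mul_cancel₀ hk2]
    have hplane : ∀ v : V, uk ⬝ᵥ v = 1 → ν k ⬝ᵥ (v - q k) = 0 := by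
      intro v hv
      have h1 : ν k = (ν k ⬝ᵥ q k) • uk := by
        rw [hukdef, smul_smul, mul_inv_cancel₀ hk2, one_smul]
      rw [h1, smul_dotProduct, dotProduct_sub, hv, hukq, sub_self, smul_zero]
    have h00 : (0:ℝ) ∈ Icc (0:ℝ) 1 := ⟨le_refl 0, zero_le_one⟩
    have hmemτ : ∀ s ∈ Icc (0:ℝ) 1, 1 / 2 ≤ s → (2 * s - 1) * τ ∈ Icc (0:ℝ) τ := by
      intro s hs hs2
      refine ⟨mul_nonneg (by linarith) hτ0.le, ?_⟩
      nlinarith [hs.2]
    have hτI : ∀ t ∈ Icc (0:ℝ) τ, t ∈ Icc (0:ℝ) 1 := fun t ht => ⟨ht.1, le_trans ht.2 hτ1⟩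
    have hctrD : ∀ t ∈ Icc (0:ℝ) 1, ctr uk (P t) ∈ Ell (P t) := fun t ht =>
      ctr_mem_Ell (hPD t ht).1 huk0 (hk1 t ht)
    refine ⟨?_, ?_, ?_, ?_, ?_⟩
    · -- start
      show c4_z (q k) (ctr uk (P 0)) uk P τ 0 = q k
      rw [c4_z_left rfl (by norm_num)]
      simp
    · -- continuity
      show ContinuousOn (fun s => c4_z (q k) (ctr uk (P 0)) uk P τ s) (Icc 0 1)
      unfold c4_z
      have hmin : Continuous fun s : ℝ => min (2 * s) 1 := by fun_prop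
      have hmax : Continuous fun s : ℝ => max (2 * s - 1) 0 * τ := by fun_prop
      have hmaps : MapsTo (fun s : ℝ => max (2 * s - 1) 0 * τ) (Icc 0 1) (Icc 0 1) := by
        intro s hs
        have h1 : max (2 * s - 1) 0 ≤ 1 := max_le (by linarith [hs.2]) zero_le_one
        have h2 : (0:ℝ) ≤ max (2 * s - 1) 0 := le_max_right _ _
        exact ⟨mul_nonneg h2 hτ0.le, by nlinarith⟩
      have hPc : ContinuousOn (fun s : ℝ => P (max (2 * s - 1) 0 * τ)) (Icc 0 1) :=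
        hP.comp hmax.continuousOn hmaps
      have hctr : ContinuousOn (fun s : ℝ => ctr uk (P (max (2 * s - 1) 0 * τ))) (Icc 0 1) := by
        intro s hs
        have h1 : ContinuousAt (fun q : V × Par => ctr q.1 q.2)
            (uk, P (max (2 * s - 1) 0 * τ)) := continuousAt_ctr (hPD _ (hmaps hs)).1 huk0
        have h2 : ContinuousWithinAt (fun s : ℝ => (uk, P (max (2 * s - 1) 0 * τ)))
            (Icc 0 1) s := continuousWithinAt_const.prodMk (hPc s hs)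
        exact ContinuousAt.comp_continuousWithinAt
          (f := fun s : ℝ => (uk, P (max (2 * s - 1) 0 * τ))) h1 h2
      refine ContinuousOn.add (ContinuousOn.add ?_ ?_) hctr
      · exact ((continuous_const.sub hmin).smul continuous_const).continuousOn
      · exact ((hmin.sub continuous_const).smul continuous_const).continuousOn
    · -- in the star domain
      intro s hs
      show c4_z (q k) (ctr uk (P 0)) uk P τ s ∈ Star S.D x
      rcases le_total s (1 / 2) with hs2 | hs2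
      · rw [c4_z_left rfl hs2]
        apply hc.2
        have h1 : ctr uk (P 0) ∈ Ell c := by
          have := hctrD 0 h00
          rwa [hP0] at this ⊢
        exact convex_Ell c (hq k) h1 (by linarith) (by linarith [hs.1]) (by ring)
      · rw [c4_z_right hs2]
        have h1 := hτI _ (hmemτ s hs hs2)
        exact (hPD _ h1).2 (hctrD _ h1)
    · -- in the plane
      intro s hs
      apply hplane
      show uk ⬝ᵥ c4_z (q k) (ctr uk (P 0)) uk P τ s = 1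
      rcases le_total s (1 / 2) with hs2 | hs2
      · rw [c4_z_left rfl hs2, dotProduct_add, dotProduct_smul, dotProduct_smul, hukq,
          dot_ctr (hPD 0 h00).1 huk0, ← add_smul]
        have : (1 - 2 * s + 2 * s : ℝ) = 1 := by ring
        rw [this, one_smul]
      · rw [c4_z_right hs2]
        exact dot_ctr (hPD _ (hτI _ (hmemτ s hs hs2))).1 huk0
    · -- small
      intro s hs
      show nsq (c4_z (q k) (ctr uk (P 0)) uk P τ s - q k) ≤ (r / 2) ^ 2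
      rcases le_total s (1 / 2) with hs2 | hs2
      · have h1 : c4_z (q k) (ctr uk (P 0)) uk P τ s - q k = (2 * s) • (ctr uk (P 0) - q k) := by
          rw [c4_z_left rfl hs2, smul_sub, sub_smul, one_smul]
          abel
        rw [h1, nsq_rsmul]
        have h2 := hk3 0 ⟨le_refl 0, hτ0.le⟩
        have h3 : (2 * s) ^ 2 ≤ 1 := by nlinarith [hs.1]
        have h4 := nsq_nonneg (ctr uk (P 0) - q k)
        nlinarith
      · rw [c4_z_right hs2]
        exact hk3 _ (hmemτ s hs hs2)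
  · -- end point
    have h1 : ∀ k, c4_z (q k) (ctr ((ν k ⬝ᵥ q k)⁻¹ • ν k) (P 0)) ((ν k ⬝ᵥ q k)⁻¹ • ν k) P τ 1
        = ctr ((ν k ⬝ᵥ q k)⁻¹ • ν k) (P τ) := by
      intro k
      rw [c4_z_right (by norm_num)]
      norm_num
    simp only [h1]
    have h2 : Tendsto (fun k => ((ν k ⬝ᵥ q k)⁻¹ • ν k, P τ)) atTop (𝓝 (u, P τ)) := by
      rw [nhds_prod_eq]
      exact Tendsto.prodMk htend tendsto_const_nhds
    exact Tendsto.comp (g := fun q : V × Par => ctr q.1 q.2)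
      (continuousAt_ctr hPτ.1 hu0) h2

end HRF
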