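import Pool.Agent.HRF.C4

/-!
# HRF-CV1 : the convexity theorem
-/

namespace HRF

open Set Filter Topology Matrix

variable {Γ E : Type*} [Group Γ] [TopologicalSpace E] [MulAction Γ E] [T2Space E]

/-- `Dom` is stable under shrinking. Proof. `Ell_smul_subset`, `IsPar.smul`. -/
theorem Dom.smul {D : E → V} {x : E} {c : Par} (hc : c ∈ Dom D x) {s : ℝ} (hs : 0 < s)
    (hs1 : s ≤ 1) : s • c ∈ Dom D x :=
  ⟨hc.1.smul hs, (Ell_smul_subset c hs hs1).trans hc.2⟩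

/-- `Dom` is closed under increasing radial limits: if `s • c ∈ Dom x` for `s` arbitrarily close to
`1` from below, then `c ∈ Dom x`. Proof. `exists_smul_mem_Ell`. -/
theorem Dom.of_frequently {D : E → V} {x : E} {c : Par} (hc : IsPar c)
    (h : ∀ s₀ : ℝ, s₀ < 1 → ∃ s : ℝ, s₀ < s ∧ s ≤ 1 ∧ 0 < s ∧ s • c ∈ Dom D x) :
    c ∈ Dom D x := by
  refine ⟨hc, ?_⟩
  intro z hz
  obtain ⟨s₀, hs₀, hs⟩ := exists_smul_mem_Ell hz
  obtain ⟨s, h1, h2, -, h4⟩ := h s₀ hs₀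
  exact h4.2 (hs s h1 h2)

/-- the factor. -/
noncomputable def cv1_g (ε t l : ℝ) : ℝ := 1 + ε * t * (1 - t) + l

theorem cv1_g_ge {ε t l : ℝ} (hε : 0 ≤ ε) (ht : t ∈ Icc (0:ℝ) 1) : 1 + l ≤ cv1_g ε t l := by
  unfold cv1_g
  have h1 : 0 ≤ ε * t * (1 - t) := mul_nonneg (mul_nonneg hε ht.1) (by linarith [ht.2])
  linarith

/-- The touching barrier. Let `c₀, c₁ ∈ Dom x`, `c t = (1 - t) c₀ + t c₁`, and suppose some
`c t* ∉ Dom x`, `t* ∈ [0,1]`. Then there are `ε > 0`, `Λ > 0`, `t₁ ∈ (0,1)` and `p` such that with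
`g t = 1 + ε t (1 - t) + Λ`: `(g t)⁻¹ • c t ∈ Dom x` for all `t ∈ [0,1]`,
`p ∈ cEll ((g t₁)⁻¹ • c t₁)` and `p ∉ Star x`.

Proof. For small `ε > 0` we have `(1 + ε t*(1 - t*))⁻¹ • c t* ∉ Dom x` (otherwise
`Dom.of_frequently` would give `c t* ∈ Dom x`). Fix such an `ε ≤ 1`. Let
`A = {λ ≥ 0 | ∀ t ∈ [0,1], (1 + ε t(1-t) + λ)⁻¹ • c t ∈ Dom x}`.
`A` is upward closed (`Dom.smul`), `0 ∉ A`, and `A` is nonempty: the coordinates of `c t` are
bounded on `[0,1]`, so for `λ` large the ellipsoids are small (`Ell_subset_of_small` with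
`O = Star x ∈ 𝓝 0`, `isOpen_Star`, `zero_mem_Star`); `IsPar` by `IsPar.convex`, `IsPar.smul`.
Let `Λ = sInf A`. `Λ ∈ A`: for `λ ↓ Λ`, `λ ∈ A`,
`(1 + … + λ)⁻¹ = s (1 + … + Λ)⁻¹` with `s → 1`, `s ≤ 1`: `Dom.of_frequently`. So `Λ > 0` (as
`0 ∉ A`). For `j` large, `λ_j = Λ - 1/j ≥ 0` is not in `A`: there are `t_j ∈ [0,1]` and
`z_j ∈ Ell ((1 + ε t_j(1-t_j) + λ_j)⁻¹ • c t_j)`, `z_j ∉ Star x` (the `IsPar` part is always
true). `nsq z_j` is bounded (`nsq_le_of_mem_cEll`). `exists_limit` (`O = Star x`): subsequence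
`t_j → t₁`, `z_j → p ∉ Star x`; the parameters converge to `(g t₁)⁻¹ • c t₁`, so
`p ∈ cEll ((g t₁)⁻¹ • c t₁)` by `isClosed_cEll`. If `t₁ = 0` then
`p ∈ cEll ((1 + Λ)⁻¹ • c₀) ⊆ Ell c₀ ⊆ Star x` by `cEll_smul_subset`, contradiction; same for
`t₁ = 1`. -/
theorem barrier {D : E → V} (hD : IsLocalHomeomorph D) {x : E} {c₀ c₁ : Par}
    (h₀ : c₀ ∈ Dom D x) (h₁ : c₁ ∈ Dom D x) {ts : ℝ} (hts : ts ∈ Icc (0:ℝ) 1)
    (hn : (1 - ts) • c₀ + ts • c₁ ∉ Dom D x) :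
    ∃ (ε Λ t₁ : ℝ) (p : V), 0 < ε ∧ 0 < Λ ∧ t₁ ∈ Ioo (0:ℝ) 1 ∧
      (∀ t ∈ Icc (0:ℝ) 1, (1 + ε * t * (1 - t) + Λ)⁻¹ • ((1 - t) • c₀ + t • c₁) ∈ Dom D x) ∧
      p ∈ cEll ((1 + ε * t₁ * (1 - t₁) + Λ)⁻¹ • ((1 - t₁) • c₀ + t₁ • c₁)) ∧
      p ∉ Star D x := by
  -- the parameters are admissible
  set c : ℝ → Par := fun t => (1 - t) • c₀ + t • c₁ with hcdef
  have hcont : Continuous c := by
    have h1 : Continuous fun t : ℝ => (1 - t) := by fun_prop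
    exact (h1.smul continuous_const).add (continuous_id.smul continuous_const)
  have hpar : ∀ t ∈ Icc (0:ℝ) 1, IsPar (c t) := fun t ht =>
    IsPar.convex h₀.1 h₁.1 (by linarith [ht.2]) ht.1 (by ring)
  -- choice of `ε`
  have hεex : ∃ ε : ℝ, 0 < ε ∧ (cv1_g ε ts 0)⁻¹ • c ts ∉ Dom D x := by
    by_contra hcon
    push Not at hcon
    apply hn
    apply Dom.of_frequently (hpar ts hts)
    intro s₀ hs₀
    -- choose `ε` with `(1 + ε ts (1 - ts))⁻¹ > s₀`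
    have hm : 0 ≤ ts * (1 - ts) := mul_nonneg hts.1 (by linarith [hts.2])
    have hm1 : ts * (1 - ts) ≤ 1 := by nlinarith [hts.1, hts.2]
    obtain ⟨ε, hε, hε1⟩ : ∃ ε : ℝ, 0 < ε ∧ s₀ * (1 + ε) < 1 := by
      refine ⟨(1 - s₀) / (1 + |s₀|), by have := abs_nonneg s₀; apply div_pos <;> linarith, ?_⟩
      have hab := abs_nonneg s₀
      have hle := le_abs_self s₀
      rcases le_or_gt s₀ 0 with h | h
      · have h1 : 0 < (1 - s₀) / (1 + |s₀|) := div_pos (by linarith) (by linarith)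
        nlinarith
      · rw [abs_of_pos h]
        have h1 : (1 - s₀) / (1 + s₀) = 1 - 2 * s₀ / (1 + s₀) := by field_simp; ring
        have h2 : s₀ * (1 + (1 - s₀) / (1 + s₀)) = 2 * s₀ / (1 + s₀) := by field_simp; ring
        rw [h2, div_lt_one (by linarith)]
        linarith
    have hg : 1 + 0 ≤ cv1_g ε ts 0 := cv1_g_ge hε.le hts
    have hg2 : cv1_g ε ts 0 ≤ 1 + ε := by
      unfold cv1_g
      have : ε * ts * (1 - ts) = ε * (ts * (1 - ts)) := by ring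
      rw [this]
      nlinarith
    have hgpos : 0 < cv1_g ε ts 0 := by linarith
    refine ⟨(cv1_g ε ts 0)⁻¹, ?_, inv_le_one_of_one_le₀ (by linarith), inv_pos.mpr hgpos,
      hcon ε hε⟩
    have h1 : s₀ * cv1_g ε ts 0 < 1 := by
      rcases le_or_gt s₀ 0 with h | h
      · nlinarith
      · nlinarith
    rw [inv_eq_one_div, lt_div_iff₀ hgpos]
    exact h1
  obtain ⟨ε, hε, hεn⟩ := hεex
  have hgpos : ∀ t ∈ Icc (0:ℝ) 1, ∀ l : ℝ, 0 ≤ l → 0 < cv1_g ε t l := by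
    intro t ht l hl
    have := cv1_g_ge (l := l) hε.le ht
    linarith
  have hup : ∀ (a b : ℝ) (d : Par), 0 < a → a ≤ b → a⁻¹ • d ∈ Dom D x → b⁻¹ • d ∈ Dom D x := by
    intro a b d ha hab hd
    have hb : 0 < b := lt_of_lt_of_le ha hab
    have h1 := Dom.smul hd (s := a / b) (div_pos ha hb) ((div_le_one hb).mpr hab)
    rw [smul_smul] at h1
    have h2 : a / b * a⁻¹ = b⁻¹ := by field_simp
    rwa [h2] at h1
  set A : Set ℝ := {l | 0 ≤ l ∧ ∀ t ∈ Icc (0:ℝ) 1, (cv1_g ε t l)⁻¹ • c t ∈ Dom D x} with hAdef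
  have h0A : (0:ℝ) ∉ A := fun h => hεn (h.2 ts hts)
  have hAbdd : BddBelow A := ⟨0, fun l hl => hl.1⟩
  have hAne : A.Nonempty := by
    obtain ⟨δ, hδ, hsm⟩ := Ell_subset_of_small ((isOpen_Star hD x).mem_nhds (zero_mem_Star))
    have hc2 : Continuous fun a : ℝ × ℝ => a.1 • c a.2 :=
      continuous_fst.smul (hcont.comp continuous_snd)
    have hev : ∀ᶠ s in 𝓝 (0:ℝ), ∀ t ∈ Icc (0:ℝ) 1,
        (nsq (s • c t).1 < δ ∧ ∀ i, ‖(s • c t).2 i i‖ < δ) := by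
      refine IsCompact.eventually_forall_of_forall_eventually isCompact_Icc ?_
      intro t ht
      have hA1 : Continuous fun a : ℝ × ℝ => nsq (a.1 • c a.2).1 :=
        continuous_nsq.comp (continuous_fst.comp hc2)
      have hA2 : ∀ i, Continuous fun a : ℝ × ℝ => ‖(a.1 • c a.2).2 i i‖ := by
        intro i
        have h1 : Continuous fun M : Mat => M i i := continuous_apply_apply i i
        exact (h1.comp (continuous_snd.comp hc2)).norm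
      have hz1 : (fun a : ℝ × ℝ => nsq (a.1 • c a.2).1) (0, t) < δ := by
        show nsq ((0:ℝ) • c t).1 < δ
        rw [zero_smul]
        show nsq (0 : V) < δ
        rw [nsq_eq_zero.mpr rfl]
        exact hδ
      have hz2 : ∀ i, (fun a : ℝ × ℝ => ‖(a.1 • c a.2).2 i i‖) (0, t) < δ := by
        intro i
        show ‖((0:ℝ) • c t).2 i i‖ < δ
        rw [zero_smul]
        show ‖(0 : Mat) i i‖ < δ
        simpa using hδ
      refine (hA1.continuousAt.eventually_lt continuousAt_const hz1).and ?_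
      rw [Filter.eventually_all]
      intro i
      exact (hA2 i).continuousAt.eventually_lt continuousAt_const (hz2 i)
    obtain ⟨η, hη, hball⟩ := Metric.eventually_nhds_iff.mp hev
    refine ⟨η⁻¹, (inv_pos.mpr hη).le, ?_⟩
    intro t ht
    have hη' := inv_pos.mpr hη
    have hg := cv1_g_ge (l := η⁻¹) hε.le ht
    have hg0 : 0 < cv1_g ε t η⁻¹ := by linarith
    refine ⟨(hpar t ht).smul (inv_pos.mpr hg0), ?_⟩
    have h1 : dist (cv1_g ε t η⁻¹)⁻¹ 0 < η := by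
      rw [Real.dist_eq, sub_zero, abs_of_pos (inv_pos.mpr hg0)]
      rw [inv_lt_comm₀ hg0 hη]
      linarith
    obtain ⟨h2, h3⟩ := hball h1 t ht
    exact hsm _ h2 h3
  set Λ : ℝ := sInf A with hΛdef
  have hΛ0 : 0 ≤ Λ := le_csInf hAne fun l hl => hl.1
  have hΛA : ∀ t ∈ Icc (0:ℝ) 1, (cv1_g ε t Λ)⁻¹ • c t ∈ Dom D x := by
    intro t ht
    have hgΛ := hgpos t ht Λ hΛ0
    have hgΛ1 : 1 + Λ ≤ cv1_g ε t Λ := cv1_g_ge hε.le ht
    apply Dom.of_frequently ((hpar t ht).smul (inv_pos.mpr hgΛ))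
    intro s₀ hs₀
    obtain ⟨l, hlA, hl⟩ := exists_lt_of_csInf_lt hAne (show sInf A < Λ + (1 - s₀) by linarith)
    have hΛl : Λ ≤ l := csInf_le hAbdd hlA
    have hgl := hgpos t ht l hlA.1
    have hgg : cv1_g ε t l = cv1_g ε t Λ + (l - Λ) := by unfold cv1_g; ring
    refine ⟨cv1_g ε t Λ / cv1_g ε t l, ?_, ?_, div_pos hgΛ hgl, ?_⟩
    · rw [lt_div_iff₀ hgl, hgg]
      nlinarith
    · rw [div_le_one hgl]; linarith
    · rw [smul_smul]
      have h2 : cv1_g ε t Λ / cv1_g ε t l * (cv1_g ε t Λ)⁻¹ = (cv1_g ε t l)⁻¹ := by field_simp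
      rw [h2]
      exact hlA.2 t ht
  have hΛpos : 0 < Λ := by
    rcases hΛ0.lt_or_eq with h | h
    · exact h
    · exfalso
      apply h0A
      refine ⟨le_refl _, fun t ht => ?_⟩
      have h1 := hΛA t ht
      rwa [← h] at h1
  -- the bad sequence
  set l : ℕ → ℝ := fun j => Λ * (1 - 1 / ((j:ℝ) + 1)) with hldef
  have hl0 : ∀ j, 0 ≤ l j := by
    intro j
    apply mul_nonneg hΛ0
    have h1 : (0:ℝ) < (j:ℝ) + 1 := by positivity
    have h2 : 1 / ((j:ℝ) + 1) ≤ 1 := by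
      rw [div_le_one h1]; linarith [(Nat.cast_nonneg j : (0:ℝ) ≤ (j:ℝ))]
    linarith
  have hlΛ : ∀ j, l j < Λ := by
    intro j
    have h1 : (0:ℝ) < 1 / ((j:ℝ) + 1) := by positivity
    show Λ * (1 - 1 / ((j:ℝ) + 1)) < Λ
    nlinarith
  have hllim : Tendsto l atTop (𝓝 Λ) := by
    have h1 : Tendsto (fun j : ℕ => 1 / ((j:ℝ) + 1)) atTop (𝓝 0) :=
      tendsto_one_div_add_atTop_nhds_zero_nat
    have h2 : Tendsto (fun j : ℕ => Λ * (1 - 1 / ((j:ℝ) + 1))) atTop (𝓝 (Λ * (1 - 0))) :=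
      tendsto_const_nhds.mul (tendsto_const_nhds.sub h1)
    rwa [sub_zero, mul_one] at h2
  have hbad : ∀ j, ∃ t, t ∈ Icc (0:ℝ) 1 ∧ ∃ z : V,
      z ∈ Ell ((cv1_g ε t (l j))⁻¹ • c t) ∧ z ∉ Star D x := by
    intro j
    have h1 : l j ∉ A := notMem_of_lt_csInf (hlΛ j) hAbdd
    by_contra hcon
    push Not at hcon
    apply h1
    refine ⟨hl0 j, fun t ht => ⟨(hpar t ht).smul (inv_pos.mpr (hgpos t ht _ (hl0 j))), ?_⟩⟩
    intro z hz
    exact hcon t ht z hz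
  choose t ht z hz hzS using hbad
  -- bound
  have hc2 : Continuous fun a : ℝ × ℝ => a.1 • c a.2 :=
    continuous_fst.smul (hcont.comp continuous_snd)
  have hf : Continuous fun a : ℝ × ℝ =>
      2 * (∑ i, ‖(a.1 • c a.2).2 i i‖) + 4 * nsq (a.1 • c a.2).1 := by
    have hA1 : Continuous fun a : ℝ × ℝ => nsq (a.1 • c a.2).1 :=
      continuous_nsq.comp (continuous_fst.comp hc2)
    have hA2 : ∀ i, Continuous fun a : ℝ × ℝ => ‖(a.1 • c a.2).2 i i‖ := by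
      intro i
      have h1 : Continuous fun M : Mat => M i i := continuous_apply_apply i i
      exact (h1.comp (continuous_snd.comp hc2)).norm
    exact (continuous_const.mul (continuous_finsetSum _ fun i _ => hA2 i)).add
      (continuous_const.mul hA1)
  obtain ⟨R, hR⟩ := ((isCompact_Icc (a := (0:ℝ)) (b := 1)).prod
    (isCompact_Icc (a := (0:ℝ)) (b := 1))).bddAbove_image hf.continuousOn
  have hzR : ∀ j, nsq (z j) ≤ R := by
    intro j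
    refine le_trans (nsq_le_of_mem_cEll (Ell_subset_cEll _ (hz j))) ?_
    apply hR
    have hg1 : 1 + l j ≤ cv1_g ε (t j) (l j) := cv1_g_ge hε.le (ht j)
    have hg0 := hgpos (t j) (ht j) (l j) (hl0 j)
    refine ⟨((cv1_g ε (t j) (l j))⁻¹, t j), ⟨⟨(inv_pos.mpr hg0).le, ?_⟩, ht j⟩, rfl⟩
    exact inv_le_one_of_one_le₀ (by linarith [hl0 j])
  obtain ⟨φ, t₁, p, hφ, ht₁, htφ, hzφ, hp⟩ := exists_limit (isOpen_Star hD x) ht hzR hzS
  have hlφ : Tendsto (l ∘ φ) atTop (𝓝 Λ) := hllim.comp hφ.tendsto_atTop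
  have hgt : Tendsto (fun j => cv1_g ε (t (φ j)) (l (φ j))) atTop (𝓝 (cv1_g ε t₁ Λ)) := by
    unfold cv1_g
    exact (tendsto_const_nhds.add ((tendsto_const_nhds.mul htφ).mul
      (tendsto_const_nhds.sub htφ))).add hlφ
  have hg₁ := hgpos t₁ ht₁ Λ hΛ0
  have hct : Tendsto (fun j => (cv1_g ε (t (φ j)) (l (φ j)))⁻¹ • c (t (φ j))) atTop
      (𝓝 ((cv1_g ε t₁ Λ)⁻¹ • c t₁)) :=
    (hgt.inv₀ hg₁.ne').smul ((hcont.tendsto t₁).comp htφ)
  have hpE : p ∈ cEll ((cv1_g ε t₁ Λ)⁻¹ • c t₁) := by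
    have h1 : Tendsto (fun j => ((cv1_g ε (t (φ j)) (l (φ j)))⁻¹ • c (t (φ j)), z (φ j))) atTop
        (𝓝 ((cv1_g ε t₁ Λ)⁻¹ • c t₁, p)) := by
      rw [nhds_prod_eq]
      exact hct.prodMk hzφ
    exact isClosed_cEll.mem_of_tendsto h1
      (Eventually.of_forall fun j => Ell_subset_cEll _ (hz (φ j)))
  have hΛ1 : (0:ℝ) < 1 + Λ := by linarith
  have hΛ2 : (1 + Λ)⁻¹ < 1 := by
    rw [inv_lt_one₀ hΛ1]; linarith
  have ht0 : t₁ ≠ 0 := by
    intro h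
    apply hp
    have h1 : cv1_g ε t₁ Λ = 1 + Λ := by rw [h]; unfold cv1_g; ring
    have h2 : c t₁ = c₀ := by rw [h]; simp [hcdef]
    rw [h1, h2] at hpE
    exact h₀.2 (cEll_smul_subset h₀.1 (inv_pos.mpr hΛ1) hΛ2 hpE)
  have ht1 : t₁ ≠ 1 := by
    intro h
    apply hp
    have h1 : cv1_g ε t₁ Λ = 1 + Λ := by rw [h]; unfold cv1_g; ring
    have h2 : c t₁ = c₁ := by rw [h]; simp [hcdef]
    rw [h1, h2] at hpE
    exact h₁.2 (cEll_smul_subset h₁.1 (inv_pos.mpr hΛ1) hΛ2 hpE)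
  exact ⟨ε, Λ, t₁, p, hε, hΛpos, ⟨lt_of_le_of_ne ht₁.1 (Ne.symm ht0),
    lt_of_le_of_ne ht₁.2 ht1⟩, hΛA, hpE, hp⟩

end HRF
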