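import Pool.Agent.HRF.CV1

/-!
# HRF-CV2 : the convexity theorem
-/

namespace HRF

open Set Filter Topology Matrix

variable {Γ E : Type*} [Group Γ] [TopologicalSpace E] [MulAction Γ E] [T2Space E]

theorem cv2_phi_gt {g : ℝ} (hg : 0 < g) (v : V) (d : Par) :
    1 < phi v (g⁻¹ • d) ↔ g < phi v d := by
  rw [phi_smul, inv_mul_eq_div, lt_div_iff₀ hg, one_mul]

theorem cv2_mem_closure {c : Par} (hc : IsPar c) {p : V} (hp : p ∈ cEll c) :
    p ∈ closure (Ell c) := by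
  have h1 : Tendsto (fun j : ℕ => (1 - 1 / ((j:ℝ) + 1)) • p) atTop (𝓝 ((1 - 0 : ℝ) • p)) :=
    (tendsto_const_nhds.sub tendsto_one_div_add_atTop_nhds_zero_nat).smul tendsto_const_nhds
  rw [sub_zero, one_smul] at h1
  refine mem_closure_of_tendsto h1 (Eventually.of_forall fun j => smul_mem_Ell hc hp ⟨?_, ?_⟩)
  · have h1 : (0:ℝ) < (j:ℝ) + 1 := by positivity
    have h2 : 1 / ((j:ℝ) + 1) ≤ 1 := by
      rw [div_le_one h1]; linarith [(Nat.cast_nonneg j : (0:ℝ) ≤ (j:ℝ))]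
    linarith
  · have h1 : (0:ℝ) < 1 / ((j:ℝ) + 1) := by positivity
    linarith

/-- **Convexity theorem**: `Dom x` is convex.

Proof. Suppose not; take the data of `barrier`, `g t = 1 + ε t (1 - t) + Λ > 0`,
`c t = (1 - t) c₀ + t c₁`, `c* = (g t₁)⁻¹ • c t₁ ∈ Dom x`, `p ∈ cEll c*`, `p ∉ Star x`.
`p ∈ closure (Ell c*)` (`smul_mem_Ell`: `t • p → p`). `slab_exists` with `C = Ell c*` (convex,
open, contains `0`) gives a slab sequence with `q k ∈ Ell c*`. Let `u_k, u` be as in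
`contact_phi` : `φ_u(c*) = 1`, `u_k → u`, `φ_{u_k}(c*) > 1` for large `k`.
For a covector `v` put `G_v(t) = φ_v(c t) - g t`; for all real `τ`
`G_v(t₁ + τ) = G_v(t₁) + λ_v τ + ε τ²` with `λ_v = φ_v(c₁) - φ_v(c₀) - ε (1 - 2 t₁)`
(`phi_add`, `phi_smul`; polynomial identity). For `t ∈ [0,1]`,
`φ_v((g t)⁻¹ • c t) > 1 ↔ G_v(t) > 0`. We have `G_{u_k}(t₁) > 0` for large `k`, `G_u(t₁) = 0`,
`λ_{u_k} → λ_u` (`continuous_phi`). There is a sign `σ = ±1` with `σ λ_{u_k} ≥ 0` for infinitely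
many `k`, hence also `σ λ_u ≥ 0`. Let `δ = min t₁ (1 - t₁) > 0` and
`P s = (g (t₁ + σ δ s))⁻¹ • c (t₁ + σ δ s)`, `s ∈ [0,1]`: continuous, in `Dom x`, `P 0 = c*`.
For infinitely many `k`, `G_{u_k}(t₁ + σ δ s) ≥ G_{u_k}(t₁) > 0` on `[0,1]`; and
`G_u(t₁ + σ δ s) ≥ ε (δ s)² > 0` for `s ∈ (0,1]`. This contradicts `core`. -/
theorem convex_Dom (S : Dev Γ E) (x : E) : Convex ℝ (Dom S.D x) := by
  intro c₀ h₀ c₁ h₁ a b ha hb hab
  by_contra hcon
  have ha' : a = 1 - b := by linarith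
  rw [ha'] at hcon
  obtain ⟨ε, Λ, t₁, p, hε, hΛ, ht₁, hgD, hpE, hpS⟩ :=
    barrier S.hD h₀ h₁ (ts := b) ⟨hb, by linarith⟩ hcon
  set g : ℝ → ℝ := fun t => 1 + ε * t * (1 - t) + Λ with hgdef
  set c : ℝ → Par := fun t => (1 - t) • c₀ + t • c₁ with hcdef
  have hgD' : ∀ t ∈ Icc (0:ℝ) 1, (g t)⁻¹ • c t ∈ Dom S.D x := hgD
  have hpE' : p ∈ cEll ((g t₁)⁻¹ • c t₁) := hpE
  have ht₁' : t₁ ∈ Icc (0:ℝ) 1 := ⟨ht₁.1.le, ht₁.2.le⟩
  have hcs := hgD' t₁ ht₁'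
  have hgpos : ∀ t ∈ Icc (0:ℝ) 1, 0 < g t := by
    intro t ht
    have h1 : 0 ≤ ε * t * (1 - t) := mul_nonneg (mul_nonneg hε.le ht.1) (by linarith [ht.2])
    show 0 < 1 + ε * t * (1 - t) + Λ
    linarith
  obtain ⟨q, γ, μ, ν, n, hq, hslab⟩ := slab_exists S (convex_Ell ((g t₁)⁻¹ • c t₁))
    (isOpen_Ell _) (zero_mem_Ell.mpr hcs.1.2) hcs.2 (cv2_mem_closure hcs.1 hpE') hpS
  obtain ⟨hnp, hphi, htend, -, hev2⟩ := contact_phi S hcs hpE' hq hslab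
  have hphic : ∀ v t, phi v (c t) = (1 - t) * phi v c₀ + t * phi v c₁ := by
    intro v t
    show phi v ((1 - t) • c₀ + t • c₁) = _
    rw [phi_add, phi_smul, phi_smul]
  set lam : V → ℝ := fun v => phi v c₁ - phi v c₀ - ε * (1 - 2 * t₁) with hlamdef
  have hG : ∀ v τ, phi v (c (t₁ + τ)) - g (t₁ + τ)
      = (phi v (c t₁) - g t₁) + lam v * τ + ε * τ ^ 2 := by
    intro v τ
    rw [hphic, hphic]
    simp only [hgdef, hlamdef]
    ring
  have hlamcont : Continuous lam := by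
    have h1 : ∀ d : Par, Continuous fun v : V => phi v d := fun d =>
      continuous_phi.comp (continuous_id.prodMk continuous_const)
    exact ((h1 c₁).sub (h1 c₀)).sub continuous_const
  set u : V := (n ⬝ᵥ p)⁻¹ • n with hudef
  have hlamt : Tendsto (fun k => lam ((ν k ⬝ᵥ q k)⁻¹ • ν k)) atTop (𝓝 (lam u)) :=
    (hlamcont.tendsto u).comp htend
  obtain ⟨σ, hσ, hfreq⟩ : ∃ σ : ℝ, (σ = 1 ∨ σ = -1) ∧
      ∃ᶠ k in atTop, 0 ≤ σ * lam ((ν k ⬝ᵥ q k)⁻¹ • ν k) := by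
    by_cases h : ∃ᶠ k in atTop, 0 ≤ lam ((ν k ⬝ᵥ q k)⁻¹ • ν k)
    · exact ⟨1, Or.inl rfl, h.mono fun k hk => by rwa [one_mul]⟩
    · refine ⟨-1, Or.inr rfl, ?_⟩
      rw [Filter.not_frequently] at h
      refine h.frequently.mono fun k hk => ?_
      push Not at hk
      linarith
  have hσ2 : σ ^ 2 = 1 := by rcases hσ with h | h <;> rw [h] <;> norm_num
  have hσabs : |σ| = 1 := by rcases hσ with h | h <;> rw [h] <;> norm_num
  have hσu : 0 ≤ σ * lam u :=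
    isClosed_Ici.mem_of_frequently_of_tendsto hfreq (tendsto_const_nhds.mul hlamt)
  set δ : ℝ := min t₁ (1 - t₁) with hδdef
  have hδ : 0 < δ := lt_min ht₁.1 (by linarith [ht₁.2])
  have hδ1 : δ ≤ t₁ := min_le_left _ _
  have hδ2 : δ ≤ 1 - t₁ := min_le_right _ _
  have hmem : ∀ s ∈ Icc (0:ℝ) 1, t₁ + σ * δ * s ∈ Icc (0:ℝ) 1 := by
    intro s hs
    have h1 : |σ * δ * s| ≤ δ := by
      rw [abs_mul, abs_mul, hσabs, abs_of_pos hδ, abs_of_nonneg hs.1, one_mul]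
      nlinarith [hs.2]
    have h2 := abs_le.mp h1
    exact ⟨by linarith [h2.1], by linarith [h2.2]⟩
  refine core S hcs hpE' hq hslab (P := fun s => (g (t₁ + σ * δ * s))⁻¹ • c (t₁ + σ * δ * s))
    ?_ ?_ ?_ ?_ ?_
  · -- continuity
    have hgc : Continuous fun s : ℝ => g (t₁ + σ * δ * s) := by
      simp only [hgdef]
      fun_prop
    have hcc : Continuous fun s : ℝ => c (t₁ + σ * δ * s) := by
      simp only [hcdef]
      have h1 : Continuous fun s : ℝ => 1 - (t₁ + σ * δ * s) := by fun_prop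
      have h2 : Continuous fun s : ℝ => t₁ + σ * δ * s := by fun_prop
      exact (h1.smul continuous_const).add (h2.smul continuous_const)
    exact (hgc.continuousOn.inv₀ fun s hs => (hgpos _ (hmem s hs)).ne').smul hcc.continuousOn
  · show (g (t₁ + σ * δ * 0))⁻¹ • c (t₁ + σ * δ * 0) = (g t₁)⁻¹ • c t₁
    rw [mul_zero, add_zero]
  · intro s hs
    exact hgD' _ (hmem s hs)
  · intro s hs
    have hs' : s ∈ Icc (0:ℝ) 1 := ⟨hs.1.le, hs.2⟩
    show 1 < phi u ((g (t₁ + σ * δ * s))⁻¹ • c (t₁ + σ * δ * s))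
    rw [cv2_phi_gt (hgpos _ (hmem s hs'))]
    have h1 := hG u (σ * δ * s)
    have h2 : phi u (c t₁) = g t₁ := by
      have h3 := hphi
      rw [phi_smul, inv_mul_eq_div, div_eq_iff (hgpos t₁ ht₁').ne', one_mul] at h3
      exact h3
    have h4 : 0 ≤ lam u * (σ * δ * s) := by
      have : lam u * (σ * δ * s) = (σ * lam u) * (δ * s) := by ring
      rw [this]
      exact mul_nonneg hσu (mul_nonneg hδ.le hs.1.le)
    have h5 : 0 < ε * (σ * δ * s) ^ 2 := by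
      have : (σ * δ * s) ^ 2 = σ ^ 2 * (δ * s) ^ 2 := by ring
      rw [this, hσ2, one_mul]
      have : 0 < δ * s := mul_pos hδ hs.1
      positivity
    linarith
  · refine (hfreq.and_eventually hev2).mono ?_
    rintro k ⟨hk1, hk2⟩ s hs
    show 1 < phi ((ν k ⬝ᵥ q k)⁻¹ • ν k) ((g (t₁ + σ * δ * s))⁻¹ • c (t₁ + σ * δ * s))
    rw [cv2_phi_gt (hgpos _ (hmem s hs))]
    rw [cv2_phi_gt (hgpos _ ht₁')] at hk2
    have h1 := hG ((ν k ⬝ᵥ q k)⁻¹ • ν k) (σ * δ * s)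
    have h4 : 0 ≤ lam ((ν k ⬝ᵥ q k)⁻¹ • ν k) * (σ * δ * s) := by
      have : lam ((ν k ⬝ᵥ q k)⁻¹ • ν k) * (σ * δ * s)
          = (σ * lam ((ν k ⬝ᵥ q k)⁻¹ • ν k)) * (δ * s) := by ring
      rw [this]
      exact mul_nonneg hk1 (mul_nonneg hδ.le hs.1)
    have h5 : 0 ≤ ε * (σ * δ * s) ^ 2 := by positivity
    linarith

end HRF
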