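import Pool.Agent.HRF.B2

/-!
# HRF-D1 : elementary properties of the ellipsoids
-/

namespace HRF

open Set Filter Topology Matrix

/-- `qf` is additive and homogeneous in `T`. -/
theorem qf_add (T T' : Mat) (w : V) : qf (T + T') w = qf T w + qf T' w := by
  unfold qf
  rw [Matrix.add_mulVec, dotProduct_add, Complex.add_re]

theorem qf_smul (s : ℝ) (T : Mat) (w : V) : qf (s • T) w = s * qf T w := by
  unfold qf
  rw [Matrix.smul_mulVec, dotProduct_smul, Complex.real_smul, Complex.re_ofReal_mul]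

/-- `qf T (κ • w) = |κ|² qf T w`. -/
theorem qf_csmul (κ : ℂ) (T : Mat) (w : V) : qf T (κ • w) = Complex.normSq κ * qf T w := by
  unfold qf
  rw [star_smul, Matrix.mulVec_smul, dotProduct_smul, smul_dotProduct, smul_eq_mul, smul_eq_mul,
    ← mul_assoc]
  have h : star κ * κ = ((Complex.normSq κ : ℝ) : ℂ) := by
    rw [mul_comm]
    exact Complex.mul_conj κ
  rw [h, Complex.re_ofReal_mul]

/-- `qf (vecMulVec a (star b)) w = Re ((w·a) conj(w·b))`. -/
theorem qf_vecMulVec (a b w : V) :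
    qf (vecMulVec a (star b)) w = ((w ⬝ᵥ a) * star (w ⬝ᵥ b)).re := by
  unfold qf
  congr 1
  have h : vecMulVec a (star b) *ᵥ star w = star (w ⬝ᵥ b) • a := by
    ext i
    simp only [mulVec, dotProduct, vecMulVec_apply, Pi.smul_apply, smul_eq_mul, Pi.star_apply,
      star_sum, star_mul', Finset.sum_mul]
    refine Finset.sum_congr rfl fun j _ => ?_
    ring
  rw [h, dotProduct_smul, smul_eq_mul, mul_comm]

theorem continuous_qf : Continuous fun q : Mat × V => qf q.1 q.2 := by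
  unfold qf
  fun_prop

/-- the unit sphere -/
theorem d1_compact : IsCompact {w : V | nsq w = 1} := by
  refine (isCompact_nsq_le 1).of_isClosed_subset (isClosed_eq continuous_nsq continuous_const) ?_
  intro w hw
  exact le_of_eq hw

/-- scaling to the sphere -/
theorem d1_scale {w : V} (hw : w ≠ 0) : ∃ κ : ℂ, κ ≠ 0 ∧ nsq (κ • w) = 1 := by
  have h0 : 0 < nsq w := lt_of_le_of_ne (nsq_nonneg w) (fun h => hw (nsq_eq_zero.1 h.symm))
  have h1 : 0 < Real.sqrt (nsq w) := Real.sqrt_pos.2 h0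
  refine ⟨((Real.sqrt (nsq w))⁻¹ : ℝ), ?_, ?_⟩
  · exact_mod_cast (inv_pos.2 h1).ne'
  · rw [nsq_smul, Complex.normSq_ofReal, ← mul_inv, Real.mul_self_sqrt h0.le]
    exact inv_mul_cancel₀ h0.ne'

/-- A positive definite form is bounded below on the sphere.

Proof. `w ↦ qf T w` is continuous and positive on the compact sphere `{nsq w = 1}`; take the
minimum `m > 0` and use homogeneity (`qf_csmul`, `nsq_smul` with real scalar
`κ = 1 / √(nsq w)`). -/
theorem exists_lower {T : Mat} (hT : ∀ w : V, w ≠ 0 → 0 < qf T w) :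
    ∃ m : ℝ, 0 < m ∧ ∀ w : V, m * nsq w ≤ qf T w := by
  have hcont : Continuous fun w : V => qf T w :=
    continuous_qf.comp (Continuous.prodMk continuous_const continuous_id)
  have hne : ({w : V | nsq w = 1}).Nonempty := by
    obtain ⟨κ, -, hκ⟩ := d1_scale (w := (fun _ => 1 : V)) (fun h => by
      have := congrFun h 0
      exact one_ne_zero this)
    exact ⟨_, hκ⟩
  obtain ⟨w0, hw0, hmin⟩ := d1_compact.exists_isMinOn hne hcont.continuousOn
  have hw00 : w0 ≠ 0 := by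
    rintro rfl
    have h1 : nsq (0 : V) = 1 := hw0
    rw [nsq_eq_zero.2 rfl] at h1
    exact zero_ne_one h1
  refine ⟨qf T w0, hT w0 hw00, fun w => ?_⟩
  by_cases hw : w = 0
  · subst hw
    rw [nsq_eq_zero.2 rfl, mul_zero]
    have h2 : qf T (0 : V) = 0 := by
      unfold qf
      rw [zero_dotProduct]
      rfl
    exact h2.ge
  · obtain ⟨κ, hκ0, hκ⟩ := d1_scale hw
    have h3 : qf T w0 ≤ qf T (κ • w) := hmin hκ
    rw [qf_csmul] at h3
    rw [nsq_smul] at hκ
    have h4 : 0 < Complex.normSq κ := Complex.normSq_pos.2 hκ0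
    have h5 : qf T w0 * (Complex.normSq κ * nsq w) ≤ Complex.normSq κ * qf T w := by
      rw [hκ, mul_one]
      exact h3
    have h6 : Complex.normSq κ * (qf T w0 * nsq w) ≤ Complex.normSq κ * qf T w := by linarith
    exact le_of_mul_le_mul_left h6 h4

theorem d1_herm_smul (s : ℝ) {T : Mat} (hT : T.IsHermitian) : (s • T).IsHermitian := by
  unfold Matrix.IsHermitian at *
  rw [Matrix.conjTranspose_smul, hT]
  simp

theorem IsPar.convex : Convex ℝ {c : Par | IsPar c} := by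
  intro c hc c' hc' a b ha hb hab
  obtain ⟨h1, h2⟩ := hc
  obtain ⟨h1', h2'⟩ := hc'
  refine ⟨(d1_herm_smul a h1).add (d1_herm_smul b h1'), fun w hw => ?_⟩
  show 0 < qf (a • c.2 + b • c'.2) w
  rw [qf_add, qf_smul, qf_smul]
  have h3 := h2 w hw
  have h4 := h2' w hw
  rcases ha.eq_or_lt with h | h
  · have hb1 : b = 1 := by linarith
    rw [← h, hb1]
    linarith
  · have := mul_pos h h3
    have := mul_nonneg hb h4.le
    linarith

theorem IsPar.smul {c : Par} (hc : IsPar c) {s : ℝ} (hs : 0 < s) : IsPar (s • c) := by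
  refine ⟨d1_herm_smul s hc.1, fun w hw => ?_⟩
  show 0 < qf (s • c.2) w
  rw [qf_smul]
  exact mul_pos hs (hc.2 w hw)

/-- `Ell c` is convex. Proof. For fixed `w`, the left side is a convex function of `z` and the
right side is affine in `z`:
`|w·(a z + b z')|² ≤ a |w·z|² + b |w·z'|²` for `a, b ≥ 0`, `a + b = 1`. -/
theorem convex_Ell (c : Par) : Convex ℝ (Ell c) := by
  intro z hz z' hz' a b ha hb hab w hw
  have h1 := hz w hw
  have h2 := hz' w hw
  have e : w ⬝ᵥ (a • z + b • z') = (a : ℂ) * (w ⬝ᵥ z) + (b : ℂ) * (w ⬝ᵥ z') := by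
    rw [dotProduct_add, dotProduct_smul, dotProduct_smul, Complex.real_smul, Complex.real_smul]
  rw [e]
  set p := w ⬝ᵥ z with hp
  set q := w ⬝ᵥ z' with hq
  set s := w ⬝ᵥ c.1 with hs
  have hconv : Complex.normSq ((a : ℂ) * p + (b : ℂ) * q) ≤
      a * Complex.normSq p + b * Complex.normSq q := by
    have hb1 : b = 1 - a := by linarith
    subst hb1
    simp only [Complex.normSq_apply, Complex.add_re, Complex.add_im, Complex.re_ofReal_mul,
      Complex.im_ofReal_mul]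
    nlinarith [mul_nonneg (mul_nonneg ha hb) (add_nonneg (mul_self_nonneg (p.re - q.re))
      (mul_self_nonneg (p.im - q.im)))]
  have hlin : (((a : ℂ) * p + (b : ℂ) * q) * star s).re =
      a * (p * star s).re + b * (q * star s).re := by
    rw [add_mul, Complex.add_re, mul_assoc, mul_assoc, Complex.re_ofReal_mul,
      Complex.re_ofReal_mul]
  rw [hlin]
  have hb1 : qf c.2 w = a * qf c.2 w + b * qf c.2 w := by rw [← add_mul, hab, one_mul]
  rcases ha.eq_or_lt with h | h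
  · have hb1 : b = 1 := by linarith
    rw [← h, hb1] at hconv ⊢
    linarith
  · have h3 := mul_lt_mul_of_pos_left h1 h
    have h4 := mul_le_mul_of_nonneg_left h2.le hb
    linarith

/-- the defining function -/
noncomputable def d1_F (c : Par) (z w : V) : ℝ :=
  qf c.2 w + 2 * ((w ⬝ᵥ z) * star (w ⬝ᵥ c.1)).re - Complex.normSq (w ⬝ᵥ z)

theorem d1_F_cont : Continuous fun q : Par × V × V => d1_F q.1 q.2.1 q.2.2 := by
  unfold d1_F qf
  have h1 : Continuous fun q : Par × V × V => q.2.2 ⬝ᵥ q.2.1 := by fun_prop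
  have h2 : Continuous fun q : Par × V × V => q.2.2 ⬝ᵥ q.1.1 := by fun_prop
  have h3 : Continuous fun q : Par × V × V => q.2.2 ⬝ᵥ (q.1.2 *ᵥ star q.2.2) := by fun_prop
  exact ((Complex.continuous_re.comp h3).add (continuous_const.mul
    (Complex.continuous_re.comp (h1.mul h2.star)))).sub (Complex.continuous_normSq.comp h1)

theorem d1_F_smul (c : Par) (z w : V) (κ : ℂ) :
    d1_F c z (κ • w) = Complex.normSq κ * d1_F c z w := by
  unfold d1_F
  rw [qf_csmul, smul_dotProduct, smul_dotProduct, smul_eq_mul, smul_eq_mul, star_mul',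
    Complex.normSq_mul]
  have h : κ * (w ⬝ᵥ z) * (star κ * star (w ⬝ᵥ c.1)) =
      ((Complex.normSq κ : ℝ) : ℂ) * ((w ⬝ᵥ z) * star (w ⬝ᵥ c.1)) := by
    have h1 : κ * star κ = ((Complex.normSq κ : ℝ) : ℂ) := Complex.mul_conj κ
    rw [← h1]
    ring
  rw [h, Complex.re_ofReal_mul]
  ring

theorem d1_mem_iff {c : Par} {z : V} : z ∈ Ell c ↔ ∀ w : V, w ≠ 0 → 0 < d1_F c z w := by
  unfold Ell d1_F
  simp only [Set.mem_setOf_eq, sub_pos]

theorem d1_mem_iff' {c : Par} {z : V} : z ∈ Ell c ↔ ∀ w : V, nsq w = 1 → 0 < d1_F c z w := by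
  rw [d1_mem_iff]
  constructor
  · intro h w hw
    refine h w ?_
    rintro rfl
    rw [nsq_eq_zero.2 rfl] at hw
    exact zero_ne_one hw
  · intro h w hw
    obtain ⟨κ, hκ0, hκ⟩ := d1_scale hw
    have h1 := h _ hκ
    rw [d1_F_smul] at h1
    exact (mul_pos_iff_of_pos_left (Complex.normSq_pos.2 hκ0)).1 h1

/-- `Ell c` is open.

Proof. Let `z ∈ Ell c`. The function
`F(z', w) = qf c.2 w + 2 Re ((w·z') conj(w·c.1)) - |w·z'|²` is continuous, positive on
`{z} × {nsq w = 1}`, so by compactness of the sphere (tube lemma) it is positive on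
`U × {nsq w = 1}` for a neighbourhood `U` of `z`. By homogeneity (degree 2 in `w`) it is positive
for all `w ≠ 0`. -/
theorem isOpen_Ell (c : Par) : IsOpen (Ell c) := by
  rw [isOpen_iff_mem_nhds]
  intro z hz
  have hcont : Continuous fun q : V × V => d1_F c q.1 q.2 :=
    d1_F_cont.comp (Continuous.prodMk continuous_const continuous_id)
  have hopen : IsOpen {q : V × V | 0 < d1_F c q.1 q.2} := isOpen_lt continuous_const hcont
  have hsub : ({z} : Set V) ×ˢ {w : V | nsq w = 1} ⊆ {q : V × V | 0 < d1_F c q.1 q.2} := by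
    rintro ⟨a, w⟩ ⟨ha, hw⟩
    have ha' : a = z := ha
    subst ha'
    exact d1_mem_iff'.1 hz w hw
  obtain ⟨u, v, hu, hv, hzu, hwv, huv⟩ :=
    generalized_tube_lemma isCompact_singleton d1_compact hopen hsub
  refine Filter.mem_of_superset (hu.mem_nhds (hzu rfl)) ?_
  intro z' hz'
  rw [d1_mem_iff']
  intro w hw
  exact huv (Set.mk_mem_prod hz' (hwv hw))

/-- `0 ∈ Ell c` iff `c.2` is positive. -/
theorem zero_mem_Ell {c : Par} : (0 : V) ∈ Ell c ↔ ∀ w : V, w ≠ 0 → 0 < qf c.2 w := by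
  rw [d1_mem_iff]
  refine forall_congr' fun w => forall_congr' fun _ => ?_
  unfold d1_F
  rw [dotProduct_zero, zero_mul, Complex.zero_re, mul_zero, add_zero, map_zero, sub_zero]

theorem Ell_subset_cEll (c : Par) : Ell c ⊆ cEll c := by
  intro z hz w
  by_cases hw : w = 0
  · subst hw
    unfold qf
    rw [zero_dotProduct, zero_dotProduct, zero_dotProduct]
    simp
  · exact (hz w hw).le

/-- `R(w)` -/
theorem d1_R_smul (s : ℝ) (c : Par) (z w : V) :
    qf (s • c).2 w + 2 * ((w ⬝ᵥ z) * star (w ⬝ᵥ (s • c).1)).re =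
      s * (qf c.2 w + 2 * ((w ⬝ᵥ z) * star (w ⬝ᵥ c.1)).re) := by
  show qf (s • c.2) w + 2 * ((w ⬝ᵥ z) * star (w ⬝ᵥ (s • c.1))).re = _
  rw [qf_smul, dotProduct_smul, Complex.real_smul, star_mul']
  have h1 : (w ⬝ᵥ z) * (star (s : ℂ) * star (w ⬝ᵥ c.1)) =
      (s : ℂ) * ((w ⬝ᵥ z) * star (w ⬝ᵥ c.1)) := by
    have h2 : star (s : ℂ) = (s : ℂ) := Complex.conj_ofReal s
    rw [h2]
    ring
  rw [h1, Complex.re_ofReal_mul]
  ring

/-- Monotonicity under scaling. Proof. For `w ≠ 0` let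
`R = qf c.2 w + 2 Re ((w·z) conj(w·c.1))`. `z ∈ Ell (s • c)` says `|w·z|² < s R`; so `R > 0` and
`s R ≤ R`. (The scalar in `(s • c).1 = s • c.1` is real.) -/
theorem Ell_smul_subset (c : Par) {s : ℝ} (hs : 0 < s) (hs1 : s ≤ 1) : Ell (s • c) ⊆ Ell c := by
  intro z hz w hw
  have h1 := hz w hw
  rw [d1_R_smul] at h1
  have h2 := Complex.normSq_nonneg (w ⬝ᵥ z)
  set R := qf c.2 w + 2 * ((w ⬝ᵥ z) * star (w ⬝ᵥ c.1)).re
  have h3 : 0 < R := (mul_pos_iff_of_pos_left hs).1 (lt_of_le_of_lt h2 h1)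
  have h4 : s * R ≤ 1 * R := mul_le_mul_of_nonneg_right hs1 h3.le
  linarith

/-- Proof. With `R` as in `Ell_smul_subset`: `|w·z|² ≤ s R`, `R ≥ 0`. If `R > 0` then
`s R < R`. If `R = 0` then `w·z = 0` and `R = qf c.2 w > 0`, contradiction. -/
theorem cEll_smul_subset {c : Par} (hc : IsPar c) {s : ℝ} (hs : 0 < s) (hs1 : s < 1) :
    cEll (s • c) ⊆ Ell c := by
  intro z hz w hw
  have h1 := hz w
  rw [d1_R_smul] at h1
  have h2 := Complex.normSq_nonneg (w ⬝ᵥ z)
  have h5 := hc.2 w hw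
  rcases eq_or_lt_of_le h2 with h6 | h6
  · have h7 : w ⬝ᵥ z = 0 := Complex.normSq_eq_zero.1 h6.symm
    rw [h7]
    simp only [map_zero, zero_mul, Complex.zero_re, mul_zero, add_zero]
    exact h5
  · set R := qf c.2 w + 2 * ((w ⬝ᵥ z) * star (w ⬝ᵥ c.1)).re
    have h3 : 0 < R := (mul_pos_iff_of_pos_left hs).1 (lt_of_lt_of_le h6 h1)
    have h4 : s * R < 1 * R := mul_lt_mul_of_pos_right hs1 h3
    linarith

/-- Increasing union. Proof. `z ∈ Ell c`: `F(w) = R(w) - |w·z|² > 0` on the compact sphere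
`{nsq w = 1}`; so `F ≥ m > 0` there and `|R| ≤ M` there; for `s` close to `1`,
`s R - |w·z|² ≥ m - (1-s) M > 0` on the sphere, and by homogeneity for all `w ≠ 0`. -/
theorem exists_smul_mem_Ell {c : Par} {z : V} (hz : z ∈ Ell c) :
    ∃ s₀ : ℝ, s₀ < 1 ∧ ∀ s : ℝ, s₀ < s → s ≤ 1 → z ∈ Ell (s • c) := by
  have hcont : Continuous fun q : ℝ × V => d1_F (q.1 • c) z q.2 := by
    refine d1_F_cont.comp (Continuous.prodMk ?_ (Continuous.prodMk continuous_const continuous_snd))
    exact continuous_fst.smul continuous_const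
  have hopen : IsOpen {q : ℝ × V | 0 < d1_F (q.1 • c) z q.2} := isOpen_lt continuous_const hcont
  have hsub : ({1} : Set ℝ) ×ˢ {w : V | nsq w = 1} ⊆ {q : ℝ × V | 0 < d1_F (q.1 • c) z q.2} := by
    rintro ⟨a, w⟩ ⟨ha, hw⟩
    have ha' : a = 1 := ha
    subst ha'
    show 0 < d1_F ((1 : ℝ) • c) z w
    rw [one_smul]
    exact d1_mem_iff'.1 hz w hw
  obtain ⟨u, v, hu, hv, hzu, hwv, huv⟩ :=
    generalized_tube_lemma isCompact_singleton d1_compact hopen hsub
  obtain ⟨ε, hε, hball⟩ := Metric.isOpen_iff.1 hu 1 (hzu rfl)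
  refine ⟨1 - ε, by linarith, fun s hs hs1 => ?_⟩
  rw [d1_mem_iff']
  intro w hw
  refine huv (Set.mk_mem_prod (hball ?_) (hwv hw))
  rw [Metric.mem_ball, Real.dist_eq, abs_lt]
  constructor <;> linarith

/-- Radial closedness: points of the closed ellipsoid scaled by `t < 1` are in the open one.

Proof. For `w ≠ 0`, `a = |w·z|²`, `d = 2 Re ((w·z) conj(w·c.1))`, `T = qf c.2 w > 0`,
`a ≤ T + d`. Want `t² a < T + t d`. If `t = 0` clear. `t² a - t d ≤ t a - t d ≤ t T < T` for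
`0 < t < 1` (using `t² a ≤ t a` and `a - d ≤ T`). -/
theorem smul_mem_Ell {c : Par} (hc : IsPar c) {z : V} (hz : z ∈ cEll c) {t : ℝ}
    (ht : t ∈ Ico (0:ℝ) 1) : t • z ∈ Ell c := by
  intro w hw
  have h1 := hz w
  have h2 := hc.2 w hw
  have e : w ⬝ᵥ (t • z) = (t : ℂ) * (w ⬝ᵥ z) := by
    rw [dotProduct_smul, Complex.real_smul]
  rw [e, Complex.normSq_mul, Complex.normSq_ofReal, mul_assoc (t : ℂ), Complex.re_ofReal_mul]
  have h3 := Complex.normSq_nonneg (w ⬝ᵥ z)
  set a := Complex.normSq (w ⬝ᵥ z)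
  set d := ((w ⬝ᵥ z) * star (w ⬝ᵥ c.1)).re
  set T := qf c.2 w
  have h4 : t * t * a ≤ t * a := by
    have : t * t ≤ t * 1 := mul_le_mul_of_nonneg_left ht.2.le ht.1
    rw [mul_one] at this
    exact mul_le_mul_of_nonneg_right this h3
  have h5 : t * a ≤ t * (T + 2 * d) := mul_le_mul_of_nonneg_left h1 ht.1
  have h6 : t * T < 1 * T := mul_lt_mul_of_pos_right ht.2 h2
  nlinarith

end HRF
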