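import Pool.Agent.HRF.D1

/-!
# HRF-D4 : change of base point, equivariance, slab ellipsoids
-/

namespace HRF

open Set Filter Topology Matrix

theorem d4_qf_sub (T T' : Mat) (w : V) : qf (T - T') w = qf T w - qf T' w := by
  have h := qf_add (T - T') T' w
  rw [sub_add_cancel] at h
  linarith

theorem d4_qf_tau (z : V) (c : Par) (w : V) : qf (tau z c).2 w =
    qf c.2 w + 2 * ((w ⬝ᵥ z) * star (w ⬝ᵥ c.1)).re - Complex.normSq (w ⬝ᵥ z) := by
  unfold tau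
  simp only
  rw [d4_qf_sub, qf_add, qf_add, qf_vecMulVec, qf_vecMulVec, qf_vecMulVec]
  simp only [Complex.mul_re, Complex.star_def, Complex.conj_re, Complex.conj_im,
    Complex.normSq_apply]
  ring

theorem d4_key (c : Par) (z z' w : V) :
    qf (tau z c).2 w + 2 * ((w ⬝ᵥ z') * star (w ⬝ᵥ (tau z c).1)).re - Complex.normSq (w ⬝ᵥ z') =
      qf c.2 w + 2 * ((w ⬝ᵥ (z + z')) * star (w ⬝ᵥ c.1)).re -
        Complex.normSq (w ⬝ᵥ (z + z')) := by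
  rw [d4_qf_tau]
  have h1 : (tau z c).1 = c.1 - z := rfl
  rw [h1, dotProduct_add, dotProduct_sub]
  simp only [Complex.mul_re, Complex.star_def, Complex.conj_re, Complex.conj_im,
    Complex.normSq_apply, Complex.add_re, Complex.add_im, Complex.sub_re, Complex.sub_im]
  ring

/-- `Ell (tau z c) = Ell c - z`. Proof. Expand both sides: with `T' = (tau z c).2`,
`qf T' w = qf T w + 2 Re ((w·z) conj (w·y)) - |w·z|²` (`qf_add`, `qf_vecMulVec`), and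
`|w·z'|² < qf T' w + 2 Re ((w·z') conj (w·(y - z)))` is the same as
`|w·(z + z')|² < qf T w + 2 Re ((w·(z+z')) conj (w·y))`. -/
theorem mem_Ell_tau {c : Par} {z z' : V} : z' ∈ Ell (tau z c) ↔ z + z' ∈ Ell c := by
  constructor
  · intro h w hw
    have h1 := h w hw
    have h2 := d4_key c z z' w
    linarith
  · intro h w hw
    have h1 := h w hw
    have h2 := d4_key c z z' w
    linarith

theorem mem_cEll_tau {c : Par} {z z' : V} : z' ∈ cEll (tau z c) ↔ z + z' ∈ cEll c := by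
  constructor
  · intro h w
    have h1 := h w
    have h2 := d4_key c z z' w
    linarith
  · intro h w
    have h1 := h w
    have h2 := d4_key c z z' w
    linarith

/-- `tau z c` is admissible if `c` is Hermitian and `z ∈ Ell c`. Proof. Hermitian: clear.
Positive: `0 ∈ Ell (tau z c)` by `mem_Ell_tau`, and `zero_mem_Ell`. -/
theorem IsPar_tau {c : Par} (hc : c.2.IsHermitian) {z : V} (hz : z ∈ Ell c) :
    IsPar (tau z c) := by
  refine ⟨?_, zero_mem_Ell.1 (mem_Ell_tau.2 (by rwa [add_zero]))⟩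
  ext i j
  have h := congrFun (congrFun hc i) j
  rw [conjTranspose_apply] at h
  simp only [tau, conjTranspose_apply, Matrix.sub_apply, Matrix.add_apply, vecMulVec_apply, Pi.star_apply,
    star_sub, star_add, star_mul', star_star, h]
  ring

theorem tau_neg_tau (z : V) (c : Par) : tau (-z) (tau z c) = c := by
  refine Prod.ext ?_ ?_
  · simp [tau]
  · ext i j
    simp only [tau, Matrix.sub_apply, Matrix.add_apply, vecMulVec_apply, Pi.star_apply, Pi.neg_apply,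
      Pi.sub_apply, star_neg, star_sub]
    ring

/-- `tau z` is affine. -/
theorem tau_affine (z : V) (c c' : Par) (t : ℝ) :
    tau z ((1 - t) • c + t • c') = (1 - t) • tau z c + t • tau z c' := by
  refine Prod.ext ?_ ?_
  · ext i
    simp [tau]
    ring
  · ext i j
    simp [tau, vecMulVec_apply]
    ring

/-- Transformation of `phi`.

Proof. `1 - φ_u(y,T) = |1 - u·y|² - (qf T u + |u·y|²)` and similarly for `u' = (1 - u·z)⁻¹ • u`
and `(y - z, T')`, where `qf T' w + |w·(y-z)|² = qf T w + |w·y|²` for all `w` (expand). So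
`1 - φ_{u'}(tau z c) = |1 - u'·(y - z)|² - (qf T u' + |u'·y|²)`; multiply by `|1 - u·z|²`:
`|1 - u·z|² |1 - u'·(y-z)|² = |1 - u·z - u·(y - z)|² = |1 - u·y|²`. -/
theorem one_sub_phi_tau {c : Par} {u z : V} (h : 1 - u ⬝ᵥ z ≠ 0) :
    1 - phi u c = Complex.normSq (1 - u ⬝ᵥ z) * (1 - phi ((1 - u ⬝ᵥ z)⁻¹ • u) (tau z c)) := by
  have h0 : Complex.normSq (1 - u ⬝ᵥ z) ≠ 0 := fun h' => h (Complex.normSq_eq_zero.1 h')
  unfold phi
  rw [qf_csmul, d4_qf_tau, map_inv₀, smul_dotProduct]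
  have h1 : (tau z c).1 = c.1 - z := rfl
  rw [h1, dotProduct_sub, smul_eq_mul]
  have h2 : Complex.normSq (1 - u ⬝ᵥ z) * ((1 - u ⬝ᵥ z)⁻¹ * (u ⬝ᵥ c.1 - u ⬝ᵥ z)).re =
      (star (1 - u ⬝ᵥ z) * (u ⬝ᵥ c.1 - u ⬝ᵥ z)).re := by
    have h3 : ((Complex.normSq (1 - u ⬝ᵥ z) : ℝ) : ℂ) *
        ((1 - u ⬝ᵥ z)⁻¹ * (u ⬝ᵥ c.1 - u ⬝ᵥ z)) = star (1 - u ⬝ᵥ z) * (u ⬝ᵥ c.1 - u ⬝ᵥ z) := by
      rw [Complex.normSq_eq_conj_mul_self, Complex.star_def]
      field_simp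
    rw [← Complex.re_ofReal_mul, h3]
  have h4 : Complex.normSq (1 - u ⬝ᵥ z) * (1 - (2 * ((1 - u ⬝ᵥ z)⁻¹ * (u ⬝ᵥ c.1 - u ⬝ᵥ z)).re +
      (Complex.normSq (1 - u ⬝ᵥ z))⁻¹ * (qf c.2 u + 2 * ((u ⬝ᵥ z) * star (u ⬝ᵥ c.1)).re -
        Complex.normSq (u ⬝ᵥ z)))) = Complex.normSq (1 - u ⬝ᵥ z) -
      2 * (star (1 - u ⬝ᵥ z) * (u ⬝ᵥ c.1 - u ⬝ᵥ z)).re -
      (qf c.2 u + 2 * ((u ⬝ᵥ z) * star (u ⬝ᵥ c.1)).re - Complex.normSq (u ⬝ᵥ z)) := by
    rw [← h2]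
    field_simp
    ring
  rw [h4]
  simp only [Complex.mul_re, Complex.star_def, Complex.conj_re, Complex.conj_im,
    Complex.normSq_apply, Complex.sub_re, Complex.sub_im, Complex.one_re, Complex.one_im]
  ring

theorem d4_dot (L : Mat) (w z : V) : w ⬝ᵥ (L *ᵥ z) = (Lᵀ *ᵥ w) ⬝ᵥ z := by
  rw [dotProduct_mulVec, mulVec_transpose]

theorem d4_qf_image (L T : Mat) (w : V) : qf (L * T * Lᴴ) w = qf T (Lᵀ *ᵥ w) := by
  unfold qf
  rw [← mulVec_mulVec, ← mulVec_mulVec, d4_dot, mulVec_transpose, star_vecMul]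

theorem d4_inv {L : Mat} (hL : Lᵀ * L = 1) (w : V) : Lᵀ *ᵥ (L *ᵥ w) = w := by
  rw [mulVec_mulVec, hL, one_mulVec]

theorem d4_inv' {L : Mat} (hL : Lᵀ * L = 1) (w : V) : L *ᵥ (Lᵀ *ᵥ w) = w := by
  rw [mulVec_mulVec, mul_eq_one_comm.1 hL, one_mulVec]

theorem d4_ne {L : Mat} (hL : Lᵀ * L = 1) {w : V} (hw : w ≠ 0) : L *ᵥ w ≠ 0 := by
  intro h
  apply hw
  rw [← d4_inv hL w, h, mulVec_zero]

theorem d4_ne' {L : Mat} (hL : Lᵀ * L = 1) {w : V} (hw : w ≠ 0) : Lᵀ *ᵥ w ≠ 0 := by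
  intro h
  apply hw
  rw [← d4_inv' hL w, h, mulVec_zero]

/-- The image of an ellipsoid by `L ∈ O(3,ℂ)`. `Lᴴ` is the conjugate transpose.

Proof. `w·(L z) = (Lᵀ w)·z`, `qf (L T Lᴴ) w = qf T (Lᵀ w)` and `Lᵀ w ≠ 0` for `w ≠ 0`. -/
theorem mem_Ell_image {L : Mat} (hL : Lᵀ * L = 1) {c : Par} {z : V} :
    L *ᵥ z ∈ Ell (L *ᵥ c.1, L * c.2 * Lᴴ) ↔ z ∈ Ell c := by
  constructor
  · intro h w hw
    have h1 := h (L *ᵥ w) (d4_ne hL hw)
    simp only at h1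
    rwa [d4_qf_image, d4_dot, d4_dot, d4_inv hL] at h1
  · intro h w hw
    have h1 := h (Lᵀ *ᵥ w) (d4_ne' hL hw)
    simp only
    rwa [d4_qf_image, d4_dot, d4_dot]

theorem IsPar_image {L : Mat} (hL : Lᵀ * L = 1) {c : Par} (hc : IsPar c) :
    IsPar (L *ᵥ c.1, L * c.2 * Lᴴ) := by
  refine ⟨?_, fun w hw => ?_⟩
  · change (L * c.2 * Lᴴ)ᴴ = L * c.2 * Lᴴ
    rw [conjTranspose_mul, conjTranspose_mul, conjTranspose_conjTranspose, hc.1.eq, mul_assoc]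
  · simp only
    rw [d4_qf_image]
    exact hc.2 _ (d4_ne' hL hw)

/-- Proof. `(L u)·(L y) = u·y` and `qf (L T Lᴴ) (L u) = qf T (Lᵀ L u) = qf T u`. -/
theorem phi_image {L : Mat} (hL : Lᵀ * L = 1) (u : V) (c : Par) :
    phi (L *ᵥ u) (L *ᵥ c.1, L * c.2 * Lᴴ) = phi u c := by
  unfold phi
  simp only
  rw [d4_qf_image, d4_dot, d4_inv hL]

/-- The slab ellipsoid `{v | |B v|² < r²}`, `B ∈ O(3,ℂ)`: parameter `(0, r² B⁻¹ (B⁻¹)ᴴ)`, and
`B⁻¹ = Bᵀ`, so `(B⁻¹)ᴴ = B̄ = (Bᵀ)ᴴ`. -/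
noncomputable def slabPar (B : Mat) (r : ℝ) : Par := (0, (r ^ 2 : ℝ) • (Bᵀ * (Bᵀ)ᴴ))

theorem d4_qf_one (w : V) : qf 1 w = nsq w := by
  unfold qf
  rw [one_mulVec, dot_star_self, Complex.ofReal_re]

theorem d4_nsq_star (w : V) : nsq (star w) = nsq w := by
  unfold nsq
  exact Finset.sum_congr rfl fun i _ => Complex.normSq_conj (w i)

/-- Proof. `w Bᵀ (Bᵀ)ᴴ w^* = |w Bᵀ|² = nsq (B *ᵥ w)`. -/
theorem qf_slabPar (B : Mat) (r : ℝ) (w : V) : qf (slabPar B r).2 w = r ^ 2 * nsq (B *ᵥ w) := by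
  unfold slabPar
  simp only
  rw [qf_smul]
  have h := d4_qf_image Bᵀ 1 w
  rw [mul_one, transpose_transpose, d4_qf_one] at h
  rw [h]

/-- Proof. `B` is invertible, so `nsq (B *ᵥ w) > 0` for `w ≠ 0`. -/
theorem IsPar_slabPar {B : Mat} (hB : Bᵀ * B = 1) {r : ℝ} (hr : 0 < r) : IsPar (slabPar B r) := by
  refine ⟨?_, fun w hw => ?_⟩
  · change ((r ^ 2 : ℝ) • (Bᵀ * (Bᵀ)ᴴ))ᴴ = (r ^ 2 : ℝ) • (Bᵀ * (Bᵀ)ᴴ)
    rw [conjTranspose_smul, conjTranspose_mul, conjTranspose_conjTranspose, star_trivial]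
  · rw [qf_slabPar]
    have h1 : 0 < nsq (B *ᵥ w) :=
      lt_of_le_of_ne (nsq_nonneg _) fun h => d4_ne hB hw (nsq_eq_zero.1 h.symm)
    positivity

/-- Proof. `v ∈ Ell (0, T)` means `|w·v|² < r² nsq (B w)` for all `w ≠ 0`. Put `v = Bᵀ v'`,
`v' = B v`: `w·v = (B w)·v'`, and `w' = B w` runs over all nonzero covectors. So the condition is
`|w'·v'|² < r² nsq w'` for all `w' ≠ 0`. With `w' = star v'` (if `v' ≠ 0`) it gives
`nsq v' < r²`. -/
theorem nsq_lt_of_mem_slab {B : Mat} (hB : Bᵀ * B = 1) {r : ℝ} (hr : 0 < r) {v : V}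
    (hv : v ∈ Ell (slabPar B r)) : nsq (B *ᵥ v) < r ^ 2 := by
  by_cases h0 : B *ᵥ v = 0
  · rw [h0, nsq_eq_zero.2 rfl]
    positivity
  · have hpos : 0 < nsq (B *ᵥ v) :=
      lt_of_le_of_ne (nsq_nonneg _) fun h => h0 (nsq_eq_zero.1 h.symm)
    have hs : star (B *ᵥ v) ≠ 0 := fun h => h0 (by rw [← star_star (B *ᵥ v), h, star_zero])
    have h1 := hv (Bᵀ *ᵥ star (B *ᵥ v)) (d4_ne' hB hs)
    rw [qf_slabPar, d4_inv' hB, d4_nsq_star, ← d4_dot, dotProduct_comm, dot_star_self] at h1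
    have h2 : (slabPar B r).1 = 0 := rfl
    rw [h2, dotProduct_zero, star_zero, mul_zero, Complex.zero_re, mul_zero, add_zero,
      Complex.normSq_ofReal] at h1
    exact lt_of_mul_lt_mul_right h1 hpos.le

/-- The ball: parameter `(0, ρ² 1)`. -/
theorem mem_Ell_ball {ρ : ℝ} (hρ : 0 < ρ) {v : V} :
    v ∈ Ell ((0 : V), (ρ ^ 2 : ℝ) • (1 : Mat)) ↔ nsq v < ρ ^ 2 := by
  constructor
  · intro h
    by_cases h0 : v = 0
    · rw [h0, nsq_eq_zero.2 rfl]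
      positivity
    · have hpos : 0 < nsq v :=
        lt_of_le_of_ne (nsq_nonneg _) fun h => h0 (nsq_eq_zero.1 h.symm)
      have hs : star v ≠ 0 := fun h => h0 (by rw [← star_star v, h, star_zero])
      have h1 := h (star v) hs
      simp only at h1
      rw [qf_smul, d4_qf_one, d4_nsq_star, dotProduct_comm, dot_star_self, dotProduct_zero,
        star_zero, mul_zero, Complex.zero_re, mul_zero, add_zero, Complex.normSq_ofReal] at h1
      exact lt_of_mul_lt_mul_right h1 hpos.le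
  · intro h w hw
    have hw0 : 0 < nsq w := lt_of_le_of_ne (nsq_nonneg w) fun h => hw (nsq_eq_zero.1 h.symm)
    simp only
    rw [qf_smul, d4_qf_one, dotProduct_zero, star_zero, mul_zero, Complex.zero_re, mul_zero,
      add_zero]
    calc Complex.normSq (w ⬝ᵥ v) ≤ nsq w * nsq v := normSq_dot_le w v
      _ < nsq w * ρ ^ 2 := mul_lt_mul_of_pos_left h hw0
      _ = ρ ^ 2 * nsq w := mul_comm _ _

end HRF
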