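import Mathlib

/-!
# HRF : completeness of compact flat holomorphic Riemannian 3-manifolds

Definitions shared by all files of the project.
-/

namespace HRF

open Set Filter Topology Matrix

/-- `ℂ³`. -/
abbrev V := Fin 3 → ℂ

/-- complex `3 × 3` matrices. -/
abbrev Mat := Matrix (Fin 3) (Fin 3) ℂ

/-- Hermitian square norm. -/
noncomputable def nsq (v : V) : ℝ := ∑ i, Complex.normSq (v i)

/-! ### lifts of segments, star domains -/

section Star

variable {E : Type*} [TopologicalSpace E]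

/-- `c` is a continuous lift (on `[0,1]`), starting at `x`, of the segment `t ↦ D x + t • v`. -/
def IsLift (D : E → V) (x : E) (v : V) (c : ℝ → E) : Prop :=
  ContinuousOn c (Icc (0:ℝ) 1) ∧ c 0 = x ∧ ∀ t ∈ Icc (0:ℝ) 1, D (c t) = D x + t • v

/-- The star domain of `x`: all `v` such that the straight segment from `D x` to `D x + v` lifts
to a path starting at `x`. -/
def Star (D : E → V) (x : E) : Set V := {v | ∃ c, IsLift D x v c}

open Classical in
/-- The end point of the lift of the segment `[D x, D x + v]` starting at `x`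
(equal to `x` when there is no lift). -/
noncomputable def ext (D : E → V) (x : E) (v : V) : E :=
  if h : ∃ c, IsLift D x v c then (Classical.choose h) 1 else x

end Star

/-! ### ellipsoids containing the origin -/

/-- `w T w^*` for a covector `w` (real part; `T` Hermitian in practice). -/
noncomputable def qf (T : Mat) (w : V) : ℝ := (w ⬝ᵥ (T *ᵥ star w)).re

/-- parameters `(y, T)` of ellipsoids. A real vector space. -/
abbrev Par := V × Mat

/-- the (open) ellipsoid `{z | T + z y^* + y z^* - z z^* > 0}`. -/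
def Ell (c : Par) : Set V :=
  {z | ∀ w : V, w ≠ 0 →
    Complex.normSq (w ⬝ᵥ z) < qf c.2 w + 2 * ((w ⬝ᵥ z) * star (w ⬝ᵥ c.1)).re}

/-- the closed ellipsoid `{z | T + z y^* + y z^* - z z^* ≥ 0}`. -/
def cEll (c : Par) : Set V :=
  {z | ∀ w : V,
    Complex.normSq (w ⬝ᵥ z) ≤ qf c.2 w + 2 * ((w ⬝ᵥ z) * star (w ⬝ᵥ c.1)).re}

/-- `(y, T)` is an admissible parameter: `T` is Hermitian positive definite. -/
def IsPar (c : Par) : Prop := c.2.IsHermitian ∧ ∀ w : V, w ≠ 0 → 0 < qf c.2 w

/-- `φ_u(y, T) = 2 Re (u y) + u T u^*`; the plane `{z | u z = 1}` misses the ellipsoid iff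
`φ_u ≤ 1`. -/
noncomputable def phi (u : V) (c : Par) : ℝ := 2 * (u ⬝ᵥ c.1).re + qf c.2 u

/-- change of base point: `Ell (tau z c) = Ell c - z`. -/
noncomputable def tau (z : V) (c : Par) : Par :=
  (c.1 - z, c.2 + vecMulVec z (star c.1) + vecMulVec c.1 (star z) - vecMulVec z (star z))

/-- `P = T + y y^*`. -/
noncomputable def PP (c : Par) : Mat := c.2 + vecMulVec c.1 (star c.1)

/-- centre of the section of the ellipsoid `c` by the plane `{z | u z = 1}`. -/
noncomputable def ctr (u : V) (c : Par) : V :=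
  c.1 + ((1 - u ⬝ᵥ c.1) / (u ⬝ᵥ (PP c *ᵥ star u))) • (PP c *ᵥ star u)

/-- admissible parameters whose ellipsoid is contained in the star domain of `x`. -/
def Dom {E : Type*} [TopologicalSpace E] (D : E → V) (x : E) : Set Par :=
  {c | IsPar c ∧ Ell c ⊆ Star D x}

/-- `u` is a supporting isotropic covector at `x`. -/
def Supp {E : Type*} [TopologicalSpace E] (D : E → V) (x : E) (u : V) : Prop :=
  u ≠ 0 ∧ u ⬝ᵥ u = 0 ∧ (∀ c ∈ Dom D x, phi u c ≤ 1) ∧ ∃ c ∈ Dom D x, phi u c = 1

/-! ### the developing data -/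

/-- Developing data of a compact manifold locally modelled on `ℂ³` with the group
`SO(3,ℂ) ⋉ ℂ³`. -/
structure Dev (Γ E : Type*) [Group Γ] [TopologicalSpace E] [MulAction Γ E] where
  /-- the developing map -/
  D : E → V
  hD : IsLocalHomeomorph D
  /-- linear holonomy -/
  L : Γ → Mat
  /-- translation part of the holonomy -/
  b : Γ → V
  orth : ∀ γ, (L γ)ᵀ * L γ = 1
  det_one : ∀ γ, (L γ).det = 1
  L_one : L 1 = 1
  L_mul : ∀ γ γ', L (γ * γ') = L γ * L γ'
  b_mul : ∀ γ γ', b (γ * γ') = L γ *ᵥ b γ' + b γ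
  equiv : ∀ γ x, D (γ • x) = L γ *ᵥ D x + b γ
  cont : ∀ γ : Γ, Continuous fun x : E => γ • x
  /-- proper discontinuity -/
  pd : ∀ C : Set E, IsCompact C → {γ : Γ | ∃ x ∈ C, γ • x ∈ C}.Finite
  /-- a compact set meeting all orbits -/
  K : Set E
  hK : IsCompact K
  cover : ∀ x : E, ∃ γ : Γ, γ • x ∈ K

/-- `n` is the top direction of the orthogonal matrix `B`, with factor `μ`. -/
structure Top (B : Mat) (μ : ℝ) (n : V) : Prop where
  one_lt : 1 < μ
  nsq_n : nsq n = 1
  iso : n ⬝ᵥ n = 0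
  contr : ∀ v : V, n ⬝ᵥ v = 0 → nsq (B *ᵥ v) ≤ nsq v
  grow : ∀ u : V, μ * Complex.normSq (u ⬝ᵥ n) ≤ nsq (B *ᵥ u)

/-- A slab sequence at the point `x`: `q k ∈ Star x`, `γ k` brings `ext x (q k)` into the compact
set `K`, the linear holonomies `L (γ k)` have top data `(μ k, ν k)` with `μ k → ∞`,
`q k → p`, `ν k → n`. -/
structure SlabSeq {Γ E : Type*} [Group Γ] [TopologicalSpace E] [MulAction Γ E] (S : Dev Γ E)
    (x : E) (q : ℕ → V) (γ : ℕ → Γ) (μ : ℕ → ℝ) (ν : ℕ → V) (p n : V) : Prop where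
  mem : ∀ k, q k ∈ Star S.D x
  inK : ∀ k, γ k • ext S.D x (q k) ∈ S.K
  top : ∀ k, Top (S.L (γ k)) (μ k) (ν k)
  tends_μ : Tendsto μ atTop atTop
  tends_q : Tendsto q atTop (𝓝 p)
  tends_ν : Tendsto ν atTop (𝓝 n)

end HRF
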