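import Pool.Agent.HRF.CV2
import Pool.Agent.HRF.D4

/-!
# HRF-F1 : contacts are supporting, and all supporting covectors are parallel
-/

namespace HRF

open Set Filter Topology Matrix

variable {Γ E : Type*} [Group Γ] [TopologicalSpace E] [MulAction Γ E] [T2Space E]

/-- Change of base point for `Dom`: if `c ∈ Dom x` and `z ∈ Ell c` then
`tau z c ∈ Dom (ext x z)`.

Proof. `IsPar_tau`; for `z' ∈ Ell (tau z c)`, `z + z' ∈ Ell c` (`mem_Ell_tau`) and
`ext_convex` in `Ell c` from `z` to `z + z'`. -/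
theorem Dom.tau {D : E → V} (hD : IsLocalHomeomorph D) {x : E} {c : Par} (hc : c ∈ Dom D x)
    {z : V} (hz : z ∈ Ell c) : HRF.tau z c ∈ Dom D (ext D x z) := by
  refine ⟨IsPar_tau hc.1.1 hz, fun z' hz' => ?_⟩
  have h := (ext_convex hD (convex_Ell c) hc.2 hz (mem_Ell_tau.1 hz')).1
  rwa [add_sub_cancel_left] at h

/-- Change of base point backwards: let `z ∈ Star x`, `y = ext x z`, and `c'` an admissible
parameter with `0 ∈ Ell c'` [automatic] and `tau z c' ∈ Dom y`. Then `c' ∈ Dom x`.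

Proof. `-z ∈ Ell (tau z c')` because `z + (-z) = 0 ∈ Ell c'` (`zero_mem_Ell`, `IsPar c'`).
Apply `Dom.tau` at `y` with the point `-z`: `tau (-z) (tau z c') = c'` (`tau_neg_tau`) is in
`Dom (ext y (-z))`, and `ext y (-z) = x` by `ext_neg`. -/
theorem Dom.of_tau {D : E → V} (hD : IsLocalHomeomorph D) {x : E} {z : V}
    (hz : z ∈ Star D x) {c' : Par} (hc' : IsPar c')
    (h : HRF.tau z c' ∈ Dom D (ext D x z)) : c' ∈ Dom D x := by
  have h0 : (0 : V) ∈ Ell c' := zero_mem_Ell.2 hc'.2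
  have h1 : -z ∈ Ell (HRF.tau z c') := mem_Ell_tau.2 (by rwa [add_neg_cancel])
  have h2 := Dom.tau hD h h1
  rwa [tau_neg_tau, (ext_neg hD hz).2] at h2

/-- **Support.** With the notation of `contact_phi`, `φ_u ≤ 1` on `Dom x`.

Proof. Suppose `c' ∈ Dom x` with `φ_u(c') > 1`. Let `P t = (1 - t) • c + t • c'`, in `Dom x` by
`convex_Dom`, continuous, `P 0 = c`. `φ_u(P t) = (1 - t) + t φ_u(c') > 1` for `t ∈ (0,1]`.
`φ_{u_k}(c) > 1` and `φ_{u_k}(c') > 1` for large `k` (`contact_phi`, and `u_k → u` with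
`continuous_phi`), so `φ_{u_k}(P t) = (1-t) φ_{u_k}(c) + t φ_{u_k}(c') > 1`. Contradiction with
`core`. -/
theorem support (S : Dev Γ E) {x : E} {c : Par} (hc : c ∈ Dom S.D x) {q : ℕ → V}
    {γ : ℕ → Γ} {μ : ℕ → ℝ} {ν : ℕ → V} {p n : V} (hp : p ∈ cEll c) (hq : ∀ k, q k ∈ Ell c)
    (h : SlabSeq S x q γ μ ν p n) {c' : Par} (hc' : c' ∈ Dom S.D x) :
    phi ((n ⬝ᵥ p)⁻¹ • n) c' ≤ 1 := by
  by_contra hcon
  push Not at hcon
  obtain ⟨-, hu1, hlim, -, hev⟩ := contact_phi S hc hp hq h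
  have hphi : ∀ (u : V) (t : ℝ), phi u ((1 - t) • c + t • c') =
      (1 - t) * phi u c + t * phi u c' := fun u t => by rw [phi_add, phi_smul, phi_smul]
  have hev' : ∀ᶠ k in atTop, 1 < phi ((ν k ⬝ᵥ q k)⁻¹ • ν k) c' := by
    have hcont : Continuous fun u : V => phi u c' :=
      continuous_phi.comp (continuous_id.prodMk continuous_const)
    have h1 : Tendsto (fun k => phi ((ν k ⬝ᵥ q k)⁻¹ • ν k) c') atTop
        (𝓝 (phi ((n ⬝ᵥ p)⁻¹ • n) c')) := (hcont.tendsto _).comp hlim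
    exact h1.eventually (lt_mem_nhds hcon)
  refine core S hc hp hq h (P := fun t => (1 - t) • c + t • c') ?_ ?_ ?_ ?_ ?_
  · exact (((continuous_const.sub continuous_id).smul continuous_const).add
      (continuous_id.smul continuous_const)).continuousOn
  · simp
  · intro t ht
    exact convex_Dom S x hc hc' (by linarith [ht.2]) ht.1 (by ring)
  · intro t ht
    rw [hphi, hu1]
    nlinarith [ht.1, ht.2]
  · refine (hev.and hev').frequently.mono fun k hk t ht => ?_
    rw [hphi]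
    rcases eq_or_lt_of_le ht.1 with h0 | h0
    · rw [← h0]
      simpa using hk.1
    · nlinarith [hk.1, hk.2, ht.2, mul_pos h0 (sub_pos.2 hk.2),
        mul_nonneg (sub_nonneg.2 ht.2) (sub_pos.2 hk.1).le]

end HRF
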