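import Pool.Agent.HRF.F1

/-!
# HRF-F2a : all supporting covectors at a point are parallel
-/

namespace HRF

open Set Filter Topology Matrix

variable {Γ E : Type*} [Group Γ] [TopologicalSpace E] [MulAction Γ E] [T2Space E]

/-- The slab ellipsoid is in `Dom` at its centre. Proof. `IsPar_slabPar`,
`nsq_lt_of_mem_slab`, `Dev.slab_subset`. -/
theorem slabPar_mem_Dom (S : Dev Γ E) {r : ℝ} (hr0 : 0 < r)
    (hr : ∀ y ∈ S.K, ∀ v : V, nsq v < r ^ 2 → v ∈ Star S.D y) {γ : Γ} {x : E}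
    (hx : γ • x ∈ S.K) : slabPar (S.L γ) r ∈ Dom S.D x :=
  ⟨IsPar_slabPar (S.orth γ) hr0, fun _ hv =>
    S.slab_subset hr hx (nsq_lt_of_mem_slab (S.orth γ) hr0 hv)⟩

theorem f2a_qf_sub (A B : Mat) (w : V) : qf (A - B) w = qf A w - qf B w := by
  have h1 : A - B = A + (-1 : ℝ) • B := by
    rw [neg_one_smul, sub_eq_add_neg]
  rw [h1, qf_add, qf_smul]
  ring

theorem f2a_qf_self (q w : V) : qf (vecMulVec q (star q)) w = Complex.normSq (w ⬝ᵥ q) := by
  rw [qf_vecMulVec, Complex.star_def, Complex.mul_conj, Complex.ofReal_re]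

theorem f2a_herm_smul {A : Mat} (hA : A.IsHermitian) (t : ℝ) : (t • A).IsHermitian := by
  rw [Matrix.IsHermitian, Matrix.conjTranspose_smul, hA.eq, star_trivial]

theorem f2a_herm_vec (q : V) : (vecMulVec q (star q)).IsHermitian := by
  ext i j
  simp [Matrix.conjTranspose_apply, Matrix.vecMulVec_apply, mul_comm]

/-- A bound for the slabs. Let `c ∈ Dom x`, let `u'` be a covector with `φ_{u'} ≤ 1` on `Dom x`,
and let `R` be a bound. Then there is a constant `M` such that for all `q ∈ Ell c` and `γ` with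
`γ • ext x q ∈ K`: `nsq (L γ *ᵥ u') ≤ M`.

Proof. Let `r` be a uniform radius. `Ell c` is bounded: `nsq q ≤ R` for `q ∈ Ell c`
(`nsq_le_of_mem_cEll`). Let `m > 0` with `qf c.2 w ≥ m nsq w` (`exists_lower`). Fix
`t ∈ (0, 1/2]` with `t R < m / 4`, say `t = m / (4 (m + R + 1))`. Given `q, γ` let
`B = L γ`, `y = ext x q` and `c'' = (1 - t) • c + t • (q, (slabPar B r).2 - q q^*)`
(`q q^* = vecMulVec q (star q)`). It is admissible: Hermitian, and
`qf c''.2 w = (1-t) qf c.2 w + t r² nsq (B w) - t |w·q|² ≥ (m/2) nsq w - t R nsq w > 0`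
for `w ≠ 0`. `tau q c'' = (1 - t) • tau q c + t • slabPar B r` (`tau_affine`, and
`tau q (q, T - q q^*) = (0, T)`). Both `tau q c` (`Dom.tau`) and `slabPar B r`
(`slabPar_mem_Dom`) are in `Dom y`, hence `tau q c'' ∈ Dom y` by `convex_Dom`, hence `c'' ∈ Dom x`
by `Dom.of_tau`. So `φ_{u'}(c'') ≤ 1`:
`(1 - t) φ_{u'}(c) + t (2 Re (u'·q) + r² nsq (B u') - |u'·q|²) ≤ 1`.
As `φ_{u'}(c) ≥ -2 |u'·c.1|`, `|u'·q|² ≤ nsq u' * R`, this bounds `nsq (B u')` by a constant
independent of `q, γ`. -/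
theorem slab_bound (S : Dev Γ E) {x : E} {c : Par} (hc : c ∈ Dom S.D x) {u' : V}
    (hu' : ∀ c' ∈ Dom S.D x, phi u' c' ≤ 1) :
    ∃ M : ℝ, ∀ q ∈ Ell c, ∀ γ : Γ, γ • ext S.D x q ∈ S.K → nsq (S.L γ *ᵥ u') ≤ M := by
  obtain ⟨r, hr0, hr⟩ := uniform_radius S.hD S.hK
  obtain ⟨m, hm, hml⟩ := exists_lower hc.1.2
  set R : ℝ := 2 * (∑ i, ‖c.2 i i‖) + 4 * nsq c.1 with hR
  have hR0 : 0 ≤ R := by
    have h1 := nsq_nonneg c.1
    have h2 : 0 ≤ ∑ i, ‖c.2 i i‖ := Finset.sum_nonneg fun _ _ => norm_nonneg _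
    positivity
  set t : ℝ := m / (4 * (m + R + 1)) with ht
  have ht0 : 0 < t := by positivity
  have ht4 : t * (4 * (m + R + 1)) = m := by
    rw [ht]
    field_simp
  have htR : t * R ≤ m / 4 := by nlinarith
  have ht1 : t ≤ 1 / 4 := by nlinarith
  set A : ℝ := 1 + |phi u' c| + t * (1 + 2 * (nsq u' * R)) with hA
  refine ⟨A / (t * r ^ 2), ?_⟩
  intro q hq γ hγ
  have hqR : nsq q ≤ R := nsq_le_of_mem_cEll (Ell_subset_cEll c hq)
  have hqS : q ∈ Star S.D x := hc.2 hq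
  set B := S.L γ with hB
  set y := ext S.D x q with hy
  set Q : Par := (q, (slabPar B r).2 - vecMulVec q (star q)) with hQ
  set c2 : Par := (1 - t) • c + t • Q with hc2
  have htau : tau q Q = slabPar B r := by
    refine Prod.ext ?_ ?_
    · simp [hQ, tau, slabPar]
    · simp [hQ, tau]
  have hmemy : tau q c2 ∈ Dom S.D y := by
    rw [hc2, tau_affine, htau]
    exact convex_Dom S y (Dom.tau S.hD hc hq) (slabPar_mem_Dom S hr0 hr hγ) (by linarith) ht0.le
      (by ring)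
  have hqf : ∀ w : V, qf c2.2 w = (1 - t) * qf c.2 w +
      t * (r ^ 2 * nsq (B *ᵥ w) - Complex.normSq (w ⬝ᵥ q)) := by
    intro w
    have h1 : c2.2 = (1 - t) • c.2 + t • ((slabPar B r).2 - vecMulVec q (star q)) := rfl
    rw [h1, qf_add, qf_smul, qf_smul, f2a_qf_sub, qf_slabPar, f2a_qf_self]
  have hpar : IsPar c2 := by
    constructor
    · have h1 : c2.2 = (1 - t) • c.2 + t • ((slabPar B r).2 - vecMulVec q (star q)) := rfl
      rw [h1]
      exact (f2a_herm_smul hc.1.1 _).add (f2a_herm_smul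
        ((IsPar_slabPar (S.orth γ) hr0).1.sub (f2a_herm_vec q)) _)
    · intro w hw
      rw [hqf]
      have hw0 : 0 < nsq w := lt_of_le_of_ne (nsq_nonneg w) fun h => hw (nsq_eq_zero.1 h.symm)
      have h1 := hml w
      have h2 := normSq_dot_le w q
      have h3 : nsq w * nsq q ≤ nsq w * R := mul_le_mul_of_nonneg_left hqR hw0.le
      have h4 : 0 ≤ r ^ 2 * nsq (B *ᵥ w) := mul_nonneg (by positivity) (nsq_nonneg _)
      have h5 : (1 - t) * (m * nsq w) ≤ (1 - t) * qf c.2 w :=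
        mul_le_mul_of_nonneg_left h1 (by linarith)
      have h6 : t * -(nsq w * R) ≤ t * (r ^ 2 * nsq (B *ᵥ w) - Complex.normSq (w ⬝ᵥ q)) :=
        mul_le_mul_of_nonneg_left (by linarith) ht0.le
      have h7 : (t * R) * nsq w ≤ m / 4 * nsq w := mul_le_mul_of_nonneg_right htR hw0.le
      have h8 : t * (m * nsq w) ≤ 1 / 4 * (m * nsq w) :=
        mul_le_mul_of_nonneg_right ht1 (by positivity)
      have h9 : 0 < m * nsq w := by positivity
      nlinarith
  have hdom : c2 ∈ Dom S.D x := Dom.of_tau S.hD hqS hpar hmemy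
  have hphi := hu' c2 hdom
  have hphi2 : phi u' c2 = (1 - t) * phi u' c +
      t * (2 * (u' ⬝ᵥ q).re + (r ^ 2 * nsq (B *ᵥ u') - Complex.normSq (u' ⬝ᵥ q))) := by
    unfold phi
    rw [hqf]
    have h1 : c2.1 = (1 - t) • c.1 + t • q := rfl
    rw [h1, dotProduct_add, dotProduct_smul, dotProduct_smul, Complex.add_re, Complex.real_smul,
      Complex.real_smul, Complex.re_ofReal_mul, Complex.re_ofReal_mul]
    ring
  rw [hphi2] at hphi
  have h2 := normSq_dot_le u' q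
  have h3 : nsq u' * nsq q ≤ nsq u' * R := mul_le_mul_of_nonneg_left hqR (nsq_nonneg _)
  have h10 : -(1 + Complex.normSq (u' ⬝ᵥ q)) ≤ 2 * (u' ⬝ᵥ q).re := by
    rw [Complex.normSq_apply]
    nlinarith [sq_nonneg ((u' ⬝ᵥ q).re + 1), sq_nonneg (u' ⬝ᵥ q).im]
  have h11 : -|phi u' c| ≤ (1 - t) * phi u' c := by
    have h12 := neg_abs_le (phi u' c)
    have h13 := abs_nonneg (phi u' c)
    nlinarith
  rw [le_div_iff₀ (by positivity)]
  have h14 : t * (2 * (u' ⬝ᵥ q).re + (r ^ 2 * nsq (B *ᵥ u') - Complex.normSq (u' ⬝ᵥ q))) =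
      t * (2 * (u' ⬝ᵥ q).re - Complex.normSq (u' ⬝ᵥ q)) + nsq (B *ᵥ u') * (t * r ^ 2) := by ring
  have h15 : t * (-(1 + 2 * (nsq u' * R))) ≤
      t * (2 * (u' ⬝ᵥ q).re - Complex.normSq (u' ⬝ᵥ q)) :=
    mul_le_mul_of_nonneg_left (by linarith) ht0.le
  rw [hA]
  linarith

end HRF
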