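import Pool.Agent.HRF.CV1

/-!
# HRF-F2b : all supporting covectors at a point are parallel
-/

namespace HRF

open Set Filter Topology Matrix

variable {Γ E : Type*} [Group Γ] [TopologicalSpace E] [MulAction Γ E] [T2Space E]

/-- Maximal centred ellipsoids. If `Star x` is not everything and `T` is positive definite, there
are `s > 0` and `p` with `s • (0, T) ∈ Dom x`, `p ∈ cEll (s • (0, T))`, `p ∉ Star x`.

Proof. `A = {s > 0 | s • (0,T) ∈ Dom x}` is nonempty (`Ell_subset_of_small`), downward closed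
(`Dom.smul`), and bounded above: pick `v ∉ Star x`; by `mem_Ell_centred`, `v ∈ Ell (s • (0,T))` for
`s > s₀`. Let `s = sSup A > 0`. `s • (0,T) ∈ Dom x` by `Dom.of_frequently`. For `j ≥ 1`
`(s + 1/j) • (0,T) ∉ Dom x`: there is `z_j ∈ Ell ((s + 1/j) • (0,T))`, `z_j ∉ Star x`; bounded
(`nsq_le_of_mem_cEll`), a subsequence converges to `p ∉ Star x` (`exists_limit`),
`p ∈ cEll (s • (0,T))` by `isClosed_cEll`. -/
theorem exists_maximal {D : E → V} (hD : IsLocalHomeomorph D) {x : E} (hx : Star D x ≠ univ)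
    {T : Mat} (hT : IsPar ((0 : V), T)) :
    ∃ (s : ℝ) (p : V), 0 < s ∧ s • ((0 : V), T) ∈ Dom D x ∧ p ∈ cEll (s • ((0 : V), T)) ∧
      p ∉ Star D x := by
  have hpar : ∀ s : ℝ, 0 < s → IsPar (s • ((0 : V), T)) := fun s hs => hT.smul hs
  have hii : ∀ (s : ℝ) (i : Fin 3), 0 ≤ s → ‖(s • ((0 : V), T)).2 i i‖ = s * ‖T i i‖ := by
    intro s i hs
    have h1 : (s • ((0 : V), T)).2 i i = s • T i i := rfl
    rw [h1, norm_smul, Real.norm_of_nonneg hs]
  have h1z : ∀ s : ℝ, nsq (s • ((0 : V), T)).1 = 0 := by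
    intro s
    have h1 : (s • ((0 : V), T)).1 = s • (0 : V) := rfl
    rw [h1, smul_zero]
    exact nsq_eq_zero.2 rfl
  obtain ⟨A, hA⟩ : ∃ A : Set ℝ, A = {s : ℝ | 0 < s ∧ s • ((0 : V), T) ∈ Dom D x} := ⟨_, rfl⟩
  have memA : ∀ s, s ∈ A ↔ 0 < s ∧ s • ((0 : V), T) ∈ Dom D x := fun s => by rw [hA]; exact Iff.rfl
  have hsum0 : 0 ≤ ∑ i, ‖T i i‖ := Finset.sum_nonneg fun i _ => norm_nonneg _
  -- nonempty
  have hne : A.Nonempty := by
    obtain ⟨δ, hδ, h⟩ := Ell_subset_of_small ((isOpen_Star hD x).mem_nhds (zero_mem_Star (D := D) (x := x)))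
    obtain ⟨M, hM⟩ : ∃ M, M = ∑ i, ‖T i i‖ + 1 := ⟨_, rfl⟩
    have hM0 : 0 < M := by linarith
    have hs : 0 < δ / (2 * M) := by positivity
    refine ⟨δ / (2 * M), (memA _).2 ⟨hs, hpar _ hs, h _ ?_ ?_⟩⟩
    · rw [h1z]; exact hδ
    · intro i
      rw [hii _ i hs.le]
      have h2 : ‖T i i‖ ≤ M := by
        have h3 : ‖T i i‖ ≤ ∑ i, ‖T i i‖ :=
          Finset.single_le_sum (f := fun i => ‖T i i‖) (fun i _ => norm_nonneg _) (Finset.mem_univ i)
        linarith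
      calc δ / (2 * M) * ‖T i i‖ ≤ δ / (2 * M) * M := mul_le_mul_of_nonneg_left h2 hs.le
        _ = δ / 2 := by field_simp
        _ < δ := by linarith
  -- bounded above
  obtain ⟨v, hv⟩ : ∃ v, v ∉ Star D x := by
    by_contra hcon
    push Not at hcon
    exact hx (eq_univ_of_forall hcon)
  obtain ⟨s₀, hs₀, hmem⟩ := mem_Ell_centred hT v
  have hbdd : BddAbove A := by
    refine ⟨s₀, fun a ha => ?_⟩
    by_contra hcon
    push Not at hcon
    exact hv (((memA a).1 ha).2.2 (hmem a hcon))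
  obtain ⟨s, hs⟩ : ∃ s, s = sSup A := ⟨_, rfl⟩
  obtain ⟨a₀, ha₀⟩ := hne
  have hspos : 0 < s := by
    have h1 := le_csSup hbdd ha₀
    rw [← hs] at h1
    exact lt_of_lt_of_le ((memA a₀).1 ha₀).1 h1
  have hsDom : s • ((0 : V), T) ∈ Dom D x := by
    refine Dom.of_frequently (hpar s hspos) fun s₁ hs₁ => ?_
    have hm : max s₁ (1 / 2) < 1 := max_lt hs₁ (by norm_num)
    have hm0 : max s₁ (1 / 2) * s < s := by nlinarith
    rw [hs] at hm0
    obtain ⟨a, ha, hlt⟩ := exists_lt_of_lt_csSup ⟨a₀, ha₀⟩ hm0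
    have hle := le_csSup hbdd ha
    rw [← hs] at hle hlt
    have ha' := (memA a).1 ha
    refine ⟨a / s, ?_, ?_, ?_, ?_⟩
    · rw [lt_div_iff₀ hspos]
      exact lt_of_le_of_lt (mul_le_mul_of_nonneg_right (le_max_left _ _) hspos.le) hlt
    · rw [div_le_one hspos]; exact hle
    · exact div_pos ha'.1 hspos
    · rw [smul_smul, div_mul_cancel₀ _ hspos.ne']
      exact ha'.2
  -- the points outside
  have hz : ∀ j : ℕ, ∃ z, z ∈ Ell ((s + 1 / ((j : ℝ) + 1)) • ((0 : V), T)) ∧ z ∉ Star D x := by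
    intro j
    have hj : 0 < 1 / ((j : ℝ) + 1) := by positivity
    by_contra hcon
    push Not at hcon
    have hmemA : s + 1 / ((j : ℝ) + 1) ∈ A :=
      (memA _).2 ⟨by linarith, hpar _ (by linarith), fun z hz => hcon z hz⟩
    have h1 := le_csSup hbdd hmemA
    rw [← hs] at h1
    linarith
  choose z hz1 hz2 using hz
  have hR : ∀ j, nsq (z j) ≤ 2 * ((s + 1) * ∑ i, ‖T i i‖) := by
    intro j
    have h1 := nsq_le_of_mem_cEll (Ell_subset_cEll _ (hz1 j))
    rw [h1z, mul_zero, add_zero] at h1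
    have hj : 0 < 1 / ((j : ℝ) + 1) := by positivity
    have hj1 : 1 / ((j : ℝ) + 1) ≤ 1 := by
      rw [div_le_one (by positivity)]
      have : (0 : ℝ) ≤ j := Nat.cast_nonneg j
      linarith
    have h2 : ∑ i, ‖((s + 1 / ((j : ℝ) + 1)) • ((0 : V), T)).2 i i‖ =
        (s + 1 / ((j : ℝ) + 1)) * ∑ i, ‖T i i‖ := by
      rw [Finset.mul_sum]
      exact Finset.sum_congr rfl fun i _ => hii _ i (by linarith)
    rw [h2] at h1
    have h3 : (s + 1 / ((j : ℝ) + 1)) * ∑ i, ‖T i i‖ ≤ (s + 1) * ∑ i, ‖T i i‖ :=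
      mul_le_mul_of_nonneg_right (by linarith) hsum0
    linarith
  obtain ⟨φ, t₀, p, hφ, _, _, hp, hpO⟩ := exists_limit (isOpen_Star hD x) (t := fun _ => 0)
    (fun _ => ⟨le_refl _, zero_le_one⟩) hR hz2
  refine ⟨s, p, hspos, hsDom, ?_, hpO⟩
  have hlim : Tendsto (fun j : ℕ => s + 1 / ((j : ℝ) + 1)) atTop (𝓝 s) := by
    have h1 := tendsto_one_div_add_atTop_nhds_zero_nat (𝕜 := ℝ)
    have h2 := h1.const_add s
    rwa [add_zero] at h2
  have hlim2 : Tendsto (fun j : ℕ => ((s + 1 / (((φ j : ℕ) : ℝ) + 1)) • ((0 : V), T), z (φ j))) atTop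
      (𝓝 (s • ((0 : V), T), p)) := by
    refine Tendsto.prodMk_nhds ?_ hp
    exact (hlim.comp hφ.tendsto_atTop).smul_const ((0 : V), T)
  have hcl := isClosed_cEll.mem_of_tendsto hlim2
    (Eventually.of_forall fun j => Ell_subset_cEll _ (hz1 (φ j)))
  exact hcl

end HRF
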