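import Pool.Agent.HRF.F2a

/-!
# HRF-F2c : all supporting covectors at a point are parallel
-/

namespace HRF

open Set Filter Topology Matrix

variable {Γ E : Type*} [Group Γ] [TopologicalSpace E] [MulAction Γ E] [T2Space E]

/-- **Existence of contacts and parallelism.** Let `c ∈ Dom x` and `p ∈ cEll c`, `p ∉ Star x`.
Then there is a unit isotropic vector `n` with `n·p ≠ 0` such that `u = (n·p)⁻¹ n` is a supporting
covector at `x`, `φ_u(c) = 1`, and all supporting covectors at `x` are multiples of `n`.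

Proof. `p ∈ closure (Ell c)` by `smul_mem_Ell`; `slab_exists` with `C = Ell c`; `contact_phi`,
`support`, `SlabSeq.lim`. Parallelism: let `u'` be supporting. By `slab_bound` and `Top.grow`,
`μ k * |u'·ν k|² ≤ nsq (L (γ k) u') ≤ M`, so `|u'·ν k|² ≤ M / μ k → 0` and `u'·n = 0`.
`isotropic_parallel` gives `u' = κ • n`. -/
theorem exists_contact (S : Dev Γ E) {x : E} {c : Par} (hc : c ∈ Dom S.D x) {p : V}
    (hp : p ∈ cEll c) (hpS : p ∉ Star S.D x) :
    ∃ n : V, nsq n = 1 ∧ n ⬝ᵥ n = 0 ∧ n ⬝ᵥ p ≠ 0 ∧ phi ((n ⬝ᵥ p)⁻¹ • n) c = 1 ∧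
      Supp S.D x ((n ⬝ᵥ p)⁻¹ • n) ∧ ∀ u' : V, Supp S.D x u' → ∃ κ : ℂ, u' = κ • n := by
  have hpar := hc.1
  have h0 : (0 : V) ∈ Ell c := zero_mem_Ell.2 hpar.2
  have hcl : p ∈ closure (Ell c) := by
    have h1 : Tendsto (fun t : ℝ => t • p) (𝓝[<] (1 : ℝ)) (𝓝 ((1 : ℝ) • p)) := by
      have hcont : Continuous (fun t : ℝ => t • p) := continuous_id.smul continuous_const
      exact hcont.continuousAt.tendsto.mono_left nhdsWithin_le_nhds
    rw [one_smul] at h1
    refine mem_closure_of_tendsto h1 ?_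
    have h2 : Set.Ioo (0 : ℝ) 1 ∈ 𝓝[<] (1 : ℝ) := Ioo_mem_nhdsLT one_pos
    filter_upwards [h2] with t ht
    exact smul_mem_Ell hpar hp ⟨ht.1.le, ht.2⟩
  obtain ⟨q, γ, μ, ν, n, hq, h⟩ := slab_exists S (convex_Ell c) (isOpen_Ell c) h0 hc.2 hcl hpS
  obtain ⟨hnp, hphi, -, -, -⟩ := contact_phi S hc hp hq h
  obtain ⟨hn1, hnn, hn0⟩ := h.lim
  refine ⟨n, hn1, hnn, hnp, hphi, ⟨?_, ?_, ?_, ⟨c, hc, hphi⟩⟩, ?_⟩
  · exact smul_ne_zero (inv_ne_zero hnp) hn0
  · rw [smul_dotProduct, dotProduct_smul, hnn, smul_zero, smul_zero]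
  · intro c' hc'
    exact support S hc hp hq h hc'
  · intro u' hu'
    obtain ⟨M, hM⟩ := slab_bound S hc hu'.2.2.1
    have h1 : ∀ k, μ k * Complex.normSq (u' ⬝ᵥ ν k) ≤ M := fun k =>
      ((h.top k).grow u').trans (hM (q k) (hq k) (γ k) (h.inK k))
    have h2 : Tendsto (fun k => M / μ k) atTop (𝓝 0) := h.tends_μ.const_div_atTop M
    have h3 : Tendsto (fun k => Complex.normSq (u' ⬝ᵥ ν k)) atTop (𝓝 0) := by
      refine squeeze_zero (fun k => Complex.normSq_nonneg _) (fun k => ?_) h2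
      have hμ : 0 < μ k := lt_trans one_pos (h.top k).one_lt
      rw [le_div_iff₀ hμ, mul_comm]
      exact h1 k
    have h4 : Tendsto (fun k => Complex.normSq (u' ⬝ᵥ ν k)) atTop (𝓝 (Complex.normSq (u' ⬝ᵥ n))) := by
      have hcont : Continuous (fun v : V => Complex.normSq (u' ⬝ᵥ v)) := by
        refine Complex.continuous_normSq.comp ?_
        show Continuous fun v : V => ∑ i, u' i * v i
        exact continuous_finset_sum _ fun i _ => continuous_const.mul (continuous_apply i)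
      exact (hcont.tendsto n).comp h.tends_ν
    have h5 : Complex.normSq (u' ⬝ᵥ n) = 0 := tendsto_nhds_unique h4 h3
    exact isotropic_parallel hn0 hnn hu'.2.1 (Complex.normSq_eq_zero.1 h5)

end HRF
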