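import Pool.Agent.HRF.F2c

/-!
# HRF-F3a : persistence of supporting covectors, constancy of their direction, equivariance
-/

namespace HRF

open Set Filter Topology Matrix

variable {Γ E : Type*} [Group Γ] [TopologicalSpace E] [MulAction Γ E] [T2Space E]

/-- A crude bound of a quadratic form. -/
theorem f3a_qf_bound (T : Mat) : ∃ C : ℝ, 0 ≤ C ∧ ∀ w : V, |qf T w| ≤ C * nsq w := by
  refine ⟨∑ i, ∑ j, ‖T i j‖, by positivity, fun w => ?_⟩
  have h1 : |qf T w| ≤ ‖w ⬝ᵥ (T *ᵥ star w)‖ := Complex.abs_re_le_norm _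
  have h2 : w ⬝ᵥ (T *ᵥ star w) = ∑ i, ∑ j, w i * (T i j * star (w j)) := by
    simp only [dotProduct, mulVec, Finset.mul_sum, Pi.star_apply]
  have h3 : ‖w ⬝ᵥ (T *ᵥ star w)‖ ≤ ∑ i, ∑ j, ‖T i j‖ * nsq w := by
    rw [h2]
    refine (norm_sum_le _ _).trans (Finset.sum_le_sum fun i _ => ?_)
    refine (norm_sum_le _ _).trans (Finset.sum_le_sum fun j _ => ?_)
    rw [norm_mul, norm_mul, norm_star]
    have hi : ‖w i‖ ^ 2 ≤ nsq w := by
      rw [← Complex.normSq_eq_norm_sq]
      exact Finset.single_le_sum (f := fun i => Complex.normSq (w i))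
        (fun k _ => Complex.normSq_nonneg _) (Finset.mem_univ i)
    have hj : ‖w j‖ ^ 2 ≤ nsq w := by
      rw [← Complex.normSq_eq_norm_sq]
      exact Finset.single_le_sum (f := fun i => Complex.normSq (w i))
        (fun k _ => Complex.normSq_nonneg _) (Finset.mem_univ j)
    have hij : ‖w i‖ * ‖w j‖ ≤ nsq w := by
      nlinarith [sq_nonneg (‖w i‖ - ‖w j‖)]
    calc ‖w i‖ * (‖T i j‖ * ‖w j‖) = ‖T i j‖ * (‖w i‖ * ‖w j‖) := by ring
      _ ≤ ‖T i j‖ * nsq w := mul_le_mul_of_nonneg_left hij (norm_nonneg _)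
  refine h1.trans (h3.trans (le_of_eq ?_))
  simp only [Finset.sum_mul]

theorem f3a_nsq_pos {w : V} (hw : w ≠ 0) : 0 < nsq w := by
  obtain ⟨i, hi⟩ : ∃ i, w i ≠ 0 := by
    by_contra h
    push Not at h
    exact hw (funext h)
  exact Finset.sum_pos' (fun k _ => Complex.normSq_nonneg _)
    ⟨i, Finset.mem_univ i, Complex.normSq_pos.mpr hi⟩

/-- `tau` preserves the Hermitian property. -/
theorem f3a_herm_tau {c : Par} (hc : c.2.IsHermitian) (z : V) : (tau z c).2.IsHermitian := by
  ext i j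
  have h := congrFun (congrFun hc i) j
  simp only [Matrix.conjTranspose_apply] at h
  simp only [tau, Matrix.conjTranspose_apply, Matrix.add_apply, Matrix.sub_apply,
    Matrix.vecMulVec_apply, Pi.star_apply, star_add, star_sub, star_mul', star_star, h]
  ring

/-- **Persistence.** Let `u` be a supporting covector at `x`, `c ∈ Dom x` with `φ_u(c) = 1`, and
`z ∈ Ell c`. Then `1 - u·z ≠ 0` and `u' = (1 - u·z)⁻¹ • u` is supporting at `ext x z`.

Proof. If `u·z = 1` then `φ_u(c) > 1` by `one_lt_phi`, contradiction; so `1 - u·z ≠ 0`.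
`u' ≠ 0`, `u'·u' = 0`. `tau z c ∈ Dom (ext x z)` (`Dom.tau`) and `φ_{u'}(tau z c) = 1` by
`one_sub_phi_tau`. Let `c'' ∈ Dom (ext x z)` with `φ_{u'}(c'') > 1`, for a contradiction. For
`t ∈ [0,1]`, `(1 - t) • tau z c + t • c'' ∈ Dom (ext x z)` by `convex_Dom`, and it equals
`tau z c_t` with `c_t = (1 - t) • c + t • tau (-z) c''` (`tau_affine`, `tau_neg_tau` with `-z`).
For small `t > 0`, `c_t` is admissible: Hermitian, and
`qf c_t.2 w ≥ (1 - t) m nsq w - t |qf (tau (-z) c'').2 w|` with `m > 0` from `exists_lower`, and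
`|qf T w| ≤ C nsq w`. So `c_t ∈ Dom x` by `Dom.of_tau`, and `φ_u(c_t) ≤ 1`. By `one_sub_phi_tau`,
`φ_{u'}(tau z c_t) ≤ 1`; but `φ_{u'}(tau z c_t) = (1 - t) + t φ_{u'}(c'') > 1`.
Contradiction. -/
theorem persistence (S : Dev Γ E) {x : E} {u : V} (hu : Supp S.D x u) {c : Par}
    (hc : c ∈ Dom S.D x) (hφ : phi u c = 1) {z : V} (hz : z ∈ Ell c) :
    1 - u ⬝ᵥ z ≠ 0 ∧ Supp S.D (ext S.D x z) ((1 - u ⬝ᵥ z)⁻¹ • u) := by
  have h0 : 1 - u ⬝ᵥ z ≠ 0 := by
    intro h
    have h1 : u ⬝ᵥ z = 1 := (sub_eq_zero.mp h).symm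
    have h2 := one_lt_phi hz h1
    linarith
  refine ⟨h0, ?_⟩
  set κ : ℂ := (1 - u ⬝ᵥ z)⁻¹ with hκ
  have hκ0 : κ ≠ 0 := inv_ne_zero h0
  have hN : 0 < Complex.normSq (1 - u ⬝ᵥ z) := Complex.normSq_pos.mpr h0
  have htau : tau z c ∈ Dom S.D (ext S.D x z) := Dom.tau S.hD hc hz
  have hphi1 : phi (κ • u) (tau z c) = 1 := by
    have h := one_sub_phi_tau (c := c) (u := u) (z := z) h0
    rw [hφ, sub_self] at h
    rcases mul_eq_zero.mp h.symm with h' | h'
    · exact absurd h' hN.ne'
    · rw [← hκ] at h'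
      linarith
  refine ⟨smul_ne_zero hκ0 hu.1, ?_, ?_, ⟨tau z c, htau, hphi1⟩⟩
  · rw [smul_dotProduct, dotProduct_smul, hu.2.1, smul_zero, smul_zero]
  · intro c'' hc''
    by_contra hcon
    rw [not_le] at hcon
    set d : Par := tau (-z) c'' with hd
    have hdz : tau z d = c'' := by
      have h := tau_neg_tau (-z) c''
      rwa [neg_neg] at h
    have hdH : d.2.IsHermitian := f3a_herm_tau hc''.1.1 (-z)
    obtain ⟨m, hm, hlow⟩ := exists_lower hc.1.2
    obtain ⟨C, hC, hup⟩ := f3a_qf_bound d.2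
    -- choose a small parameter
    set t : ℝ := m / (2 * (m + C)) with ht
    have hmC : 0 < m + C := by linarith
    have ht0 : 0 < t := by positivity
    have ht1 : t ≤ 1 / 2 := by
      rw [ht, div_le_div_iff₀ (by positivity) (by norm_num)]
      linarith
    have hkey : t * (m + C) = m / 2 := by
      rw [ht]
      field_simp
    set ct : Par := (1 - t) • c + t • d with hct
    have hctP : IsPar ct := by
      refine ⟨?_, fun w hw => ?_⟩
      · ext i j
        have h1 := congrFun (congrFun hc.1.1 i) j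
        have h2 := congrFun (congrFun hdH i) j
        simp only [Matrix.conjTranspose_apply] at h1 h2
        simp only [hct, Prod.snd_add, Prod.smul_snd, Matrix.conjTranspose_apply,
          Matrix.add_apply, Matrix.smul_apply, star_add, star_smul, h1, h2, star_trivial]
      · have e : qf ct.2 w = (1 - t) * qf c.2 w + t * qf d.2 w := by
          simp only [hct, Prod.snd_add, Prod.smul_snd, qf_add, qf_smul]
        rw [e]
        have hnw := f3a_nsq_pos hw
        have h1 := hlow w
        have h2 := (abs_le.mp (hup w)).1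
        have h3 : (1 - t) * (m * nsq w) ≤ (1 - t) * qf c.2 w :=
          mul_le_mul_of_nonneg_left h1 (by linarith)
        have h4 : t * (-(C * nsq w)) ≤ t * qf d.2 w := mul_le_mul_of_nonneg_left h2 ht0.le
        have h5 : (1 - t) * (m * nsq w) + t * (-(C * nsq w)) = (m / 2) * nsq w := by
          have : (1 - t) * (m * nsq w) + t * (-(C * nsq w))
              = (m - t * (m + C)) * nsq w := by ring
          rw [this, hkey]
          ring
        have h6 : 0 < (m / 2) * nsq w := by positivity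
        linarith
    have htct : tau z ct = (1 - t) • tau z c + t • c'' := by
      rw [hct, tau_affine, hdz]
    have hmem : tau z ct ∈ Dom S.D (ext S.D x z) := by
      rw [htct]
      exact convex_Dom S (ext S.D x z) htau hc'' (by linarith) ht0.le (by ring)
    have hctD : ct ∈ Dom S.D x := Dom.of_tau S.hD (hc.2 hz) hctP hmem
    have hle := hu.2.2.1 ct hctD
    have h := one_sub_phi_tau (c := ct) (u := u) (z := z) h0
    rw [← hκ] at h
    have hge : 0 ≤ 1 - phi (κ • u) (tau z ct) := by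
      by_contra hneg
      rw [not_le] at hneg
      have := mul_neg_of_pos_of_neg hN hneg
      linarith
    rw [htct, phi_add, phi_smul, phi_smul, hphi1] at hge
    have : 0 < t * (phi (κ • u) c'' - 1) := mul_pos ht0 (by linarith)
    nlinarith

end HRF
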