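import Pool.Agent.HRF.F3a
import Pool.Agent.HRF.F2b

/-!
# HRF-F3b : persistence of supporting covectors, constancy of their direction, equivariance
-/

namespace HRF

open Set Filter Topology Matrix

variable {Γ E : Type*} [Group Γ] [TopologicalSpace E] [MulAction Γ E] [T2Space E]

/-- Images of the parameters in `Dom x`. -/
theorem f3b_dom (S : Dev Γ E) (γ : Γ) {x : E} {c : Par} (hc : c ∈ Dom S.D x) :
    ((S.L γ *ᵥ c.1, S.L γ * c.2 * (S.L γ)ᴴ) : Par) ∈ Dom S.D (γ • x) := by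
  have hL := S.orth γ
  have hL' : S.L γ * (S.L γ)ᵀ = 1 := mul_eq_one_comm.1 hL
  refine ⟨IsPar_image hL hc.1, fun z hz => ?_⟩
  have h1 : z = S.L γ *ᵥ ((S.L γ)ᵀ *ᵥ z) := by
    rw [Matrix.mulVec_mulVec, hL', Matrix.one_mulVec]
  rw [h1] at hz ⊢
  exact (S.mem_star_smul γ x _).2 (hc.2 ((mem_Ell_image hL).1 hz))

/-- Equivariance. Proof. `c ∈ Dom x ↔ (L c.1, L c.2 Lᴴ) ∈ Dom (γ • x)` by `mem_Ell_image`,
`IsPar_image`, `Dev.mem_star_smul` (every element of `Ell (L c.1, L c.2 Lᴴ)` is `L *ᵥ z` with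
`z = Lᵀ *ᵥ …`), and every parameter in `Dom (γ • x)` is of this form (use `γ⁻¹`);
`phi_image`; `(L u)·(L u) = u·u`. -/
theorem Supp.smul (S : Dev Γ E) {x : E} {u : V} (hu : Supp S.D x u) (γ : Γ) :
    Supp S.D (γ • x) (S.L γ *ᵥ u) := by
  have hL := S.orth γ
  have hLi : S.L γ⁻¹ = (S.L γ)ᵀ := S.L_inv γ
  have hback : S.L γ⁻¹ *ᵥ (S.L γ *ᵥ u) = u := by
    rw [hLi, Matrix.mulVec_mulVec, hL, Matrix.one_mulVec]
  obtain ⟨hu0, huu, hle, c, hc, hcu⟩ := hu
  refine ⟨?_, ?_, ?_, ?_⟩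
  · intro h0
    rw [h0, Matrix.mulVec_zero] at hback
    exact hu0 hback.symm
  · rw [← huu]
    have h1 : (S.L γ *ᵥ u) ⬝ᵥ (S.L γ *ᵥ u) = u ⬝ᵥ ((S.L γ)ᵀ *ᵥ (S.L γ *ᵥ u)) := by
      rw [Matrix.dotProduct_mulVec u, Matrix.vecMul_transpose]
    rw [h1, Matrix.mulVec_mulVec, hL, Matrix.one_mulVec]
  · intro c' hc'
    have h1 := f3b_dom S γ⁻¹ hc'
    rw [inv_smul_smul] at h1
    have h2 := phi_image (S.orth γ⁻¹) (S.L γ *ᵥ u) c'
    rw [hback] at h2
    rw [← h2]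
    exact hle _ h1
  · refine ⟨_, f3b_dom S γ hc, ?_⟩
    rw [phi_image hL, hcu]

/-- **The direction of supporting covectors is constant.** If `D` is not bijective there is a unit
isotropic `u₀` such that for every `x` there is a supporting covector at `x`, and all of them are
multiples of `u₀`.

Proof. No star domain is everything (`bijective_of_star_univ`). For each `x`, `exists_maximal` with
`T = 1` and `exists_contact` give a unit isotropic `n_x` such that some supporting covector exists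
and all are multiples of `n_x`. Define `f x = {v : V | ∃ κ : ℂ, v = κ • n_x}` (a complex line).
If `u` is supporting at `x`, then `f x` is the line spanned by `u` (`u ≠ 0`).
`f` is locally constant: let `u = (n·p)⁻¹ n` be the contact of `c = s • (0,1)`, with
`φ_u(c) = 1`. By `persistence`, for `z ∈ Ell c`, a nonzero multiple of `u` is supporting at
`ext x z`, so `f (ext x z) = f x`; and `ext x '' Ell c` is open (`isOpen_image_ext`) and contains
`x = ext x 0`. As `E` is connected, `f` is constant (`IsLocallyConstant`, or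
`IsPreconnected.constant`). Take `u₀ = n_{x₀}`. -/
theorem exists_direction [ConnectedSpace E] (S : Dev Γ E) (hS : ¬ Function.Bijective S.D) :
    ∃ u₀ : V, nsq u₀ = 1 ∧ u₀ ⬝ᵥ u₀ = 0 ∧
      (∀ x : E, ∃ u : V, Supp S.D x u) ∧ (∀ x : E, ∀ u : V, Supp S.D x u → ∃ κ : ℂ, u = κ • u₀) := by
  have hone : IsPar ((0 : V), (1 : Mat)) := by
    refine ⟨Matrix.isHermitian_one, fun w hw => ?_⟩
    show 0 < qf 1 w
    rw [qf, Matrix.one_mulVec, dot_star_self, Complex.ofReal_re]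
    exact lt_of_le_of_ne (nsq_nonneg w) fun h => hw (nsq_eq_zero.1 h.symm)
  have key : ∀ x : E, ∃ (n : V) (c : Par) (u : V), nsq n = 1 ∧ n ⬝ᵥ n = 0 ∧ c ∈ Dom S.D x ∧
      phi u c = 1 ∧ Supp S.D x u ∧ ∀ u' : V, Supp S.D x u' → ∃ κ : ℂ, u' = κ • n := by
    intro x
    have hx : Star S.D x ≠ univ := fun h => hS (bijective_of_star_univ S.hD h)
    obtain ⟨s, p, hs, hdom, hp, hpS⟩ := exists_maximal S.hD hx hone
    obtain ⟨n, h1, h2, h3, h4, h5, h6⟩ := exists_contact S hdom hp hpS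
    exact ⟨n, _, _, h1, h2, hdom, h4, h5, h6⟩
  choose n c u hn1 hn2 hc hφ hsupp hpar using key
  have hloc : IsLocallyConstant (fun x : E => {v : V | ∃ κ : ℂ, v = κ • n x}) := by
    rw [IsLocallyConstant.iff_exists_open]
    intro x
    refine ⟨ext S.D x '' Ell (c x), isOpen_image_ext S.hD (isOpen_Ell (c x)) (hc x).2,
      ⟨0, zero_mem_Ell.2 (hc x).1.2, ext_zero S.hD⟩, ?_⟩
    rintro y ⟨z, hz, rfl⟩
    obtain ⟨h1, h2⟩ := persistence S (hsupp x) (hc x) (hφ x) hz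
    obtain ⟨κ', hκ'⟩ := hpar _ _ h2
    obtain ⟨κ, hκ⟩ := hpar x _ (hsupp x)
    have hκ0 : κ ≠ 0 := by
      rintro rfl
      rw [zero_smul] at hκ
      exact (hsupp x).1 hκ
    have hκ'0 : κ' ≠ 0 := by
      rintro rfl
      rw [zero_smul] at hκ'
      exact h2.1 hκ'
    set y := ext S.D x z with hy
    obtain ⟨β, hβ0, hβ⟩ : ∃ β : ℂ, β ≠ 0 ∧ u x = β • n y := by
      refine ⟨(1 - u x ⬝ᵥ z) * κ', mul_ne_zero h1 hκ'0, ?_⟩
      rw [mul_smul, ← hκ', smul_smul, mul_inv_cancel₀ h1, one_smul]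
    have e1 : n y = (β⁻¹ * κ) • n x := by
      rw [mul_smul, ← hκ, hβ, smul_smul, inv_mul_cancel₀ hβ0, one_smul]
    have e2 : n x = (κ⁻¹ * β) • n y := by
      rw [mul_smul, ← hβ, hκ, smul_smul, inv_mul_cancel₀ hκ0, one_smul]
    apply Set.Subset.antisymm
    · rintro _ ⟨α, rfl⟩
      exact ⟨α * (β⁻¹ * κ), by rw [mul_smul, ← e1]⟩
    · rintro _ ⟨α, rfl⟩
      exact ⟨α * (κ⁻¹ * β), by rw [mul_smul, ← e2]⟩
  obtain ⟨x₀⟩ := (inferInstance : Nonempty E)
  refine ⟨n x₀, hn1 x₀, hn2 x₀, fun x => ⟨u x, hsupp x⟩, ?_⟩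
  intro x v hv
  obtain ⟨κ, rfl⟩ := hpar x v hv
  have h1 := hloc.apply_eq_of_preconnectedSpace x x₀
  have h2 : n x ∈ {v : V | ∃ κ : ℂ, v = κ • n x} := ⟨1, by rw [one_smul]⟩
  have h3 : n x ∈ {v : V | ∃ κ : ℂ, v = κ • n x₀} := by
    rw [← h1]
    exact h2
  obtain ⟨κ', hκ'⟩ := h3
  exact ⟨κ * κ', by rw [mul_smul, ← hκ']⟩

end HRF
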