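import Pool.Agent.HRF.D4

/-!
# HRF-F4a : the structure theorem for incomplete manifolds
-/

namespace HRF

open Set Filter Topology Matrix

variable {Γ E : Type*} [Group Γ] [TopologicalSpace E] [MulAction Γ E] [T2Space E]

omit [Group Γ] [TopologicalSpace E] [MulAction Γ E] [T2Space E] in
theorem f4a_qf_one (w : V) : qf 1 w = nsq w := by
  unfold qf
  rw [Matrix.one_mulVec, dot_star_self, Complex.ofReal_re]

omit [Group Γ] [TopologicalSpace E] [MulAction Γ E] [T2Space E] in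
theorem f4a_normSq_add (x y : ℂ) {δ : ℝ} (hδ : 0 < δ) :
    Complex.normSq (x + y) ≤ (1 + δ) * Complex.normSq x + (1 + 1 / δ) * Complex.normSq y := by
  rw [Complex.normSq_eq_norm_sq, Complex.normSq_eq_norm_sq, Complex.normSq_eq_norm_sq]
  have h1 : ‖x + y‖ ^ 2 ≤ (‖x‖ + ‖y‖) ^ 2 :=
    pow_le_pow_left₀ (norm_nonneg _) (norm_add_le _ _) 2
  have h2 : 0 ≤ 1 / δ * (δ * ‖x‖ - ‖y‖) ^ 2 := mul_nonneg (by positivity) (sq_nonneg _)
  have h3 : 1 / δ * (δ * ‖x‖ - ‖y‖) ^ 2 = δ * ‖x‖ ^ 2 + 1 / δ * ‖y‖ ^ 2 - 2 * ‖x‖ * ‖y‖ := by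
    field_simp
    ring
  rw [h3] at h2
  nlinarith [h1, h2]

omit [Group Γ] [TopologicalSpace E] [MulAction Γ E] [T2Space E] in
theorem f4a_nsq_sub {u₀ : V} (h1 : nsq u₀ = 1) (w : V) :
    nsq (w - (w ⬝ᵥ star u₀) • u₀) = nsq w - Complex.normSq (w ⬝ᵥ star u₀) := by
  have key : ((nsq (w - (w ⬝ᵥ star u₀) • u₀) : ℝ) : ℂ) =
      ((nsq w - Complex.normSq (w ⬝ᵥ star u₀) : ℝ) : ℂ) := by
    rw [← dot_star_self]
    have h2 : u₀ ⬝ᵥ star u₀ = 1 := by rw [dot_star_self, h1, Complex.ofReal_one]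
    have h3 : u₀ ⬝ᵥ star w = star (w ⬝ᵥ star u₀) := by
      rw [← Matrix.star_dotProduct_star, star_star]
    push_cast
    rw [star_sub, star_smul, sub_dotProduct, dotProduct_sub, dotProduct_sub, smul_dotProduct,
      smul_dotProduct, dotProduct_smul, dotProduct_smul, h2, h3, dot_star_self w,
      Complex.normSq_eq_conj_mul_self]
    simp only [smul_eq_mul, mul_one]
    have h4 : (starRingEnd ℂ) (w ⬝ᵥ star u₀) = star (w ⬝ᵥ star u₀) := rfl
    rw [h4]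
    ring
  exact_mod_cast key

/-- Positive parameters elongated along `ker u₀`: for `ρ' > 0` and `v` with `|u₀·v| < ρ'` there is
`T` positive definite Hermitian with `qf T u₀ = ρ'^2` and `v ∈ Ell (0, T)`. Here `nsq u₀ = 1`.

Proof. `T = R² (1 - a a^*) + ρ'^2 a a^*` with `a = star u₀` (column), `a a^* = vecMulVec a (star a)
= vecMulVec (star u₀) u₀` (the orthogonal projection on `a`), `R` large, `R ≥ ρ'`.
`qf T w = R² (nsq w - |w·a|²) + ρ'^2 |w·a|²` (`|w·a|² ≤ nsq w` by `normSq_dot_le`, `nsq a = 1`) is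
positive for `w ≠ 0`. `w = u₀`: `w·a = nsq u₀ = 1`, so `qf T u₀ = ρ'^2`. Membership:
decompose `v = (u₀·v) a + v'`, `w·v = (u₀·v)(w·a) + w·v'`, where `v' ⊥ a` (i.e. `u₀·v' = 0`), and
`w·v' = w'·v'` with `w' = w - (w·a) u₀` (`w'·a = 0`, `u₀·v' = 0`), `nsq w' = nsq w - |w·a|²`. So
`|w·v|² ≤ (|u₀·v| |w·a| + √(nsq w') √(nsq v'))²`
`≤ (1+δ) |u₀·v|² |w·a|² + (1 + 1/δ) nsq w' nsq v'`,
and choose `δ > 0` with `(1+δ) |u₀·v|² < ρ'^2` and then `R` with `R² > (1 + 1/δ) nsq v'`. -/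
theorem exists_elongated {u₀ : V} (h1 : nsq u₀ = 1) {ρ' : ℝ} (hρ' : 0 < ρ') {v : V}
    (hv : ‖u₀ ⬝ᵥ v‖ < ρ') :
    ∃ T : Mat, IsPar ((0 : V), T) ∧ qf T u₀ = ρ' ^ 2 ∧ v ∈ Ell ((0 : V), T) := by
  obtain ⟨a, ha⟩ : ∃ a : V, a = star u₀ := ⟨_, rfl⟩
  have hsa : star a = u₀ := by rw [ha, star_star]
  have hua : u₀ ⬝ᵥ a = 1 := by rw [ha, dot_star_self, h1, Complex.ofReal_one]
  have hna : nsq a = 1 := by
    have h2 := dot_star_self a
    rw [hsa, dotProduct_comm, hua] at h2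
    exact_mod_cast h2.symm
  obtain ⟨α, hα⟩ : ∃ α : ℂ, α = u₀ ⬝ᵥ v := ⟨_, rfl⟩
  rw [← hα] at hv
  obtain ⟨v', hv'⟩ : ∃ v' : V, v' = v - α • a := ⟨_, rfl⟩
  have hρ2 : 0 < ρ' ^ 2 := by positivity
  have hα2 : Complex.normSq α < ρ' ^ 2 := by
    rw [Complex.normSq_eq_norm_sq]
    exact pow_lt_pow_left₀ hv (norm_nonneg _) two_ne_zero
  obtain ⟨δ, hδdef⟩ : ∃ δ : ℝ, δ = (ρ' ^ 2 - Complex.normSq α) / (2 * ρ' ^ 2) := ⟨_, rfl⟩
  have hδ : 0 < δ := by rw [hδdef]; exact div_pos (sub_pos.2 hα2) (by positivity)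
  have hδ2 : (1 + δ) * Complex.normSq α < ρ' ^ 2 := by
    have h3 : δ * (2 * ρ' ^ 2) = ρ' ^ 2 - Complex.normSq α := by
      rw [hδdef]
      field_simp
    have h4 := Complex.normSq_nonneg α
    nlinarith
  obtain ⟨R, hR⟩ : ∃ R : ℝ, R = (1 + 1 / δ) * nsq v' + 1 := ⟨_, rfl⟩
  have hnv : 0 ≤ nsq v' := nsq_nonneg v'
  have hRpos : 0 < R := by
    rw [hR]
    have : 0 < 1 / δ := by positivity
    positivity
  obtain ⟨T, hT⟩ : ∃ T : Mat, T = R • (1 : Mat) + (ρ' ^ 2 - R) • vecMulVec a (star a) := ⟨_, rfl⟩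
  have hqf : ∀ w : V, qf T w = R * (nsq w - Complex.normSq (w ⬝ᵥ a)) +
      ρ' ^ 2 * Complex.normSq (w ⬝ᵥ a) := by
    intro w
    have h3 : ((w ⬝ᵥ a) * star (w ⬝ᵥ a)).re = Complex.normSq (w ⬝ᵥ a) := by
      have h4 : star (w ⬝ᵥ a) = (starRingEnd ℂ) (w ⬝ᵥ a) := rfl
      rw [h4, Complex.mul_conj, Complex.ofReal_re]
    rw [hT, qf_add, qf_smul, qf_smul, f4a_qf_one, qf_vecMulVec, h3]
    ring
  have hle : ∀ w : V, Complex.normSq (w ⬝ᵥ a) ≤ nsq w := by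
    intro w
    have h3 := normSq_dot_le w a
    rwa [hna, mul_one] at h3
  have hpos : ∀ w : V, w ≠ 0 → 0 < nsq w := fun w hw =>
    lt_of_le_of_ne (nsq_nonneg w) (fun h => hw (nsq_eq_zero.1 h.symm))
  refine ⟨T, ⟨?_, ?_⟩, ?_, ?_⟩
  · change T.IsHermitian
    rw [Matrix.IsHermitian, hT, Matrix.conjTranspose_add, Matrix.conjTranspose_smul,
      Matrix.conjTranspose_smul, Matrix.conjTranspose_one, Matrix.conjTranspose_vecMulVec,
      star_star, star_trivial, star_trivial]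
  · intro w hw
    change 0 < qf T w
    rw [hqf]
    have h3 := hle w
    have h4 := hpos w hw
    have h5 := Complex.normSq_nonneg (w ⬝ᵥ a)
    rcases h3.lt_or_eq with h6 | h6
    · have h7 : 0 < R * (nsq w - Complex.normSq (w ⬝ᵥ a)) := mul_pos hRpos (sub_pos.2 h6)
      have h8 : 0 ≤ ρ' ^ 2 * Complex.normSq (w ⬝ᵥ a) := mul_nonneg hρ2.le h5
      linarith
    · rw [h6, sub_self, mul_zero, zero_add]
      exact mul_pos hρ2 h4
  · rw [hqf, hua, map_one, h1]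
    ring
  · intro w hw
    change Complex.normSq (w ⬝ᵥ v) < qf T w + 2 * ((w ⬝ᵥ v) * star (w ⬝ᵥ (0 : V))).re
    rw [dotProduct_zero, star_zero, mul_zero, Complex.zero_re, mul_zero, add_zero, hqf]
    obtain ⟨β, hβ⟩ : ∃ β : ℂ, β = w ⬝ᵥ a := ⟨_, rfl⟩
    rw [← hβ]
    obtain ⟨w', hw'⟩ : ∃ w' : V, w' = w - β • u₀ := ⟨_, rfl⟩
    have hnw : nsq w' = nsq w - Complex.normSq β := by
      rw [hw', hβ, ha]
      exact f4a_nsq_sub h1 w
    have huv' : u₀ ⬝ᵥ v' = 0 := by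
      rw [hv', dotProduct_sub, dotProduct_smul, hua, ← hα]
      simp
    have hwv' : w' ⬝ᵥ v' = w ⬝ᵥ v' := by
      rw [hw', sub_dotProduct, smul_dotProduct, huv']
      simp
    have hwv : w ⬝ᵥ v = α * β + w' ⬝ᵥ v' := by
      rw [hwv', hv', dotProduct_sub, dotProduct_smul, ← hβ]
      simp
    have h3 : Complex.normSq (w' ⬝ᵥ v') ≤ nsq w' * nsq v' := normSq_dot_le _ _
    have h4 := f4a_normSq_add (α * β) (w' ⬝ᵥ v') hδ
    rw [← hwv, map_mul] at h4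
    have h5 : 0 ≤ nsq w' := nsq_nonneg w'
    have h6 := Complex.normSq_nonneg β
    have h7 := hpos w hw
    have h8 : 0 < 1 + 1 / δ := by positivity
    rw [← hnw]
    have h9 : (1 + 1 / δ) * Complex.normSq (w' ⬝ᵥ v') ≤ (R - 1) * nsq w' := by
      calc (1 + 1 / δ) * Complex.normSq (w' ⬝ᵥ v') ≤ (1 + 1 / δ) * (nsq w' * nsq v') :=
            mul_le_mul_of_nonneg_left h3 h8.le
        _ = (R - 1) * nsq w' := by rw [hR]; ring
    have h10 : (1 + δ) * (Complex.normSq α * Complex.normSq β) ≤ ρ' ^ 2 * Complex.normSq β := by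
      calc (1 + δ) * (Complex.normSq α * Complex.normSq β)
          = ((1 + δ) * Complex.normSq α) * Complex.normSq β := by ring
        _ ≤ ρ' ^ 2 * Complex.normSq β := mul_le_mul_of_nonneg_right hδ2.le h6
    rcases h5.lt_or_eq with h11 | h11
    · nlinarith
    · have h12 : Complex.normSq β = nsq w := by rw [← h11] at hnw; linarith
      have h13 : (1 + δ) * (Complex.normSq α * Complex.normSq β) < ρ' ^ 2 * Complex.normSq β := by
        calc (1 + δ) * (Complex.normSq α * Complex.normSq β)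
            = ((1 + δ) * Complex.normSq α) * Complex.normSq β := by ring
          _ < ρ' ^ 2 * Complex.normSq β := mul_lt_mul_of_pos_right hδ2 (by rw [h12]; exact h7)
      nlinarith

end HRF
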