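import Pool.Agent.HRF.F3b
import Pool.Agent.HRF.F4a

/-!
# HRF-F4b : the structure theorem for incomplete manifolds
-/

namespace HRF

open Set Filter Topology Matrix

variable {Γ E : Type*} [Group Γ] [TopologicalSpace E] [MulAction Γ E] [T2Space E]

/-- **Tubes.** In the situation of `exists_direction`, for every `x` there is `ρ > 0` such that the
tube `{v | |u₀·v| < ρ}` is contained in `Star x` and some `p ∉ Star x` has `|u₀·p| = ρ`.

Proof. `exists_maximal` with `T = 1`: `c = s • (0, 1) ∈ Dom x`, `p ∈ cEll c`, `p ∉ Star x`;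
`ρ := √s`. `exists_contact`: `n`, `u = (n·p)⁻¹ n`, `φ_u(c) = 1`. `u` is supporting so
`u = κ • u₀`, thus `n = κ' • u₀` with `|κ'| = 1` (`nsq n = nsq u₀ = 1`, `nsq_smul`).
`φ_u(c) = s nsq u = s |n·p|⁻²`, so `|n·p|² = s = ρ²` and `|u₀·p| = |n·p| = ρ`.
Tube: let `|u₀·v| < ρ`; pick `ρ'` with `|u₀·v| < ρ' < ρ` and `T` from `exists_elongated`. Let
`s', p'` be the data of `exists_maximal` for `T`. If `s' ≥ 1` then `v ∈ Ell (0,T) ⊆
Ell (s' • (0,T)) ⊆ Star x` (`Ell_smul_subset`). Otherwise `s' < 1`, and `exists_contact` gives a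
supporting `u' = κ' • u₀` with `φ_{u'}(s' • (0,T)) = 1`, i.e. `|κ'|² s' ρ'^2 = 1`; while
`φ_{u'}(c) ≤ 1` says `|κ'|² ρ² ≤ 1`. So `ρ² ≤ 1/|κ'|² = s' ρ'^2 < ρ²`, contradiction. -/
theorem exists_tube (S : Dev Γ E) {u₀ : V} (h1 : nsq u₀ = 1)
    (hne : ∀ x : E, Star S.D x ≠ univ)
    (hu : ∀ x : E, ∀ u : V, Supp S.D x u → ∃ κ : ℂ, u = κ • u₀) (x : E) :
    ∃ ρ : ℝ, 0 < ρ ∧ (∀ v : V, ‖u₀ ⬝ᵥ v‖ < ρ → v ∈ Star S.D x) ∧
      ∃ p : V, p ∉ Star S.D x ∧ ‖u₀ ⬝ᵥ p‖ = ρ := by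
  have hnorm : ∀ z : ℂ, Complex.normSq z = ‖z‖ ^ 2 := fun z => Complex.normSq_eq_norm_sq z
  have hT1 : IsPar ((0 : V), (1 : Mat)) := by
    refine ⟨Matrix.isHermitian_one, fun w hw => ?_⟩
    change 0 < qf 1 w
    rw [f4a_qf_one]
    exact lt_of_le_of_ne (nsq_nonneg w) (fun h => hw (nsq_eq_zero.1 h.symm))
  obtain ⟨s, p, hs, hdom, hp, hpS⟩ := exists_maximal S.hD (hne x) hT1
  obtain ⟨n, hn1, hnn, hnp, hphi, hsupp, hpar⟩ := exists_contact S hdom hp hpS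
  obtain ⟨κ, hκ⟩ := hu x _ hsupp
  -- `n` is a multiple of `u₀`
  have hn : n = ((n ⬝ᵥ p) * κ) • u₀ := by
    rw [mul_smul, ← hκ, smul_smul, mul_inv_cancel₀ hnp, one_smul]
  have hκ' : Complex.normSq ((n ⬝ᵥ p) * κ) = 1 := by
    have h2 := nsq_smul ((n ⬝ᵥ p) * κ) u₀
    rw [← hn, hn1, h1, mul_one] at h2
    exact h2.symm
  have hcentre : ∀ (u : V) (r : ℝ) (T : Mat), phi u (r • ((0 : V), T)) = r * qf T u := by
    intro u r T
    rw [phi_smul]
    congr 1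
    unfold phi
    simp
  have hsn : Complex.normSq (n ⬝ᵥ p) = s := by
    rw [hcentre, f4a_qf_one, nsq_smul, hn1, mul_one, map_inv₀] at hphi
    have h3 : Complex.normSq (n ⬝ᵥ p) ≠ 0 := by
      intro h0
      exact hnp (Complex.normSq_eq_zero.1 h0)
    field_simp at hphi
    linarith
  have hup : Complex.normSq (u₀ ⬝ᵥ p) = s := by
    have h3 : n ⬝ᵥ p = ((n ⬝ᵥ p) * κ) * (u₀ ⬝ᵥ p) := by
      conv_lhs => rw [hn]
      rw [smul_dotProduct, smul_eq_mul]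
    have h4 := congrArg Complex.normSq h3
    rw [map_mul, hκ', one_mul] at h4
    rw [← h4, hsn]
  refine ⟨√s, Real.sqrt_pos.2 hs, fun v hv => ?_, p, hpS, ?_⟩
  · obtain ⟨ρ', hρ1, hρ2⟩ := exists_between hv
    have hρ0 : 0 < ρ' := (norm_nonneg _).trans_lt hρ1
    have hρs : ρ' ^ 2 < s := by
      have h3 := pow_lt_pow_left₀ hρ2 hρ0.le two_ne_zero
      rwa [Real.sq_sqrt hs.le] at h3
    obtain ⟨T, hT, hqT, hvT⟩ := exists_elongated h1 hρ0 hρ1
    obtain ⟨s', p', hs', hdom', hp', hpS'⟩ := exists_maximal S.hD (hne x) hT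
    by_cases hs1 : 1 ≤ s'
    · have h3 : Ell (s'⁻¹ • (s' • ((0 : V), T))) ⊆ Ell (s' • ((0 : V), T)) :=
        Ell_smul_subset _ (inv_pos.2 hs') (inv_le_one_of_one_le₀ hs1)
      rw [smul_smul, inv_mul_cancel₀ hs'.ne', one_smul] at h3
      exact hdom'.2 (h3 hvT)
    · exfalso
      push Not at hs1
      obtain ⟨n', hn1', hnn', hnp', hphi', hsupp', -⟩ := exists_contact S hdom' hp' hpS'
      obtain ⟨κ', hκ2⟩ := hu x _ hsupp'
      rw [hκ2] at hphi' hsupp'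
      rw [hcentre, qf_csmul, hqT] at hphi'
      have h4 := hsupp'.2.2.1 _ hdom
      rw [hcentre, f4a_qf_one, nsq_smul, h1, mul_one] at h4
      have h5 := Complex.normSq_nonneg κ'
      have h6 : 0 < ρ' ^ 2 := by positivity
      have h7 : 0 < Complex.normSq κ' := by
        rcases h5.lt_or_eq with h8 | h8
        · exact h8
        · rw [← h8, zero_mul, mul_zero] at hphi'
          exact absurd hphi' zero_ne_one
      have h8 : s' * ρ' ^ 2 < s := by nlinarith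
      have h9 : s * Complex.normSq κ' > s' * ρ' ^ 2 * Complex.normSq κ' :=
        mul_lt_mul_of_pos_right h8 h7
      nlinarith
  · rw [← Real.sqrt_sq (norm_nonneg (u₀ ⬝ᵥ p)), ← hnorm, hup]

end HRF
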