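import Pool.Agent.HRF.F4b

/-!
# HRF-F4c : the structure theorem for incomplete manifolds
-/

namespace HRF

open Set Filter Topology Matrix

variable {Γ E : Type*} [Group Γ] [TopologicalSpace E] [MulAction Γ E] [T2Space E]

/-- **Structure theorem.** If `D` is not bijective, there are a unit isotropic covector `u₀`, a
character `χ` and a function `ρ > 0` on `E` such that `u₀ L(γ) = χ(γ) u₀`, and `ρ x` is the
radius of the maximal tube around `x`.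

Proof. `exists_direction`, `exists_tube` (choose `ρ`). For `γ`: take `u` supporting at some `x`
(`E` is nonempty), `u = κ u₀`, `κ ≠ 0`; `L γ u` is supporting at `γ • x` (`Supp.smul`) so
`L γ u₀ = λ u₀` with `λ ≠ 0` (`L γ` invertible). Then `u₀·(L γ v) = ((L γ)ᵀ u₀)·v` and
`(L γ)ᵀ u₀ = (L γ)⁻¹ u₀ = λ⁻¹ u₀`. So `χ γ = λ⁻¹`. -/
theorem structure_thm [ConnectedSpace E] (S : Dev Γ E) (hS : ¬ Function.Bijective S.D) :
    ∃ (u₀ : V) (χ : Γ → ℂ) (ρ : E → ℝ), nsq u₀ = 1 ∧ u₀ ⬝ᵥ u₀ = 0 ∧ (∀ γ, χ γ ≠ 0) ∧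
      (∀ γ v, u₀ ⬝ᵥ (S.L γ *ᵥ v) = χ γ * (u₀ ⬝ᵥ v)) ∧ (∀ x, 0 < ρ x) ∧
      (∀ x, ∀ v : V, ‖u₀ ⬝ᵥ v‖ < ρ x → v ∈ Star S.D x) ∧
      (∀ x, ∃ p : V, p ∉ Star S.D x ∧ ‖u₀ ⬝ᵥ p‖ = ρ x) := by
  obtain ⟨u₀, h1, h0, hex, hall⟩ := exists_direction S hS
  have hne : ∀ x : E, Star S.D x ≠ univ := fun x hx => hS (bijective_of_star_univ S.hD hx)
  have hu₀ : u₀ ≠ 0 := by
    intro h
    rw [h] at h1
    have h2 : nsq (0 : V) = 0 := nsq_eq_zero.2 rfl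
    rw [h2] at h1
    exact zero_ne_one h1
  choose ρ hρ using fun x => exists_tube S h1 hne hall x
  have hL : ∀ γ : Γ, ∃ l : ℂ, l ≠ 0 ∧ S.L γ *ᵥ u₀ = l • u₀ := by
    intro γ
    obtain ⟨x⟩ : Nonempty E := inferInstance
    obtain ⟨u, hu⟩ := hex x
    obtain ⟨κ, hκ⟩ := hall x u hu
    obtain ⟨κ', hκ'⟩ := hall (γ • x) _ (Supp.smul S hu γ)
    have hκ0 : κ ≠ 0 := by
      rintro rfl
      exact hu.1 (by rw [hκ, zero_smul])
    have h2 : S.L γ *ᵥ u₀ = (κ⁻¹ * κ') • u₀ := by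
      rw [mul_smul, ← hκ', hκ, mulVec_smul, smul_smul, inv_mul_cancel₀ hκ0, one_smul]
    refine ⟨κ⁻¹ * κ', ?_, h2⟩
    intro h3
    rw [h3, zero_smul] at h2
    apply hu₀
    have h4 := congrArg (fun w => (S.L γ)ᵀ *ᵥ w) h2
    simp only [mulVec_mulVec, S.orth γ, one_mulVec, mulVec_zero] at h4
    exact h4
  choose l hl0 hl using hL
  refine ⟨u₀, fun γ => (l γ)⁻¹, ρ, h1, h0, fun γ => inv_ne_zero (hl0 γ), fun γ v => ?_,
    fun x => (hρ x).1, fun x => (hρ x).2.1, fun x => (hρ x).2.2⟩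
  have h2 : (S.L γ *ᵥ u₀) ⬝ᵥ (S.L γ *ᵥ v) = u₀ ⬝ᵥ v := by
    rw [dotProduct_mulVec, ← mulVec_transpose, mulVec_mulVec, S.orth γ, one_mulVec]
  rw [hl γ, smul_dotProduct, smul_eq_mul] at h2
  rw [← h2, ← mul_assoc, inv_mul_cancel₀ (hl0 γ), one_mul]

end HRF
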