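import Pool.Agent.HRF.G2b

/-!
# HRF-G10 : the holonomy in the half-space case is diagonal
-/

namespace HRF

open Set Filter Topology Matrix

namespace Aff

variable {Γ E : Type*} [Group Γ] [TopologicalSpace E] [MulAction Γ E] [T2Space E] (S : Aff Γ E)

/-- If `D` is injective and its image is the half-space, an element acting trivially on the third
coordinate preserves the leaves.

Proof. For `x : E` put `W = D (g • x) - D x`, `W 2 = 0` by `eq2`; `W ∈ Star x` (tube) and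
`D (ext x W) = D x + W = D (g • x)`, so `g • x = ext x W` by injectivity. (The image of `D` is not
even needed.) -/
theorem LP_of_injective (hD : Function.Injective S.D) {g : Γ} (hχ : S.χ g = 1)
    (hb : S.b3 g = 0) : S.LP g := by
  intro x
  have hW : (S.D (g • x) - S.D x) 2 = 0 := by
    rw [Pi.sub_apply, S.eq2, hχ, hb]
    ring
  refine ⟨S.D (g • x) - S.D x, hW, hD ?_⟩
  rw [D_ext (S.tube x _ (by rw [hW, norm_zero]; exact S.ρ_pos x))]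
  abel

omit [T2Space E] in
theorem g10_χ_one : S.χ 1 = 1 := by
  have h := S.χ_mul 1 1
  rw [mul_one] at h
  have h0 := S.χ_ne 1
  have h1 : S.χ 1 * (S.χ 1 - 1) = 0 := by linear_combination -h
  exact sub_eq_zero.1 ((mul_eq_zero.1 h1).resolve_left h0)

/-- the relation obtained from the commutator with a conjugate -/
theorem g10_key [Nonempty E] (hD : Function.Injective S.D) {h : Γ}
    (hh : 1 < ‖S.χ h‖) (ha : S.a h = 0) (hb1 : S.b1 h = 0) (hb3 : S.b3 h = 0) {γ : Γ}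
    (hχ : S.χ γ = 1) {k : Γ} (hka : S.a k = 0) (hkb : S.b3 k = 0) :
    S.a γ * S.b2 γ - (S.a γ) ^ 2 / 2 * (S.χ k * S.b3 γ) =
      (S.χ k)⁻¹ * S.a γ * S.b2 γ - ((S.χ k)⁻¹ * S.a γ) ^ 2 / 2 * S.b3 γ := by
  have hX := S.χ_ne k
  obtain ⟨g', e1⟩ : ∃ g' : Γ, g' * k = k * γ := ⟨k * γ * k⁻¹, by group⟩
  have c1 : S.χ g' = 1 := by
    have h1 := S.χ_mul g' k
    rw [e1, S.χ_mul, hχ, mul_one] at h1
    have h2 : S.χ k * (S.χ g' - 1) = 0 := by linear_combination -h1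
    exact sub_eq_zero.1 ((mul_eq_zero.1 h2).resolve_left hX)
  have c2 : S.a g' = (S.χ k)⁻¹ * S.a γ := by
    have h1 := S.a_mul g' k
    rw [e1, S.a_mul, hka] at h1
    linear_combination -h1
  have c3 : S.b3 g' = S.χ k * S.b3 γ := by
    have h1 := S.b3_mul g' k
    rw [e1, S.b3_mul, hkb] at h1
    linear_combination -h1
  have c4 : S.b2 g' = S.b2 γ := by
    have h1 := S.b2_mul g' k
    rw [e1, S.b2_mul, hkb, hka] at h1
    linear_combination -h1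
  obtain ⟨t, e2⟩ : ∃ t : Γ, t * (g' * γ) = γ * g' := ⟨γ * g' * γ⁻¹ * g'⁻¹, by group⟩
  have t1 : S.χ t = 1 := by
    have h1 := S.χ_mul t (g' * γ)
    rw [e2, S.χ_mul γ g', S.χ_mul g' γ, hχ, c1] at h1
    linear_combination -h1
  have t2 : S.b3 t = 0 := by
    have h1 := S.b3_mul t (g' * γ)
    rw [e2, S.b3_mul γ g', S.b3_mul g' γ, t1, hχ, c1] at h1
    linear_combination -h1
  obtain ⟨t3, t4⟩ := S.NU1 hh ha hb1 hb3 (S.LP_of_injective hD t1 t2) t1 t2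
  have h1 := S.b1_mul t (g' * γ)
  rw [e2, S.b1_mul γ g', S.b1_mul g' γ, t1, t3, t4, hχ, c1, c2, c3, c4] at h1
  rw [inv_one] at h1
  linear_combination h1

/-- **Unipotent elements are translations.** Suppose `D` is injective, `h` is expanding and
normalized with `χ h` real `> 1`. If `χ γ = 1` then `a γ = 0`.

Proof. For `n = 1, 2` let `g' = h^n γ h^{-n}`: `χ = 1`, `a' = X⁻¹ a`, `b3' = X b3`, `b2' = b2`,
where `X = (χ h)^n`, `a = a γ` etc. (induction or direct computation for `n = 1` and then apply it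
twice). The commutator `t = γ g' γ⁻¹ g'⁻¹` has `χ t = 1`, `b3 t = 0` (`b3 (γ g') = b3' + b3 =
b3 (g' γ)`), so `LP t` and `NU1` gives `b1 t = 0`, `a t = 0`, hence from `γ g' = t (g' γ)`:
`b1 (γ g') = b1 (g' γ)`, i.e.
`b1' + a b2' - a²/2 b3' + b1 = b1 + a' b2 - a'²/2 b3 + b1'`, i.e.
`a b2 - a²/2 X b3 = X⁻¹ a b2 - X⁻² a²/2 b3`.
If `a ≠ 0`: `b2 (1 - X⁻¹) = (a b3/2)(X - X⁻²)`, and dividing by `1 - X⁻¹` :
`b2 = (a b3 / 2) (X + 1 + X⁻¹)`. For `n = 1, 2` with `x = χ h > 1`: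
`(a b3/2) (x + x⁻¹ - x² - x⁻²) = 0`, and
`x² + x⁻² - x - x⁻¹ = (s - 2)(s + 1) > 0` with `s = x + x⁻¹ > 2`. So `a b3 = 0`, `b3 = 0`; then
`LP γ` (`LP_of_injective`) and `NU1` gives `a = 0`, contradiction. -/
theorem a_eq_zero_of_χ_one [Nonempty E] (hD : Function.Injective S.D) {h : Γ}
    (hh : 1 < ‖S.χ h‖) (hh0 : (S.χ h).im = 0) (hhp : 0 < (S.χ h).re) (ha : S.a h = 0)
    (hb1 : S.b1 h = 0) (hb3 : S.b3 h = 0) {γ : Γ} (hχ : S.χ γ = 1) : S.a γ = 0 := by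
  by_contra hne
  have hx0 : S.χ h ≠ 0 := S.χ_ne h
  have hn : ∀ n : ℕ, n ≠ 0 → (S.χ h) ^ n - 1 ≠ 0 := by
    intro n hn h1
    have h2 : ‖S.χ h‖ ^ n = 1 := by
      rw [← norm_pow, sub_eq_zero.1 h1, norm_one]
    have h3 : 1 < ‖S.χ h‖ ^ n := one_lt_pow₀ hh hn
    linarith
  have k1 := S.g10_key hD hh ha hb1 hb3 hχ ha hb3
  have k2 := S.g10_key hD hh ha hb1 hb3 hχ (k := h * h)
    (by rw [S.a_mul, ha]; ring) (by rw [S.b3_mul, hb3]; ring)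
  rw [S.χ_mul] at k2
  -- `X b2 = c (X² + X + 1)`
  have gen : ∀ X : ℂ, X ≠ 0 → X - 1 ≠ 0 →
      S.a γ * S.b2 γ - (S.a γ) ^ 2 / 2 * (X * S.b3 γ) =
        X⁻¹ * S.a γ * S.b2 γ - (X⁻¹ * S.a γ) ^ 2 / 2 * S.b3 γ →
      X * S.b2 γ = S.a γ * S.b3 γ / 2 * (X ^ 2 + X + 1) := by
    intro X hX hX1 hk
    have h1 : S.a γ * (X - 1) * (X * S.b2 γ - S.a γ * S.b3 γ / 2 * (X ^ 2 + X + 1)) = 0 := by
      have h2 : X ^ 2 * (S.a γ * S.b2 γ - (S.a γ) ^ 2 / 2 * (X * S.b3 γ)) =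
          X ^ 2 * (X⁻¹ * S.a γ * S.b2 γ - (X⁻¹ * S.a γ) ^ 2 / 2 * S.b3 γ) := by rw [hk]
      have h3 : X ^ 2 * (X⁻¹ * S.a γ * S.b2 γ - (X⁻¹ * S.a γ) ^ 2 / 2 * S.b3 γ) =
          X * S.a γ * S.b2 γ - (S.a γ) ^ 2 / 2 * S.b3 γ := by
        field_simp
      rw [h3] at h2
      linear_combination h2
    exact sub_eq_zero.1 ((mul_eq_zero.1 h1).resolve_left (mul_ne_zero hne hX1))
  have hx1 : S.χ h - 1 ≠ 0 := by
    have := hn 1 one_ne_zero
    rwa [pow_one] at this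
  have g1 := gen (S.χ h) hx0 hx1 k1
  have g2 := gen (S.χ h * S.χ h) (mul_ne_zero hx0 hx0) (by
    have := hn 2 two_ne_zero
    rwa [pow_two] at this) k2
  have h5 : S.a γ * S.b3 γ / 2 * ((S.χ h - 1) * (S.χ h ^ 3 - 1)) = 0 := by
    linear_combination S.χ h * g1 - g2
  have h6 : S.a γ * S.b3 γ / 2 = 0 :=
    (mul_eq_zero.1 h5).resolve_right (mul_ne_zero hx1 (hn 3 three_ne_zero))
  have h7 : S.b3 γ = 0 := by
    have h8 : S.a γ * S.b3 γ = 0 := by linear_combination 2 * h6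
    exact (mul_eq_zero.1 h8).resolve_left hne
  exact hne (S.NU1 hh ha hb1 hb3 (S.LP_of_injective hD hχ h7) hχ h7).1

/-- **All elements are diagonal.** Proof. The commutator `t = h γ h⁻¹ γ⁻¹` has `χ t = 1`, so
`a t = 0` by `a_eq_zero_of_χ_one`, and `h γ = t (γ h)`: `a (h γ) = (χ t)⁻¹ a (γ h) + a t =
a (γ h)`: `(χ h)⁻¹ a γ + 0 = 0 + a γ` (as `a h = 0`), so `a γ ((χ h)⁻¹ - 1) = 0`. -/
theorem a_eq_zero [Nonempty E] (hD : Function.Injective S.D) {h : Γ}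
    (hh : 1 < ‖S.χ h‖) (hh0 : (S.χ h).im = 0) (hhp : 0 < (S.χ h).re) (ha : S.a h = 0)
    (hb1 : S.b1 h = 0) (hb3 : S.b3 h = 0) (γ : Γ) : S.a γ = 0 := by
  have hx0 : S.χ h ≠ 0 := S.χ_ne h
  have hg0 : S.χ γ ≠ 0 := S.χ_ne γ
  obtain ⟨t, e⟩ : ∃ t : Γ, t * (γ * h) = h * γ := ⟨h * γ * h⁻¹ * γ⁻¹, by group⟩
  have t1 : S.χ t = 1 := by
    have h1 := S.χ_mul t (γ * h)
    rw [e, S.χ_mul h γ, S.χ_mul γ h] at h1
    have h2 : S.χ h * S.χ γ * (S.χ t - 1) = 0 := by linear_combination -h1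
    exact sub_eq_zero.1 ((mul_eq_zero.1 h2).resolve_left (mul_ne_zero hx0 hg0))
  have t2 : S.a t = 0 := S.a_eq_zero_of_χ_one hD hh hh0 hhp ha hb1 hb3 t1
  have h1 := S.a_mul t (γ * h)
  rw [e, S.a_mul h γ, S.a_mul γ h, t1, t2, ha, inv_one] at h1
  have h2 : (S.χ h - 1) * S.a γ = 0 := by
    have h3 : S.χ h * ((S.χ h)⁻¹ * S.a γ) = S.a γ := by
      field_simp
    linear_combination S.χ h * (-h1) + h3
  refine (mul_eq_zero.1 h2).resolve_left ?_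
  intro h4
  rw [sub_eq_zero.1 h4, norm_one] at hh
  exact lt_irrefl _ hh

end Aff

end HRF
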