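import Mathlib

/-!
# HRF-G11 : a lemma on discrete subgroups of `ℂ × ℝ`
-/

namespace HRF

open Set Filter Topology

/-- a fixed multiple of the powers of `x⁻¹` cannot be integral -/
theorem g11_powers {x s : ℝ} (hx : 1 < x) (hs : x + x⁻¹ = s) {S : ℤ} (hS : s = S) {q : ℤ}
    (hq : 0 < q) {p : ℤ} (hp : (q : ℝ) * x = p) : False := by
  have hx0 : 0 < x := by linarith
  have key : ∀ k : ℕ, (∃ a : ℤ, (q : ℝ) * x⁻¹ ^ k = a) ∧ ∃ a : ℤ, (q : ℝ) * x⁻¹ ^ (k + 1) = a := by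
    intro k
    induction k with
    | zero =>
      refine ⟨⟨q, by simp⟩, ⟨q * S - p, ?_⟩⟩
      rw [zero_add, pow_one]
      push_cast
      rw [← hp, ← hS, ← hs]
      ring
    | succ k ih =>
      obtain ⟨⟨a, ha⟩, ⟨b, hb⟩⟩ := ih
      refine ⟨⟨b, hb⟩, ⟨b * S - a, ?_⟩⟩
      push_cast
      rw [← ha, ← hb, ← hS, ← hs]
      have hxx : x * x⁻¹ = 1 := mul_inv_cancel₀ hx0.ne'
      linear_combination (-((q : ℝ) * x⁻¹ ^ k)) * hxx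
  have hlt : x⁻¹ < 1 := inv_lt_one_of_one_lt₀ hx
  have hq0 : (0 : ℝ) < q := by exact_mod_cast hq
  obtain ⟨k, hk⟩ := exists_pow_lt_of_lt_one (show (0 : ℝ) < (q : ℝ)⁻¹ by positivity) hlt
  obtain ⟨⟨a, ha⟩, -⟩ := key k
  have h1 : (0 : ℝ) < a := by
    rw [← ha]
    positivity
  have h2 : (a : ℝ) < 1 := by
    rw [← ha]
    calc (q : ℝ) * x⁻¹ ^ k < (q : ℝ) * (q : ℝ)⁻¹ := mul_lt_mul_of_pos_left hk hq0
      _ = 1 := mul_inv_cancel₀ hq0.ne'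
  have h3 : 0 < a := by exact_mod_cast h1
  have h4 : a < 1 := by exact_mod_cast h2
  omega

/-- `x + x⁻¹` is an integer -/
theorem g11_trace {Λ : AddSubgroup (ℂ × ℝ)}
    (hfin : ∀ R : ℝ, {q : ℂ × ℝ | q ∈ Λ ∧ ‖q.1‖ ≤ R ∧ |q.2| ≤ R}.Finite) {x : ℝ}
    (hT : ∀ q ∈ Λ, (((x⁻¹ : ℝ) : ℂ) * q.1, x * q.2) ∈ Λ)
    (hT' : ∀ q ∈ Λ, ((x : ℂ) * q.1, x⁻¹ * q.2) ∈ Λ) {b : ℂ} {r : ℝ} (hb : b ≠ 0)
    (hbr : (b, r) ∈ Λ) : ∃ S : ℤ, x + x⁻¹ = S := by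
  have hA : {t : ℝ | (0 < t ∧ t ≤ 1) ∧ t • ((b, r) : ℂ × ℝ) ∈ Λ}.Finite := by
    refine Set.Finite.of_injOn (f := fun t : ℝ => t • ((b, r) : ℂ × ℝ))
      (t := {q : ℂ × ℝ | q ∈ Λ ∧ ‖q.1‖ ≤ max ‖b‖ |r| ∧ |q.2| ≤ max ‖b‖ |r|}) ?_ ?_ (hfin _)
    · rintro t ⟨⟨h0, h1⟩, h2⟩
      refine ⟨h2, ?_, ?_⟩
      · show ‖t • b‖ ≤ _
        rw [norm_smul, Real.norm_of_nonneg h0.le]
        exact (mul_le_of_le_one_left (norm_nonneg b) h1).trans (le_max_left _ _)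
      · show |t • r| ≤ _
        rw [smul_eq_mul, abs_mul, abs_of_pos h0]
        exact (mul_le_of_le_one_left (abs_nonneg r) h1).trans (le_max_right _ _)
    · intro t _ t' _ h
      have h1 : t • b = t' • b := congrArg Prod.fst h
      have h2 : (t - t') • b = 0 := by rw [sub_smul, h1, sub_self]
      rcases smul_eq_zero.1 h2 with h3 | h3
      · linarith
      · exact absurd h3 hb
  have hne : {t : ℝ | (0 < t ∧ t ≤ 1) ∧ t • ((b, r) : ℂ × ℝ) ∈ Λ}.Nonempty :=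
    ⟨1, ⟨one_pos, le_rfl⟩, by rw [one_smul]; exact hbr⟩
  obtain ⟨t₀, ⟨⟨h0, h1⟩, h2⟩, hmin⟩ := Set.exists_min_image _ id hA hne
  refine ⟨⌊x + x⁻¹⌋, ?_⟩
  by_contra hcon
  have hfr : 0 < Int.fract (x + x⁻¹) := by
    rcases (Int.fract_nonneg (x + x⁻¹)).lt_or_eq with h | h
    · exact h
    · exfalso
      apply hcon
      have h3 := Int.self_sub_floor (x + x⁻¹)
      linarith
  have hmem : (Int.fract (x + x⁻¹) * t₀) • ((b, r) : ℂ × ℝ) ∈ Λ := by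
    have h3 := hT _ h2
    have h4 := hT' _ h2
    have h5 := Λ.sub_mem (Λ.add_mem h3 h4) (Λ.zsmul_mem h2 ⌊x + x⁻¹⌋)
    have e : (Int.fract (x + x⁻¹) * t₀) • ((b, r) : ℂ × ℝ) =
        (((x⁻¹ : ℝ) : ℂ) * (t₀ • ((b, r) : ℂ × ℝ)).1, x * (t₀ • ((b, r) : ℂ × ℝ)).2) +
          ((x : ℂ) * (t₀ • ((b, r) : ℂ × ℝ)).1, x⁻¹ * (t₀ • ((b, r) : ℂ × ℝ)).2) -
          ⌊x + x⁻¹⌋ • (t₀ • ((b, r) : ℂ × ℝ)) := by
      have hf : Int.fract (x + x⁻¹) = x + x⁻¹ - ⌊x + x⁻¹⌋ := (Int.self_sub_floor _).symm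
      rw [hf]
      apply Prod.ext
      · simp [-Int.self_sub_floor]
        ring
      · simp [-Int.self_sub_floor]
        ring
    rw [e]
    exact h5
  have hlt : Int.fract (x + x⁻¹) * t₀ < t₀ := mul_lt_of_lt_one_left h0 (Int.fract_lt_one _)
  have h6 := hmin (Int.fract (x + x⁻¹) * t₀) ⟨⟨mul_pos hfr h0, by linarith⟩, hmem⟩
  simp only [id] at h6
  linarith

/-- elements with vanishing second component vanish -/
theorem g11_zero {Λ : AddSubgroup (ℂ × ℝ)}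
    (hfin : ∀ R : ℝ, {q : ℂ × ℝ | q ∈ Λ ∧ ‖q.1‖ ≤ R ∧ |q.2| ≤ R}.Finite) {x : ℝ} (hx : 1 < x)
    (hT : ∀ q ∈ Λ, (((x⁻¹ : ℝ) : ℂ) * q.1, x * q.2) ∈ Λ) {b : ℂ} (hb : (b, (0 : ℝ)) ∈ Λ) :
    b = 0 := by
  by_contra hne
  have hx0 : 0 < x := by linarith
  have hmem : ∀ n : ℕ, ((((x⁻¹) ^ n : ℝ) : ℂ) * b, (0 : ℝ)) ∈ Λ := by
    intro n
    induction n with
    | zero => simpa using hb
    | succ n ih =>
      have h := hT _ ih
      simp only [mul_zero] at h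
      have e : (((x⁻¹ ^ (n + 1) : ℝ) : ℂ) * b, (0 : ℝ)) =
          (((x⁻¹ : ℝ) : ℂ) * (((x⁻¹ ^ n : ℝ) : ℂ) * b), (0 : ℝ)) := by
        congr 1
        push_cast
        ring
      rw [e]
      exact h
  have hinf : {q : ℂ × ℝ | q ∈ Λ ∧ ‖q.1‖ ≤ ‖b‖ ∧ |q.2| ≤ ‖b‖}.Infinite := by
    refine Set.infinite_of_injective_forall_mem (f := fun n : ℕ => ((((x⁻¹) ^ n : ℝ) : ℂ) * b, (0 : ℝ)))
      ?_ ?_
    · intro m n h
      have h1 := congrArg Prod.fst h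
      simp only at h1
      have h2 := mul_right_cancel₀ hne h1
      have h3 : x⁻¹ ^ m = x⁻¹ ^ n := by exact_mod_cast h2
      have h4 : x⁻¹ < 1 := inv_lt_one_of_one_lt₀ hx
      exact (pow_right_strictAnti₀ (by positivity) h4).injective h3
    · intro n
      refine ⟨hmem n, ?_, ?_⟩
      · show ‖(((x⁻¹) ^ n : ℝ) : ℂ) * b‖ ≤ ‖b‖
        rw [norm_mul, Complex.norm_real, Real.norm_of_nonneg (by positivity)]
        exact mul_le_of_le_one_left (norm_nonneg b)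
          (pow_le_one₀ (by positivity) (inv_le_one_of_one_le₀ hx.le))
      · simp
  exact hinf (hfin _)

/-- Let `Λ ⊆ ℂ × ℝ` be an additive subgroup with finitely many elements in each bounded set,
invariant under `T (b, r) = (x⁻¹ b, x r)` and `T⁻¹`, `x > 1`. Then the first components of `Λ`
lie on a real line: there is a nonzero `v : ℂ` with `Re (conj v * b) = 0` for all
`(b, r) ∈ Λ`.

Proof. (0) If `(b, 0) ∈ Λ` then `b = 0`: the elements `T^n (b,0) = (x^{-n} b, 0)`, `n ≥ 0`, are in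
`Λ` and bounded; if `b ≠ 0` they are infinitely many distinct ones. Same for `(0, r) ∈ Λ`: `r = 0`
(use `T^{-n}`).
(1) Suppose the conclusion fails: then there are `(b₁, r₁), (b₂, r₂) ∈ Λ` with `b₁, b₂` linearly
independent over `ℝ` (if all the `b` are real multiples of one `b₁ ≠ 0` take `v = i b₁`; if all
are `0` take `v = 1`).
(2) `Λ` is a discrete subgroup of the 3-dimensional real space `ℂ × ℝ`; so four elements of `Λ`
are linearly dependent over `ℤ`, in particular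
`m₁ λ₁ + m₂ T λ₁ + m₃ λ₂ + m₄ T λ₂ = 0` with integers not all `0`, `λ_j = (b_j, r_j)`.
(Mathlib: `ZLattice`/`ZSpan` theory: for a discrete subgroup `L`, `finrank ℤ L =
finrank ℝ (span ℝ L) ≤ 3`. Or a pigeonhole argument: consider the combinations
`∑ m_i e_i`, `0 ≤ m_i ≤ N`, of the four elements `e_i`; choose a real linear relation
`∑ c_i e_i = 0`… simplest pigeonhole: the four vectors `e_i ∈ ℝ³` satisfy a nontrivial real
relation `∑ c_i e_i = 0`, normalize `c_4 = 1` say (some `c_i ≠ 0`); for `k = 1..∞` let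
`s_k = ∑ ⌊k c_i⌋ e_i = -∑ {k c_i} e_i`, elements of `Λ` in a bounded set, so finitely many
values; two different `k` give the same value, and the difference is a relation with the `c_4 = 1`
coefficient `⌊k c_4⌋ - ⌊k' c_4⌋ = k - k' ≠ 0`.)
(3) First components: `(m₁ + m₂ x⁻¹) b₁ + (m₃ + m₄ x⁻¹) b₂ = 0`, so
`m₁ + m₂ x⁻¹ = 0 = m₃ + m₄ x⁻¹`. If `m₁, m₂` are not both `0` then `x = -m₂/m₁` is rational
(and similarly with `m₃, m₄`). So `x` is rational.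
(4) But `s = x + x⁻¹` is an integer: for `λ = λ₁ = (b₁, r₁) ≠ 0`, `T λ + T⁻¹ λ = s λ ∈ Λ`. The
group `Λ ∩ ℝ λ` is a discrete subgroup of a line, `= ℤ λ₀`, and `s λ₀ = T λ₀ + T⁻¹ λ₀ ∈ Λ ∩ ℝ λ₀`,
so `s ∈ ℤ`. (Elementary: `λ₀` = element of `Λ ∩ ℝ λ`, nonzero, of smallest norm; if `s ∉ ℤ` then
`(s - ⌊s⌋) λ₀` is a shorter nonzero element.) A rational `x` with `x² - s x + 1 = 0`, `s ∈ ℤ`, is
an integer dividing `1` (rational root theorem), so `x = ±1`, contradicting `x > 1`. -/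
theorem exists_line {Λ : AddSubgroup (ℂ × ℝ)}
    (hfin : ∀ R : ℝ, {q : ℂ × ℝ | q ∈ Λ ∧ ‖q.1‖ ≤ R ∧ |q.2| ≤ R}.Finite) {x : ℝ} (hx : 1 < x)
    (hT : ∀ q ∈ Λ, (((x⁻¹ : ℝ) : ℂ) * q.1, x * q.2) ∈ Λ)
    (hT' : ∀ q ∈ Λ, ((x : ℂ) * q.1, x⁻¹ * q.2) ∈ Λ) :
    ∃ v : ℂ, v ≠ 0 ∧ ∀ q ∈ Λ, (star v * q.1).re = 0 := by
  by_contra hcon
  push Not at hcon
  have hx0 : 0 < x := by linarith
  obtain ⟨⟨b₁, r₁⟩, hq₁, hb₁⟩ := hcon 1 one_ne_zero
  have hb1 : b₁ ≠ 0 := by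
    rintro rfl
    simp at hb₁
  obtain ⟨⟨b₂, r₂⟩, hq₂, hb₂⟩ := hcon (Complex.I * b₁) (mul_ne_zero Complex.I_ne_zero hb1)
  have hr₁ : r₁ ≠ 0 := by
    rintro rfl
    exact hb1 (g11_zero hfin hx hT hq₁)
  obtain ⟨S, hS⟩ := g11_trace hfin hT hT' hb1 hq₁
  set κ : ℝ := r₂ / r₁ with hκ
  have hκr : κ * r₁ = r₂ := by
    rw [hκ]
    field_simp
  -- the bounded elements
  set e : ℕ → ℂ × ℝ := fun k => ⌊(k : ℝ) * (κ / x)⌋ • ((b₁, r₁) : ℂ × ℝ) -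
    ⌊(k : ℝ) * κ⌋ • ((((x⁻¹ : ℝ) : ℂ) * b₁, x * r₁) : ℂ × ℝ) -
    ⌊(k : ℝ) / x⌋ • ((b₂, r₂) : ℂ × ℝ) + (k : ℤ) • ((((x⁻¹ : ℝ) : ℂ) * b₂, x * r₂) : ℂ × ℝ) with he
  have hemem : ∀ k, e k ∈ Λ := by
    intro k
    exact Λ.add_mem (Λ.sub_mem (Λ.sub_mem (Λ.zsmul_mem hq₁ _) (Λ.zsmul_mem (hT _ hq₁) _))
      (Λ.zsmul_mem hq₂ _)) (Λ.zsmul_mem (hT _ hq₂) _)
  have heq1 : ∀ k, (e k).1 = -((Int.fract ((k : ℝ) * (κ / x)) : ℝ) : ℂ) * b₁ +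
      ((Int.fract ((k : ℝ) * κ) : ℝ) : ℂ) * (((x⁻¹ : ℝ) : ℂ) * b₁) +
      ((Int.fract ((k : ℝ) / x) : ℝ) : ℂ) * b₂ := by
    intro k
    have hf : ∀ y : ℝ, Int.fract y = y - ⌊y⌋ := fun y => (Int.self_sub_floor y).symm
    rw [hf, hf, hf]
    simp [he, -Int.self_sub_floor]
    ring
  have heq2 : ∀ k, (e k).2 = -(Int.fract ((k : ℝ) * (κ / x))) * r₁ +
      (Int.fract ((k : ℝ) * κ)) * (x * r₁) + (Int.fract ((k : ℝ) / x)) * r₂ := by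
    intro k
    have hf : ∀ y : ℝ, Int.fract y = y - ⌊y⌋ := fun y => (Int.self_sub_floor y).symm
    rw [hf, hf, hf]
    simp [he, -Int.self_sub_floor]
    rw [← hκr]
    ring
  set R : ℝ := ‖b₁‖ + ‖((x⁻¹ : ℝ) : ℂ) * b₁‖ + ‖b₂‖ + (|r₁| + |x * r₁| + |r₂|) with hR
  have hfr : ∀ y : ℝ, |Int.fract y| ≤ 1 := fun y => by
    rw [abs_of_nonneg (Int.fract_nonneg y)]
    exact (Int.fract_lt_one y).le
  have hebd : ∀ k, e k ∈ {q : ℂ × ℝ | q ∈ Λ ∧ ‖q.1‖ ≤ R ∧ |q.2| ≤ R} := by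
    intro k
    refine ⟨hemem k, ?_, ?_⟩
    · rw [heq1]
      have h1 : ∀ (y : ℝ) (b : ℂ), ‖((Int.fract y : ℝ) : ℂ) * b‖ ≤ ‖b‖ := by
        intro y b
        rw [norm_mul, Complex.norm_real, Real.norm_eq_abs]
        exact mul_le_of_le_one_left (norm_nonneg b) (hfr y)
      have h2 : ‖-((Int.fract ((k : ℝ) * (κ / x)) : ℝ) : ℂ) * b₁‖ ≤ ‖b₁‖ := by
        rw [neg_mul, norm_neg]
        exact h1 _ _
      refine (norm_add_le _ _).trans ?_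
      have h3 := norm_add_le (-((Int.fract ((k : ℝ) * (κ / x)) : ℝ) : ℂ) * b₁)
        (((Int.fract ((k : ℝ) * κ) : ℝ) : ℂ) * (((x⁻¹ : ℝ) : ℂ) * b₁))
      have h4 := h1 ((k : ℝ) * κ) (((x⁻¹ : ℝ) : ℂ) * b₁)
      have h5 := h1 ((k : ℝ) / x) b₂
      have h6 : 0 ≤ |r₁| + |x * r₁| + |r₂| := by positivity
      linarith
    · rw [heq2]
      have h1 : ∀ (y r : ℝ), |Int.fract y * r| ≤ |r| := by
        intro y r
        rw [abs_mul]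
        exact mul_le_of_le_one_left (abs_nonneg r) (hfr y)
      have h2 : |-(Int.fract ((k : ℝ) * (κ / x))) * r₁| ≤ |r₁| := by
        rw [neg_mul, abs_neg]
        exact h1 _ _
      refine (abs_add_le _ _).trans ?_
      have h3 := abs_add_le (-(Int.fract ((k : ℝ) * (κ / x))) * r₁)
        (Int.fract ((k : ℝ) * κ) * (x * r₁))
      have h4 := h1 ((k : ℝ) * κ) (x * r₁)
      have h5 := h1 ((k : ℝ) / x) r₂
      have h6 : 0 ≤ ‖b₁‖ + ‖((x⁻¹ : ℝ) : ℂ) * b₁‖ + ‖b₂‖ := by positivity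
      linarith
  -- two of them agree
  obtain ⟨k, k', hkk, hee⟩ : ∃ k k' : ℕ, k < k' ∧ e k = e k' := by
    by_contra hno
    push Not at hno
    have hinj : Function.Injective e := by
      intro m n hmn
      rcases lt_trichotomy m n with h | h | h
      · exact absurd hmn (hno m n h)
      · exact h
      · exact absurd hmn.symm (hno n m h)
    exact Set.infinite_of_injective_forall_mem hinj hebd (hfin R)
  have h1 := congrArg Prod.fst hee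
  have h2 : (((⌊(k' : ℝ) * (κ / x)⌋ - ⌊(k : ℝ) * (κ / x)⌋ : ℤ) : ℝ) : ℂ) * b₁ -
      (((⌊(k' : ℝ) * κ⌋ - ⌊(k : ℝ) * κ⌋ : ℤ) : ℝ) : ℂ) * (((x⁻¹ : ℝ) : ℂ) * b₁) -
      (((⌊(k' : ℝ) / x⌋ - ⌊(k : ℝ) / x⌋ : ℤ) : ℝ) : ℂ) * b₂ +
      ((((k' : ℤ) - (k : ℤ) : ℤ) : ℝ) : ℂ) * (((x⁻¹ : ℝ) : ℂ) * b₂) = 0 := by
    simp [he] at h1
    push_cast
    linear_combination -h1
  generalize ⌊(k' : ℝ) * (κ / x)⌋ - ⌊(k : ℝ) * (κ / x)⌋ = m₁ at h2
  generalize ⌊(k' : ℝ) * κ⌋ - ⌊(k : ℝ) * κ⌋ = m₂ at h2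
  generalize ⌊(k' : ℝ) / x⌋ - ⌊(k : ℝ) / x⌋ = m₃ at h2
  -- multiply by the conjugate of `b₁` and take the imaginary part
  have h3 : (-(m₃ : ℝ) + (((k' : ℤ) - (k : ℤ) : ℤ) : ℝ) * x⁻¹) * (star b₁ * b₂).im = 0 := by
    have h4 := congrArg (fun z : ℂ => (star b₁ * z).im) h2
    simp only [mul_zero, Complex.zero_im] at h4
    rw [← h4]
    simp only [Complex.star_def, Complex.mul_im, Complex.mul_re, Complex.conj_re, Complex.conj_im,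
      Complex.add_re, Complex.add_im, Complex.sub_re, Complex.sub_im, Complex.ofReal_re,
      Complex.ofReal_im]
    ring
  have h4 : (star b₁ * b₂).im ≠ 0 := by
    intro h5
    apply hb₂
    simp only [Complex.star_def, Complex.mul_im, Complex.mul_re, Complex.conj_re, Complex.conj_im,
      Complex.I_re, Complex.I_im] at h5 ⊢
    linear_combination h5
  rcases mul_eq_zero.1 h3 with h5 | h5
  swap
  · exact h4 h5
  have hpos : 0 < (k' : ℤ) - (k : ℤ) := by omega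
  have hposR : (0 : ℝ) < (((k' : ℤ) - (k : ℤ) : ℤ) : ℝ) := by exact_mod_cast hpos
  have h6 : (m₃ : ℝ) * x = (((k' : ℤ) - (k : ℤ) : ℤ) : ℝ) := by
    have h7 : (m₃ : ℝ) = (((k' : ℤ) - (k : ℤ) : ℤ) : ℝ) * x⁻¹ := by linarith
    rw [h7, mul_assoc, inv_mul_cancel₀ hx0.ne', mul_one]
  have h7 : (0 : ℝ) < m₃ := by
    by_contra hle
    rw [not_lt] at hle
    have := mul_nonpos_of_nonpos_of_nonneg hle hx0.le
    linarith
  have h8 : 0 < m₃ := by exact_mod_cast h7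
  exact g11_powers hx rfl hS h8 h6

end HRF
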