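import Pool.Agent.HRF.G4b

/-!
# HRF-G5b : the case where all third-coordinate actions fix `0`; near-identity translations
-/

namespace HRF

open Set Filter Topology Matrix

namespace Aff

variable {Γ E : Type*} [Group Γ] [TopologicalSpace E] [MulAction Γ E] [T2Space E] (S : Aff Γ E)

theorem g5b_core {h : Γ} (hh : 1 < ‖S.χ h‖) (hb3 : S.b3 h = 0) {g : ℕ → Γ} (hg : S.NI g)
    (hg3 : ∀ i, S.b3 (g i) ≠ 0) :
    ∃ t : ℕ → Γ, S.NI t ∧ ∀ i, S.χ (t i) = 1 ∧ S.b3 (t i) ≠ 0 := by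
  refine ⟨fun i => h * g i * h⁻¹ * (g i)⁻¹, NI.comm S hg h, fun i => ?_⟩
  have hχ : S.χ (h * g i * h⁻¹ * (g i)⁻¹) = 1 := by
    rw [S.χ_mul, S.χ_mul, S.χ_mul, S.χ_inv, S.χ_inv]
    have h1 := S.χ_ne h
    have h2 := S.χ_ne (g i)
    field_simp
  refine ⟨hχ, fun h0 => ?_⟩
  have h1 : h * g i * h⁻¹ * (g i)⁻¹ * (g i * h) = h * g i := by group
  have h2 := congrArg S.b3 h1
  rw [S.b3_mul (h * g i * h⁻¹ * (g i)⁻¹), hχ, S.b3_mul (g i) h, S.b3_mul h (g i), h0, hb3] at h2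
  have h3 : (S.χ h - 1) * S.b3 (g i) = 0 := by linear_combination -h2
  rcases mul_eq_zero.1 h3 with h4 | h4
  · have h5 : S.χ h = 1 := sub_eq_zero.1 h4
    rw [h5, norm_one] at hh
    exact lt_irrefl _ hh
  · exact hg3 i h4

/-- Near-identity translations exist if some `γ₀` has `b3 γ₀ ≠ 0`.

Proof. `exists_NI`: `g`. (i) If `b3 (g i) ≠ 0` for infinitely many `i`, take the subsequence and
`t i = h g_i h⁻¹ g_i⁻¹`: `χ = 1` and, from `h g_i = t_i (g_i h)`,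
`χ h * b3 g_i = b3 (g_i h) + b3 t_i = b3 g_i + b3 t_i`, so `b3 t_i = (χ h - 1) b3 g_i ≠ 0`.
(ii) Otherwise for `i ≥ i₀`, `b3 (g i) = 0` and `χ (g i) ≠ 1`. Take
`g'_i = γ₀ g_i γ₀⁻¹` (`NI.conj`): from `γ₀ g_i = g'_i γ₀`,
`b3 γ₀ = χ (g_i) b3 γ₀ + b3 g'_i`, so `b3 g'_i = (1 - χ (g_i)) b3 γ₀ ≠ 0`; then apply (i) to
`g'` (shifted by `i₀`). -/
theorem exists_NI_translation [ConnectedSpace E] {h : Γ} (hh : 1 < ‖S.χ h‖) (ha : S.a h = 0)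
    (hb1 : S.b1 h = 0) (hb3 : S.b3 h = 0) {γ₀ : Γ} (hγ₀ : S.b3 γ₀ ≠ 0) :
    ∃ t : ℕ → Γ, S.NI t ∧ ∀ i, S.χ (t i) = 1 ∧ S.b3 (t i) ≠ 0 := by
  obtain ⟨g, hg, hgn⟩ := exists_NI S hh ha hb1 hb3
  by_cases hf : ∃ᶠ i in atTop, S.b3 (g i) ≠ 0
  · obtain ⟨φ, hφ, hφ2⟩ := extraction_of_frequently_atTop hf
    exact g5b_core S hh hb3 (NI.comp S hg hφ) hφ2
  · rw [not_frequently] at hf
    obtain ⟨i₀, hi₀⟩ := eventually_atTop.1 hf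
    have hshift : StrictMono fun i : ℕ => i + i₀ := fun a b hab => Nat.add_lt_add_right hab i₀
    have hg1 : S.NI (g ∘ fun i : ℕ => i + i₀) := NI.comp S hg hshift
    have hg2 := NI.conj S hg1 γ₀
    refine g5b_core S hh hb3 hg2 fun i h0 => ?_
    have hb0 : S.b3 (g (i + i₀)) = 0 := not_not.1 (hi₀ (i + i₀) (Nat.le_add_left _ _))
    have hχ1 : S.χ (g (i + i₀)) ≠ 1 := fun h1 => hgn _ ⟨h1, hb0⟩
    simp only [Function.comp_apply] at h0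
    have h1 : γ₀ * g (i + i₀) * γ₀⁻¹ * γ₀ = γ₀ * g (i + i₀) := by group
    have h2 := congrArg S.b3 h1
    have hχ2 : S.χ (γ₀ * g (i + i₀) * γ₀⁻¹) = S.χ (g (i + i₀)) := by
      rw [S.χ_mul, S.χ_mul, S.χ_inv]
      have h3 := S.χ_ne γ₀
      field_simp
    rw [S.b3_mul (γ₀ * g (i + i₀) * γ₀⁻¹), hχ2, h0, S.b3_mul γ₀, hb0] at h2
    have h3 : (S.χ (g (i + i₀)) - 1) * S.b3 γ₀ = 0 := by linear_combination h2
    rcases mul_eq_zero.1 h3 with h4 | h4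
    · exact hχ1 (sub_eq_zero.1 h4)
    · exact hγ₀ h4

end Aff

end HRF
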