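import Pool.Agent.HRF.G3b

/-!
# HRF-G6 : contacts are vertical
-/

namespace HRF

open Set Filter Topology Matrix

namespace Aff

variable {Γ E : Type*} [Group Γ] [TopologicalSpace E] [MulAction Γ E] [T2Space E] (S : Aff Γ E)

/-- One near-identity translation. If `χ t = 1`, `t • x = ext x W`, `|W 2| < ρ x`, then for every
singular `p` (`p ∉ Star x`, `|p 2| = ρ x`): `ρ x ≤ |p 2 + b3 t|`.

Proof. `W 2 = D (t • x) 2 - D x 2 = b3 t`. `ρ (t • x) = ρ x` (`ρ_smul`). The point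
`lm t *ᵥ p ∉ Star (t • x)` (`mem_star_smul`) has third coordinate `p 2`. `ext (t • x) (-W) = x`
(`ext_neg`), `|-W 2| < ρ (t • x)`. `ρ_ext_le` at `t • x` with `w = -W` and `lm t *ᵥ p`:
`ρ x ≤ |p 2 + W 2|`. -/
theorem ρ_le_add {t : Γ} (ht : S.χ t = 1) {x : E} {W : V} (hW : t • x = ext S.D x W)
    (hW2 : ‖W 2‖ < S.ρ x) {p : V} (hp : p ∉ Star S.D x) (hp2 : ‖p 2‖ = S.ρ x) :
    S.ρ x ≤ ‖p 2 + S.b3 t‖ := by
  have hWs : W ∈ Star S.D x := S.tube x W hW2
  have h1 : S.D (t • x) = S.D x + W := by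
    rw [hW]
    exact D_ext hWs
  have h2 : W 2 = S.b3 t := by
    have h3 := S.eq2 t x
    rw [ht, one_mul, h1] at h3
    exact add_left_cancel h3
  have h4 : S.ρ (t • x) = S.ρ x := by
    rw [S.ρ_smul, ht, norm_one, one_mul]
  have h5 : S.lm t *ᵥ p ∉ Star S.D (t • x) := fun h => hp ((S.mem_star_smul t x p).1 h)
  have h6 : (S.lm t *ᵥ p) 2 = p 2 := by
    rw [S.lm_apply_two, ht, one_mul]
  have h7 := (ext_neg S.hD hWs).2
  rw [← hW] at h7
  have h8 := S.ρ_ext_le (x := t • x) (w := -W) (p := S.lm t *ᵥ p) h5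
    (by rw [h6, h4, hp2]) (by rw [h4, Pi.neg_apply, norm_neg]; exact hW2)
  rw [h7, h6, Pi.neg_apply, sub_neg_eq_add, h2] at h8
  exact h8

/-- **Contacts are vertical.** If `t i` is a near-identity sequence of translations
(`χ = 1`, `b3 ≠ 0`), there is a unit complex number `β` such that for every `x` and every singular
`p` at `x`, `Re (conj β * p 2) = 0`.

Proof. `b3 (t i) → 0` (`NI.b3`). The unit numbers `b3 (t i) / |b3 (t i)|` have a convergent
subsequence, with limit `β`. Let `x`, `p` be given. For `i` large, `ρ_le_add` for `t i` and for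
`(t i)⁻¹` (`NI.inv`; `b3 (t i)⁻¹ = - b3 (t i)` by `b3_inv`) gives
`|p 2| ≤ |p 2 + b3 (t i)|` and `|p 2| ≤ |p 2 - b3 (t i)|`. Squaring,
`|2 Re (conj (b3 (t i)) p 2)| ≤ |b3 (t i)|²`; divide by `|b3 (t i)|` and pass to the limit. -/
theorem exists_vertical [Nonempty E] {t : ℕ → Γ} (ht : S.NI t)
    (ht1 : ∀ i, S.χ (t i) = 1 ∧ S.b3 (t i) ≠ 0) :
    ∃ β : ℂ, ‖β‖ = 1 ∧ ∀ (x : E) (p : V), p ∉ Star S.D x → ‖p 2‖ = S.ρ x →
      (star β * p 2).re = 0 := by
  have hb3 := NI.b3 S ht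
  set u : ℕ → ℂ := fun i => S.b3 (t i) / ‖S.b3 (t i)‖ with hu
  have hun : ∀ i, ‖u i‖ = 1 := by
    intro i
    have h1 : ‖S.b3 (t i)‖ ≠ 0 := norm_ne_zero_iff.2 (ht1 i).2
    rw [hu]
    simp only [norm_div, Complex.norm_real, norm_norm]
    exact div_self h1
  obtain ⟨β, hβ, φ, hφ, hlim⟩ := (isCompact_sphere (0 : ℂ) 1).tendsto_subseq
    (x := u) (fun i => by rw [mem_sphere_zero_iff_norm]; exact hun i)
  rw [mem_sphere_zero_iff_norm] at hβ
  refine ⟨β, hβ, fun x p hp hp2 => ?_⟩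
  -- eventually both inequalities hold
  have hev : ∀ g : ℕ → Γ, S.NI g → (∀ i, S.χ (g i) = 1) →
      ∀ᶠ i in atTop, S.ρ x ≤ ‖p 2 + S.b3 (g i)‖ := by
    intro g hg hg1
    obtain ⟨W, hW, hgW⟩ := hg.2 x
    have h1 : ∀ᶠ i in atTop, ‖W i 2‖ < S.ρ x := by
      have h2 : Tendsto (fun i => ‖W i 2‖) atTop (𝓝 0) := by
        simpa using hW.norm
      exact h2.eventually (gt_mem_nhds (S.ρ_pos x))
    filter_upwards [h1, hgW] with i hi1 hi2
    exact S.ρ_le_add (hg1 i) hi2 hi1 hp hp2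
  have e1 := hev t ht (fun i => (ht1 i).1)
  have e2 := hev (fun i => (t i)⁻¹) (NI.inv S ht) (fun i => by rw [S.χ_inv, (ht1 i).1, inv_one])
  have key : ∀ᶠ i in atTop, |(star (u i) * p 2).re| ≤ ‖S.b3 (t i)‖ / 2 := by
    filter_upwards [e1, e2] with i h1 h2
    set b : ℂ := S.b3 (t i) with hb
    have hb0 : 0 < ‖b‖ := norm_pos_iff.2 (ht1 i).2
    rw [S.b3_inv, (ht1 i).1, inv_one, one_mul, ← hb] at h2
    rw [← hp2] at h1 h2
    have h3 : ‖p 2‖ ^ 2 ≤ ‖p 2 + b‖ ^ 2 := pow_le_pow_left₀ (norm_nonneg _) h1 2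
    have h4 : ‖p 2‖ ^ 2 ≤ ‖p 2 + -b‖ ^ 2 := pow_le_pow_left₀ (norm_nonneg _) h2 2
    rw [← Complex.normSq_eq_norm_sq, ← Complex.normSq_eq_norm_sq, Complex.normSq_apply,
      Complex.normSq_apply] at h3 h4
    simp only [Complex.add_re, Complex.add_im, Complex.neg_re, Complex.neg_im] at h3 h4
    have h5 : ‖b‖ ^ 2 = b.re * b.re + b.im * b.im := by
      rw [← Complex.normSq_eq_norm_sq, Complex.normSq_apply]
    have h6 : (star (u i) * p 2).re = (b.re * (p 2).re + b.im * (p 2).im) / ‖b‖ := by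
      rw [hu]
      simp only [← hb]
      rw [star_div₀]
      have h7 : star ((‖b‖ : ℝ) : ℂ) = ((‖b‖ : ℝ) : ℂ) := Complex.conj_ofReal _
      rw [h7, div_mul_eq_mul_div, Complex.div_ofReal_re, Complex.mul_re]
      simp only [Complex.star_def, Complex.conj_re, Complex.conj_im]
      ring
    rw [h6, abs_div, abs_of_pos hb0, div_le_iff₀ hb0]
    have h8 : ‖b‖ / 2 * ‖b‖ = (b.re * b.re + b.im * b.im) / 2 := by
      rw [← h5]
      ring
    rw [h8, abs_le]
    constructor <;> nlinarith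
  have hlim2 : Tendsto (fun i => |(star (u (φ i)) * p 2).re|) atTop
      (𝓝 |(star β * p 2).re|) := by
    have h1 : Tendsto (fun i => star (u (φ i)) * p 2) atTop (𝓝 (star β * p 2)) :=
      ((continuous_star.tendsto β).comp hlim).mul_const _
    exact ((Complex.continuous_re.tendsto _).comp h1).abs
  have hlim3 : Tendsto (fun i => ‖S.b3 (t (φ i))‖ / 2) atTop (𝓝 0) := by
    have h1 := (hb3.comp hφ.tendsto_atTop).norm.div_const 2
    simpa using h1
  have h9 : |(star β * p 2).re| ≤ 0 :=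
    le_of_tendsto_of_tendsto hlim2 hlim3 (hφ.tendsto_atTop.eventually key)
  exact abs_eq_zero.1 (le_antisymm h9 (abs_nonneg _))

end Aff

end HRF
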