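import Pool.Agent.HRF.G8a

/-!
# HRF-G8b : the developing map is injective onto a slab
-/

namespace HRF

open Set Filter Topology Matrix

namespace Aff

variable {Γ E : Type*} [Group Γ] [TopologicalSpace E] [MulAction Γ E] [T2Space E] (S : Aff Γ E)

theorem g8b_vert_smul (β : ℂ) (s t : ℝ) : s • vert β t = vert β (s * t) := by
  ext i
  fin_cases i
  · simp [vert]
  · simp [vert]
  · simp only [vert, Pi.smul_apply, Complex.real_smul]
    simp only [Fin.reduceFinMk, Matrix.cons_val]
    push_cast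
    ring

theorem g8b_vert_im {β : ℂ} (hβ1 : ‖β‖ = 1) (t : ℝ) : (star β * vert β t 2).im = t := by
  have h1 : star β * β = 1 := by
    have h2 := Complex.normSq_eq_conj_mul_self (z := β)
    rw [Complex.normSq_eq_norm_sq, hβ1] at h2
    rw [Complex.star_def, ← h2]
    norm_num
  have h3 : vert β t 2 = Complex.I * β * t := rfl
  rw [h3]
  have h4 : star β * (Complex.I * β * t) = (star β * β) * (Complex.I * t) := by ring
  rw [h4, h1, one_mul, mul_comm, Complex.im_ofReal_mul, Complex.I_im, mul_one]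

theorem g8b_vert_cont (β : ℂ) : Continuous (vert β) := by
  have h1 : vert β = fun t : ℝ => t • vert β 1 := by
    funext t
    rw [g8b_vert_smul, mul_one]
  rw [h1]
  exact continuous_id.smul continuous_const

/-- height -/
noncomputable def g8bH (β : ℂ) : V →ₗ[ℝ] ℝ where
  toFun z := (star β * z 2).im
  map_add' z w := by
    rw [Pi.add_apply, mul_add, Complex.add_im]
  map_smul' r z := by
    rw [Pi.smul_apply, Complex.real_smul, mul_left_comm, Complex.im_ofReal_mul, RingHom.id_apply,
      smul_eq_mul]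

theorem g8bH_apply (β : ℂ) (z : V) : g8bH β z = (star β * z 2).im := rfl

theorem g8bH_cont (β : ℂ) : Continuous (g8bH β) := by
  have h1 : Continuous fun z : V => (star β * z 2).im :=
    Complex.continuous_im.comp (continuous_const.mul (continuous_apply 2))
  exact h1

/-- **Slab theorem.** `D` is injective and its image is `{z | (conj β * z 2).im ∈ I}` for an open
interval `I`, `I ≠ ℝ`.

Proof. Fix `x`, `I₀ = {t | vert β t ∈ Star x}` (open, order connected, `0 ∈ I₀`),
`C = {z | (conj β * z 2).im ∈ I₀}` open, convex, contained in `Star x` (`slab_section`). Let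
`R = ext x '' C`, open (`isOpen_image_ext`) and nonempty. `R` is closed: let `y ∈ closure R`. By
`eventually_ext_eq` there is a point `x' = ext y w ∈ R` with `|w 2| < ρ y / 2`; `x' = ext x z`,
`z ∈ C`, `t = (conj β * z 2).im ∈ I₀`. `ρ x' ≥ ρ y / 2` (`le_ρ_ext`) and `y = ext x' (-w)`
(`ext_neg`). Let `x_v = ext x (vert β t)`; `x' = ext x_v (z - vert β t)` (`slab_section`), height
`0`, so `ρ x_v = ρ x' > |w 2| ≥ |e|`, `e = (conj β * w 2).im` (`abs_ρ_sub_le`). By
`vert_extend`, `t - e ∈ I₀`. So `z - w ∈ C`, and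
`ext x (z - w) = ext (ext x z) (-w) = ext x' (-w) = y` (`ext_convex` in `C`).
Hence `y ∈ R`. `E` connected: `R = E`. So every `y : E` is `ext x z` with `z ∈ C`, `z = D y - D x`:
`D` is injective and `range D = {D x + z | z ∈ C}`. Take
`I = {s | s - (conj β * D x 2).im ∈ I₀}`. `I ≠ univ`: otherwise `C = univ ⊆ Star x`, but there is
a singular `p ∉ Star x` (`S.sing`). -/
theorem exists_slab [ConnectedSpace E] {β : ℂ} (hβ1 : ‖β‖ = 1)
    (hβ : ∀ (x : E) (p : V), p ∉ Star S.D x → ‖p 2‖ = S.ρ x → (star β * p 2).re = 0) :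
    Function.Injective S.D ∧ ∃ I : Set ℝ, IsOpen I ∧ I.OrdConnected ∧ I.Nonempty ∧ I ≠ univ ∧
      range S.D = {z : V | (star β * z 2).im ∈ I} := by
  obtain ⟨x⟩ := (inferInstance : Nonempty E)
  set I₀ : Set ℝ := {t | vert β t ∈ Star S.D x} with hI₀
  have hI0o : IsOpen I₀ := (isOpen_Star S.hD x).preimage (g8b_vert_cont β)
  have h0I : (0 : ℝ) ∈ I₀ := by
    have h1 : vert β 0 = 0 := by
      have := g8b_vert_smul β 0 1
      rw [zero_smul, zero_mul] at this
      exact this.symm
    rw [hI₀, mem_ofPred_eq, h1]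
    exact zero_mem_Star
  have hsc : ∀ t ∈ I₀, ∀ s ∈ Icc (0 : ℝ) 1, s * t ∈ I₀ := by
    intro t ht s hs
    have := smul_mem_Star S.hD ht hs
    rw [g8b_vert_smul] at this
    exact this
  have hord : I₀.OrdConnected := by
    refine ⟨fun a ha b hb c hc => ?_⟩
    rcases lt_trichotomy c 0 with h | h | h
    · have ha0 : a < 0 := lt_of_le_of_lt hc.1 h
      have := hsc a ha (c / a) ⟨div_nonneg_of_nonpos h.le ha0.le, by
        rw [div_le_one_of_neg ha0]
        exact hc.1⟩
      rwa [div_mul_cancel₀ c ha0.ne] at this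
    · rw [h]
      exact h0I
    · have hb0 : 0 < b := lt_of_lt_of_le h hc.2
      have := hsc b hb (c / b) ⟨div_nonneg h.le hb0.le, by
        rw [div_le_one hb0]
        exact hc.2⟩
      rwa [div_mul_cancel₀ c hb0.ne'] at this
  set C : Set V := {z | g8bH β z ∈ I₀} with hC
  have hCo : IsOpen C := hI0o.preimage (g8bH_cont β)
  have hCc : Convex ℝ C := (hord.convex).linear_preimage (g8bH β)
  have hCS : C ⊆ Star S.D x := fun z hz => (S.slab_section hβ1 hβ hz).1
  have h0C : (0 : V) ∈ C := by
    rw [hC, mem_ofPred_eq, map_zero]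
    exact h0I
  set R : Set E := ext S.D x '' C with hR
  have hRo : IsOpen R := isOpen_image_ext S.hD hCo hCS
  have hRne : R.Nonempty := ⟨_, mem_image_of_mem _ h0C⟩
  have hRc : IsClosed R := by
    rw [← closure_subset_iff_isClosed]
    intro y hy
    have hρy := S.ρ_pos y
    have hev := S.eventually_ext_eq y (half_pos hρy)
    obtain ⟨x', hx'R, hx', hw2⟩ := ((mem_closure_iff_frequently.1 hy).and_eventually hev).exists
    set w : V := S.D x' - S.D y with hw
    obtain ⟨z, hz, hzx⟩ := hx'R
    have hwρ : ‖w 2‖ < S.ρ y := by linarith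
    have hwS : w ∈ Star S.D y := S.tube y w hwρ
    have h1 := S.le_ρ_ext hwρ
    rw [← hx'] at h1
    obtain ⟨_, h3⟩ := ext_neg S.hD hwS
    rw [← hx'] at h3
    set t : ℝ := (star β * z 2).im with ht
    have htI : vert β t ∈ Star S.D x := hz
    obtain ⟨_, hsec⟩ := S.slab_section hβ1 hβ (x := x) (z := z) hz
    rw [← ht] at hsec
    set xv := ext S.D x (vert β t) with hxv
    have hh : (star β * (z - vert β t) 2).im = 0 := by
      rw [Pi.sub_apply, mul_sub, Complex.sub_im, g8b_vert_im hβ1, ← ht, sub_self]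
    have hzv : z - vert β t ∈ Star S.D xv :=
      S.mem_star_of_strip hβ1 hβ (by rw [hh, abs_zero]; exact S.ρ_pos _)
    have h4 := S.abs_ρ_sub_le hβ1 hβ hzv
    rw [← hsec, hzx, hh, abs_zero] at h4
    have h5 : S.ρ x' = S.ρ xv := by
      have := abs_nonpos_iff.1 h4
      linarith
    set e : ℝ := (star β * w 2).im with he
    have h6 : |e| ≤ ‖w 2‖ := by
      rw [he]
      refine (Complex.abs_im_le_norm _).trans (le_of_eq ?_)
      rw [norm_mul, norm_star, hβ1, one_mul]
    have h7 : |(-e)| < S.ρ xv := by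
      rw [abs_neg, ← h5]
      linarith
    have h8 : vert β (t + -e) ∈ Star S.D x := S.vert_extend hβ1 hβ htI h7
    have h9 : z - w ∈ C := by
      rw [hC, mem_ofPred_eq, map_sub, g8bH_apply, g8bH_apply, ← ht, ← he, sub_eq_add_neg]
      exact h8
    obtain ⟨_, h10⟩ := ext_convex S.hD hCc hCS hz h9
    have h11 : z - w - z = -w := by abel
    rw [h11, hzx, h3] at h10
    exact ⟨z - w, h9, h10.symm⟩
  have hRu : R = univ := IsClopen.eq_univ ⟨hRc, hRo⟩ hRne
  have hall : ∀ y : E, ∃ z ∈ C, ext S.D x z = y := by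
    intro y
    have : y ∈ R := by rw [hRu]; exact mem_univ y
    exact this
  refine ⟨?_, {s | s - (star β * S.D x 2).im ∈ I₀}, ?_, ?_, ?_, ?_, ?_⟩
  · intro y y' hyy
    obtain ⟨z, hz, rfl⟩ := hall y
    obtain ⟨z', hz', rfl⟩ := hall y'
    rw [D_ext (hCS hz), D_ext (hCS hz')] at hyy
    rw [add_left_cancel hyy]
  · exact hI0o.preimage (continuous_id.sub continuous_const)
  · refine ⟨fun a ha b hb c hc => ?_⟩
    exact hord.out ha hb ⟨by linarith [hc.1], by linarith [hc.2]⟩
  · exact ⟨(star β * S.D x 2).im, by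
      rw [mem_ofPred_eq, sub_self]
      exact h0I⟩
  · intro hu
    obtain ⟨p, hp, _⟩ := S.sing x
    apply hp
    apply hCS
    have h1 : (star β * S.D x 2).im + (star β * p 2).im ∈
        {s | s - (star β * S.D x 2).im ∈ I₀} := by
      rw [hu]
      exact mem_univ _
    rw [mem_ofPred_eq, add_sub_cancel_left] at h1
    exact h1
  · ext z
    constructor
    · rintro ⟨y, rfl⟩
      obtain ⟨z, hz, rfl⟩ := hall y
      rw [D_ext (hCS hz), mem_ofPred_eq, mem_ofPred_eq, Pi.add_apply, mul_add, Complex.add_im,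
        add_sub_cancel_left]
      exact hz
    · intro hz
      rw [mem_ofPred_eq, mem_ofPred_eq] at hz
      have h1 : z - S.D x ∈ C := by
        rw [hC, mem_ofPred_eq, map_sub, g8bH_apply, g8bH_apply]
        exact hz
      refine ⟨ext S.D x (z - S.D x), ?_⟩
      rw [D_ext (hCS h1)]
      abel

end Aff

end HRF
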