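import Pool.Agent.HRF.G1a

/-!
# HRF-G9 : the developing image is a half-space
-/

namespace HRF

open Set Filter Topology Matrix

namespace Aff

variable {Γ E : Type*} [Group Γ] [TopologicalSpace E] [MulAction Γ E] (S : Aff Γ E)

theorem g9_beta {β : ℂ} (hβ1 : ‖β‖ = 1) : star β * β = 1 := by
  have h2 := Complex.normSq_eq_conj_mul_self (z := β)
  rw [Complex.normSq_eq_norm_sq, hβ1] at h2
  rw [Complex.star_def, ← h2]
  norm_num

/-- powers of an expanding factor -/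
theorem g9_pow {k : ℝ} {I : Set ℝ} (hk : ∀ t ∈ I, k * t ∈ I) (n : ℕ) :
    ∀ t ∈ I, k ^ n * t ∈ I := by
  induction n with
  | zero =>
    intro t ht
    rwa [pow_zero, one_mul]
  | succ n ih =>
    intro t ht
    rw [pow_succ', mul_assoc]
    exact hk _ (ih t ht)

/-- `0 ∉ I` -/
theorem g9_zero {k : ℝ} {I : Set ℝ} (hI : IsOpen I) (hIu : I ≠ univ) (hk1 : 1 < |k|)
    (hk : ∀ t ∈ I, k * t ∈ I) : (0 : ℝ) ∉ I := by
  intro h0
  obtain ⟨ε, hε, hball⟩ := Metric.isOpen_iff.1 hI 0 h0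
  apply hIu
  rw [eq_univ_iff_forall]
  intro r
  have hk0 : k ≠ 0 := by
    intro h
    rw [h, abs_zero] at hk1
    linarith
  have htend : Tendsto (fun n : ℕ => (|k|⁻¹) ^ n * |r|) atTop (𝓝 (0 * |r|)) :=
    (tendsto_pow_atTop_nhds_zero_of_lt_one (by positivity) (inv_lt_one_of_one_lt₀ hk1)).mul_const _
  rw [zero_mul] at htend
  obtain ⟨n, hn⟩ := (htend.eventually (gt_mem_nhds hε)).exists
  have h1 : (k ^ n)⁻¹ * r ∈ I := by
    apply hball
    rw [Metric.mem_ball, dist_zero_right, Real.norm_eq_abs, abs_mul, abs_inv, abs_pow, ← inv_pow]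
    exact hn
  have h2 := g9_pow hk n _ h1
  have h3 : k ^ n * ((k ^ n)⁻¹ * r) = r := by
    have : k ^ n ≠ 0 := pow_ne_zero _ hk0
    field_simp
  rwa [h3] at h2

/-- the positive case: `I = (0, ∞)` -/
theorem g9_pos {k : ℝ} {I : Set ℝ} (hI : IsOpen I) (hIo : I.OrdConnected)
    (hIu : I ≠ univ) (hk1 : 1 < |k|) (hk : ∀ t ∈ I, k * t ∈ I) (hk' : ∀ t ∈ I, k⁻¹ * t ∈ I)
    {t0 : ℝ} (ht0 : t0 ∈ I) (ht0p : 0 < t0) : I = Ioi 0 := by
  have h0 := g9_zero hI hIu hk1 hk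
  have hpos : ∀ t ∈ I, 0 < t := by
    intro t ht
    by_contra hneg
    exact h0 (hIo.out ht ht0 ⟨not_lt.1 hneg, ht0p.le⟩)
  have hk0 : 0 < k := by
    have h1 := hpos _ (hk _ ht0)
    exact pos_of_mul_pos_left h1 ht0p.le
  rw [abs_of_pos hk0] at hk1
  apply Subset.antisymm
  · exact fun t ht => hpos t ht
  · intro r hr
    have hr0 : 0 < r := hr
    obtain ⟨n, hn⟩ := pow_unbounded_of_one_lt (r / t0) hk1
    obtain ⟨m, hm⟩ := pow_unbounded_of_one_lt (t0 / r) hk1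
    have h1 := g9_pow hk n _ ht0
    have h2 := g9_pow hk' m _ ht0
    refine hIo.out h2 h1 ⟨?_, ?_⟩
    · rw [inv_pow, inv_mul_le_iff₀ (by positivity)]
      rw [div_lt_iff₀ hr0] at hm
      exact hm.le
    · rw [div_lt_iff₀ ht0p] at hn
      exact hn.le

theorem g9_inv {β : ℂ} {I : Set ℝ}
    (hr : range S.D = {z : V | (star β * z 2).im ∈ I}) (γ : Γ) (ζ : ℂ)
    (hζ : (star β * ζ).im ∈ I) : (star β * (S.χ γ * ζ + S.b3 γ)).im ∈ I := by
  have h1 : (![0, 0, ζ] : V) ∈ range S.D := by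
    rw [hr, mem_ofPred_eq]
    exact hζ
  obtain ⟨x, hx⟩ := h1
  have h2 : S.D (γ • x) ∈ range S.D := mem_range_self _
  rw [hr, mem_ofPred_eq, S.eq2, hx] at h2
  exact h2

theorem g9_real {β : ℂ} (hβ1 : ‖β‖ = 1) {I : Set ℝ} (hIn : I.Nonempty) (hIu : I ≠ univ)
    (hr : range S.D = {z : V | (star β * z 2).im ∈ I}) (γ : Γ) : (S.χ γ).im = 0 := by
  by_contra hne
  apply hIu
  rw [eq_univ_iff_forall]
  intro r
  obtain ⟨t, ht⟩ := hIn
  set s : ℝ := (r - t * (S.χ γ).re - (star β * S.b3 γ).im) / (S.χ γ).im with hs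
  have h1 := S.g9_inv hr γ (β * (s + t * Complex.I)) (by
    rw [← mul_assoc, g9_beta hβ1, one_mul]
    simpa using ht)
  have h2 : star β * (S.χ γ * (β * (s + t * Complex.I)) + S.b3 γ) =
      S.χ γ * (s + t * Complex.I) + star β * S.b3 γ := by
    linear_combination (S.χ γ * (s + t * Complex.I)) * g9_beta hβ1
  rw [h2, Complex.add_im, Complex.mul_im] at h1
  have h3 : (S.χ γ).re * ((s : ℂ) + t * Complex.I).im + (S.χ γ).im * ((s : ℂ) + t * Complex.I).re +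
      (star β * S.b3 γ).im = r := by
    have e1 : ((s : ℂ) + t * Complex.I).im = t := by simp
    have e2 : ((s : ℂ) + t * Complex.I).re = s := by simp
    rw [e1, e2, hs]
    field_simp
    ring
  rwa [h3] at h1

theorem g9_act {β : ℂ} (hβ1 : ‖β‖ = 1) {I : Set ℝ} (hIn : I.Nonempty) (hIu : I ≠ univ)
    (hr : range S.D = {z : V | (star β * z 2).im ∈ I}) (γ : Γ) {t : ℝ} (ht : t ∈ I) :
    (S.χ γ).re * t + (star β * S.b3 γ).im ∈ I := by
  have h1 := S.g9_inv hr γ (β * (t * Complex.I)) (by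
    rw [← mul_assoc, g9_beta hβ1, one_mul]
    simpa using ht)
  have h2 : star β * (S.χ γ * (β * (t * Complex.I)) + S.b3 γ) =
      S.χ γ * (t * Complex.I) + star β * S.b3 γ := by
    linear_combination (S.χ γ * (t * Complex.I)) * g9_beta hβ1
  rw [h2, Complex.add_im, Complex.mul_im] at h1
  have e1 : ((t : ℂ) * Complex.I).im = t := by simp
  have e2 : ((t : ℂ) * Complex.I).re = 0 := by simp
  rw [e1, e2, mul_zero, add_zero] at h1
  exact h1

/-- the case in which `I` contains a positive number -/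
theorem g9_main {β : ℂ} (hβ1 : ‖β‖ = 1) {I : Set ℝ} (hI : IsOpen I)
    (hIo : I.OrdConnected) (hIu : I ≠ univ)
    (hr : range S.D = {z : V | (star β * z 2).im ∈ I}) {h : Γ} (hh : 1 < ‖S.χ h‖)
    (hb3 : S.b3 h = 0) {t0 : ℝ} (ht0 : t0 ∈ I) (ht0p : 0 < t0) :
    range S.D = {z : V | 0 < (star β * z 2).im} ∧
      ∀ γ : Γ, (S.χ γ).im = 0 ∧ 0 < (S.χ γ).re ∧ (star β * S.b3 γ).im = 0 := by
  have hIn : I.Nonempty := ⟨t0, ht0⟩
  have him : ∀ γ, (S.χ γ).im = 0 := fun γ => S.g9_real hβ1 hIn hIu hr γ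
  have hre : ∀ γ, S.χ γ = ((S.χ γ).re : ℂ) := fun γ => Complex.ext (by simp) (by simp [him γ])
  have hrei : ∀ γ, (S.χ γ⁻¹).re = ((S.χ γ).re)⁻¹ := by
    intro γ
    rw [S.χ_inv, hre γ, ← Complex.ofReal_inv, Complex.ofReal_re, Complex.ofReal_re]
  have hk1 : 1 < |(S.χ h).re| := by
    rw [hre h, Complex.norm_real, Real.norm_eq_abs] at hh
    exact hh
  have hk : ∀ t ∈ I, (S.χ h).re * t ∈ I := by
    intro t ht
    have h1 := S.g9_act hβ1 hIn hIu hr h ht
    rw [hb3, mul_zero, Complex.zero_im, add_zero] at h1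
    exact h1
  have hk' : ∀ t ∈ I, ((S.χ h).re)⁻¹ * t ∈ I := by
    intro t ht
    have h1 := S.g9_act hβ1 hIn hIu hr h⁻¹ ht
    rw [S.b3_inv, hb3, mul_zero, neg_zero, mul_zero, Complex.zero_im, add_zero, hrei] at h1
    exact h1
  have hIeq := g9_pos hI hIo hIu hk1 hk hk' ht0 ht0p
  have hkpos : ∀ γ, 0 < (S.χ γ).re ∧ 0 ≤ (star β * S.b3 γ).im := by
    intro γ
    set kk := (S.χ γ).re with hkk
    set cc := (star β * S.b3 γ).im with hcc
    have hact : ∀ t : ℝ, 0 < t → 0 < kk * t + cc := by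
      intro t ht
      have h1 := S.g9_act hβ1 hIn hIu hr γ (t := t) (by rw [hIeq]; exact ht)
      rw [hIeq] at h1
      exact h1
    have hkne : kk ≠ 0 := by
      intro h0
      apply S.χ_ne γ
      rw [hre γ, ← hkk, h0, Complex.ofReal_zero]
    have hk0 : 0 < kk := by
      rcases lt_or_gt_of_ne hkne with hlt | hgt
      · exfalso
        have h1 := hact ((|cc| + 1) / -kk) (by
          have : 0 < -kk := by linarith
          positivity)
        have h2 : kk * ((|cc| + 1) / -kk) = -(|cc| + 1) := by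
          field_simp
        rw [h2] at h1
        linarith [le_abs_self cc]
      · exact hgt
    refine ⟨hk0, ?_⟩
    by_contra hneg
    have hneg' : cc < 0 := not_le.1 hneg
    have h1 := hact (-cc / (2 * kk)) (by
      have : 0 < -cc := by linarith
      positivity)
    have h2 : kk * (-cc / (2 * kk)) = -cc / 2 := by
      field_simp
    rw [h2] at h1
    linarith
  refine ⟨?_, fun γ => ⟨him γ, (hkpos γ).1, ?_⟩⟩
  · rw [hr, hIeq]
    rfl
  · have h1 := (hkpos γ).2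
    have h2 := (hkpos γ⁻¹).2
    rw [S.b3_inv, hre γ] at h2
    have h3 : star β * -(((S.χ γ).re : ℂ)⁻¹ * S.b3 γ) =
        ((-((S.χ γ).re)⁻¹ : ℝ) : ℂ) * (star β * S.b3 γ) := by
      push_cast
      ring
    rw [h3, Complex.im_ofReal_mul] at h2
    have h4 : 0 < ((S.χ γ).re)⁻¹ := inv_pos.2 (hkpos γ).1
    have h5 : (S.χ γ).re⁻¹ * (star β * S.b3 γ).im ≤ 0 := by linarith
    have h6 : (star β * S.b3 γ).im ≤ 0 := by
      by_contra h7
      have := mul_pos h4 (not_le.1 h7)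
      linarith
    linarith

/-- **Half-space theorem.** If the image of `D` is a slab over an open interval `I ≠ ℝ` and `h` is
expanding with `b3 h = 0`, then, for `β' = β` or `-β`, the image is the half-space
`{z | 0 < (conj β' * z 2).im}`, all `χ γ` are positive reals and `conj β' * b3 γ` are real.

Proof. For `z ∈ range D` and `γ : Γ`, `z = D x`, and `D (γ • x) 2 = χ γ * z 2 + b3 γ`; so
(invariance) for every `ζ : ℂ` with `(conj β * ζ).im ∈ I`: `(conj β * (χ γ * ζ + b3 γ)).im ∈ I`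
(take `z = (0, 0, ζ)`; `(lm γ z + tr γ) 2 = χ γ ζ + b3 γ`).
`χ γ` is real: with `ζ = β (s + i t)`, `t ∈ I`, `s : ℝ`,
`(conj β * (χ γ ζ + b3 γ)).im = s Im χ + t Re χ + Im (conj β * b3 γ) ∈ I` for all `s`; if
`Im χ ≠ 0` these fill `ℝ`, contradiction to `I ≠ univ`. So for all `γ`, with
`c γ = Im (conj β * b3 γ)`: `t ∈ I → χ γ * t + c γ ∈ I` (`χ γ` real).
For `h`: `t ∈ I → χ h * t ∈ I`, and the same for `h⁻¹`: `t ∈ I → (χ h)⁻¹ * t ∈ I` (`b3 h⁻¹ = 0`).
`I` is nonempty, open. There is `t₀ ∈ I`, `t₀ ≠ 0`; then `χ_h^{-n} t₀ → 0` so `0 ∈ closure I`,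
and `χ_h^{n} t₀` is unbounded. If `0 ∈ I`: then `(-ε, ε) ⊆ I`, and multiplying by powers of
`χ h`, `I = ℝ`, contradiction. So `0 ∉ I` and by order-connectedness `I ⊆ (0,∞)` or
`I ⊆ (-∞,0)`; say `t₀ > 0` (otherwise replace `β` by `-β` and `I` by `-I`). `χ h > 0` since
`χ h * t₀ ∈ I ⊆ (0,∞)`, and `I ⊇ [χ_h^{-n} t₀, χ_h^n t₀]` for all `n`, so `I = (0,∞)`.
For all `γ`: `t > 0 → χ γ t + c γ > 0`, so `χ γ ≥ 0` (so `> 0`) and `c γ ≥ 0` (let `t → 0`); for
`γ⁻¹`: `c γ⁻¹ = -(χ γ)⁻¹ c γ ≥ 0`; so `c γ = 0`. -/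
theorem exists_halfspace {β : ℂ} (hβ1 : ‖β‖ = 1) {I : Set ℝ} (hI : IsOpen I)
    (hIo : I.OrdConnected) (hIn : I.Nonempty) (hIu : I ≠ univ)
    (hr : range S.D = {z : V | (star β * z 2).im ∈ I}) {h : Γ} (hh : 1 < ‖S.χ h‖)
    (hb3 : S.b3 h = 0) :
    ∃ β' : ℂ, ‖β'‖ = 1 ∧ range S.D = {z : V | 0 < (star β' * z 2).im} ∧
      ∀ γ : Γ, (S.χ γ).im = 0 ∧ 0 < (S.χ γ).re ∧ (star β' * S.b3 γ).im = 0 := by
  -- a nonzero point of `I`
  obtain ⟨t0, ht0, ht0n⟩ : ∃ t ∈ I, t ≠ 0 := by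
    obtain ⟨t1, ht1⟩ := hIn
    by_cases h1 : t1 = 0
    · obtain ⟨ε, hε, hball⟩ := Metric.isOpen_iff.1 hI t1 ht1
      refine ⟨t1 + ε / 2, hball ?_, ?_⟩
      · rw [Metric.mem_ball, Real.dist_eq, add_sub_cancel_left, abs_of_pos (by positivity)]
        linarith
      · rw [h1, zero_add]
        positivity
    · exact ⟨t1, ht1, h1⟩
  rcases lt_or_gt_of_ne ht0n with hneg | hpos
  · -- replace `β` by `-β`
    set J : Set ℝ := {t | -t ∈ I} with hJ
    have hJo : IsOpen J := hI.preimage continuous_neg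
    have hJc : J.OrdConnected := by
      refine ⟨fun a ha b hb c hc => ?_⟩
      exact hIo.out hb ha ⟨by linarith [hc.2], by linarith [hc.1]⟩
    have hJu : J ≠ univ := by
      intro hu
      apply hIu
      rw [eq_univ_iff_forall] at hu ⊢
      intro t
      have h1 : -t ∈ J := hu (-t)
      have h2 : -(-t) ∈ I := h1
      rwa [neg_neg] at h2
    have hr' : range S.D = {z : V | (star (-β) * z 2).im ∈ J} := by
      rw [hr]
      ext z
      rw [mem_ofPred_eq, mem_ofPred_eq, hJ, mem_ofPred_eq, star_neg, neg_mul, Complex.neg_im,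
        neg_neg]
    have hm := S.g9_main (β := -β) (by rw [norm_neg]; exact hβ1) hJo hJc hJu hr' hh hb3
      (t0 := -t0) (by
        rw [hJ, mem_ofPred_eq, neg_neg]
        exact ht0) (by linarith)
    exact ⟨-β, by rw [norm_neg]; exact hβ1, hm.1, hm.2⟩
  · have hm := S.g9_main hβ1 hI hIo hIu hr hh hb3 ht0 hpos
    exact ⟨β, hβ1, hm.1, hm.2⟩

end Aff

end HRF
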