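import Pool.Agent.HRF.G5a
import Pool.Agent.HRF.G5b
import Pool.Agent.HRF.G6
import Pool.Agent.HRF.G8b
import Pool.Agent.HRF.G9
import Pool.Agent.HRF.G10
import Pool.Agent.HRF.G11

/-!
# HRF-G12 : the contradiction
-/

namespace HRF

open Set Filter Topology Matrix

namespace Aff

variable {Γ E : Type*} [Group Γ] [TopologicalSpace E] [MulAction Γ E] [T2Space E] (S : Aff Γ E)

/-- the laws when all `a` vanish -/
theorem G12_laws (hA : ∀ γ, S.a γ = 0) (γ γ' : Γ) :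
    S.b1 (γ * γ') = (S.χ γ)⁻¹ * S.b1 γ' + S.b1 γ ∧ S.b2 (γ * γ') = S.b2 γ' + S.b2 γ ∧
    S.b3 (γ * γ') = S.χ γ * S.b3 γ' + S.b3 γ := by
  refine ⟨?_, ?_, S.b3_mul γ γ'⟩
  · rw [S.b1_mul, hA]; ring
  · rw [S.b2_mul, hA]; ring

theorem G12_one (hA : ∀ γ, S.a γ = 0) : S.b1 1 = 0 ∧ S.b2 1 = 0 ∧ S.b3 1 = 0 := by
  obtain ⟨h1, h2, h3⟩ := S.G12_laws hA 1 1
  rw [mul_one, S.χ_one] at *
  refine ⟨?_, ?_, ?_⟩
  · linear_combination -h1
  · linear_combination -h2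
  · linear_combination -h3

theorem G12_inv (hA : ∀ γ, S.a γ = 0) (γ : Γ) :
    S.b1 γ⁻¹ = -(S.χ γ * S.b1 γ) ∧ S.b2 γ⁻¹ = -S.b2 γ ∧ S.b3 γ⁻¹ = -((S.χ γ)⁻¹ * S.b3 γ) := by
  obtain ⟨h1, h2, h3⟩ := S.G12_laws hA γ⁻¹ γ
  obtain ⟨k1, k2, k3⟩ := S.G12_one hA
  rw [inv_mul_cancel] at h1 h2 h3
  rw [k1, S.χ_inv, inv_inv] at h1
  rw [k2] at h2
  rw [k3, S.χ_inv] at h3
  refine ⟨?_, ?_, ?_⟩
  · linear_combination -h1
  · linear_combination -h2
  · linear_combination -h3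

/-- the group of translations -/
def G12Lam (hA : ∀ γ, S.a γ = 0) (β : ℂ) : AddSubgroup (ℂ × ℝ) where
  carrier := {q | ∃ γ, S.χ γ = 1 ∧ S.b2 γ = 0 ∧ S.b1 γ = q.1 ∧ (star β * S.b3 γ).re = q.2}
  zero_mem' := by
    obtain ⟨k1, k2, k3⟩ := S.G12_one hA
    exact ⟨1, S.χ_one, k2, k1, by rw [k3]; simp⟩
  add_mem' := by
    rintro p q ⟨γ, h1, h2, h3, h4⟩ ⟨γ', h1', h2', h3', h4'⟩
    obtain ⟨l1, l2, l3⟩ := S.G12_laws hA γ γ'
    refine ⟨γ * γ', ?_, ?_, ?_, ?_⟩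
    · rw [S.χ_mul, h1, h1', one_mul]
    · rw [l2, h2, h2', add_zero]
    · rw [l1, h1, h3, h3', inv_one, one_mul, Prod.fst_add, add_comm]
    · rw [l3, h1, one_mul, mul_add, Complex.add_re, h4, h4', Prod.snd_add, add_comm]
  neg_mem' := by
    rintro p ⟨γ, h1, h2, h3, h4⟩
    obtain ⟨l1, l2, l3⟩ := S.G12_inv hA γ
    refine ⟨γ⁻¹, ?_, ?_, ?_, ?_⟩
    · rw [S.χ_inv, h1, inv_one]
    · rw [l2, h2, neg_zero]
    · rw [l1, h1, h3, one_mul, Prod.fst_neg]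
    · rw [l3, h1, inv_one, one_mul, mul_neg, Complex.neg_re, h4, Prod.snd_neg]

theorem G12_conj (hA : ∀ γ, S.a γ = 0) (h γ : Γ) (hb1 : S.b1 h = 0) (hb3 : S.b3 h = 0) :
    S.χ (h * γ * h⁻¹) = S.χ γ ∧ S.b1 (h * γ * h⁻¹) = (S.χ h)⁻¹ * S.b1 γ ∧
      S.b2 (h * γ * h⁻¹) = S.b2 γ ∧ S.b3 (h * γ * h⁻¹) = S.χ h * S.b3 γ := by
  obtain ⟨l1, l2, l3⟩ := S.G12_laws hA (h * γ) h⁻¹
  obtain ⟨m1, m2, m3⟩ := S.G12_laws hA h γ
  obtain ⟨i1, i2, i3⟩ := S.G12_inv hA h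
  have hx := S.χ_ne h
  refine ⟨?_, ?_, ?_, ?_⟩
  · rw [S.χ_mul, S.χ_mul, S.χ_inv]; field_simp
  · rw [l1, m1, i1, hb1]; ring
  · rw [l2, m2, i2]; ring
  · rw [l3, m3, i3, hb3]; ring

theorem G12_fin (hD : Function.Injective S.D) [Nonempty E] (hA : ∀ γ, S.a γ = 0) {β : ℂ}
    (hβ1 : ‖β‖ = 1) (hr : range S.D = {z : V | 0 < (star β * z 2).im})
    (hγ : ∀ γ : Γ, (S.χ γ).im = 0 ∧ 0 < (S.χ γ).re ∧ (star β * S.b3 γ).im = 0) (R : ℝ) :
    {q : ℂ × ℝ | q ∈ S.G12Lam hA β ∧ ‖q.1‖ ≤ R ∧ |q.2| ≤ R}.Finite := by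
  obtain ⟨x₀⟩ := ‹Nonempty E›
  have hββ : star β * β = 1 := by
    have := Complex.mul_conj β
    rw [mul_comm] at this
    rw [show star β = (starRingEnd ℂ) β from rfl, this, Complex.normSq_eq_norm_sq, hβ1]
    simp
  have hb3 : ∀ γ, S.b3 γ = β * ((star β * S.b3 γ).re : ℂ) := by
    intro γ
    have h1 : (((star β * S.b3 γ).re : ℝ) : ℂ) = star β * S.b3 γ := by
      apply Complex.ext
      · simp
      · rw [(hγ γ).2.2]; simp
    rw [h1, ← mul_assoc, mul_comm β, hββ, one_mul]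
  let Q : Set V := (fun p : ℂ × ℝ => ![S.D x₀ 0 + p.1, S.D x₀ 1, S.D x₀ 2 + β * (p.2 : ℂ)]) ''
    (Metric.closedBall 0 R ×ˢ Metric.closedBall 0 R)
  have hQc : IsCompact Q := by
    refine ((isCompact_closedBall (0:ℂ) R).prod (isCompact_closedBall (0:ℝ) R)).image ?_
    refine continuous_pi fun i => ?_
    fin_cases i
    · exact continuous_const.add continuous_fst
    · exact continuous_const
    · exact continuous_const.add (continuous_const.mul (Complex.continuous_ofReal.comp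
        continuous_snd))
  have hx₀ : 0 < (star β * S.D x₀ 2).im := by
    have : S.D x₀ ∈ range S.D := ⟨x₀, rfl⟩
    rw [hr] at this
    exact this
  have hQr : Q ⊆ range S.D := by
    rintro _ ⟨p, -, rfl⟩
    rw [hr]
    show 0 < (star β * (S.D x₀ 2 + β * (p.2 : ℂ))).im
    rw [mul_add, ← mul_assoc, hββ, one_mul, Complex.add_im, Complex.ofReal_im, add_zero]
    exact hx₀
  have hC : IsCompact (S.D ⁻¹' Q) :=
    ((S.hD.isOpenEmbedding_of_injective hD).isInducing.isCompact_preimage_iff hQr).2 hQc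
  refine ((S.pd _ hC).image fun γ => (S.b1 γ, (star β * S.b3 γ).re)).subset ?_
  rintro ⟨q1, q2⟩ ⟨⟨γ, h1, h2, h3, h4⟩, h5, h6⟩
  simp only at h3 h4 h5 h6
  refine ⟨γ, ⟨x₀, ?_, ?_⟩, by simp only [h3, h4]⟩
  · have hR : 0 ≤ R := (norm_nonneg _).trans h5
    refine ⟨(0, 0), ⟨by simpa using hR, by simpa using hR⟩, ?_⟩
    ext i
    fin_cases i <;> simp
  · refine ⟨(q1, q2), ⟨by simpa using h5, by simpa using h6⟩, ?_⟩
    ext i
    have e0 := S.eq0 γ x₀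
    have e1 := S.eq1 γ x₀
    have e2 := S.eq2 γ x₀
    rw [hA, h1, h3] at e0
    rw [hA, h2] at e1
    rw [h1, hb3, h4] at e2
    fin_cases i
    · show S.D x₀ 0 + q1 = S.D (γ • x₀) 0
      rw [e0]; ring
    · show S.D x₀ 1 = S.D (γ • x₀) 1
      rw [e1]; ring
    · show S.D x₀ 2 + β * (q2 : ℂ) = S.D (γ • x₀) 2
      rw [e2]; ring

/-- **The half-space case is impossible.**

Proof. By `a_eq_zero` all `a γ = 0`. Let `r γ` be the real number with `b3 γ = β r γ`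
(`r γ = (conj β * b3 γ).re`). Let `Λ` be the set of all `(b1 γ, r γ)` with `χ γ = 1`,
`b2 γ = 0`: an additive subgroup of `ℂ × ℝ` (all `a = 0`: the laws become additive).
(1) Finiteness: fix `x₀ : E`. For `γ` as above with `|b1 γ|, |r γ| ≤ R`:
`D (γ • x₀) = D x₀ + (b1 γ, 0, β r γ)`, in the compact set
`Q = {D x₀ + (b, 0, β r) | |b| ≤ R, |r| ≤ R}`, all of whose points have the same height as `D x₀`,
so `Q ⊆ range D`. `D : E → range D` is a homeomorphism onto an open set (injective local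
homeomorphism), so `D ⁻¹' Q` is compact; `C = D ⁻¹' Q ∋ x₀` (as `0 ∈` parameters). All such
`γ` satisfy `x₀ ∈ C, γ • x₀ ∈ C`, finitely many by `S.pd`.
(2) Invariance: conjugation by `h` (`a h = b1 h = b3 h = 0`): `(b1, b2, b3) ↦
((χ h)⁻¹ b1, b2, χ h b3)`; conjugation by `h⁻¹` the inverse. `x = χ h` real `> 1`.
(3) `exists_line` gives `v ≠ 0`, `Re (conj v * b1 γ) = 0` for all `γ` with `χ γ = 1`,
`b2 γ = 0`. For any `γ : Γ` the commutator `t = h γ h⁻¹ γ⁻¹` satisfies `χ t = 1`,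
`h γ = t (γ h)`: `b1 (h γ) = b1 (γ h) + b1 t`, i.e. `(χ h)⁻¹ b1 γ = b1 γ + b1 t` [as
`b1 (γ h) = (χ γ)⁻¹ b1 h + 0 + 0 + b1 γ = b1 γ`, using `a γ = 0`],
`b2 t = 0` [`b2 (h γ) = b2 γ + b2 h = b2 (γ h)`]. So `Re (conj v * b1 t) = 0` with
`b1 t = ((χ h)⁻¹ - 1) b1 γ`, `χ h` real `≠ 1`: `Re (conj v * b1 γ) = 0` for all `γ`.
(4) `F x = Re (conj v * D x 0) * (conj β * D x 2).im` is invariant: `D (γ • x) 0 =
(χ γ)⁻¹ D x 0 + b1 γ`, `D (γ • x) 2 = χ γ D x 2 + b3 γ`, `χ γ` real, `conj β * b3 γ` real. It is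
continuous, so bounded by its maximum on `K` (`cover`). But along a leaf,
`x' = ext x (s v e₀)`, `s : ℝ`: `D x' 0 = D x 0 + s v`, so `F x' = F x + s |v|² height(x)`, with
`height(x) > 0`: unbounded. Contradiction. -/
theorem false_of_halfspace [Nonempty E] (hD : Function.Injective S.D) {h : Γ}
    (hh : 1 < ‖S.χ h‖) (ha : S.a h = 0) (hb1 : S.b1 h = 0) (hb3 : S.b3 h = 0) {β : ℂ}
    (hβ1 : ‖β‖ = 1) (hr : range S.D = {z : V | 0 < (star β * z 2).im})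
    (hγ : ∀ γ : Γ, (S.χ γ).im = 0 ∧ 0 < (S.χ γ).re ∧ (star β * S.b3 γ).im = 0) : False := by
  obtain ⟨hh0, hhp, -⟩ := hγ h
  have hA : ∀ γ, S.a γ = 0 := S.a_eq_zero hD hh hh0 hhp ha hb1 hb3
  obtain ⟨x, hx⟩ : ∃ x : ℝ, x = (S.χ h).re := ⟨_, rfl⟩
  have hxχ : S.χ h = (x : ℂ) := by
    apply Complex.ext
    · simp [hx]
    · simp [hh0]
  have hx1 : 1 < x := by
    rw [hxχ, Complex.norm_real, Real.norm_eq_abs, abs_of_pos (by rw [hx]; exact hhp)] at hh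
    exact hh
  have hx0 : x ≠ 0 := by linarith
  have hββ : star β * β = 1 := by
    have := Complex.mul_conj β
    rw [mul_comm] at this
    rw [show star β = (starRingEnd ℂ) β from rfl, this, Complex.normSq_eq_norm_sq, hβ1]
    simp
  have hconj : ∀ γ, S.χ γ = 1 → S.b2 γ = 0 →
      (((x⁻¹ : ℝ) : ℂ) * S.b1 γ, x * (star β * S.b3 γ).re) ∈ S.G12Lam hA β := by
    intro γ h1 h2
    obtain ⟨c1, c2, c3, c4⟩ := S.G12_conj hA h γ hb1 hb3
    refine ⟨h * γ * h⁻¹, c1.trans h1, c3.trans h2, ?_, ?_⟩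
    · rw [c2, hxχ]; push_cast; rfl
    · rw [c4, hxχ]
      simp only
      rw [← mul_assoc, mul_comm (star β), mul_assoc, Complex.re_ofReal_mul]
  have hconj' : ∀ γ, S.χ γ = 1 → S.b2 γ = 0 →
      ((x : ℂ) * S.b1 γ, x⁻¹ * (star β * S.b3 γ).re) ∈ S.G12Lam hA β := by
    intro γ h1 h2
    obtain ⟨i1, i2, i3⟩ := S.G12_inv hA h
    obtain ⟨c1, c2, c3, c4⟩ := S.G12_conj hA h⁻¹ γ (by rw [i1, hb1]; simp) (by rw [i3, hb3]; simp)
    refine ⟨h⁻¹ * γ * h⁻¹⁻¹, c1.trans h1, c3.trans h2, ?_, ?_⟩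
    · rw [c2, S.χ_inv, inv_inv, hxχ]
    · rw [c4, S.χ_inv, hxχ]
      simp only
      rw [← mul_assoc, mul_comm (star β), mul_assoc, ← Complex.ofReal_inv, Complex.re_ofReal_mul]
  obtain ⟨v, hv0, hv⟩ := exists_line (Λ := S.G12Lam hA β) (S.G12_fin hD hA hβ1 hr hγ) hx1
    (by
      rintro ⟨q1, q2⟩ ⟨γ, h1, h2, h3, h4⟩
      have := hconj γ h1 h2
      simp only at h3 h4
      rw [h3, h4] at this
      exact this)
    (by
      rintro ⟨q1, q2⟩ ⟨γ, h1, h2, h3, h4⟩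
      have := hconj' γ h1 h2
      simp only at h3 h4
      rw [h3, h4] at this
      exact this)
  -- the first translation components all lie on the line
  have hline : ∀ γ, (star v * S.b1 γ).re = 0 := by
    intro γ
    obtain ⟨c1, c2, c3, c4⟩ := S.G12_conj hA h γ hb1 hb3
    obtain ⟨l1, l2, l3⟩ := S.G12_laws hA (h * γ * h⁻¹) γ⁻¹
    obtain ⟨i1, i2, i3⟩ := S.G12_inv hA γ
    have hχγ := S.χ_ne γ
    have hmem : (S.b1 (h * γ * h⁻¹ * γ⁻¹), (star β * S.b3 (h * γ * h⁻¹ * γ⁻¹)).re) ∈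
        S.G12Lam hA β := by
      refine ⟨h * γ * h⁻¹ * γ⁻¹, ?_, ?_, rfl, rfl⟩
      · rw [S.χ_mul, c1, S.χ_inv]; field_simp
      · rw [l2, i2, c3]; ring
    have h1 := hv _ hmem
    simp only at h1
    have h2 : S.b1 (h * γ * h⁻¹ * γ⁻¹) = ((x⁻¹ - 1 : ℝ) : ℂ) * S.b1 γ := by
      rw [l1, i1, c1, c2, hxχ]; push_cast; field_simp; ring
    rw [h2, ← mul_assoc, mul_comm (star v), mul_assoc, Complex.re_ofReal_mul] at h1
    rcases mul_eq_zero.1 h1 with h3 | h3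
    · exfalso
      have : x⁻¹ = 1 := by linarith
      rw [inv_eq_one] at this
      linarith
    · exact h3
  -- the invariant function
  let F : E → ℝ := fun y => (star v * S.D y 0).re * (star β * S.D y 2).im
  have hFi : ∀ (γ : Γ) (y : E), F (γ • y) = F y := by
    intro γ y
    obtain ⟨g1, g2, g3⟩ := hγ γ
    have hc : S.χ γ = ((S.χ γ).re : ℂ) := by
      apply Complex.ext
      · simp
      · simp [g1]
    obtain ⟨c, hcc⟩ : ∃ c : ℝ, c = (S.χ γ).re := ⟨_, rfl⟩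
    rw [← hcc] at hc g2
    have e0 : S.D (γ • y) 0 = ((c⁻¹ : ℝ) : ℂ) * S.D y 0 + S.b1 γ := by
      rw [S.eq0, hA, hc]; push_cast; ring
    have e2 : S.D (γ • y) 2 = (c : ℂ) * S.D y 2 + S.b3 γ := by
      rw [S.eq2, hc]
    have f0 : (star v * S.D (γ • y) 0).re = c⁻¹ * (star v * S.D y 0).re := by
      rw [e0, mul_add, Complex.add_re, hline, add_zero, ← mul_assoc, mul_comm (star v), mul_assoc,
        Complex.re_ofReal_mul]
    have f2 : (star β * S.D (γ • y) 2).im = c * (star β * S.D y 2).im := by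
      rw [e2, mul_add, Complex.add_im, g3, add_zero, ← mul_assoc, mul_comm (star β), mul_assoc,
        Complex.im_ofReal_mul]
    show (star v * S.D (γ • y) 0).re * (star β * S.D (γ • y) 2).im =
      (star v * S.D y 0).re * (star β * S.D y 2).im
    rw [f0, f2]
    field_simp
  have hDc : Continuous S.D := S.hD.continuous
  have hFc : Continuous F := by
    have h0 : Continuous fun y => S.D y 0 := (continuous_apply 0).comp hDc
    have h2 : Continuous fun y => S.D y 2 := (continuous_apply 2).comp hDc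
    exact (Complex.continuous_re.comp (continuous_const.mul h0)).mul
      (Complex.continuous_im.comp (continuous_const.mul h2))
  obtain ⟨M, hM⟩ := S.hK.exists_bound_of_continuousOn hFc.continuousOn
  have hFM : ∀ y, F y ≤ M := by
    intro y
    obtain ⟨γ, hγy⟩ := S.cover y
    rw [← hFi γ y]
    exact (le_abs_self _).trans (hM _ hγy)
  obtain ⟨x₀⟩ := ‹Nonempty E›
  have hx₀ : 0 < (star β * S.D x₀ 2).im := by
    have : S.D x₀ ∈ range S.D := ⟨x₀, rfl⟩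
    rw [hr] at this
    exact this
  have hvv : 0 < Complex.normSq v := Complex.normSq_pos.2 hv0
  set ht : ℝ := (star β * S.D x₀ 2).im with hht
  obtain ⟨s, hs⟩ : ∃ s : ℝ, s = (M + 1 - F x₀) / (Complex.normSq v * ht) := ⟨_, rfl⟩
  have hz : (![S.D x₀ 0 + (s : ℂ) * v, S.D x₀ 1, S.D x₀ 2] : V) ∈ range S.D := by
    rw [hr]
    show 0 < (star β * S.D x₀ 2).im
    exact hx₀
  obtain ⟨y, hy⟩ := hz
  have hy0 : S.D y 0 = S.D x₀ 0 + (s : ℂ) * v := by rw [hy]; rfl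
  have hy2 : S.D y 2 = S.D x₀ 2 := by rw [hy]; rfl
  have hFy : F y = F x₀ + s * Complex.normSq v * ht := by
    show (star v * S.D y 0).re * (star β * S.D y 2).im =
      (star v * S.D x₀ 0).re * (star β * S.D x₀ 2).im + s * Complex.normSq v * ht
    have h1 : (star v * S.D y 0).re = (star v * S.D x₀ 0).re + s * Complex.normSq v := by
      rw [hy0, mul_add, Complex.add_re]
      congr 1
      rw [← mul_assoc, mul_comm (star v), mul_assoc, Complex.re_ofReal_mul]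
      congr 1
      rw [show star v = (starRingEnd ℂ) v from rfl, mul_comm, Complex.mul_conj]
      simp
    rw [h1, hy2, ← hht]
    ring
  have h2 := hFM y
  rw [hFy, hs] at h2
  have h3 : (M + 1 - F x₀) / (Complex.normSq v * ht) * Complex.normSq v * ht = M + 1 - F x₀ := by
    field_simp
  linarith

/-- **No adapted data with a normalized expanding element.** -/
theorem false_of_normalized [ConnectedSpace E] {h : Γ} (hh : 1 < ‖S.χ h‖) (ha : S.a h = 0)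
    (hb1 : S.b1 h = 0) (hb3 : S.b3 h = 0) : False := by
  by_cases hfix : ∀ γ, S.b3 γ = 0
  · exact S.false_of_fixed hh ha hb1 hb3 hfix
  · push Not at hfix
    obtain ⟨γ₀, hγ₀⟩ := hfix
    obtain ⟨t, ht, ht1⟩ := S.exists_NI_translation hh ha hb1 hb3 hγ₀
    obtain ⟨β, hβ1, hβ⟩ := S.exists_vertical ht ht1
    obtain ⟨hD, I, hI, hIo, hIn, hIu, hr⟩ := S.exists_slab hβ1 hβ
    obtain ⟨β', hβ'1, hr', hγ⟩ := S.exists_halfspace hβ1 hI hIo hIn hIu hr hh hb3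
    exact S.false_of_halfspace hD hh ha hb1 hb3 hβ'1 hr' hγ

end Aff

end HRF
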