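import Pool.Agent.HRF.Defs

/-!
# HRF-G13a : changes of coordinates; the completeness theorem for developing data
-/

namespace HRF

open Set Filter Topology Matrix

variable {Γ E : Type*} [Group Γ] [TopologicalSpace E] [MulAction Γ E] [T2Space E]

/-- Isotropic basis. For a unit isotropic `u₀` there is an invertible matrix `U` whose third row is
`u₀` (`(U v) 2 = u₀·v`) and which carries the quadratic form to `2 z₀ z₂ + z₁²`:
`v·w = (U v)₀ (U w)₂ + (U v)₂ (U w)₀ + (U v)₁ (U w)₁`.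

Proof. Rows: `star u₀`, `m`, `u₀`, where `m = i (star u₀ ×₃ u₀)`-like unit vector with
`m·m = 1`, `m·u₀ = m·star u₀ = 0`: writing `u₀ = (p + i q)` with `p, q` real, `p·p = q·q = 1/2`,
`p·q = 0`, take `m = 2 (p × q)` (real, `m·m = 4 |p|²|q|² = 1`). Note `u₀·star u₀ = nsq u₀ = 1`,
`u₀·u₀ = 0 = star u₀·star u₀`. With `G` the matrix of the form `2 z₀ z₂ + z₁²` this says
`U Uᵀ = G` (`G² = 1`), so `U` is invertible, `Uᵀ G U = 1` (from `U (Uᵀ G) = 1`), which is the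
claim. -/
theorem exists_basis {u₀ : V} (h1 : nsq u₀ = 1) (h0 : u₀ ⬝ᵥ u₀ = 0) :
    ∃ U U' : Mat, U' * U = 1 ∧ U * U' = 1 ∧ (∀ v, (U *ᵥ v) 2 = u₀ ⬝ᵥ v) ∧
      ∀ v w : V, v ⬝ᵥ w = (U *ᵥ v) 0 * (U *ᵥ w) 2 + (U *ᵥ v) 2 * (U *ᵥ w) 0 +
        (U *ᵥ v) 1 * (U *ᵥ w) 1 := by
  obtain ⟨a, ha⟩ : ∃ a, a = u₀ 0 := ⟨_, rfl⟩
  obtain ⟨b, hb⟩ : ∃ b, b = u₀ 1 := ⟨_, rfl⟩
  obtain ⟨c, hc⟩ : ∃ c, c = u₀ 2 := ⟨_, rfl⟩
  obtain ⟨a', ha'⟩ : ∃ a', a' = star a := ⟨_, rfl⟩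
  obtain ⟨b', hb'⟩ : ∃ b', b' = star b := ⟨_, rfl⟩
  obtain ⟨c', hc'⟩ : ∃ c', c' = star c := ⟨_, rfl⟩
  have hnn : ∀ z : ℂ, z * star z = (Complex.normSq z : ℂ) := fun z => Complex.mul_conj z
  have hs1 : a * a' + b * b' + c * c' = 1 := by
    rw [ha', hb', hc', hnn, hnn, hnn, ha, hb, hc]
    have h2 : Complex.normSq (u₀ 0) + Complex.normSq (u₀ 1) + Complex.normSq (u₀ 2) = 1 := by
      have h3 : nsq u₀ = Complex.normSq (u₀ 0) + Complex.normSq (u₀ 1) + Complex.normSq (u₀ 2) := by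
        rw [nsq, Fin.sum_univ_three]
      rw [← h3, h1]
    exact_mod_cast h2
  have hs0 : a * a + b * b + c * c = 0 := by
    have h3 : u₀ ⬝ᵥ u₀ = u₀ 0 * u₀ 0 + u₀ 1 * u₀ 1 + u₀ 2 * u₀ 2 := by
      rw [dotProduct, Fin.sum_univ_three]
    rw [ha, hb, hc, ← h3, h0]
  have hs2 : a' * a' + b' * b' + c' * c' = 0 := by
    have h3 := congrArg star hs0
    rw [star_add, star_add, star_mul, star_mul, star_mul, star_zero, ← ha', ← hb', ← hc'] at h3
    exact h3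
  obtain ⟨m0, hm0⟩ : ∃ m, m = Complex.I * (b * c' - c * b') := ⟨_, rfl⟩
  obtain ⟨m1, hm1⟩ : ∃ m, m = Complex.I * (c * a' - a * c') := ⟨_, rfl⟩
  obtain ⟨m2, hm2⟩ : ∃ m, m = Complex.I * (a * b' - b * a') := ⟨_, rfl⟩
  have hI : Complex.I * Complex.I = -1 := Complex.I_mul_I
  have e1 : a' * m0 + b' * m1 + c' * m2 = 0 := by rw [hm0, hm1, hm2]; ring
  have e2 : m0 * a + m1 * b + m2 * c = 0 := by rw [hm0, hm1, hm2]; ring
  have e3 : m0 * m0 + m1 * m1 + m2 * m2 = 1 := by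
    rw [hm0, hm1, hm2]
    linear_combination ((b * c' - c * b') ^ 2 + (c * a' - a * c') ^ 2 + (a * b' - b * a') ^ 2) * hI +
      (a * a' + b * b' + c * c' + 1) * hs1 - (a' * a' + b' * b' + c' * c') * hs0
  obtain ⟨U, hU⟩ : ∃ U : Mat, U = !![a', b', c'; m0, m1, m2; a, b, c] := ⟨_, rfl⟩
  obtain ⟨U', hU'⟩ : ∃ U' : Mat, U' = !![a, m0, a'; b, m1, b'; c, m2, c'] := ⟨_, rfl⟩
  have hUU : U * U' = 1 := by
    rw [hU, hU', Matrix.mul_fin_three, Matrix.one_fin_three]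
    have f1 : a' * a + b' * b + c' * c = 1 := by linear_combination hs1
    have f2 : m0 * a' + m1 * b' + m2 * c' = 0 := by linear_combination e1
    have f3 : a * m0 + b * m1 + c * m2 = 0 := by linear_combination e2
    rw [f1, e1, hs2, e2, e3, f2, hs0, f3, hs1]
  have hUU' : U' * U = 1 := mul_eq_one_comm.1 hUU
  have hmv : ∀ (N : Mat) (v : V) (i : Fin 3), (N *ᵥ v) i = N i 0 * v 0 + N i 1 * v 1 + N i 2 * v 2 := by
    intro N v i
    rw [mulVec, dotProduct, Fin.sum_univ_three]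
  refine ⟨U, U', hUU', hUU, ?_, ?_⟩
  · intro v
    rw [hmv, dotProduct, Fin.sum_univ_three, hU, ← ha, ← hb, ← hc]
    rfl
  · intro v w
    have h4 := hUU'
    rw [hU, hU', Matrix.mul_fin_three, Matrix.one_fin_three] at h4
    have g : ∀ i j : Fin 3, _ := fun i j => congrFun (congrFun h4 i) j
    have g00 : a * a' + m0 * m0 + a' * a = 1 := g 0 0
    have g01 : a * b' + m0 * m1 + a' * b = 0 := g 0 1
    have g02 : a * c' + m0 * m2 + a' * c = 0 := g 0 2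
    have g10 : b * a' + m1 * m0 + b' * a = 0 := g 1 0
    have g11 : b * b' + m1 * m1 + b' * b = 1 := g 1 1
    have g12 : b * c' + m1 * m2 + b' * c = 0 := g 1 2
    have g20 : c * a' + m2 * m0 + c' * a = 0 := g 2 0
    have g21 : c * b' + m2 * m1 + c' * b = 0 := g 2 1
    have g22 : c * c' + m2 * m2 + c' * c = 1 := g 2 2
    have r0 : ∀ v : V, (U *ᵥ v) 0 = a' * v 0 + b' * v 1 + c' * v 2 := fun v => by
      rw [hmv, hU]; rfl
    have r1 : ∀ v : V, (U *ᵥ v) 1 = m0 * v 0 + m1 * v 1 + m2 * v 2 := fun v => by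
      rw [hmv, hU]; rfl
    have r2 : ∀ v : V, (U *ᵥ v) 2 = a * v 0 + b * v 1 + c * v 2 := fun v => by
      rw [hmv, hU]; rfl
    rw [r0, r0, r1, r1, r2, r2, dotProduct, Fin.sum_univ_three]
    linear_combination -(v 0 * w 0) * g00 - (v 0 * w 1) * g01 - (v 0 * w 2) * g02 -
      (v 1 * w 0) * g10 - (v 1 * w 1) * g11 - (v 1 * w 2) * g12 -
      (v 2 * w 0) * g20 - (v 2 * w 1) * g21 - (v 2 * w 2) * g22

/-- Elements of the orthogonal group of `2 z₀ z₂ + z₁²`, of determinant `1`, with third row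
`(0,0,χ)`.

Proof. Preservation of the form for `N`: with `G` as above, `Nᵀ G N = G`. Write the rows of `N`:
`N₂ = (0,0,χ)`; `N = [[p,q,r],[s,t,w],[0,0,χ]]`. The entries of `Nᵀ G N = G`:
(0,0): `s² = 0` so `s = 0`; (0,1): `s t = 0`; (0,2): `p χ + s w = 1` so `p = χ⁻¹`;
(1,1): `t² = 1`; (1,2): `q χ + t w = 0`; (2,2): `2 r χ + w² = 0`. `det N = p t χ = t = 1`. So
`w = -q χ`, `r = -w²/(2χ) = -q² χ/2`. With `a = q` this is the matrix. -/
theorem matrix_form {N : Mat} {χ : ℂ} (hχ : χ ≠ 0)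
    (hN : ∀ v w : V, (N *ᵥ v) 0 * (N *ᵥ w) 2 + (N *ᵥ v) 2 * (N *ᵥ w) 0 +
        (N *ᵥ v) 1 * (N *ᵥ w) 1 = v 0 * w 2 + v 2 * w 0 + v 1 * w 1)
    (hdet : N.det = 1) (h2 : ∀ v : V, (N *ᵥ v) 2 = χ * v 2) :
    N = !![χ⁻¹, N 0 1, -((N 0 1) ^ 2 * χ / 2); 0, 1, -(N 0 1 * χ); 0, 0, χ] := by
  have hmv : ∀ (v : V) (i : Fin 3), (N *ᵥ v) i = N i 0 * v 0 + N i 1 * v 1 + N i 2 * v 2 := by
    intro v i
    rw [mulVec, dotProduct, Fin.sum_univ_three]
  simp only [hmv] at hN h2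
  have h20 : N 2 0 = 0 := by
    have h := h2 ![1, 0, 0]
    simpa using h
  have h21 : N 2 1 = 0 := by
    have h := h2 ![0, 1, 0]
    simpa using h
  have h22 : N 2 2 = χ := by
    have h := h2 ![0, 0, 1]
    simpa using h
  have e00 : N 1 0 = 0 := by
    have h := hN ![1, 0, 0] ![1, 0, 0]
    simp [h20] at h
    exact h
  have e02 : N 0 0 * χ = 1 := by
    have h := hN ![1, 0, 0] ![0, 0, 1]
    simp [h20, h22, e00] at h
    exact h
  have e12 : N 0 1 * χ + N 1 1 * N 1 2 = 0 := by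
    have h := hN ![0, 1, 0] ![0, 0, 1]
    simp [h21, h22] at h
    exact h
  have e22 : N 0 2 * χ + χ * N 0 2 + N 1 2 * N 1 2 = 0 := by
    have h := hN ![0, 0, 1] ![0, 0, 1]
    simp [h22] at h
    exact h
  have e11 : N 1 1 = 1 := by
    rw [Matrix.det_fin_three, h20, h21, h22, e00] at hdet
    linear_combination hdet - N 1 1 * e02
  rw [e11, one_mul] at e12
  have f00 : N 0 0 = χ⁻¹ := eq_inv_of_mul_eq_one_left e02
  have f12 : N 1 2 = -(N 0 1 * χ) := by linear_combination e12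
  have f02 : N 0 2 = -((N 0 1) ^ 2 * χ / 2) := by
    rw [f12] at e22
    have h3 : χ * (N 0 2 + (N 0 1) ^ 2 * χ / 2) = 0 := by linear_combination (1 / 2) * e22
    have h4 := (mul_eq_zero.1 h3).resolve_left hχ
    linear_combination h4
  ext i j
  fin_cases i <;> fin_cases j
  · exact f00
  · rfl
  · exact f02
  · exact e00
  · exact e11
  · exact f12
  · exact h20
  · exact h21
  · exact h22

end HRF
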