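import Pool.Agent.HRF.A3

/-!
# HRF-G13b : changes of coordinates; the completeness theorem for developing data
-/

namespace HRF

open Set Filter Topology Matrix

variable {Γ E : Type*} [Group Γ] [TopologicalSpace E] [MulAction Γ E] [T2Space E]

/-- Star domains under an affine change of coordinates. Proof. `c` is a lift of
`[D x, D x + v]` iff it is a lift of `[D' x, D' x + U v]`, `D' = U D + t`. -/
theorem mem_star_affine {D : E → V} {U U' : Mat} (hU : U' * U = 1) (t : V) {x : E} {v : V} :
    U *ᵥ v ∈ Star (fun y => U *ᵥ D y + t) x ↔ v ∈ Star D x := by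
  have hinj : ∀ a b : V, U *ᵥ a = U *ᵥ b → a = b := by
    intro a b h
    have h1 := congrArg (fun z => U' *ᵥ z) h
    simpa only [mulVec_mulVec, hU, one_mulVec] using h1
  have key : ∀ (a : V) (s : ℝ), (U *ᵥ a + t = U *ᵥ D x + t + s • (U *ᵥ v)) ↔ a = D x + s • v := by
    intro a s
    have e : U *ᵥ D x + t + s • (U *ᵥ v) = U *ᵥ (D x + s • v) + t := by
      rw [mulVec_add, mulVec_smul]
      abel
    rw [e]
    constructor
    · intro h
      exact hinj _ _ (add_right_cancel h)
    · intro h
      rw [h]
  constructor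
  · rintro ⟨c, hc, h0, h⟩
    exact ⟨c, hc, h0, fun s hs => (key _ s).1 (h s hs)⟩
  · rintro ⟨c, hc, h0, h⟩
    exact ⟨c, hc, h0, fun s hs => (key _ s).2 (h s hs)⟩

/-- `D' = U D + t` is a local homeomorphism. -/
theorem isLocalHomeomorph_affine {D : E → V} (hD : IsLocalHomeomorph D) {U U' : Mat}
    (hU : U' * U = 1) (hU' : U * U' = 1) (t : V) :
    IsLocalHomeomorph (fun y => U *ᵥ D y + t) := by
  have hc : ∀ W : Mat, Continuous fun v : V => W *ᵥ v := fun W =>
    continuous_const.matrix_mulVec continuous_id
  let φ : V ≃ₜ V :=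
    { toFun := fun v => U *ᵥ v + t
      invFun := fun v => U' *ᵥ (v - t)
      left_inv := fun v => by
        show U' *ᵥ (U *ᵥ v + t - t) = v
        rw [add_sub_cancel_right, mulVec_mulVec, hU, one_mulVec]
      right_inv := fun v => by
        show U *ᵥ (U' *ᵥ (v - t)) + t = v
        rw [mulVec_mulVec, hU', one_mulVec, sub_add_cancel]
      continuous_toFun := (hc U).add continuous_const
      continuous_invFun := (hc U').comp (continuous_id.sub continuous_const) }
  exact φ.isLocalHomeomorph.comp hD

end HRF
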