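import Pool.Agent.HRF.Defs

/-!
# HRF-GDefs : adapted data

After an affine change of coordinates in which the supporting isotropic covector is the third
coordinate and the quadratic form is `2 z₀ z₂ + z₁²`, the holonomy of `γ` is
`z₀' = χ⁻¹ z₀ + a z₁ - (a² χ / 2) z₂ + b₁`,
`z₁' = z₁ - a χ z₂ + b₂`,
`z₂' = χ z₂ + b₃`.
Leaves = planes in the directions `z₀, z₁`. The tube `{v | |v₂| < ρ x}` is the maximal tube
contained in the star domain of `x`.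
-/

namespace HRF

open Set Filter Topology Matrix

/-- Adapted developing data of an incomplete manifold. -/
structure Aff (Γ E : Type*) [Group Γ] [TopologicalSpace E] [MulAction Γ E] where
  D : E → V
  hD : IsLocalHomeomorph D
  χ : Γ → ℂ
  a : Γ → ℂ
  b1 : Γ → ℂ
  b2 : Γ → ℂ
  b3 : Γ → ℂ
  χ_ne : ∀ γ, χ γ ≠ 0
  χ_mul : ∀ γ γ', χ (γ * γ') = χ γ * χ γ'
  a_mul : ∀ γ γ', a (γ * γ') = (χ γ)⁻¹ * a γ' + a γ
  b1_mul : ∀ γ γ', b1 (γ * γ') =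
    (χ γ)⁻¹ * b1 γ' + a γ * b2 γ' - (a γ) ^ 2 * χ γ / 2 * b3 γ' + b1 γ
  b2_mul : ∀ γ γ', b2 (γ * γ') = b2 γ' - a γ * χ γ * b3 γ' + b2 γ
  b3_mul : ∀ γ γ', b3 (γ * γ') = χ γ * b3 γ' + b3 γ
  eq0 : ∀ γ x, D (γ • x) 0 =
    (χ γ)⁻¹ * D x 0 + a γ * D x 1 - (a γ) ^ 2 * χ γ / 2 * D x 2 + b1 γ
  eq1 : ∀ γ x, D (γ • x) 1 = D x 1 - a γ * χ γ * D x 2 + b2 γ
  eq2 : ∀ γ x, D (γ • x) 2 = χ γ * D x 2 + b3 γ
  cont : ∀ γ : Γ, Continuous fun x : E => γ • x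
  pd : ∀ C : Set E, IsCompact C → {γ : Γ | ∃ x ∈ C, γ • x ∈ C}.Finite
  K : Set E
  hK : IsCompact K
  cover : ∀ x : E, ∃ γ : Γ, γ • x ∈ K
  ρ : E → ℝ
  ρ_pos : ∀ x, 0 < ρ x
  tube : ∀ x, ∀ v : V, ‖v 2‖ < ρ x → v ∈ Star D x
  sing : ∀ x, ∃ p : V, p ∉ Star D x ∧ ‖p 2‖ = ρ x

namespace Aff

variable {Γ E : Type*} [Group Γ] [TopologicalSpace E] [MulAction Γ E]

/-- the linear part of the holonomy -/
noncomputable def lm (S : Aff Γ E) (γ : Γ) : Mat :=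
  !![(S.χ γ)⁻¹, S.a γ, -((S.a γ) ^ 2 * S.χ γ / 2); 0, 1, -(S.a γ * S.χ γ); 0, 0, S.χ γ]

/-- the translation part of the holonomy -/
def tr (S : Aff Γ E) (γ : Γ) : V := ![S.b1 γ, S.b2 γ, S.b3 γ]

/-- `g` preserves every leaf. -/
def LP (S : Aff Γ E) (g : Γ) : Prop := ∀ x : E, ∃ W : V, W 2 = 0 ∧ g • x = ext S.D x W

/-- `g i` is a sequence acting closer and closer to the identity on the leaf space. -/
def NI (S : Aff Γ E) (g : ℕ → Γ) : Prop :=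
  Tendsto (fun i => S.χ (g i)) atTop (𝓝 1) ∧
    ∀ x : E, ∃ W : ℕ → V, Tendsto (fun i => W i 2) atTop (𝓝 0) ∧
      ∀ᶠ i in atTop, g i • x = ext S.D x (W i)

end Aff

end HRF
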