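import Pool.Agent.HRF.F4c
import Pool.Agent.HRF.GDefs
import Pool.Agent.HRF.G13a
import Pool.Agent.HRF.G13b

/-!
# HRF-G13c : changes of coordinates; the completeness theorem for developing data
-/

namespace HRF

open Set Filter Topology Matrix

variable {Γ E : Type*} [Group Γ] [TopologicalSpace E] [MulAction Γ E] [T2Space E]

/-- **From the structure theorem to adapted data.** If `D` is not bijective there are adapted data
for the same action.

Proof. `structure_thm`: `u₀, χ, ρ`; `exists_basis`: `U`. Put `D' = U D`; the linear holonomy is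
`N γ = U L γ U'`, translation `U b γ`. `N γ` preserves the form (`(L γ)ᵀ L γ = 1`), has
determinant `1`, and `(N γ v) 2 = u₀·(L γ U' v) = χ γ (u₀·U' v) = χ γ v 2`. `matrix_form` gives
`a γ = N γ 0 1`. The laws come from `N (γγ') = N γ N γ'` (compare the entries `(2,2)`, `(0,1)`)
and `b_mul`. `tube`, `sing`: `mem_star_affine` (with `t = 0`) and `(U v) 2 = u₀·v`. -/
theorem exists_aff [ConnectedSpace E] (S : Dev Γ E) (hS : ¬ Function.Bijective S.D) :
    Nonempty (Aff Γ E) := by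
  obtain ⟨u₀, χ, ρ, h1, h0, hχ, hχL, hρ, htube, hsing⟩ := structure_thm S hS
  obtain ⟨U, U', hU, hU', hU2, hUf⟩ := exists_basis h1 h0
  obtain ⟨N, hNdef⟩ : ∃ N : Γ → Mat, ∀ γ, N γ = U * S.L γ * U' := ⟨_, fun _ => rfl⟩
  have hUU' : ∀ v : V, U *ᵥ (U' *ᵥ v) = v := fun v => by
    rw [Matrix.mulVec_mulVec, hU', Matrix.one_mulVec]
  have hU'U : ∀ v : V, U' *ᵥ (U *ᵥ v) = v := fun v => by
    rw [Matrix.mulVec_mulVec, hU, Matrix.one_mulVec]
  have hNv : ∀ γ v, N γ *ᵥ v = U *ᵥ (S.L γ *ᵥ (U' *ᵥ v)) := fun γ v => by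
    rw [hNdef, Matrix.mulVec_mulVec, Matrix.mulVec_mulVec, Matrix.mul_assoc]
  have hNmul : ∀ γ γ', N (γ * γ') = N γ * N γ' := fun γ γ' => by
    rw [hNdef, hNdef, hNdef, S.L_mul]
    calc U * (S.L γ * S.L γ') * U' = U * S.L γ * 1 * S.L γ' * U' := by
          rw [Matrix.mul_one, ← Matrix.mul_assoc]
      _ = U * S.L γ * (U' * U) * S.L γ' * U' := by rw [hU]
      _ = U * S.L γ * U' * (U * S.L γ' * U') := by simp only [Matrix.mul_assoc]
  have hLform : ∀ γ (v w : V), (S.L γ *ᵥ v) ⬝ᵥ (S.L γ *ᵥ w) = v ⬝ᵥ w := fun γ v w => by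
    rw [Matrix.dotProduct_mulVec, ← Matrix.mulVec_transpose, Matrix.mulVec_mulVec, S.orth,
      Matrix.one_mulVec]
  have hdet : ∀ γ, (N γ).det = 1 := fun γ => by
    rw [hNdef, Matrix.det_mul, Matrix.det_mul, S.det_one, mul_one, ← Matrix.det_mul, hU',
      Matrix.det_one]
  have hN2 : ∀ γ v, (N γ *ᵥ v) 2 = χ γ * v 2 := fun γ v => by
    rw [hNv, hU2, hχL, ← hU2, hUU']
  have hform : ∀ γ, N γ = !![(χ γ)⁻¹, N γ 0 1, -((N γ 0 1) ^ 2 * χ γ / 2); 0, 1,
      -(N γ 0 1 * χ γ); 0, 0, χ γ] := fun γ => by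
    refine matrix_form (hχ γ) (fun v w => ?_) (hdet γ) (hN2 γ)
    rw [hNv, hNv, ← hUf, hLform, hUf, hUU', hUU']
  have hc0 : ∀ γ (v : V), (N γ *ᵥ v) 0 =
      (χ γ)⁻¹ * v 0 + N γ 0 1 * v 1 - (N γ 0 1) ^ 2 * χ γ / 2 * v 2 := fun γ v => by
    conv_lhs => rw [hform γ]
    simp [Matrix.mulVec, dotProduct, Fin.sum_univ_three]
    ring
  have hc1 : ∀ γ (v : V), (N γ *ᵥ v) 1 = v 1 - N γ 0 1 * χ γ * v 2 := fun γ v => by
    conv_lhs => rw [hform γ]
    simp [Matrix.mulVec, dotProduct, Fin.sum_univ_three]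
    ring
  have key : ∀ γ x, U *ᵥ S.D (γ • x) + 0 = N γ *ᵥ (U *ᵥ S.D x + 0) + U *ᵥ S.b γ :=
    fun γ x => by
    rw [S.equiv, add_zero, add_zero, Matrix.mulVec_add, hNv, hU'U]
  have keyb : ∀ γ γ', U *ᵥ S.b (γ * γ') = N γ *ᵥ (U *ᵥ S.b γ') + U *ᵥ S.b γ := fun γ γ' => by
    rw [S.b_mul, Matrix.mulVec_add, hNv, hU'U]
  have e22 : ∀ γ, N γ 2 2 = χ γ := fun γ => by rw [hform γ]; simp
  have e20 : ∀ γ, N γ 2 0 = 0 := fun γ => by rw [hform γ]; simp
  have e21 : ∀ γ, N γ 2 1 = 0 := fun γ => by rw [hform γ]; simp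
  have e11 : ∀ γ, N γ 1 1 = 1 := fun γ => by rw [hform γ]; simp
  have e00 : ∀ γ, N γ 0 0 = (χ γ)⁻¹ := fun γ => by rw [hform γ]; simp
  exact ⟨{
    D := fun y => U *ᵥ S.D y + 0
    hD := isLocalHomeomorph_affine S.hD hU hU' 0
    χ := χ
    a := fun γ => N γ 0 1
    b1 := fun γ => (U *ᵥ S.b γ) 0
    b2 := fun γ => (U *ᵥ S.b γ) 1
    b3 := fun γ => (U *ᵥ S.b γ) 2
    χ_ne := hχ
    χ_mul := fun γ γ' => by
      rw [← e22 (γ * γ'), hNmul, Matrix.mul_apply, Fin.sum_univ_three, e20, e21, e22, e22]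
      ring
    a_mul := fun γ γ' => by
      rw [hNmul, Matrix.mul_apply, Fin.sum_univ_three, e00, e11, e21]
      ring
    b1_mul := fun γ γ' => by
      rw [keyb, Pi.add_apply, hc0]
    b2_mul := fun γ γ' => by
      rw [keyb, Pi.add_apply, hc1]
    b3_mul := fun γ γ' => by
      rw [keyb, Pi.add_apply, hN2]
    eq0 := fun γ x => by
      rw [key, Pi.add_apply, hc0]
    eq1 := fun γ x => by
      rw [key, Pi.add_apply, hc1]
    eq2 := fun γ x => by
      rw [key, Pi.add_apply, hN2]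
    cont := S.cont
    pd := S.pd
    K := S.K
    hK := S.hK
    cover := S.cover
    ρ := ρ
    ρ_pos := hρ
    tube := fun x v hv => by
      rw [← hUU' v]
      refine (mem_star_affine hU 0).2 (htube x _ ?_)
      rw [← hU2, hUU']
      exact hv
    sing := fun x => by
      obtain ⟨p, hp, hp2⟩ := hsing x
      refine ⟨U *ᵥ p, fun h => hp ((mem_star_affine hU 0).1 h), ?_⟩
      rw [hU2]
      exact hp2 }⟩

end HRF
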