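import Pool.Agent.HRF.G1a
import Pool.Agent.HRF.G13b

/-!
# HRF-G13d : changes of coordinates; the completeness theorem for developing data
-/

namespace HRF

open Set Filter Topology Matrix

variable {Γ E : Type*} [Group Γ] [TopologicalSpace E] [MulAction Γ E] [T2Space E]

/-- the unipotent change of coordinates -/
noncomputable def G13dU (s : ℂ) : Mat := !![1, s, -(s ^ 2 / 2); 0, 1, -s; 0, 0, 1]

theorem G13dU_mul (s : ℂ) : G13dU (-s) * G13dU s = 1 := by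
  ext i j
  fin_cases i <;> fin_cases j <;> simp [G13dU, Matrix.mul_apply, Fin.sum_univ_three]
  ring

theorem G13dU_mul' (s : ℂ) : G13dU s * G13dU (-s) = 1 := by
  have := G13dU_mul (-s)
  rwa [neg_neg] at this

theorem G13dU_zero (s : ℂ) (v : V) : (G13dU s *ᵥ v) 0 = v 0 + s * v 1 - s ^ 2 / 2 * v 2 := by
  simp [G13dU, Matrix.mulVec, dotProduct, Fin.sum_univ_three]
  ring

theorem G13dU_one (s : ℂ) (v : V) : (G13dU s *ᵥ v) 1 = v 1 - s * v 2 := by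
  simp [G13dU, Matrix.mulVec, dotProduct, Fin.sum_univ_three]
  ring

theorem G13dU_two (s : ℂ) (v : V) : (G13dU s *ᵥ v) 2 = v 2 := by
  simp [G13dU, Matrix.mulVec, dotProduct, Fin.sum_univ_three]

/-- the data in the new coordinates -/
noncomputable def Aff.chg (S : Aff Γ E) (s t₀ t₂ : ℂ) : Aff Γ E where
  D := fun y => G13dU s *ᵥ S.D y + ![t₀, 0, t₂]
  hD := isLocalHomeomorph_affine S.hD (G13dU_mul s) (G13dU_mul' s) _
  χ := S.χ
  a := fun γ => S.a γ + s * (1 - (S.χ γ)⁻¹)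
  b1 := fun γ => S.b1 γ + s * S.b2 γ - s ^ 2 / 2 * S.b3 γ + t₀ -
    ((S.χ γ)⁻¹ * t₀ - (S.a γ + s * (1 - (S.χ γ)⁻¹)) ^ 2 * S.χ γ / 2 * t₂)
  b2 := fun γ => S.b2 γ - s * S.b3 γ + (S.a γ + s * (1 - (S.χ γ)⁻¹)) * S.χ γ * t₂
  b3 := fun γ => S.b3 γ + t₂ - S.χ γ * t₂
  χ_ne := S.χ_ne
  χ_mul := S.χ_mul
  a_mul := by
    intro γ γ'
    have h1 := S.χ_ne γ
    have h2 := S.χ_ne γ'
    rw [S.a_mul, S.χ_mul]
    field_simp
    ring
  b1_mul := by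
    intro γ γ'
    have h1 := S.χ_ne γ
    have h2 := S.χ_ne γ'
    rw [S.b1_mul, S.b2_mul, S.b3_mul, S.a_mul, S.χ_mul]
    field_simp
    ring
  b2_mul := by
    intro γ γ'
    have h1 := S.χ_ne γ
    have h2 := S.χ_ne γ'
    rw [S.b2_mul, S.b3_mul, S.a_mul, S.χ_mul]
    field_simp
    ring
  b3_mul := by
    intro γ γ'
    rw [S.b3_mul, S.χ_mul]
    ring
  eq0 := by
    intro γ x
    have h1 := S.χ_ne γ
    simp only [Pi.add_apply, G13dU_zero, G13dU_one, G13dU_two, S.eq0, S.eq1, S.eq2,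
      Matrix.cons_val_zero, Matrix.cons_val_one, Matrix.cons_val]
    field_simp
    ring
  eq1 := by
    intro γ x
    have h1 := S.χ_ne γ
    simp only [Pi.add_apply, G13dU_zero, G13dU_one, G13dU_two, S.eq0, S.eq1, S.eq2,
      Matrix.cons_val_zero, Matrix.cons_val_one, Matrix.cons_val]
    field_simp
    ring
  eq2 := by
    intro γ x
    simp only [Pi.add_apply, G13dU_two, S.eq2, Matrix.cons_val]
    ring
  cont := S.cont
  pd := S.pd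
  K := S.K
  hK := S.hK
  cover := S.cover
  ρ := S.ρ
  ρ_pos := S.ρ_pos
  tube := by
    intro x v hv
    have h1 : G13dU s *ᵥ (G13dU (-s) *ᵥ v) = v := by
      rw [Matrix.mulVec_mulVec, G13dU_mul', Matrix.one_mulVec]
    rw [← h1]
    refine (mem_star_affine (G13dU_mul s) _).2 (S.tube x _ ?_)
    rwa [G13dU_two]
  sing := by
    intro x
    obtain ⟨p, hp, hp2⟩ := S.sing x
    refine ⟨G13dU s *ᵥ p, fun h => hp ((mem_star_affine (G13dU_mul s) _).1 h), ?_⟩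
    rwa [G13dU_two]

/-- **Normalization.** Given adapted data and an expanding `h`, there are adapted data `S'` (same
`χ`) with `a h = b1 h = b3 h = 0`.

Proof. `D' = U D + t` with `U = !![1, s, -(s^2/2); 0, 1, -s; 0, 0, 1]` and `t = (t₀, 0, t₂)`. The
new holonomy: `L' = U L U⁻¹`, of the same form with `χ' = χ`, `a' = a + s (1 - χ⁻¹)`; choose
`s = - a_h / (1 - χ_h⁻¹)`, so `a' h = 0`. Translation part `b' = U b + t - L' t`; for `h`:
`b1' = (U b)₀ + t₀ (1 - χ_h⁻¹)` (as `a' h = 0` and `t₁ = 0`), `b3' = b3 + t₂ (1 - χ_h)`: choose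
`t₀`, `t₂` to make them `0`. The third coordinate of `U v` is `v 2`, so the tubes are the same,
`ρ' = ρ` (`mem_star_affine`). In formulas
`b1' γ = b1 γ + s b2 γ - (s²/2) b3 γ + t₀ - ((χ γ)⁻¹ t₀ - (a' γ)² χ γ/2 t₂)`,
`b2' γ = b2 γ - s b3 γ + a' γ χ γ t₂`, `b3' γ = b3 γ + t₂ - χ γ t₂`. -/
theorem Aff.exists_normalized (S : Aff Γ E) {h : Γ} (hh : 1 < ‖S.χ h‖) :
    ∃ S' : Aff Γ E, S'.χ = S.χ ∧ S'.a h = 0 ∧ S'.b1 h = 0 ∧ S'.b3 h = 0 := by
  have h1 : S.χ h ≠ 1 := by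
    rintro h2
    rw [h2] at hh
    simp at hh
  have h0 := S.χ_ne h
  have h3 : 1 - (S.χ h)⁻¹ ≠ 0 := by
    intro h4
    apply h1
    have h5 : (S.χ h)⁻¹ = 1 := by linear_combination -h4
    exact inv_eq_one.1 h5
  have h4 : 1 - S.χ h ≠ 0 := fun h5 => h1 (by linear_combination -h5)
  obtain ⟨s, hs⟩ : ∃ s : ℂ, S.a h + s * (1 - (S.χ h)⁻¹) = 0 :=
    ⟨-S.a h / (1 - (S.χ h)⁻¹), by rw [div_mul_cancel₀ _ h3]; ring⟩
  obtain ⟨t₀, ht₀⟩ : ∃ t : ℂ, S.b1 h + s * S.b2 h - s ^ 2 / 2 * S.b3 h + t * (1 - (S.χ h)⁻¹) = 0 :=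
    ⟨-(S.b1 h + s * S.b2 h - s ^ 2 / 2 * S.b3 h) / (1 - (S.χ h)⁻¹), by
      rw [div_mul_cancel₀ _ h3]; ring⟩
  obtain ⟨t₂, ht₂⟩ : ∃ t : ℂ, S.b3 h + t * (1 - S.χ h) = 0 :=
    ⟨-(S.b3 h) / (1 - S.χ h), by rw [div_mul_cancel₀ _ h4]; ring⟩
  refine ⟨S.chg s t₀ t₂, rfl, hs, ?_, ?_⟩
  · show S.b1 h + s * S.b2 h - s ^ 2 / 2 * S.b3 h + t₀ -
      ((S.χ h)⁻¹ * t₀ - (S.a h + s * (1 - (S.χ h)⁻¹)) ^ 2 * S.χ h / 2 * t₂) = 0
    rw [hs]
    linear_combination ht₀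
  · show S.b3 h + t₂ - S.χ h * t₂ = 0
    linear_combination ht₂

end HRF
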