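import Pool.Agent.HRF.G1a

/-!
# HRF-G1b : basic properties of adapted data
-/

namespace HRF

open Set Filter Topology Matrix

namespace Aff

variable {Γ E : Type*} [Group Γ] [TopologicalSpace E] [MulAction Γ E] [T2Space E] (S : Aff Γ E)

/-- Change of base point inside a tube. Proof. `ext_convex` with `convex_tube`, `S.tube`. -/
theorem ext_tube {x : E} {w w' : V} (hw : ‖w 2‖ < S.ρ x) (hw' : ‖w' 2‖ < S.ρ x) :
    w' - w ∈ Star S.D (ext S.D x w) ∧ ext S.D (ext S.D x w) (w' - w) = ext S.D x w' := by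
  exact ext_convex S.hD (convex_tube (S.ρ x)) (fun v hv => S.tube x v hv) hw hw'

/-- Proof. Let `x' = ext x w` and `p' ∉ Star x'` with `|p' 2| = ρ x'`. If
`ρ x' < ρ x - |w 2|` then `|(w + p') 2| < ρ x`, so `p' = (w + p') - w ∈ Star x'` by `ext_tube`,
contradiction. -/
theorem le_ρ_ext {x : E} {w : V} (hw : ‖w 2‖ < S.ρ x) :
    S.ρ x - ‖w 2‖ ≤ S.ρ (ext S.D x w) := by
  by_contra h
  push Not at h
  obtain ⟨p, hp, hp2⟩ := S.sing (ext S.D x w)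
  have h1 : ‖(w + p) 2‖ < S.ρ x := by
    calc ‖(w + p) 2‖ ≤ ‖w 2‖ + ‖p 2‖ := norm_add_le _ _
      _ < S.ρ x := by rw [hp2]; linarith
  have h2 := (S.ext_tube hw h1).1
  rw [add_sub_cancel_left] at h2
  exact hp h2

/-- **(S1)** Let `p ∉ Star x`, `|p 2| = ρ x` and `|w 2| < ρ x`. Then
`ρ (ext x w) ≤ |p 2 - w 2|`.

Proof. Otherwise apply `glue` with `C₁ = {|v 2| < ρ x}`, `q = w`,
`C₂ = {|v 2| < ρ (ext x w)}` (open, convex, contained in `Star (ext x w)`), and `p`: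
`|(t • p) 2| = t |p 2| < ρ x` for `t ∈ [0,1)`, `p - w ∈ C₂`. It gives `p ∈ Star x`. -/
theorem ρ_ext_le {x : E} {w p : V} (hp : p ∉ Star S.D x) (hp2 : ‖p 2‖ = S.ρ x)
    (hw : ‖w 2‖ < S.ρ x) : S.ρ (ext S.D x w) ≤ ‖p 2 - w 2‖ := by
  by_contra h
  push Not at h
  have ho : IsOpen {v : V | ‖v 2‖ < S.ρ (ext S.D x w)} :=
    isOpen_lt ((continuous_apply (2 : Fin 3)).norm) continuous_const
  have h1 := glue S.hD (x := x) (convex_tube (S.ρ x)) (fun v hv => S.tube x v hv)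
    (convex_tube (S.ρ (ext S.D x w))) ho (q := w) (p := p) hw
    (fun v hv => S.tube (ext S.D x w) v hv) (fun t ht => by
      change ‖(t • p) 2‖ < S.ρ x
      rw [Pi.smul_apply, norm_smul, hp2, Real.norm_eq_abs, abs_of_nonneg ht.1]
      have := S.ρ_pos x
      nlinarith [ht.2]) h
  exact hp h1.1

/-- Proof. `ρ_ext_le` and the triangle inequality. -/
theorem ρ_ext_le' {x : E} {w : V} (hw : ‖w 2‖ < S.ρ x) :
    S.ρ (ext S.D x w) ≤ S.ρ x + ‖w 2‖ := by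
  obtain ⟨p, hp, hp2⟩ := S.sing x
  calc S.ρ (ext S.D x w) ≤ ‖p 2 - w 2‖ := S.ρ_ext_le hp hp2 hw
    _ ≤ ‖p 2‖ + ‖w 2‖ := norm_sub_le _ _
    _ = S.ρ x + ‖w 2‖ := by rw [hp2]

/-- `ρ` is constant along leaves. Proof. `le_ρ_ext`, `ρ_ext_le'`. -/
theorem ρ_leaf {x : E} {w : V} (hw : w 2 = 0) : S.ρ (ext S.D x w) = S.ρ x := by
  have hw' : ‖w 2‖ < S.ρ x := by
    rw [hw, norm_zero]
    exact S.ρ_pos x
  have h1 := S.le_ρ_ext hw'
  have h2 := S.ρ_ext_le' hw'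
  rw [hw, norm_zero] at h1 h2
  linarith

/-- Proof. `≥`: let `p' ∉ Star (γ • x)`, `|p' 2| = ρ (γ • x)`; `p' = lm γ *ᵥ p` with
`p = lm γ⁻¹ *ᵥ p' ∉ Star x`, so `|p 2| ≥ ρ x` (else `p` is in the tube), and
`|p' 2| = |χ γ| |p 2|`. `≤`: the same for `γ⁻¹`. -/
theorem ρ_smul (γ : Γ) (x : E) : S.ρ (γ • x) = ‖S.χ γ‖ * S.ρ x := by
  have key : ∀ (γ : Γ) (x : E), ‖S.χ γ‖ * S.ρ x ≤ S.ρ (γ • x) := by
    intro γ x
    obtain ⟨p', hp', hp2'⟩ := S.sing (γ • x)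
    have h1 : S.lm γ *ᵥ (S.lm γ⁻¹ *ᵥ p') = p' := by
      have := S.lm_inv_mulVec γ⁻¹ p'
      rwa [inv_inv] at this
    have h2 : S.lm γ⁻¹ *ᵥ p' ∉ Star S.D x := by
      intro h
      rw [← S.mem_star_smul γ, h1] at h
      exact hp' h
    have h3 : S.ρ x ≤ ‖(S.lm γ⁻¹ *ᵥ p') 2‖ := by
      by_contra h
      push Not at h
      exact h2 (S.tube x _ h)
    rw [← hp2']
    conv_rhs => rw [← h1]
    rw [S.lm_apply_two, norm_mul]
    exact mul_le_mul_of_nonneg_left h3 (norm_nonneg _)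
  refine le_antisymm ?_ (key γ x)
  have h1 := key γ⁻¹ (γ • x)
  rw [inv_smul_smul, S.χ_inv, norm_inv] at h1
  have h2 : 0 < ‖S.χ γ‖ := norm_pos_iff.2 (S.χ_ne γ)
  rwa [inv_mul_le_iff₀ h2] at h1

/-- Points near `x` in the tube. -/
theorem g1b_eventually (x : E) {δ : ℝ} (hδ : 0 < δ) :
    ∀ᶠ y in 𝓝 x, y = ext S.D x (S.D y - S.D x) ∧ ‖(S.D y - S.D x) 2‖ < δ := by
  have hW : IsOpen (Star S.D x ∩ {v : V | ‖v 2‖ < δ}) :=
    (isOpen_Star S.hD x).inter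
      (isOpen_lt ((continuous_apply (2 : Fin 3)).norm) continuous_const)
  have h1 : IsOpen (ext S.D x '' (Star S.D x ∩ {v : V | ‖v 2‖ < δ})) :=
    isOpen_image_ext S.hD hW inter_subset_left
  have h2 : x ∈ ext S.D x '' (Star S.D x ∩ {v : V | ‖v 2‖ < δ}) := by
    refine ⟨0, ⟨zero_mem_Star, ?_⟩, ext_zero S.hD⟩
    change ‖(0 : V) 2‖ < δ
    simpa using hδ
  filter_upwards [h1.mem_nhds h2] with y hy
  obtain ⟨w, ⟨hw1, hw2⟩, rfl⟩ := hy
  rw [D_ext hw1, add_sub_cancel_left]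
  exact ⟨rfl, hw2⟩

/-- `ρ` is continuous. Proof. At `x`: for `y` near `x`, `y = ext x (D y - D x)` (the set
`ext x '' ball` is a neighbourhood of `x` by `isOpen_image_ext`, and `D_ext`), with
`|(D y - D x) 2|` small; `le_ρ_ext`, `ρ_ext_le'` give `|ρ y - ρ x| ≤ |(D y - D x) 2| → 0`. -/
theorem continuous_ρ : Continuous S.ρ := by
  rw [continuous_iff_continuousAt]
  intro x
  rw [Metric.continuousAt_iff']
  intro ε hε
  have hρ := S.ρ_pos x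
  filter_upwards [S.g1b_eventually x (lt_min hε hρ)] with y hy
  obtain ⟨h1, h2⟩ := hy
  have h3 : ‖(S.D y - S.D x) 2‖ < S.ρ x := h2.trans_le (min_le_right _ _)
  have h4 := S.le_ρ_ext h3
  have h5 := S.ρ_ext_le' h3
  rw [← h1] at h4 h5
  rw [Real.dist_eq, abs_lt]
  have h6 : ‖(S.D y - S.D x) 2‖ < ε := h2.trans_le (min_le_left _ _)
  constructor <;> linarith

/-- Points near `x` in the tube. For every `x` there is a neighbourhood of `x` all of whose points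
`y` satisfy `y = ext x (D y - D x)` and `|(D y - D x) 2| < δ`. Proof. As in `continuous_ρ`. -/
theorem eventually_ext_eq (x : E) {δ : ℝ} (hδ : 0 < δ) :
    ∀ᶠ y in 𝓝 x, y = ext S.D x (S.D y - S.D x) ∧ ‖(S.D y - S.D x) 2‖ < δ :=
  S.g1b_eventually x hδ

/-- Existence of an expanding element.

Proof. Otherwise `‖χ γ‖ ≤ 1` for all `γ`, hence `= 1` (apply it to `γ⁻¹`), and `ρ` is invariant
(`ρ_smul`). `ρ` is continuous and positive on the compact `K` (nonempty since `E` is): let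
`x ∈ K` be a minimum point of `ρ` on `K`; by `cover` and invariance `ρ x ≤ ρ y` for all `y : E`.
Take `p ∉ Star x`, `|p 2| = ρ x`, and `w = (1/2 : ℝ) • p`, `|w 2| = ρ x / 2 < ρ x`:
`ρ (ext x w) ≤ |p 2 - w 2| = ρ x / 2 < ρ x` by `ρ_ext_le`. Contradiction. -/
theorem exists_expanding [Nonempty E] : ∃ h : Γ, 1 < ‖S.χ h‖ := by
  by_contra hcon
  push Not at hcon
  have hone : ∀ h : Γ, ‖S.χ h‖ = 1 := by
    intro h
    refine le_antisymm (hcon h) ?_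
    have h1 := hcon h⁻¹
    rw [S.χ_inv, norm_inv] at h1
    have h2 : 0 < ‖S.χ h‖ := norm_pos_iff.2 (S.χ_ne h)
    exact (inv_le_one₀ h2).1 h1
  have hinv : ∀ (γ : Γ) (x : E), S.ρ (γ • x) = S.ρ x := by
    intro γ x
    rw [S.ρ_smul, hone, one_mul]
  obtain ⟨z⟩ : Nonempty E := inferInstance
  obtain ⟨γ₀, hγ₀⟩ := S.cover z
  obtain ⟨x, hx, hmin⟩ := S.hK.exists_isMinOn ⟨_, hγ₀⟩ S.continuous_ρ.continuousOn
  have hall : ∀ y : E, S.ρ x ≤ S.ρ y := by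
    intro y
    obtain ⟨γ, hγ⟩ := S.cover y
    rw [← hinv γ y]
    exact hmin hγ
  obtain ⟨p, hp, hp2⟩ := S.sing x
  have hρ := S.ρ_pos x
  have hw2 : ((1 / 2 : ℝ) • p) 2 = (1 / 2 : ℝ) • p 2 := rfl
  have hw : ‖((1 / 2 : ℝ) • p) 2‖ < S.ρ x := by
    rw [hw2, norm_smul, hp2]
    norm_num
    linarith
  have h1 := S.ρ_ext_le hp hp2 hw
  have h2 : p 2 - ((1 / 2 : ℝ) • p) 2 = (1 / 2 : ℝ) • p 2 := by
    rw [hw2]
    have : p 2 - (1 / 2 : ℝ) • p 2 = ((1 : ℝ) - 1 / 2) • p 2 := by rw [sub_smul, one_smul]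
    rw [this]
    norm_num
  rw [h2, norm_smul, hp2] at h1
  have h3 := hall (ext S.D x ((1 / 2 : ℝ) • p))
  norm_num at h1
  linarith

end Aff

end HRF
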