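import Pool.Agent.HRF.G13c
import Pool.Agent.HRF.G13d
import Pool.Agent.HRF.G12
import Pool.Agent.HRF.G1b

/-!
# HRF-G14 : changes of coordinates; the completeness theorem for developing data
-/

namespace HRF

open Set Filter Topology Matrix

variable {Γ E : Type*} [Group Γ] [TopologicalSpace E] [MulAction Γ E] [T2Space E]

/-- **Completeness theorem for developing data.** -/
theorem Dev.bijective [ConnectedSpace E] (S : Dev Γ E) : Function.Bijective S.D := by
  by_contra hS
  obtain ⟨S₁⟩ := exists_aff S hS
  obtain ⟨h, hh⟩ := S₁.exists_expanding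
  obtain ⟨S₂, hχ, ha, hb1, hb3⟩ := S₁.exists_normalized hh
  exact S₂.false_of_normalized (by rw [hχ]; exact hh) ha hb1 hb3

end HRF
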