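import Pool.Agent.HRF.GDefs
import Pool.Agent.HRF.A4
import Pool.Agent.HRF.A5

/-!
# HRF-G1a : basic properties of adapted data
-/

namespace HRF

open Set Filter Topology Matrix

namespace Aff

variable {Γ E : Type*} [Group Γ] [TopologicalSpace E] [MulAction Γ E] (S : Aff Γ E)

theorem χ_one : S.χ 1 = 1 := by
  have h := S.χ_mul 1 1
  rw [mul_one] at h
  have h1 := S.χ_ne 1
  have h2 : S.χ 1 * (S.χ 1 - 1) = 0 := by linear_combination -h
  rcases mul_eq_zero.1 h2 with h3 | h3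
  · exact absurd h3 h1
  · linear_combination h3

theorem χ_inv (γ : Γ) : S.χ γ⁻¹ = (S.χ γ)⁻¹ := by
  have h := S.χ_mul γ⁻¹ γ
  rw [inv_mul_cancel, S.χ_one] at h
  exact eq_inv_of_mul_eq_one_left h.symm

/-- Proof. `b3 1 = 0` from `b3_mul 1 1`; then `0 = b3 (γ⁻¹ γ) = χ γ⁻¹ b3 γ + b3 γ⁻¹`. -/
theorem b3_inv (γ : Γ) : S.b3 γ⁻¹ = -((S.χ γ)⁻¹ * S.b3 γ) := by
  have h0 : S.b3 1 = 0 := by
    have h := S.b3_mul 1 1
    rw [mul_one, S.χ_one] at h
    linear_combination -h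
  have h := S.b3_mul γ⁻¹ γ
  rw [inv_mul_cancel, h0, S.χ_inv] at h
  linear_combination -h

/-- Proof. `eq0, eq1, eq2`, `Matrix.mulVec` of the explicit matrix, `Fin.forall_fin_succ`. -/
theorem D_smul (γ : Γ) (x : E) : S.D (γ • x) = S.lm γ *ᵥ S.D x + S.tr γ := by
  funext i
  fin_cases i
  · show S.D (γ • x) 0 = (S.lm γ *ᵥ S.D x + S.tr γ) 0
    rw [S.eq0]
    simp [lm, tr, Matrix.mulVec, dotProduct, Fin.sum_univ_three]
    ring
  · show S.D (γ • x) 1 = (S.lm γ *ᵥ S.D x + S.tr γ) 1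
    rw [S.eq1]
    simp [lm, tr, Matrix.mulVec, dotProduct, Fin.sum_univ_three]
    ring
  · show S.D (γ • x) 2 = (S.lm γ *ᵥ S.D x + S.tr γ) 2
    rw [S.eq2]
    simp [lm, tr, Matrix.mulVec, dotProduct, Fin.sum_univ_three]

theorem lm_apply_two (γ : Γ) (v : V) : (S.lm γ *ᵥ v) 2 = S.χ γ * v 2 := by
  simp [lm, Matrix.mulVec, dotProduct, Fin.sum_univ_three]

/-- `lm` is multiplicative (explicit `3 × 3` matrices, `a_mul`, `χ_mul`, `field_simp; ring`). -/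
theorem lm_mul (γ γ' : Γ) : S.lm (γ * γ') = S.lm γ * S.lm γ' := by
  have h1 := S.χ_ne γ
  have h2 := S.χ_ne γ'
  ext i j
  fin_cases i <;> fin_cases j <;>
    simp [lm, Matrix.mul_apply, Fin.sum_univ_three, S.a_mul, S.χ_mul] <;> field_simp <;> ring

theorem lm_inv_mulVec (γ : Γ) (v : V) : S.lm γ⁻¹ *ᵥ (S.lm γ *ᵥ v) = v := by
  have ha : S.a 1 = 0 := by
    have h := S.a_mul 1 1
    rw [mul_one, S.χ_one] at h
    linear_combination -h
  have h1 : S.lm 1 = 1 := by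
    ext i j
    fin_cases i <;> fin_cases j <;> simp [lm, ha, S.χ_one]
  rw [Matrix.mulVec_mulVec, ← S.lm_mul, inv_mul_cancel, h1, Matrix.one_mulVec]

/-- The tubes are convex. -/
theorem convex_tube (R : ℝ) : Convex ℝ {v : V | ‖v 2‖ < R} := by
  have h : {v : V | ‖v 2‖ < R} = (LinearMap.proj (R := ℝ) (φ := fun _ : Fin 3 => ℂ) 2) ⁻¹'
      (Metric.ball (0 : ℂ) R) := by
    ext v
    simp
  rw [h]
  exact (convex_ball (0 : ℂ) R).linear_preimage _

variable [T2Space E]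

/-- Proof. `ext_equiv` for `γ` and `γ⁻¹`. -/
theorem mem_star_smul (γ : Γ) (x : E) (v : V) :
    S.lm γ *ᵥ v ∈ Star S.D (γ • x) ↔ v ∈ Star S.D x := by
  constructor
  · intro h
    have h1 := (ext_equiv S.hD (S.cont γ⁻¹) (L := S.lm γ⁻¹) (b := S.tr γ⁻¹)
      (fun x => S.D_smul γ⁻¹ x) h).1
    rw [S.lm_inv_mulVec, inv_smul_smul] at h1
    exact h1
  · intro h
    exact (ext_equiv S.hD (S.cont γ) (L := S.lm γ) (b := S.tr γ) (fun x => S.D_smul γ x) h).1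

theorem ext_smul (γ : Γ) (x : E) {v : V} (hv : v ∈ Star S.D x) :
    ext S.D (γ • x) (S.lm γ *ᵥ v) = γ • ext S.D x v := by
  exact (ext_equiv S.hD (S.cont γ) (L := S.lm γ) (b := S.tr γ) (fun x => S.D_smul γ x) hv).2

end Aff

end HRF
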