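import Pool.Agent.HRF.G1b

/-!
# HRF-G2a : leaf preserving elements
-/

namespace HRF

open Set Filter Topology Matrix

namespace Aff

variable {Γ E : Type*} [Group Γ] [TopologicalSpace E] [MulAction Γ E] [T2Space E] (S : Aff Γ E)

theorem g2a_key {g : Γ} (hχ : S.χ g = 1) {x : E} {W w : V} (hW : W 2 = 0)
    (hg : g • x = ext S.D x W) (hw : ‖w 2‖ < S.ρ x) :
    ∃ W' : V, W' 2 = 0 ∧ g • ext S.D x w = ext S.D (ext S.D x w) W' := by
  have hlm : (S.lm g *ᵥ w) 2 = w 2 := by rw [lm_apply_two, hχ, one_mul]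
  have hW0 : ‖W 2‖ < S.ρ x := by
    rw [hW, norm_zero]
    exact S.ρ_pos x
  have hW1 : ‖(W + S.lm g *ᵥ w) 2‖ < S.ρ x := by
    rw [Pi.add_apply, hW, hlm, zero_add]
    exact hw
  have h1 := S.ext_smul g x (S.tube x w hw)
  have h2 := (S.ext_tube hW0 hW1).2
  have h3 := (S.ext_tube hw hW1).2
  rw [add_sub_cancel_left, ← hg] at h2
  refine ⟨W + S.lm g *ᵥ w - w, ?_, ?_⟩
  · rw [Pi.sub_apply, Pi.add_apply, hW, hlm, zero_add, sub_self]
  · rw [h3, ← h2, h1]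

theorem g2a_a_one : S.a 1 = 0 := by
  have h := S.a_mul 1 1
  rw [mul_one, S.χ_one, inv_one, one_mul] at h
  linear_combination -h

theorem g2a_b3_one : S.b3 1 = 0 := by
  have h := S.b3_mul 1 1
  rw [mul_one, S.χ_one, one_mul] at h
  linear_combination -h

theorem g2a_b2_one : S.b2 1 = 0 := by
  have h := S.b2_mul 1 1
  rw [mul_one, S.g2a_a_one] at h
  linear_combination -h

theorem g2a_b1_one : S.b1 1 = 0 := by
  have h := S.b1_mul 1 1
  rw [mul_one, S.g2a_a_one, S.χ_one, inv_one, one_mul] at h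
  linear_combination -h

/-- If `g` acts trivially on the third coordinate and maps one point into its own leaf, then it
preserves all the leaves.

Proof. Let `A = {x | ∃ W, W 2 = 0 ∧ g • x = ext x W}`. If `x ∈ A` and
`|w 2| < ρ x` then `x' = ext x w ∈ A`: `g • x' = ext (g • x) (lm g w)` (`ext_smul`),
`= ext (ext x W) (lm g w)`, and by `ext_tube` (points `W` and `W + lm g w` of the tube of `x`;
`(lm g w) 2 = w 2`) `= ext x (W + lm g w)`; then `= ext (ext x w) (W + lm g w - w)` by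
`ext_tube` again, with third coordinate `0`.
So `A` is open (`eventually_ext_eq`). Its complement is open too: let `x ∉ A`, and `x' ∈ A` close
to `x`: `x' = ext x w` with `|w 2| < ρ x / 2`; then `x = ext x' (-w)` (`ext_neg`) and
`ρ x' ≥ ρ x / 2 > |w 2|`, so `x ∈ A` by the first part, contradiction. `E` is connected and `A` is
nonempty, so `A = E`. -/
theorem LP_of_one [ConnectedSpace E] {g : Γ} (hχ : S.χ g = 1) (hb : S.b3 g = 0) {x : E} {W : V}
    (hW : W 2 = 0) (hg : g • x = ext S.D x W) : S.LP g := by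
  have hopen : IsOpen {y : E | ∃ W : V, W 2 = 0 ∧ g • y = ext S.D y W} := by
    rw [isOpen_iff_mem_nhds]
    rintro y ⟨W', hW', hy⟩
    filter_upwards [S.eventually_ext_eq y (S.ρ_pos y)] with z hz
    obtain ⟨W'', h1, h2⟩ := S.g2a_key hχ hW' hy hz.2
    rw [← hz.1] at h2
    exact ⟨W'', h1, h2⟩
  have hclosed : IsClosed {y : E | ∃ W : V, W 2 = 0 ∧ g • y = ext S.D y W} := by
    rw [← isOpen_compl_iff, isOpen_iff_mem_nhds]
    intro y hy
    have hρ := S.ρ_pos y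
    filter_upwards [S.eventually_ext_eq y (half_pos hρ)] with z hz hzA
    apply hy
    obtain ⟨W', hW', hgz⟩ := hzA
    obtain ⟨hz1, hz2⟩ := hz
    set w : V := S.D z - S.D y with hw
    have hwρ : ‖w 2‖ < S.ρ y := by linarith
    have h0 : ‖(0 : V) 2‖ < S.ρ y := by
      rw [Pi.zero_apply, norm_zero]
      exact hρ
    have h1 := (S.ext_tube hwρ h0).2
    rw [ext_zero S.hD, ← hz1, zero_sub] at h1
    have h2 := S.le_ρ_ext hwρ
    rw [← hz1] at h2
    have h3 : ‖(-w) 2‖ < S.ρ z := by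
      rw [Pi.neg_apply, norm_neg]
      linarith
    obtain ⟨W'', h4, h5⟩ := S.g2a_key hχ hW' hgz h3
    rw [h1] at h5
    exact ⟨W'', h4, h5⟩
  have huniv := IsClopen.eq_univ ⟨hclosed, hopen⟩ ⟨x, W, hW, hg⟩
  intro y
  have : y ∈ {y : E | ∃ W : V, W 2 = 0 ∧ g • y = ext S.D y W} := by
    rw [huniv]
    exact mem_univ y
  exact this

/-- The powers of `h` (`a h = b1 h = b3 h = 0`): explicit conjugates. For
`g` with `χ g = 1`, `b3 g = 0`, the element `g_n = h^n g h^{-n}` has `χ = 1`, `b3 = 0`,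
`a = χ_h^{-n} a`, `b2 = b2`, `b1 = χ_h^{-n} (b1 - n a b2(h))`.

Proof. Induction on `n` using `g_{n+1} = h g_n h⁻¹`, the multiplication laws, and
`b2 h⁻¹ = - b2 h`, `χ h⁻¹ = (χ h)⁻¹`, `a h⁻¹ = b1 h⁻¹ = b3 h⁻¹ = 0`. -/
theorem conj_pow {h : Γ} (ha : S.a h = 0) (hb1 : S.b1 h = 0) (hb3 : S.b3 h = 0) {g : Γ}
    (hχ : S.χ g = 1) (hb : S.b3 g = 0) (n : ℕ) :
    S.χ (h ^ n * g * (h ^ n)⁻¹) = 1 ∧ S.b3 (h ^ n * g * (h ^ n)⁻¹) = 0 ∧
      S.a (h ^ n * g * (h ^ n)⁻¹) = ((S.χ h)⁻¹) ^ n * S.a g ∧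
      S.b2 (h ^ n * g * (h ^ n)⁻¹) = S.b2 g ∧
      S.b1 (h ^ n * g * (h ^ n)⁻¹) = ((S.χ h)⁻¹) ^ n * (S.b1 g - n * (S.a g * S.b2 h)) := by
  have hχh := S.χ_ne h
  have hχi := S.χ_inv h
  have hai : S.a h⁻¹ = 0 := by
    have h1 := S.a_mul h h⁻¹
    rw [mul_inv_cancel, S.g2a_a_one, ha, add_zero] at h1
    rcases mul_eq_zero.1 h1.symm with h2 | h2
    · exact absurd h2 (inv_ne_zero hχh)
    · exact h2
  have hb3i : S.b3 h⁻¹ = 0 := by rw [S.b3_inv, hb3, mul_zero, neg_zero]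
  have hb2i : S.b2 h⁻¹ = -S.b2 h := by
    have h1 := S.b2_mul h h⁻¹
    rw [mul_inv_cancel, S.g2a_b2_one, ha] at h1
    linear_combination -h1
  have hb1i : S.b1 h⁻¹ = 0 := by
    have h1 := S.b1_mul h h⁻¹
    rw [mul_inv_cancel, S.g2a_b1_one, ha, hb1] at h1
    have h3 : (S.χ h)⁻¹ * S.b1 h⁻¹ = 0 := by linear_combination -h1
    rcases mul_eq_zero.1 h3 with h2 | h2
    · exact absurd h2 (inv_ne_zero hχh)
    · exact h2
  induction n with
  | zero => simp [hχ, hb]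
  | succ n ih =>
    obtain ⟨i1, i2, i3, i4, i5⟩ := ih
    have e : h ^ (n + 1) * g * (h ^ (n + 1))⁻¹ = h * ((h ^ n * g * (h ^ n)⁻¹) * h⁻¹) := by
      rw [pow_succ']
      group
    rw [e]
    generalize h ^ n * g * (h ^ n)⁻¹ = k at i1 i2 i3 i4 i5
    refine ⟨?_, ?_, ?_, ?_, ?_⟩
    · rw [S.χ_mul, S.χ_mul, i1, hχi, one_mul, mul_inv_cancel₀ hχh]
    · rw [S.b3_mul, S.b3_mul, i2, hb3i, hb3]
      ring
    · rw [S.a_mul, S.a_mul, i3, hai, ha, pow_succ]
      ring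
    · rw [S.b2_mul, S.b2_mul, i4, hb2i, ha, hb3i]
      ring
    · rw [S.b1_mul, S.b1_mul, i5, i3, i1, hb2i, hb1i, hb3i, ha, hb1, pow_succ]
      push_cast
      ring

end Aff

end HRF
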