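import Pool.Agent.HRF.G2a

/-!
# HRF-G2b : leaf preserving elements
-/

namespace HRF

open Set Filter Topology Matrix

namespace Aff

variable {Γ E : Type*} [Group Γ] [TopologicalSpace E] [MulAction Γ E] [T2Space E] (S : Aff Γ E)

theorem g2b_inj {c : ℂ} (hc : 1 < ‖c‖) {d : ℂ} (hd : d ≠ 0) {ι : Type*} {f : ℕ → ι} {F : ι → ℂ}
    (hF : ∀ n, F (f n) = c⁻¹ ^ n * d) : Function.Injective f := by
  intro m n hmn
  have h1 : c⁻¹ ^ m * d = c⁻¹ ^ n * d := by rw [← hF, ← hF, hmn]
  have h2 := mul_right_cancel₀ hd h1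
  have h3 : ‖c‖⁻¹ ^ m = ‖c‖⁻¹ ^ n := by
    rw [← norm_inv, ← norm_pow, ← norm_pow, h2]
  have h4 : ‖c‖⁻¹ < 1 := inv_lt_one_of_one_lt₀ hc
  have h0 : 0 < ‖c‖ := by linarith
  exact (pow_right_strictAnti₀ (by positivity) h4).injective h3

theorem g2b_pow {c : ℂ} (hc : 1 < ‖c‖) : Tendsto (fun n : ℕ => c⁻¹ ^ n) atTop (𝓝 0) := by
  apply tendsto_pow_atTop_nhds_zero_of_norm_lt_one
  rw [norm_inv]
  exact inv_lt_one_of_one_lt₀ hc

theorem g2b_pow' {c : ℂ} (hc : 1 < ‖c‖) : Tendsto (fun n : ℕ => (n : ℂ) * c⁻¹ ^ n) atTop (𝓝 0) := by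
  have h : ‖c⁻¹‖ < 1 := by
    rw [norm_inv]
    exact inv_lt_one_of_one_lt₀ hc
  have h1 := tendsto_pow_const_mul_const_pow_of_abs_lt_one 1 (r := ‖c⁻¹‖) (by rwa [abs_norm])
  rw [tendsto_zero_iff_norm_tendsto_zero]
  refine h1.congr fun n => ?_
  rw [norm_mul, norm_pow, Complex.norm_natCast, pow_one]

theorem g2b_conj {h g : Γ} (hg : S.LP g) (n : ℕ) (x : E) :
    ∃ U : V, U 2 = 0 ∧ (h ^ n * g * (h ^ n)⁻¹) • x = ext S.D x U := by
  obtain ⟨W, hW, hgW⟩ := hg ((h ^ n)⁻¹ • x)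
  have htube : W ∈ Star S.D ((h ^ n)⁻¹ • x) := by
    apply S.tube
    rw [hW, norm_zero]
    exact S.ρ_pos _
  have h1 := S.ext_smul (h ^ n) ((h ^ n)⁻¹ • x) htube
  refine ⟨S.lm (h ^ n) *ᵥ W, ?_, ?_⟩
  · rw [lm_apply_two, hW, mul_zero]
  · rw [smul_inv_smul] at h1
    rw [h1, ← hgW, mul_smul, mul_smul]

/-- **(NU1)** If `g` preserves every leaf, `χ g = 1`, `b3 g = 0`, and there is an expanding `h` with
`a h = b1 h = b3 h = 0`, then `a g = 0` and `b1 g = 0`.

Proof. Fix a point `x`. `g_n = h^n g h^{-n}` preserves every leaf: `g • y = ext y W` with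
`y = h^{-n} • x`, `W 2 = 0`, so `g_n • x = h^n • ext y W = ext x (lm (h^n) W)`, and
`(lm (h^n) W) 2 = 0`. Hence `g_n • x = ext x (D (g_n • x) - D x)` (`D_ext`), and by `conj_pow` and
`eq0, eq1, eq2` the vector `D (g_n • x) - D x` tends to `(0, b2 g, 0)` (`|χ h| > 1`,
`χ_h^{-n} n → 0`). All these vectors and the limit have third coordinate `0`, so are in `Star x`,
and by continuity of `ext x`, `g_n • x → e = ext x (0, b2 g, 0)`. The set
`C = {g_n • x | n} ∪ {e} ∪ {x}` is compact, so `{g_n}` is finite (`S.pd`). Then there are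
infinitely many `n` with the same `g_n` (pigeonhole), in particular the same
`a(g_n) = χ_h^{-n} a g`: if `a g ≠ 0` this is impossible, since `|χ_h^{-n}|` is strictly
decreasing. So `a g = 0`, and then `b1(g_n) = χ_h^{-n} b1 g`, so `b1 g = 0`. -/
theorem NU1 [Nonempty E] {h : Γ} (hh : 1 < ‖S.χ h‖) (ha : S.a h = 0) (hb1 : S.b1 h = 0)
    (hb3 : S.b3 h = 0) {g : Γ} (hg : S.LP g) (hχ : S.χ g = 1) (hb : S.b3 g = 0) :
    S.a g = 0 ∧ S.b1 g = 0 := by
  obtain ⟨x⟩ := ‹Nonempty E›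
  have hall := fun n => S.conj_pow ha hb1 hb3 hχ hb n
  set f : ℕ → Γ := fun n => h ^ n * g * (h ^ n)⁻¹ with hf
  -- the translation vectors
  have hU : ∀ n, ∃ U : V, U 2 = 0 ∧ f n • x = ext S.D x U := fun n => S.g2b_conj hg n x
  choose U hU2 hUe using hU
  have hst : ∀ n, U n ∈ Star S.D x := by
    intro n
    apply S.tube
    rw [hU2, norm_zero]
    exact S.ρ_pos _
  have hUD : ∀ n, U n = S.D (f n • x) - S.D x := by
    intro n
    rw [hUe, D_ext (hst n), add_sub_cancel_left]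
  set L : V := ![0, S.b2 g, 0] with hL
  have hLst : L ∈ Star S.D x := by
    apply S.tube
    rw [hL]
    simp
    exact S.ρ_pos _
  have ht1 := g2b_pow hh
  have ht2 := g2b_pow' hh
  have hta : Tendsto (fun n => S.a (f n)) atTop (𝓝 0) := by
    have h1 := ht1.mul_const (S.a g)
    rw [zero_mul] at h1
    exact h1.congr fun n => ((hall n).2.2.1).symm
  have htb : Tendsto (fun n => S.b1 (f n)) atTop (𝓝 0) := by
    have h1 := (ht1.mul_const (S.b1 g)).sub (ht2.mul_const (S.a g * S.b2 h))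
    rw [zero_mul, zero_mul, sub_zero] at h1
    refine h1.congr fun n => ?_
    rw [(hall n).2.2.2.2]
    ring
  have htU : Tendsto U atTop (𝓝 L) := by
    rw [tendsto_pi_nhds]
    intro i
    fin_cases i
    · have h1 : Tendsto (fun n => S.a (f n) * S.D x 1 - (S.a (f n)) ^ 2 / 2 * S.D x 2 + S.b1 (f n))
          atTop (𝓝 0) := by
        have h2 := ((hta.mul_const (S.D x 1)).sub (((hta.pow 2).div_const 2).mul_const (S.D x 2))).add htb
        simpa using h2
      have h3 : L 0 = 0 := by simp [hL]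
      show Tendsto (fun n => U n 0) atTop (𝓝 (L 0))
      rw [h3]
      refine h1.congr fun n => ?_
      rw [hUD, Pi.sub_apply, S.eq0, (hall n).1]
      ring
    · have h1 : Tendsto (fun n => -(S.a (f n) * S.D x 2) + S.b2 g) atTop (𝓝 (S.b2 g)) := by
        have h2 := (hta.mul_const (S.D x 2)).neg.add_const (S.b2 g)
        simpa using h2
      have h3 : L 1 = S.b2 g := by simp [hL]
      show Tendsto (fun n => U n 1) atTop (𝓝 (L 1))
      rw [h3]
      refine h1.congr fun n => ?_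
      rw [hUD, Pi.sub_apply, S.eq1, (hall n).1, (hall n).2.2.2.1]
      ring
    · have h3 : L 2 = 0 := by simp [hL]
      show Tendsto (fun n => U n 2) atTop (𝓝 (L 2))
      rw [h3]
      refine tendsto_const_nhds.congr fun n => (hU2 n).symm
  have hte : Tendsto (fun n => f n • x) atTop (𝓝 (ext S.D x L)) := by
    have hc : ContinuousAt (ext S.D x) L :=
      (continuousOn_ext_right S.hD x).continuousAt ((isOpen_Star S.hD x).mem_nhds hLst)
    refine (hc.tendsto.comp htU).congr fun n => (hUe n).symm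
  have hcomp := hte.isCompact_insert_range
  have hcomp2 := hcomp.insert x
  have hfin := S.pd _ hcomp2
  have hmem : ∀ n, f n ∈ {γ : Γ | ∃ y ∈ insert x (insert (ext S.D x L) (range fun n => f n • x)),
      γ • y ∈ insert x (insert (ext S.D x L) (range fun n => f n • x))} := by
    intro n
    exact ⟨x, mem_insert _ _, mem_insert_of_mem _ (mem_insert_of_mem _ ⟨n, rfl⟩)⟩
  have hag : S.a g = 0 := by
    by_contra hne
    exact Set.infinite_of_injective_forall_mem
      (g2b_inj hh hne (F := S.a) fun n => (hall n).2.2.1) hmem hfin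
  refine ⟨hag, ?_⟩
  by_contra hne
  refine Set.infinite_of_injective_forall_mem
    (g2b_inj hh hne (F := S.b1) fun n => ?_) hmem hfin
  rw [(hall n).2.2.2.2, hag]
  ring

end Aff

end HRF
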