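import Pool.Agent.HRF.G2b

/-!
# HRF-G3a : near-identity sequences
-/

namespace HRF

open Set Filter Topology Matrix

namespace Aff

variable {Γ E : Type*} [Group Γ] [TopologicalSpace E] [MulAction Γ E] [T2Space E] (S : Aff Γ E)

omit [T2Space E] in
theorem g3a_ev (x : E) {W : ℕ → V} (hW : Tendsto (fun i => W i 2) atTop (𝓝 0)) :
    ∀ᶠ i in atTop, ‖W i 2‖ < S.ρ x := by
  have h3 := hW.norm
  rw [norm_zero] at h3
  exact h3.eventually_lt_const (S.ρ_pos x)

/-- one step of the propagation -/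
theorem g3a_step {g : ℕ → Γ} (hχ : Tendsto (fun i => S.χ (g i)) atTop (𝓝 1)) {x : E}
    {W : ℕ → V} (hW : Tendsto (fun i => W i 2) atTop (𝓝 0))
    (hg : ∀ᶠ i in atTop, g i • x = ext S.D x (W i)) {w : V} (hw : ‖w 2‖ < S.ρ x) :
    ∃ W' : ℕ → V, Tendsto (fun i => W' i 2) atTop (𝓝 0) ∧
      ∀ᶠ i in atTop, g i • ext S.D x w = ext S.D (ext S.D x w) (W' i) := by
  have ht : Tendsto (fun i => (W i + S.lm (g i) *ᵥ w) 2) atTop (𝓝 (w 2)) := by
    have h1 : Tendsto (fun i => W i 2 + S.χ (g i) * w 2) atTop (𝓝 (0 + 1 * w 2)) :=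
      hW.add (hχ.mul_const (w 2))
    rw [one_mul, zero_add] at h1
    refine h1.congr fun i => ?_
    rw [Pi.add_apply, S.lm_apply_two]
  refine ⟨fun i => W i + S.lm (g i) *ᵥ w - w, ?_, ?_⟩
  · have h1 := ht.sub_const (w 2)
    rw [sub_self] at h1
    exact h1.congr fun i => rfl
  · have e1 := g3a_ev S x hW
    have e2 : ∀ᶠ i in atTop, ‖(W i + S.lm (g i) *ᵥ w) 2‖ < S.ρ x :=
      ht.norm.eventually_lt_const hw
    filter_upwards [hg, e1, e2] with i h1 h2 h3
    have h4 := S.ext_smul (g i) x (S.tube x _ hw)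
    have h5 := (S.ext_tube h2 h3).2
    have h6 := (S.ext_tube hw h3).2
    rw [add_sub_cancel_left] at h5
    rw [h6, ← h5, ← h1, h4]

/-- Propagation. If `χ (g i) → 1` and the near-identity property holds at one point, it holds
everywhere.

Proof. Let `A` be the set of `x` such that there is `W` with `W i 2 → 0` and eventually
`g i • x = ext x (W i)`. If `x ∈ A` and `|w 2| < ρ x` then `ext x w ∈ A`: eventually
`g i • ext x w = ext (g i • x) (lm (g i) w) = ext (ext x (W i)) (lm (g i) w)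
= ext x (W i + lm (g i) w)` (by `ext_tube`: `|W i 2| < ρ x` and
`|W i 2 + χ (g i) w 2| < ρ x` eventually) `= ext (ext x w) (W i + lm (g i) w - w)` (`ext_tube`),
and the third coordinate `W i 2 + (χ (g i) - 1) w 2 → 0`. Open/closed argument as in
`LP_of_one`. -/
theorem NI_of_one [ConnectedSpace E] {g : ℕ → Γ}
    (hχ : Tendsto (fun i => S.χ (g i)) atTop (𝓝 1)) {x : E} {W : ℕ → V}
    (hW : Tendsto (fun i => W i 2) atTop (𝓝 0)) (hg : ∀ᶠ i in atTop, g i • x = ext S.D x (W i)) :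
    S.NI g := by
  let A : Set E := {x | ∃ W : ℕ → V, Tendsto (fun i => W i 2) atTop (𝓝 0) ∧
    ∀ᶠ i in atTop, g i • x = ext S.D x (W i)}
  have hstep : ∀ y ∈ A, ∀ w : V, ‖w 2‖ < S.ρ y → ext S.D y w ∈ A := by
    rintro y ⟨W', hW', hg'⟩ w hw
    exact g3a_step S hχ hW' hg' hw
  have hA : IsClopen A := by
    constructor
    · rw [← isOpen_compl_iff, isOpen_iff_mem_nhds]
      intro y hy
      filter_upwards [S.eventually_ext_eq y (half_pos (S.ρ_pos y))] with z hz hzA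
      apply hy
      obtain ⟨h1, h2⟩ := hz
      have h3 : ‖(S.D z - S.D y) 2‖ < S.ρ y := lt_trans h2 (half_lt_self (S.ρ_pos y))
      have h4 := ext_neg S.hD (S.tube y _ h3)
      have h5 := S.le_ρ_ext h3
      rw [← h1] at h4 h5
      have h6 := hstep z hzA (-(S.D z - S.D y)) (by
        rw [Pi.neg_apply, norm_neg]
        linarith)
      rwa [h4.2] at h6
    · rw [isOpen_iff_mem_nhds]
      intro y hy
      filter_upwards [S.eventually_ext_eq y (S.ρ_pos y)] with z hz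
      rw [hz.1]
      exact hstep y hy _ hz.2
  have huniv : A = univ := hA.eq_univ ⟨x, W, hW, hg⟩
  refine ⟨hχ, fun y => ?_⟩
  have hy : y ∈ A := by rw [huniv]; exact mem_univ y
  exact hy

/-- Inverses. Proof. At `x`: eventually `g i • x = ext x (W i)`, `|W i 2| < ρ x`. By `ext_neg`,
`ext (g i • x) (-(W i)) = x`; apply `(g i)⁻¹` (`ext_smul`):
`(g i)⁻¹ • x = ext ((g i)⁻¹ • g i • x) (lm (g i)⁻¹ (-(W i))) = ext x (-(lm (g i)⁻¹ (W i)))`, third
coordinate `-(χ (g i))⁻¹ W i 2 → 0`. -/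
theorem NI.inv {g : ℕ → Γ} (hg : S.NI g) : S.NI (fun i => (g i)⁻¹) := by
  have hχ : Tendsto (fun i => S.χ (g i)⁻¹) atTop (𝓝 1) := by
    have h1 := hg.1.inv₀ one_ne_zero
    rw [inv_one] at h1
    exact h1.congr fun i => (S.χ_inv (g i)).symm
  refine ⟨hχ, fun x => ?_⟩
  obtain ⟨W, hW, hgW⟩ := hg.2 x
  refine ⟨fun i => S.lm (g i)⁻¹ *ᵥ (-(W i)), ?_, ?_⟩
  · have h1 : Tendsto (fun i => S.χ (g i)⁻¹ * (-(W i 2))) atTop (𝓝 (1 * (-0))) := hχ.mul hW.neg
    rw [neg_zero, mul_zero] at h1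
    refine h1.congr fun i => ?_
    show S.χ (g i)⁻¹ * -W i 2 = (S.lm (g i)⁻¹ *ᵥ -W i) 2
    rw [S.lm_apply_two, Pi.neg_apply]
  · have h2 : ∀ᶠ i in atTop, ‖W i 2‖ < S.ρ x := by
      have h3 := hW.norm
      rw [norm_zero] at h3
      exact h3.eventually_lt_const (S.ρ_pos x)
    filter_upwards [hgW, h2] with i h3 h4
    obtain ⟨h5, h6⟩ := ext_neg S.hD (S.tube x _ h4)
    rw [← h3] at h5 h6
    have h7 := S.ext_smul (g i)⁻¹ (g i • x) h5
    rw [h6, inv_smul_smul] at h7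
    exact h7.symm

/-- Products. Proof. `g i • g' i • x = g i • ext x (W' i) = ext (g i • x) (lm (g i) (W' i))
= ext (ext x (W i)) (lm (g i) (W' i)) = ext x (W i + lm (g i) (W' i))` eventually, by
`ext_smul` and `ext_tube`. -/
theorem NI.mul {g g' : ℕ → Γ} (hg : S.NI g) (hg' : S.NI g') : S.NI (fun i => g i * g' i) := by
  have hχ : Tendsto (fun i => S.χ (g i * g' i)) atTop (𝓝 1) := by
    have h1 := hg.1.mul hg'.1
    rw [mul_one] at h1
    exact h1.congr fun i => (S.χ_mul (g i) (g' i)).symm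
  refine ⟨hχ, fun x => ?_⟩
  obtain ⟨W, hW, hgW⟩ := hg.2 x
  obtain ⟨W', hW', hgW'⟩ := hg'.2 x
  have ht : Tendsto (fun i => (W i + S.lm (g i) *ᵥ W' i) 2) atTop (𝓝 0) := by
    have h1 : Tendsto (fun i => W i 2 + S.χ (g i) * W' i 2) atTop (𝓝 (0 + 1 * 0)) :=
      hW.add (hg.1.mul hW')
    rw [mul_zero, add_zero] at h1
    refine h1.congr fun i => ?_
    rw [Pi.add_apply, S.lm_apply_two]
  refine ⟨fun i => W i + S.lm (g i) *ᵥ W' i, ht, ?_⟩
  have e1 := g3a_ev S x hW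
  have e2 := g3a_ev S x hW'
  have e3 := g3a_ev S x ht
  filter_upwards [hgW, hgW', e1, e2, e3] with i h1 h2 h3 h4 h5
  have h6 := S.ext_smul (g i) x (S.tube x _ h4)
  have h7 := (S.ext_tube h3 h5).2
  rw [add_sub_cancel_left] at h7
  rw [mul_smul, h2, ← h6, h1, h7]

end Aff

end HRF
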