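import Pool.Agent.HRF.G3a

/-!
# HRF-G3b : near-identity sequences
-/

namespace HRF

open Set Filter Topology Matrix

namespace Aff

variable {Γ E : Type*} [Group Γ] [TopologicalSpace E] [MulAction Γ E] [T2Space E] (S : Aff Γ E)

/-- Conjugation by a fixed element. Proof. `γ g_i γ⁻¹ x`: with `y = γ⁻¹ • x`,
`g i • y = ext y (W i)`, so `γ • g i • y = ext x (lm γ (W i))` (`ext_smul`, `|W i 2| < ρ y`
eventually), third coordinate `χ γ * W i 2 → 0`; `χ (γ g_i γ⁻¹) = χ (g i)`. -/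
theorem NI.conj {g : ℕ → Γ} (hg : S.NI g) (γ : Γ) : S.NI (fun i => γ * g i * γ⁻¹) := by
  refine ⟨?_, ?_⟩
  · have h : (fun i => S.χ (γ * g i * γ⁻¹)) = fun i => S.χ (g i) := by
      funext i
      have := S.χ_ne γ
      rw [S.χ_mul, S.χ_mul, S.χ_inv]
      field_simp
    rw [h]
    exact hg.1
  · intro x
    obtain ⟨W, hW, hW'⟩ := hg.2 (γ⁻¹ • x)
    refine ⟨fun i => S.lm γ *ᵥ W i, ?_, ?_⟩
    · have h : (fun i => (S.lm γ *ᵥ W i) 2) = fun i => S.χ γ * W i 2 := by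
        funext i
        rw [S.lm_apply_two]
      rw [h]
      simpa using hW.const_mul (S.χ γ)
    · have h1 : ∀ᶠ i in atTop, ‖W i 2‖ < S.ρ (γ⁻¹ • x) := by
        have h2 := hW.norm
        rw [norm_zero] at h2
        exact h2.eventually (gt_mem_nhds (S.ρ_pos _))
      filter_upwards [hW', h1] with i h2 h3
      have h4 : W i ∈ Star S.D (γ⁻¹ • x) := S.tube _ _ h3
      have h5 := S.ext_smul γ (γ⁻¹ • x) h4
      rw [smul_inv_smul] at h5
      rw [h5, ← h2, mul_smul, mul_smul]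

/-- Commutators with a fixed element. Proof. `NI.conj`, `NI.inv`, `NI.mul`. -/
theorem NI.comm {g : ℕ → Γ} (hg : S.NI g) (γ : Γ) : S.NI (fun i => γ * g i * γ⁻¹ * (g i)⁻¹) := by
  exact NI.mul S (NI.conj S hg γ) (NI.inv S hg)

/-- Subsequences. -/
theorem NI.comp {g : ℕ → Γ} (hg : S.NI g) {φ : ℕ → ℕ} (hφ : StrictMono φ) : S.NI (g ∘ φ) := by
  refine ⟨hg.1.comp hφ.tendsto_atTop, fun x => ?_⟩
  obtain ⟨W, hW, hW'⟩ := hg.2 x
  exact ⟨W ∘ φ, hW.comp hφ.tendsto_atTop, hφ.tendsto_atTop.eventually hW'⟩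

theorem g3b_aux {g : ℕ → Γ} {x : E} {W : ℕ → V}
    (hW : Tendsto (fun i => W i 2) atTop (𝓝 0)) (hW' : ∀ᶠ i in atTop, g i • x = ext S.D x (W i)) :
    ∀ᶠ i in atTop, S.b3 (g i) = W i 2 - (S.χ (g i) - 1) * S.D x 2 := by
  have h1 : ∀ᶠ i in atTop, ‖W i 2‖ < S.ρ x := by
    have h2 := hW.norm
    rw [norm_zero] at h2
    exact h2.eventually (gt_mem_nhds (S.ρ_pos _))
  filter_upwards [hW', h1] with i h2 h3
  have h4 : W i ∈ Star S.D x := S.tube _ _ h3
  have h5 := D_ext h4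
  rw [← h2] at h5
  have h6 := congrFun h5 2
  rw [S.eq2, Pi.add_apply] at h6
  linear_combination h6

/-- The translation on the third coordinate tends to `0`. Proof. At a point `x`,
`D (g i • x) 2 - D x 2 = W i 2` (`D_ext`) and `eq2`: `b3 (g i) = W i 2 - (χ (g i) - 1) D x 2`. -/
theorem NI.b3 [Nonempty E] {g : ℕ → Γ} (hg : S.NI g) :
    Tendsto (fun i => S.b3 (g i)) atTop (𝓝 0) := by
  obtain ⟨x⟩ := (inferInstance : Nonempty E)
  obtain ⟨W, hW, hW'⟩ := hg.2 x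
  have h1 := g3b_aux S hW hW'
  have h2 : Tendsto (fun i => W i 2 - (S.χ (g i) - 1) * S.D x 2) atTop
      (𝓝 (0 - (1 - 1) * S.D x 2)) := hW.sub ((hg.1.sub_const 1).mul_const _)
  rw [sub_self, zero_mul, sub_zero] at h2
  refine h2.congr' ?_
  filter_upwards [h1] with i h3
  exact h3.symm

/-- Near-identity elements acting trivially on the third coordinate preserve the leaves.

Proof. Take a point `x`; for `i` large `g i • x = ext x (W i)`, `|W i 2| < ρ x`. If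
`χ (g i) = 1` and `b3 (g i) = 0` then `W i 2 = D (g i • x) 2 - D x 2 = 0`, and `LP_of_one`
applies. -/
theorem NI.LP [ConnectedSpace E] {g : ℕ → Γ} (hg : S.NI g) :
    ∀ᶠ i in atTop, S.χ (g i) = 1 → S.b3 (g i) = 0 → S.LP (g i) := by
  obtain ⟨x⟩ := (inferInstance : Nonempty E)
  obtain ⟨W, hW, hW'⟩ := hg.2 x
  filter_upwards [g3b_aux S hW hW', hW'] with i h1 h2 h3 h4
  have h5 : W i 2 = 0 := by
    rw [h3, h4] at h1
    linear_combination -h1
  exact S.LP_of_one h3 h4 h5 h2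

end Aff

end HRF
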