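import Pool.Agent.HRF.G3b

/-!
# HRF-G4a : existence of near-identity sequences
-/

namespace HRF

open Set Filter Topology Matrix

namespace Aff

variable {Γ E : Type*} [Group Γ] [TopologicalSpace E] [MulAction Γ E] [T2Space E] (S : Aff Γ E)

/-- The points `f j = ext x₀ (j e₀)` (`e₀ = Pi.single 0 1`) of the leaf of `x₀`, brought back to
`K`: subsequence with convergence of `γ_j • f_j` and of `χ (γ_j)`.

Proof. `f j = ext x₀ (j • e₀)` is defined (third coordinate `0`). Choose `γ j` with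
`γ j • f j ∈ K`. `‖χ (γ j)‖ = ρ (γ j • f j) / ρ (f j) = ρ (γ j • f j) / ρ x₀`
(`ρ_smul`, `ρ_leaf`), and `ρ` is continuous and positive on the compact `K`, so
`‖χ (γ j)‖ ∈ [m, M]` with `0 < m`. `K` is sequentially compact (`IsCompact.isSeqCompact`, with
`firstCountable S.hD`): subsequence with `γ j • f j → y ∈ K`, then again with
`χ (γ j) → c`, `c ≠ 0` (closed ball of `ℂ`, compact; `‖c‖ ≥ m`). -/
theorem exists_return (x₀ : E) :
    ∃ (φ : ℕ → ℕ) (γ : ℕ → Γ) (y : E) (c : ℂ), StrictMono φ ∧ c ≠ 0 ∧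
      Tendsto (fun i => γ i • ext S.D x₀ ((φ i : ℂ) • (Pi.single 0 1 : V))) atTop (𝓝 y) ∧
      Tendsto (fun i => S.χ (γ i)) atTop (𝓝 c) := by
  classical
  have hfc : FirstCountableTopology E := firstCountable S.hD
  have hf : ∀ j : ℕ, S.ρ (ext S.D x₀ ((j : ℂ) • (Pi.single 0 1 : V))) = S.ρ x₀ := by
    intro j
    exact S.ρ_leaf (by simp)
  choose γ hγ using fun j : ℕ => S.cover (ext S.D x₀ ((j : ℂ) • (Pi.single 0 1 : V)))
  have hKne : S.K.Nonempty := ⟨_, hγ 0⟩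
  obtain ⟨ym, hymK, hym⟩ := S.hK.exists_isMinOn hKne S.continuous_ρ.continuousOn
  obtain ⟨yM, hyMK, hyM⟩ := S.hK.exists_isMaxOn hKne S.continuous_ρ.continuousOn
  have hρ0 : 0 < S.ρ x₀ := S.ρ_pos x₀
  have hχ : ∀ j : ℕ, ‖S.χ (γ j)‖ =
      S.ρ (γ j • ext S.D x₀ ((j : ℂ) • (Pi.single 0 1 : V))) / S.ρ x₀ := by
    intro j
    rw [S.ρ_smul, hf, mul_div_assoc, div_self hρ0.ne', mul_one]
  have hmpos : 0 < S.ρ ym / S.ρ x₀ := div_pos (S.ρ_pos ym) hρ0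
  have hbm : ∀ j, S.ρ ym / S.ρ x₀ ≤ ‖S.χ (γ j)‖ := by
    intro j
    rw [hχ]
    exact div_le_div_of_nonneg_right (hym (hγ j)) hρ0.le
  have hbM : ∀ j, ‖S.χ (γ j)‖ ≤ S.ρ yM / S.ρ x₀ := by
    intro j
    rw [hχ]
    exact div_le_div_of_nonneg_right (hyM (hγ j)) hρ0.le
  obtain ⟨y, hyK, φ1, hφ1, hy⟩ := S.hK.isSeqCompact hγ
  obtain ⟨c, hcB, φ2, hφ2, hc⟩ := (isCompact_closedBall (0 : ℂ) (S.ρ yM / S.ρ x₀)).isSeqCompact
    (x := fun i => S.χ (γ (φ1 i))) (fun i => by simpa using hbM (φ1 i))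
  refine ⟨φ1 ∘ φ2, γ ∘ φ1 ∘ φ2, y, c, hφ1.comp hφ2, ?_, hy.comp hφ2.tendsto_atTop, hc⟩
  intro h0
  have h1 : S.ρ ym / S.ρ x₀ ≤ ‖c‖ := ge_of_tendsto' hc.norm (fun i => hbm _)
  rw [h0, norm_zero] at h1
  linarith

end Aff

end HRF
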