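import Pool.Agent.HRF.G4a

/-!
# HRF-G4b : existence of near-identity sequences
-/

namespace HRF

open Set Filter Topology Matrix

namespace Aff

variable {Γ E : Type*} [Group Γ] [TopologicalSpace E] [MulAction Γ E] [T2Space E] (S : Aff Γ E)

/-- one step of the construction -/
theorem g4b_step {x₀ y : E} {γi γl : Γ} {a b : ℂ} {ui ul : V}
    (hi : γi • ext S.D x₀ (a • (Pi.single 0 1 : V)) = ext S.D y ui)
    (hl : γl • ext S.D x₀ (b • (Pi.single 0 1 : V)) = ext S.D y ul)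
    (hui : ‖ui 2‖ < S.ρ y / 4) (hul : ‖ul 2‖ < S.ρ y / 4)
    (hχ : ‖S.χ (γl * γi⁻¹)‖ ≤ 2) :
    ∃ W : V, W 2 = ul 2 - S.χ (γl * γi⁻¹) * ui 2 ∧ (γl * γi⁻¹) • y = ext S.D y W := by
  have hρ := S.ρ_pos y
  have hρ0 := S.ρ_pos x₀
  have e2 : ∀ t : ℂ, (t • (Pi.single 0 1 : V)) 2 = 0 := by
    intro t
    simp [Pi.smul_apply, Pi.single_apply]
  have hui' : ui ∈ Star S.D y := S.tube y ui (by linarith)
  obtain ⟨h1, h2⟩ := ext_neg S.hD hui'
  -- `y = ext (ext y ui) (-ui)`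
  have h3 : (γl * γi⁻¹) • y =
      ext S.D ((γl * γi⁻¹) • ext S.D y ui) (S.lm (γl * γi⁻¹) *ᵥ (-ui)) := by
    rw [S.ext_smul _ _ h1, h2]
  have h4 : (γl * γi⁻¹) • ext S.D y ui = γl • ext S.D x₀ (a • (Pi.single 0 1 : V)) := by
    rw [← hi, mul_smul, inv_smul_smul]
  -- `f i = ext (f l) ((a - b) e₀)`
  have h5 := S.ext_tube (x := x₀) (w := b • (Pi.single 0 1 : V)) (w' := a • (Pi.single 0 1 : V))
    (by rw [e2, norm_zero]; exact hρ0) (by rw [e2, norm_zero]; exact hρ0)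
  set E' : V := S.lm γl *ᵥ (a • (Pi.single 0 1 : V) - b • (Pi.single 0 1 : V)) with hE'
  have hE2 : E' 2 = 0 := by
    rw [hE', S.lm_apply_two, Pi.sub_apply, e2, e2]
    simp
  have h6 : γl • ext S.D x₀ (a • (Pi.single 0 1 : V)) = ext S.D (ext S.D y ul) E' := by
    rw [← h5.2, ← S.ext_smul _ _ h5.1, hl]
  have h7 := S.ext_tube (x := y) (w := ul) (w' := ul + E') (by linarith)
    (by rw [Pi.add_apply, hE2, add_zero]; linarith)
  have h8 : ext S.D (ext S.D y ul) E' = ext S.D y (ul + E') := by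
    rw [← h7.2]
    congr 1
    abel
  set F : V := S.lm (γl * γi⁻¹) *ᵥ (-ui) with hF
  have hF2 : F 2 = -(S.χ (γl * γi⁻¹) * ui 2) := by
    rw [hF, S.lm_apply_two, Pi.neg_apply]
    ring
  have hn : ‖(ul + E' + F) 2‖ < S.ρ y := by
    rw [Pi.add_apply, Pi.add_apply, hE2, hF2, add_zero]
    calc ‖ul 2 + -(S.χ (γl * γi⁻¹) * ui 2)‖ ≤ ‖ul 2‖ + ‖-(S.χ (γl * γi⁻¹) * ui 2)‖ :=
          norm_add_le _ _
      _ = ‖ul 2‖ + ‖S.χ (γl * γi⁻¹)‖ * ‖ui 2‖ := by rw [norm_neg, norm_mul]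
      _ ≤ ‖ul 2‖ + 2 * ‖ui 2‖ := by gcongr
      _ < S.ρ y := by linarith
  have h9 := S.ext_tube (x := y) (w := ul + E') (w' := ul + E' + F)
    (by rw [Pi.add_apply, hE2, add_zero]; linarith) hn
  refine ⟨ul + E' + F, ?_, ?_⟩
  · rw [Pi.add_apply, Pi.add_apply, hE2, hF2, add_zero]
    ring
  · rw [h3, h4, h6, h8, ← h9.2]
    congr 1
    abel

/-- **Existence of near-identity sequences** which are not trivial on the third coordinate.

Proof. Take a point `x₀` and the data of `exists_return`; `f i = ext x₀ (φ i • e₀)`,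
`y i = γ i • f i → y`. For `i < l` put `g_{il} = γ l * (γ i)⁻¹`.
(a) `g_{il} • y = ext y W` with `|W 2|` small and `χ (g_{il})` close to `1`, when `i, l` are large.
Indeed, for `i` large, with `w_i = D y - D (y i) → 0`: `y = ext (y i) w_i` and
`y i = ext y (-w_i)` (`eventually_ext_eq` and `ext_neg`). Then
`g_{il} • y = g_{il} • ext (y i) w_i = ext (g_{il} • y i) (lm g_{il} w_i)` and
`g_{il} • y i = γ l • f i`, `f i = ext (f l) ((φ i - φ l) e₀)` (`ext_tube` at `x₀`), so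
`γ l • f i = ext (y l) (s e₀)`, `s = (φ i - φ l) (χ (γ l))⁻¹` (`ext_smul`;
`lm γ e₀ = (χ γ)⁻¹ e₀`). Finally all these moves stay in the tube of `y`:
`y l = ext y (-w_l)`, so `γ l • f i = ext y (-w_l + s e₀)`, and
`g_{il} • y = ext y (-w_l + s e₀ + lm g_{il} w_i)` =: `ext y W`, as
`|(-w_l) 2|` and `|W 2| = |-w_l 2 + χ(g_{il}) w_i 2|` are `< ρ y` (and the intermediate
changes of base point by `ext_tube`). `χ (g_{il}) = χ (γ l) / χ (γ i) → 1` as `i, l → ∞`.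
(b) There is `i₀` such that for every `i ≥ i₀` there are arbitrarily large `l > i` with
`¬ (χ (g_{il}) = 1 ∧ b3 (g_{il}) = 0)`. Otherwise, for some large `i` (as in (a)) and all
`l ≥ l₀` both equalities hold; `W 2 = D (g y) 2 - D y 2 = 0`, so `g_{il}` preserves the leaves
(`LP_of_one`) and `NU1` gives `a g_{il} = b1 g_{il} = 0`. Hence by `eq0`,
`D (y l) 0 = D (g_{il} • (γ i • f l)) 0 = D (γ i • f l) 0`. And
`f l = ext x₀ (φ l e₀)`, so `γ i • f l = ext (γ i • x₀) (φ l (χ (γ i))⁻¹ e₀)` and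
`D (γ i • f l) 0 = D (γ i • x₀) 0 + φ l (χ (γ i))⁻¹`, unbounded as `l → ∞`; but
`D (y l) 0 → D y 0`. Contradiction.
(c) Choose `i_k ≥ k`, `l_k > i_k` with `g_k = g_{i_k l_k}` nontrivial; (a) at the point `y` and
`NI_of_one` show that `g` is a near-identity sequence. -/
theorem exists_NI [ConnectedSpace E] {h : Γ} (hh : 1 < ‖S.χ h‖) (ha : S.a h = 0)
    (hb1 : S.b1 h = 0) (hb3 : S.b3 h = 0) :
    ∃ g : ℕ → Γ, S.NI g ∧ ∀ i, ¬ (S.χ (g i) = 1 ∧ S.b3 (g i) = 0) := by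
  obtain ⟨x₀⟩ : Nonempty E := inferInstance
  obtain ⟨φ, γ, y, c, hφ, hc, hy, hχ⟩ := S.exists_return x₀
  set f : ℕ → E := fun i => ext S.D x₀ ((φ i : ℂ) • (Pi.single 0 1 : V)) with hf
  have hρ := S.ρ_pos y
  have hDc : Continuous S.D := S.hD.continuous
  set u : ℕ → V := fun i => S.D (γ i • f i) - S.D y with hu
  have hDy : Tendsto (fun i => S.D (γ i • f i)) atTop (𝓝 (S.D y)) :=
    (hDc.tendsto y).comp hy
  have hu0 : Tendsto (fun i => u i 2) atTop (𝓝 0) := by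
    have h1 : Tendsto (fun i => (S.D (γ i • f i)) 2) atTop (𝓝 (S.D y 2)) :=
      ((continuous_apply (2 : Fin 3)).tendsto _).comp hDy
    have h2 := h1.sub_const (S.D y 2)
    rw [sub_self] at h2
    exact h2
  have hE1 : ∀ᶠ i in atTop, γ i • f i = ext S.D y (u i) ∧ ‖u i 2‖ < S.ρ y / 4 :=
    hy.eventually (S.eventually_ext_eq y (by linarith : 0 < S.ρ y / 4))
  have hcn : 0 < ‖c‖ := norm_pos_iff.2 hc
  have hE2 : ∀ᶠ i in atTop, 3 / 4 * ‖c‖ < ‖S.χ (γ i)‖ ∧ ‖S.χ (γ i)‖ < 3 / 2 * ‖c‖ := by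
    have h1 := hχ.norm
    exact (h1.eventually (lt_mem_nhds (by linarith))).and (h1.eventually (gt_mem_nhds (by linarith)))
  obtain ⟨N, hN⟩ := eventually_atTop.1 (hE1.and hE2)
  have hχg : ∀ i l, S.χ (γ l * (γ i)⁻¹) = S.χ (γ l) * (S.χ (γ i))⁻¹ := by
    intro i l
    rw [S.χ_mul, S.χ_inv]
  have hstep : ∀ i l, N ≤ i → N ≤ l → ∃ W : V,
      W 2 = u l 2 - S.χ (γ l * (γ i)⁻¹) * u i 2 ∧ (γ l * (γ i)⁻¹) • y = ext S.D y W := by
    intro i l hi hl
    obtain ⟨⟨h1, h2⟩, h3, h4⟩ := hN i hi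
    obtain ⟨⟨h5, h6⟩, h7, h8⟩ := hN l hl
    refine S.g4b_step h1 h5 h2 h6 ?_
    rw [hχg, norm_mul, norm_inv]
    have h9 : 0 < ‖S.χ (γ i)‖ := by linarith
    rw [← div_eq_mul_inv, div_le_iff₀ h9]
    linarith
  have hD0 : ∀ i l, S.D (γ i • f l) 0 = (S.χ (γ i))⁻¹ * (φ l : ℂ) +
      ((S.χ (γ i))⁻¹ * S.D x₀ 0 + S.a (γ i) * S.D x₀ 1 -
        (S.a (γ i)) ^ 2 * S.χ (γ i) / 2 * S.D x₀ 2 + S.b1 (γ i)) := by
    intro i l
    have h1 : ((φ l : ℂ) • (Pi.single 0 1 : V)) ∈ Star S.D x₀ := by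
      apply S.tube
      have : ((φ l : ℂ) • (Pi.single 0 1 : V)) 2 = 0 := by
        simp [Pi.smul_apply, Pi.single_apply]
      rw [this, norm_zero]
      exact S.ρ_pos x₀
    have h2 : S.D (f l) = S.D x₀ + (φ l : ℂ) • (Pi.single 0 1 : V) := D_ext h1
    rw [S.eq0, h2]
    have e0 : (S.D x₀ + (φ l : ℂ) • (Pi.single 0 1 : V)) 0 = S.D x₀ 0 + φ l := by
      simp [Pi.add_apply, Pi.smul_apply]
    have e1 : (S.D x₀ + (φ l : ℂ) • (Pi.single 0 1 : V)) 1 = S.D x₀ 1 := by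
      simp [Pi.add_apply, Pi.smul_apply, Pi.single_apply]
    have e2 : (S.D x₀ + (φ l : ℂ) • (Pi.single 0 1 : V)) 2 = S.D x₀ 2 := by
      simp [Pi.add_apply, Pi.smul_apply, Pi.single_apply]
    rw [e0, e1, e2]
    ring
  have hb : ∀ i, N ≤ i → ∀ L : ℕ, ∃ l, L ≤ l ∧
      ¬ (S.χ (γ l * (γ i)⁻¹) = 1 ∧ S.b3 (γ l * (γ i)⁻¹) = 0) := by
    intro i hi L
    by_contra hcon
    push Not at hcon
    -- for all large `l` the coordinate is constant
    have h1 : ∀ᶠ l in atTop, S.D (γ l • f l) 0 = S.D (γ i • f l) 0 := by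
      filter_upwards [eventually_ge_atTop (max L N)] with l hl
      have hlL : L ≤ l := (le_max_left _ _).trans hl
      have hlN : N ≤ l := (le_max_right _ _).trans hl
      obtain ⟨hχ1, hb31⟩ := hcon l hlL
      obtain ⟨W, hW2, hW⟩ := hstep i l hi hlN
      set g := γ l * (γ i)⁻¹ with hg
      have hWn : ‖W 2‖ < S.ρ y := by
        obtain ⟨⟨_, h2⟩, _, _⟩ := hN i hi
        obtain ⟨⟨_, h6⟩, _, _⟩ := hN l hlN
        rw [hW2, hχ1, one_mul]
        calc ‖u l 2 - u i 2‖ ≤ ‖u l 2‖ + ‖u i 2‖ := norm_sub_le _ _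
          _ < S.ρ y := by linarith
      have hW0 : W 2 = 0 := by
        have h3 : S.D (g • y) = S.D y + W := by
          rw [hW]
          exact D_ext (S.tube y W hWn)
        have h4 := S.eq2 g y
        rw [h3, hχ1, hb31] at h4
        simp only [Pi.add_apply, one_mul, add_zero] at h4
        simpa using h4
      have hLP : S.LP g := S.LP_of_one hχ1 hb31 hW0 hW
      obtain ⟨ha0, hb0⟩ := S.NU1 hh ha hb1 hb3 hLP hχ1 hb31
      have h5 := S.eq0 g (γ i • f l)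
      have h6 : g • (γ i • f l) = γ l • f l := by
        rw [hg, mul_smul, inv_smul_smul]
      rw [h6, hχ1, ha0, hb0] at h5
      simpa using h5
    have h2 : Tendsto (fun l => S.D (γ l • f l) 0) atTop (𝓝 (S.D y 0)) :=
      ((continuous_apply (0 : Fin 3)).tendsto _).comp hDy
    have h3 : Tendsto (fun l => S.D (γ i • f l) 0) atTop (𝓝 (S.D y 0)) :=
      h2.congr' h1
    set K := (S.χ (γ i))⁻¹ * S.D x₀ 0 + S.a (γ i) * S.D x₀ 1 -
        (S.a (γ i)) ^ 2 * S.χ (γ i) / 2 * S.D x₀ 2 + S.b1 (γ i) with hK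
    have h4 : Tendsto (fun l => (φ l : ℂ)) atTop (𝓝 (S.χ (γ i) * (S.D y 0 - K))) := by
      have h5 := (h3.sub_const K).const_mul (S.χ (γ i))
      refine h5.congr fun l => ?_
      rw [hD0 i l, ← hK, add_sub_cancel_right, mul_inv_cancel_left₀ (S.χ_ne (γ i))]
    have h5 : Tendsto (fun l => ‖(φ l : ℂ)‖) atTop atTop := by
      have h6 : (fun l => ‖(φ l : ℂ)‖) = fun l => (φ l : ℝ) := by
        funext l
        simp
      rw [h6]
      exact tendsto_natCast_atTop_atTop.comp hφ.tendsto_atTop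
    exact not_tendsto_nhds_of_tendsto_atTop h5 _ h4.norm
  -- the sequence
  choose l hl using fun k : ℕ => hb (max k N) (le_max_right _ _) (max k N)
  refine ⟨fun k => γ (l k) * (γ (max k N))⁻¹, ?_, fun k => (hl k).2⟩
  have hi' : Tendsto (fun k : ℕ => max k N) atTop atTop :=
    tendsto_atTop_mono (fun k => le_max_left k N) tendsto_id
  have hl' : Tendsto l atTop atTop :=
    tendsto_atTop_mono (fun k => (le_max_left k N).trans (hl k).1) tendsto_id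
  have hχ' : Tendsto (fun k => S.χ (γ (l k) * (γ (max k N))⁻¹)) atTop (𝓝 1) := by
    have h1 : Tendsto (fun k => S.χ (γ (l k)) * (S.χ (γ (max k N)))⁻¹) atTop (𝓝 (c * c⁻¹)) :=
      (hχ.comp hl').mul ((hχ.comp hi').inv₀ hc)
    rw [mul_inv_cancel₀ hc] at h1
    exact h1.congr fun k => (hχg _ _).symm
  choose W hW using fun k : ℕ => hstep (max k N) (l k) (le_max_right _ _)
    ((le_max_right k N).trans (hl k).1)
  refine S.NI_of_one (x := y) (W := W) hχ' ?_ (Eventually.of_forall fun k => (hW k).2)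
  have h1 : Tendsto (fun k => u (l k) 2 - S.χ (γ (l k) * (γ (max k N))⁻¹) * u (max k N) 2) atTop
      (𝓝 (0 - 1 * 0)) :=
    (hu0.comp hl').sub (hχ'.mul (hu0.comp hi'))
  rw [mul_zero, sub_zero] at h1
  exact h1.congr fun k => (hW k).1.symm

end Aff

end HRF
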