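import Pool.Agent.HRF.G4b

/-!
# HRF-G5a : the case where all third-coordinate actions fix `0`; near-identity translations
-/

namespace HRF

open Set Filter Topology Matrix

namespace Aff

variable {Γ E : Type*} [Group Γ] [TopologicalSpace E] [MulAction Γ E] [T2Space E] (S : Aff Γ E)

/-- The case `b3 = 0` is impossible.

Proof. `exists_NI`: `g i` near-identity with `χ (g i) ≠ 1` (as `b3 (g i) = 0`). For `γ : Γ` the
commutators `t = γ g_i γ⁻¹ g_i⁻¹` are near-identity (`NI.comm`) with `χ t = 1`, `b3 t = 0`,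
so eventually `LP t` (`NI.LP`) and `NU1` gives `a t = 0`, `b1 t = 0`. From
`γ g_i = t (g_i γ)` and the laws: `a (γ g_i) = a (g_i γ)` i.e.
`(χ γ)⁻¹ a g_i + a γ = (χ g_i)⁻¹ a γ + a g_i`   (1)
and, once `a γ = a g_i = 0`, `b1 (γ g_i) = b1 (g_i γ)` i.e.
`(χ γ)⁻¹ b1 g_i + b1 γ = (χ g_i)⁻¹ b1 γ + b1 g_i`   (2).
With `γ = h`: (1) gives `((χ h)⁻¹ - 1) a g_i = 0`, so `a g_i = 0` for large `i`; (2) gives
`b1 g_i = 0`. With `γ` arbitrary: (1) gives `a γ (1 - (χ g_i)⁻¹) = 0`, so `a γ = 0`, (2) gives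
`b1 γ = 0`. So for every `γ`: `D (γ • x) 0 * D (γ • x) 2 = D x 0 * D x 2` (`eq0`, `eq2`). The
function `F x = ‖D x 0 * D x 2‖` is continuous and invariant, hence bounded (by its maximum on
`K`, `cover`). But it is unbounded: take a point `x` with `D x 2 ≠ 0` (if `D x 2 = 0` replace `x` by
`ext x (δ e₂)`, `δ = ρ x / 2`), and move in its leaf: `x' = ext x (s e₀)` has
`D x' 0 = D x 0 + s`, `D x' 2 = D x 2`. -/
theorem false_of_fixed [ConnectedSpace E] {h : Γ} (hh : 1 < ‖S.χ h‖) (ha : S.a h = 0)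
    (hb1 : S.b1 h = 0) (hb3 : S.b3 h = 0) (hfix : ∀ γ, S.b3 γ = 0) : False := by
  obtain ⟨g, hNI, hg⟩ := S.exists_NI hh ha hb1 hb3
  have hg1 : ∀ i, S.χ (g i) ≠ 1 := fun i h1 => hg i ⟨h1, hfix _⟩
  have hne : ∀ γ, S.χ γ ≠ 0 := S.χ_ne
  -- the commutation relations
  have hcomm : ∀ γ : Γ, ∀ᶠ i in atTop,
      (S.χ γ)⁻¹ * S.a (g i) + S.a γ = (S.χ (g i))⁻¹ * S.a γ + S.a (g i) ∧
      (S.χ γ)⁻¹ * S.b1 (g i) + S.a γ * S.b2 (g i) + S.b1 γ =
        (S.χ (g i))⁻¹ * S.b1 γ + S.a (g i) * S.b2 γ + S.b1 (g i) := by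
    intro γ
    have hLP := NI.LP S (NI.comm S hNI γ)
    filter_upwards [hLP] with i hi
    set t := γ * g i * γ⁻¹ * (g i)⁻¹ with ht
    have hχt : S.χ t = 1 := by
      rw [ht, S.χ_mul, S.χ_mul, S.χ_mul, S.χ_inv, S.χ_inv]
      field_simp [hne γ, hne (g i)]
    have hb3t : S.b3 t = 0 := hfix t
    obtain ⟨hat, hb1t⟩ := S.NU1 hh ha hb1 hb3 (hi hχt hb3t) hχt hb3t
    have heq : γ * g i = t * (g i * γ) := by
      rw [ht]
      group
    constructor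
    · have h1 := S.a_mul γ (g i)
      rw [heq, S.a_mul t, hχt, hat, inv_one, one_mul, add_zero, S.a_mul (g i) γ] at h1
      exact h1.symm
    · have h1 := S.b1_mul γ (g i)
      rw [heq, S.b1_mul t, hχt, hat, hb1t, S.b1_mul (g i) γ, hfix γ, hfix (g i),
        hfix (g i * γ)] at h1
      linear_combination -h1
  have hχh : (S.χ h)⁻¹ ≠ 1 := by
    intro h1
    have h2 : S.χ h = 1 := inv_eq_one.1 h1
    rw [h2, norm_one] at hh
    exact lt_irrefl _ hh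
  have hgi : ∀ᶠ i in atTop, S.a (g i) = 0 ∧ S.b1 (g i) = 0 := by
    filter_upwards [hcomm h] with i hi
    obtain ⟨h1, h2⟩ := hi
    rw [ha] at h1 h2
    have h3 : S.a (g i) = 0 := by
      have h4 : ((S.χ h)⁻¹ - 1) * S.a (g i) = 0 := by linear_combination h1
      exact (mul_eq_zero.1 h4).resolve_left (sub_ne_zero.2 hχh)
    refine ⟨h3, ?_⟩
    rw [hb1, h3] at h2
    have h4 : ((S.χ h)⁻¹ - 1) * S.b1 (g i) = 0 := by linear_combination h2
    exact (mul_eq_zero.1 h4).resolve_left (sub_ne_zero.2 hχh)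
  have hall : ∀ γ, S.a γ = 0 ∧ S.b1 γ = 0 := by
    intro γ
    obtain ⟨i, ⟨h1, h2⟩, h3, h4⟩ := ((hcomm γ).and hgi).exists
    have hχi : (1 : ℂ) - (S.χ (g i))⁻¹ ≠ 0 := by
      rw [sub_ne_zero]
      intro h5
      exact hg1 i (inv_eq_one.1 h5.symm)
    have h5 : S.a γ = 0 := by
      rw [h3] at h1
      have h6 : (1 - (S.χ (g i))⁻¹) * S.a γ = 0 := by linear_combination h1
      exact (mul_eq_zero.1 h6).resolve_left hχi
    refine ⟨h5, ?_⟩
    rw [h3, h4, h5] at h2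
    have h6 : (1 - (S.χ (g i))⁻¹) * S.b1 γ = 0 := by linear_combination h2
    exact (mul_eq_zero.1 h6).resolve_left hχi
  -- the invariant function
  have hinv : ∀ (γ : Γ) (x : E), S.D (γ • x) 0 * S.D (γ • x) 2 = S.D x 0 * S.D x 2 := by
    intro γ x
    rw [S.eq0, S.eq2, (hall γ).1, (hall γ).2, hfix γ]
    field_simp [hne γ]
    ring
  have hcont : Continuous fun x : E => ‖S.D x 0 * S.D x 2‖ := by
    have h1 : Continuous S.D := S.hD.continuous
    exact ((continuous_apply 0).comp h1 |>.mul ((continuous_apply 2).comp h1)).norm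
  obtain ⟨M, hM⟩ := S.hK.bddAbove_image hcont.continuousOn
  have hbd : ∀ x : E, ‖S.D x 0 * S.D x 2‖ ≤ M := by
    intro x
    obtain ⟨γ, hγ⟩ := S.cover x
    rw [← hinv γ x]
    exact hM ⟨γ • x, hγ, rfl⟩
  obtain ⟨x₀⟩ : Nonempty E := inferInstance
  obtain ⟨x, hx⟩ : ∃ x : E, S.D x 2 ≠ 0 := by
    by_cases h0 : S.D x₀ 2 = 0
    · have hρ := S.ρ_pos x₀
      have hv : ((((S.ρ x₀ / 2 : ℝ) : ℂ)) • (Pi.single 2 1 : V)) ∈ Star S.D x₀ := by
        apply S.tube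
        have h1 : ((((S.ρ x₀ / 2 : ℝ) : ℂ)) • (Pi.single 2 1 : V)) 2 = ((S.ρ x₀ / 2 : ℝ) : ℂ) := by
          simp
        rw [h1, Complex.norm_real, Real.norm_of_nonneg (by linarith)]
        linarith
      refine ⟨ext S.D x₀ ((((S.ρ x₀ / 2 : ℝ) : ℂ)) • (Pi.single 2 1 : V)), ?_⟩
      rw [D_ext hv, Pi.add_apply, h0, zero_add]
      have h1 : ((((S.ρ x₀ / 2 : ℝ) : ℂ)) • (Pi.single 2 1 : V)) 2 = ((S.ρ x₀ / 2 : ℝ) : ℂ) := by
        simp
      rw [h1]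
      exact Complex.ofReal_ne_zero.2 (half_pos hρ).ne'
    · exact ⟨x₀, h0⟩
  have hs : ∀ s : ℂ, ‖(S.D x 0 + s) * S.D x 2‖ ≤ M := by
    intro s
    have hv : (s • (Pi.single 0 1 : V)) ∈ Star S.D x := by
      apply S.tube
      have h1 : (s • (Pi.single 0 1 : V)) 2 = 0 := by
        simp
      rw [h1, norm_zero]
      exact S.ρ_pos x
    have h1 := hbd (ext S.D x (s • (Pi.single 0 1 : V)))
    rw [D_ext hv, Pi.add_apply, Pi.add_apply] at h1
    have h2 : (s • (Pi.single 0 1 : V)) 0 = s := by simp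
    have h3 : (s • (Pi.single 0 1 : V)) 2 = 0 := by simp
    rw [h2, h3, add_zero] at h1
    exact h1
  have hM0 : 0 ≤ M := (norm_nonneg _).trans (hbd x)
  have h1 := hs (-S.D x 0 + ((M + 1 : ℝ) : ℂ) / S.D x 2)
  have h2 : (S.D x 0 + (-S.D x 0 + ((M + 1 : ℝ) : ℂ) / S.D x 2)) * S.D x 2 = ((M + 1 : ℝ) : ℂ) := by
    field_simp
    ring
  rw [h2, Complex.norm_real, Real.norm_of_nonneg (by linarith)] at h1
  linarith

end Aff

end HRF
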