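import Pool.Agent.HRF.G1b

/-!
# HRF-G7 : strips

Here `β` is a unit complex number and all contacts are vertical:
`hβ : p ∉ Star x → ‖p 2‖ = ρ x → Re (conj β * p 2) = 0`.
-/

namespace HRF

open Set Filter Topology Matrix

namespace Aff

variable {Γ E : Type*} [Group Γ] [TopologicalSpace E] [MulAction Γ E] [T2Space E] (S : Aff Γ E)

/-- One step estimate: for `|w 2| < ρ x`, with `d + i e = conj β * w 2`,
`ρ (ext x w) ≤ √((ρ x + |e|)² + d²)`.

Proof. Let `p` be singular at `x`; `conj β * p 2 = i s`, `|s| = ρ x`. By `ρ_ext_le`,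
`ρ (ext x w) ≤ |p 2 - w 2| = |i s - d - i e| = √((s - e)² + d²)`. -/
theorem step_le {β : ℂ} (hβ1 : ‖β‖ = 1)
    (hβ : ∀ (x : E) (p : V), p ∉ Star S.D x → ‖p 2‖ = S.ρ x → (star β * p 2).re = 0)
    {x : E} {w : V} (hw : ‖w 2‖ < S.ρ x) :
    S.ρ (ext S.D x w) ≤ √((S.ρ x + |(star β * w 2).im|) ^ 2 + ((star β * w 2).re) ^ 2) := by
  obtain ⟨p, hp, hp2⟩ := S.sing x
  have h1 := S.ρ_ext_le hp hp2 hw
  have h2 := hβ x p hp hp2
  have h3 : ‖p 2 - w 2‖ = ‖star β * p 2 - star β * w 2‖ := by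
    rw [← mul_sub, norm_mul, norm_star, hβ1, one_mul]
  have h4 : |(star β * p 2).im| = S.ρ x := by
    have h5 : ‖star β * p 2‖ = S.ρ x := by rw [norm_mul, norm_star, hβ1, one_mul, hp2]
    have h6 : ‖star β * p 2‖ ^ 2 = (star β * p 2).im ^ 2 := by
      rw [Complex.sq_norm, Complex.normSq_apply, h2]
      ring
    rw [h5] at h6
    rw [← abs_of_pos (S.ρ_pos x)]
    exact (sq_eq_sq_iff_abs_eq_abs _ _).1 h6.symm
  refine h1.trans ?_
  rw [h3]
  apply Real.le_sqrt_of_sq_le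
  rw [Complex.sq_norm, Complex.normSq_apply, Complex.sub_re, Complex.sub_im, h2]
  set e := (star β * w 2).im
  set s := (star β * p 2).im
  set d := (star β * w 2).re
  have h7 : |s - e| ≤ S.ρ x + |e| := by
    rw [← h4]
    exact abs_sub s e
  have h8 : (s - e) ^ 2 ≤ (S.ρ x + |e|) ^ 2 := by
    rw [← sq_abs (s - e)]
    exact pow_le_pow_left₀ (abs_nonneg _) h7 2
  nlinarith

theorem g7_sqrt {A B m : ℝ} (hm : 0 < m) (hA : m ≤ A) : √(A ^ 2 + B ^ 2) ≤ A + B ^ 2 / (2 * m) := by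
  have hA0 : 0 < A := hm.trans_le hA
  have h1 : 0 ≤ B ^ 2 / (2 * m) := by positivity
  rw [Real.sqrt_le_left (by linarith)]
  have h2 : B ^ 2 ≤ 2 * A * (B ^ 2 / (2 * m)) := by
    have h3 : 2 * A * (B ^ 2 / (2 * m)) = B ^ 2 * (A / m) := by
      field_simp
    rw [h3]
    have h4 : 1 ≤ A / m := by
      rw [le_div_iff₀ hm]
      linarith
    nlinarith [sq_nonneg B]
  nlinarith

theorem g7_upper {β : ℂ} (hβ1 : ‖β‖ = 1)
    (hβ : ∀ (x : E) (p : V), p ∉ Star S.D x → ‖p 2‖ = S.ρ x → (star β * p 2).re = 0)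
    {x : E} {w : V} (hw : w ∈ Star S.D x) :
    S.ρ (ext S.D x w) ≤ S.ρ x + |(star β * w 2).im| := by
  set e := (star β * w 2).im with he
  set d := (star β * w 2).re with hd
  -- minimum of `ρ` along the segment
  have hcont : ContinuousOn (fun t : ℝ => S.ρ (ext S.D x (t • w))) (Icc 0 1) :=
    S.continuous_ρ.comp_continuousOn (isLift_ext S.hD hw).1
  obtain ⟨t0, ht0, hmin⟩ := isCompact_Icc.exists_isMinOn (nonempty_Icc.2 (zero_le_one' ℝ)) hcont
  set m := S.ρ (ext S.D x (t0 • w)) with hm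
  have hm0 : 0 < m := S.ρ_pos _
  have hmle : ∀ t ∈ Icc (0 : ℝ) 1, m ≤ S.ρ (ext S.D x (t • w)) := fun t ht => hmin ht
  apply le_of_forall_pos_le_add
  intro ε hε
  obtain ⟨N, hN⟩ := exists_nat_gt (max (‖w 2‖ / m) (d ^ 2 / (2 * m) / ε))
  have hN1 : ‖w 2‖ / m < N := (le_max_left _ _).trans_lt hN
  have hN2 : d ^ 2 / (2 * m) / ε < N := (le_max_right _ _).trans_lt hN
  have hN0 : (0 : ℝ) < N := lt_of_le_of_lt (by positivity) hN1
  have hNn : 0 < N := by exact_mod_cast hN0
  have hstep : ∀ k : ℕ, k ≤ N → S.ρ (ext S.D x (((k : ℝ) / N) • w)) ≤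
      S.ρ x + k * (|e| / N + (d / N) ^ 2 / (2 * m)) := by
    intro k
    induction k with
    | zero =>
      intro _
      simp only [Nat.cast_zero, zero_div, zero_smul, zero_mul, add_zero]
      rw [ext_zero S.hD]
    | succ k ih =>
      intro hk
      have ih' := ih (by omega)
      have hk0 : (0 : ℝ) ≤ (k : ℝ) / N := by positivity
      have hk1 : (k : ℝ) / N ≤ 1 := by
        rw [div_le_one hN0]
        exact_mod_cast (by omega : k ≤ N)
      have hk2 : ((k + 1 : ℕ) : ℝ) / N ≤ 1 := by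
        rw [div_le_one hN0]
        exact_mod_cast hk
      have hk3 : (0 : ℝ) ≤ ((k + 1 : ℕ) : ℝ) / N := by positivity
      have hseg : segment ℝ (((k : ℝ) / N) • w) ((((k + 1 : ℕ) : ℝ) / N) • w) ⊆ Star S.D x := by
        rintro z ⟨a, b, ha, hb, hab, rfl⟩
        rw [smul_smul, smul_smul, ← add_smul]
        apply smul_mem_Star S.hD hw
        constructor
        · positivity
        · calc a * ((k : ℝ) / N) + b * (((k + 1 : ℕ) : ℝ) / N) ≤ a * 1 + b * 1 := by gcongr
            _ = 1 := by linarith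
      obtain ⟨_, hext⟩ := ext_add_of_segment S.hD hseg
      have hdiff : (((k + 1 : ℕ) : ℝ) / N) • w - ((k : ℝ) / N) • w = ((1 : ℝ) / N) • w := by
        rw [← sub_smul]
        congr 1
        push_cast
        ring
      rw [hdiff] at hext
      rw [← hext]
      set xk := ext S.D x (((k : ℝ) / N) • w) with hxk
      have hmk : m ≤ S.ρ xk := hmle _ ⟨hk0, hk1⟩
      have hw2 : (((1 : ℝ) / N) • w) 2 = ((1 / N : ℝ) : ℂ) * w 2 := by
        rw [Pi.smul_apply, Complex.real_smul]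
      have hnorm : ‖(((1 : ℝ) / N) • w) 2‖ < S.ρ xk := by
        rw [Pi.smul_apply, norm_smul, Real.norm_of_nonneg (by positivity)]
        have h1 : ‖w 2‖ < N * m := by
          rw [div_lt_iff₀ hm0] at hN1
          exact hN1
        have h2 : 1 / (N : ℝ) * ‖w 2‖ < m := by
          rw [one_div, inv_mul_lt_iff₀ hN0]
          exact h1
        exact h2.trans_le hmk
      have h3 := S.step_le hβ1 hβ hnorm
      have him : (star β * (((1 : ℝ) / N) • w) 2).im = e / N := by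
        rw [hw2, mul_left_comm, Complex.im_ofReal_mul, he]
        ring
      have hre : (star β * (((1 : ℝ) / N) • w) 2).re = d / N := by
        rw [hw2, mul_left_comm, Complex.re_ofReal_mul, hd]
        ring
      rw [him, hre] at h3
      have h4 : |e / (N : ℝ)| = |e| / N := by rw [abs_div, abs_of_pos hN0]
      rw [h4] at h3
      have h5 := g7_sqrt (A := S.ρ xk + |e| / N) (B := d / N) hm0 (by
        have : 0 ≤ |e| / (N : ℝ) := by positivity
        linarith)
      push_cast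
      linarith
  have hfin := hstep N le_rfl
  rw [div_self hN0.ne', one_smul] at hfin
  have h6 : (N : ℝ) * (|e| / N + (d / N) ^ 2 / (2 * m)) = |e| + d ^ 2 / (2 * m) / N := by
    field_simp
  rw [h6] at hfin
  have h7 : d ^ 2 / (2 * m) / N ≤ ε := by
    rw [div_lt_iff₀ hε] at hN2
    rw [div_le_iff₀ hN0]
    linarith
  linarith

/-- **Vertical Lipschitz estimate** for all `w ∈ Star x` (not only in the tube).

Proof. Upper bound `ρ (ext x w) ≤ ρ x + |e|`, `d + i e = conj β * w 2`. The function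
`t ↦ ρ (ext x (t • w))` is continuous and positive on `[0,1]`: let `m > 0` be its minimum. For
`N` large, `|w 2| / N < m`. Let `x_k = ext x ((k/N) • w)`; `x_{k+1} = ext x_k ((1/N) • w)`
(`ext_add_of_segment`). `step_le`:
`ρ x_{k+1} ≤ √((ρ x_k + |e|/N)² + (d/N)²) ≤ ρ x_k + |e|/N + (d/N)²/(2 m)`
(`√(A² + B²) ≤ A + B²/(2A)`, `A ≥ m`). Summing up `ρ (ext x w) ≤ ρ x + |e| + d²/(2 m N)`, and
`N → ∞`. Lower bound: apply the upper bound to the reversed segment (`ext_neg`:
`x = ext (ext x w) (-w)`). -/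
theorem abs_ρ_sub_le {β : ℂ} (hβ1 : ‖β‖ = 1)
    (hβ : ∀ (x : E) (p : V), p ∉ Star S.D x → ‖p 2‖ = S.ρ x → (star β * p 2).re = 0)
    {x : E} {w : V} (hw : w ∈ Star S.D x) :
    |S.ρ (ext S.D x w) - S.ρ x| ≤ |(star β * w 2).im| := by
  have h1 := S.g7_upper hβ1 hβ hw
  obtain ⟨h2, h3⟩ := ext_neg S.hD hw
  have h4 := S.g7_upper hβ1 hβ h2
  rw [h3] at h4
  have h5 : (star β * (-w) 2).im = -(star β * w 2).im := by
    rw [Pi.neg_apply, mul_neg, Complex.neg_im]
  rw [h5, abs_neg] at h4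
  rw [abs_le]
  constructor <;> linarith

/-- **Strips are in the star domain.**

Proof. `mem_star_of_uniform` with `C = {v | |v 2| < δ}`, `δ = ρ x - |(conj β * w 2).im| > 0`: for
`t ∈ [0,1)` with `t • w ∈ Star x`, `ρ (ext x (t • w)) ≥ ρ x - t |…| ≥ δ` by `abs_ρ_sub_le`, so
`C` is in its tube. -/
theorem mem_star_of_strip {β : ℂ} (hβ1 : ‖β‖ = 1)
    (hβ : ∀ (x : E) (p : V), p ∉ Star S.D x → ‖p 2‖ = S.ρ x → (star β * p 2).re = 0)
    {x : E} {w : V} (hw : |(star β * w 2).im| < S.ρ x) : w ∈ Star S.D x := by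
  set δ := S.ρ x - |(star β * w 2).im| with hδ
  have hδ0 : 0 < δ := by linarith
  have hC : {v : V | ‖v 2‖ < δ} ∈ 𝓝 (0 : V) := by
    apply IsOpen.mem_nhds
    · exact isOpen_lt (continuous_norm.comp (continuous_apply 2)) continuous_const
    · simpa using hδ0
  refine mem_star_of_uniform S.hD hC fun t ht htw v hv => ?_
  apply S.tube
  have h1 := S.abs_ρ_sub_le hβ1 hβ htw
  have h2 : (star β * (t • w) 2).im = t * (star β * w 2).im := by
    have h3 : (t • w) 2 = (t : ℂ) * w 2 := by rw [Pi.smul_apply, Complex.real_smul]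
    rw [h3, mul_left_comm, Complex.im_ofReal_mul]
  rw [h2, abs_mul, abs_of_nonneg ht.1] at h1
  have h4 : t * |(star β * w 2).im| ≤ |(star β * w 2).im| := by
    have := abs_nonneg (star β * w 2).im
    nlinarith [ht.2]
  have h5 := (abs_le.1 h1).1
  have h6 : ‖v 2‖ < δ := hv
  linarith

end Aff

end HRF
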