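import Pool.Agent.HRF.G7

/-!
# HRF-G8a : the developing map is injective onto a slab
-/

namespace HRF

open Set Filter Topology Matrix

namespace Aff

variable {Γ E : Type*} [Group Γ] [TopologicalSpace E] [MulAction Γ E] [T2Space E] (S : Aff Γ E)

/-- The vertical vector of height `t`: `(0, 0, i β t)`; `conj β * (i β t) = i t`. -/
def vert (β : ℂ) (t : ℝ) : V := ![0, 0, Complex.I * β * t]

theorem g8a_vert_smul (β : ℂ) (s t : ℝ) : s • vert β t = vert β (s * t) := by
  ext i
  fin_cases i
  · simp [vert]
  · simp [vert]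
  · simp only [vert, Pi.smul_apply, Complex.real_smul]
    simp only [Fin.reduceFinMk, Matrix.cons_val]
    push_cast
    ring

theorem g8a_vert_im {β : ℂ} (hβ1 : ‖β‖ = 1) (t : ℝ) : (star β * vert β t 2).im = t := by
  have h1 : star β * β = 1 := by
    have h2 := Complex.normSq_eq_conj_mul_self (z := β)
    rw [Complex.normSq_eq_norm_sq, hβ1] at h2
    rw [Complex.star_def, ← h2]
    norm_num
  have h3 : vert β t 2 = Complex.I * β * t := rfl
  rw [h3]
  have h4 : star β * (Complex.I * β * t) = (star β * β) * (Complex.I * t) := by ring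
  rw [h4, h1, one_mul, mul_comm, Complex.im_ofReal_mul, Complex.I_im, mul_one]

theorem g8a_vert_cont (β : ℂ) : Continuous (vert β) := by
  have h1 : vert β = fun t : ℝ => t • vert β 1 := by
    funext t
    rw [g8a_vert_smul, mul_one]
  rw [h1]
  exact continuous_id.smul continuous_const

theorem g8a_vert_zero (β : ℂ) : vert β 0 = 0 := by
  have := g8a_vert_smul β 0 1
  rw [zero_smul, zero_mul] at this
  exact this.symm

/-- height -/
noncomputable def g8aH (β : ℂ) : V →ₗ[ℝ] ℝ where
  toFun z := (star β * z 2).im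
  map_add' z w := by
    rw [Pi.add_apply, mul_add, Complex.add_im]
  map_smul' r z := by
    rw [Pi.smul_apply, Complex.real_smul, mul_left_comm, Complex.im_ofReal_mul, RingHom.id_apply,
      smul_eq_mul]

theorem g8aH_apply (β : ℂ) (z : V) : g8aH β z = (star β * z 2).im := rfl

theorem g8aH_cont (β : ℂ) : Continuous (g8aH β) := by
  have h1 : Continuous fun z : V => (star β * z 2).im :=
    Complex.continuous_im.comp (continuous_const.mul (continuous_apply 2))
  exact h1

theorem g8a_ord (β : ℂ) (x : E) : {t | vert β t ∈ Star S.D x}.OrdConnected := by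
  have hsc : ∀ t ∈ {t | vert β t ∈ Star S.D x}, ∀ s ∈ Icc (0 : ℝ) 1,
      s * t ∈ {t | vert β t ∈ Star S.D x} := by
    intro t ht s hs
    have := smul_mem_Star S.hD ht hs
    rw [g8a_vert_smul] at this
    exact this
  refine ⟨fun a ha b hb c hc => ?_⟩
  rcases lt_trichotomy c 0 with h | h | h
  · have ha0 : a < 0 := lt_of_le_of_lt hc.1 h
    have := hsc a ha (c / a) ⟨div_nonneg_of_nonpos h.le ha0.le, by
      rw [div_le_one_of_neg ha0]
      exact hc.1⟩
    rwa [div_mul_cancel₀ c ha0.ne] at this
  · rw [h, mem_ofPred_eq, g8a_vert_zero]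
    exact zero_mem_Star
  · have hb0 : 0 < b := lt_of_lt_of_le h hc.2
    have := hsc b hb (c / b) ⟨div_nonneg h.le hb0.le, by
      rw [div_le_one hb0]
      exact hc.2⟩
    rwa [div_mul_cancel₀ c hb0.ne'] at this

/-- **Slabs are in the star domain**: if the vertical vector with the same height as `z` is in
`Star x`, so is `z`; and `ext x z = ext (ext x (vert β t)) (z - vert β t)` with
`t = (conj β * z 2).im`.

Proof. `I = {t | vert β t ∈ Star x}` is an open set containing `0`, and star shaped about `0`
(`smul_mem_Star`: `s • vert β t = vert β (s t)`), hence an interval (order connected). Let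
`C = {z | (conj β * z 2).im ∈ I}`, a convex set containing `0` and `z`. Define
`σ z = ext (ext x (vert β t)) (z - vert β t)`, `t = (conj β * z 2).im`. The vector
`z - vert β t` has height `0`, so it is in the star domain of `ext x (vert β t)` by
`mem_star_of_strip`. `σ` is continuous on `C`: composition of
`z ↦ (ext x (vert β t), z - vert β t)` (continuous by `continuousOn_ext_right`) with
`continuousOn_ext`. `D (σ z) = D x + z` (`D_ext`), `σ 0 = x`. Conclude by `ext_of_section`
(the segment `[0,z]` is in the convex set `C`). -/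
theorem slab_section {β : ℂ} (hβ1 : ‖β‖ = 1)
    (hβ : ∀ (x : E) (p : V), p ∉ Star S.D x → ‖p 2‖ = S.ρ x → (star β * p 2).re = 0)
    {x : E} {z : V} (hz : vert β (star β * z 2).im ∈ Star S.D x) :
    z ∈ Star S.D x ∧ ext S.D x z =
      ext S.D (ext S.D x (vert β (star β * z 2).im)) (z - vert β (star β * z 2).im) := by
  set I₀ : Set ℝ := {t | vert β t ∈ Star S.D x} with hI₀
  have h0I : (0 : ℝ) ∈ I₀ := by
    rw [hI₀, mem_ofPred_eq, g8a_vert_zero]
    exact zero_mem_Star
  set C : Set V := {z | g8aH β z ∈ I₀} with hC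
  have hCc : Convex ℝ C := ((S.g8a_ord β x).convex).linear_preimage (g8aH β)
  have hzC : z ∈ C := hz
  have h0C : (0 : V) ∈ C := by
    rw [hC, mem_ofPred_eq, map_zero]
    exact h0I
  set σ : V → E := fun z => ext S.D (ext S.D x (vert β (g8aH β z))) (z - vert β (g8aH β z)) with hσ
  have hhor : ∀ (y : E) (z : V), z - vert β (g8aH β z) ∈ Star S.D y := by
    intro y z
    apply S.mem_star_of_strip hβ1 hβ
    rw [Pi.sub_apply, mul_sub, Complex.sub_im, g8a_vert_im hβ1, g8aH_apply, sub_self, abs_zero]
    exact S.ρ_pos y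
  have hvc : Continuous fun z : V => vert β (g8aH β z) := (g8a_vert_cont β).comp (g8aH_cont β)
  have hσc : ContinuousOn σ C := by
    have h1 : ContinuousOn (fun z : V => (ext S.D x (vert β (g8aH β z)), z - vert β (g8aH β z))) C :=
      ((continuousOn_ext_right S.hD x).comp hvc.continuousOn (fun z hz => hz)).prodMk
        (continuous_id.sub hvc).continuousOn
    exact (continuousOn_ext S.hD).comp h1 (fun z _ => hhor _ z)
  have hσD : ∀ z ∈ C, S.D (σ z) = S.D x + z := by
    intro z hz
    simp only [hσ]
    rw [D_ext (hhor _ z), D_ext (show vert β (g8aH β z) ∈ Star S.D x from hz)]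
    abel
  have hseg : segment ℝ 0 z ⊆ C := hCc.segment_subset h0C hzC
  have hσ0 : σ 0 = x := by
    simp only [hσ]
    rw [map_zero, g8a_vert_zero, sub_zero, ext_zero S.hD, ext_zero S.hD]
  exact ext_of_section S.hD hσc hσD hseg hσ0

/-- sign form of the vertical extension -/
theorem g8a_aux {β : ℂ} (hβ1 : ‖β‖ = 1)
    (hβ : ∀ (x : E) (p : V), p ∉ Star S.D x → ‖p 2‖ = S.ρ x → (star β * p 2).re = 0)
    {x : E} {s a b : ℝ} (hs : |s| = 1) (ha : 0 ≤ a) (ht : vert β (a * s) ∈ Star S.D x)
    (he : |b| < S.ρ (ext S.D x (vert β (a * s)))) : vert β ((a + b) * s) ∈ Star S.D x := by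
  rcases le_total 0 b with hb | hb
  · have h1 := concat S.hD (x := x) (w := vert β s) ha hb (by
      rw [g8a_vert_smul]
      exact ht) (by
      rw [g8a_vert_smul, g8a_vert_smul]
      apply S.mem_star_of_strip hβ1 hβ
      rw [g8a_vert_im hβ1, abs_mul, hs, mul_one]
      exact he)
    have h2 := h1.1
    rw [g8a_vert_smul] at h2
    exact h2
  · rcases le_or_gt 0 (a + b) with hab | hab
    · rcases ha.eq_or_lt with h0 | h0
      · have hb0 : b = 0 := by linarith
        rw [hb0, add_zero]
        exact ht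
      · have h1 := smul_mem_Star S.hD ht (t := (a + b) / a) ⟨by positivity, by
          rw [div_le_one h0]
          linarith⟩
        rw [g8a_vert_smul] at h1
        have h2 : (a + b) / a * (a * s) = (a + b) * s := by
          field_simp
        rwa [h2] at h1
    · apply S.mem_star_of_strip hβ1 hβ
      rw [g8a_vert_im hβ1, abs_mul, hs, mul_one, abs_of_neg hab]
      have h1 := S.abs_ρ_sub_le hβ1 hβ ht
      rw [g8a_vert_im hβ1, abs_mul, hs, mul_one, abs_of_nonneg ha] at h1
      rw [abs_of_nonpos hb] at he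
      have h2 := (abs_le.1 h1).2
      linarith

/-- **Vertical extension.** If `vert β t ∈ Star x` and `|e| < ρ (ext x (vert β t))`, then
`vert β (t + e) ∈ Star x`.

Proof. Let `x_v = ext x (vert β t)`. Suppose `t ≥ 0` (the case `t ≤ 0` is symmetric).
* `e ≥ 0`: `concat` with `w = vert β 1`, `a = t`, `b = e`: `vert β e ∈ Star x_v` by
  `mem_star_of_strip` (height `e`, `|e| < ρ x_v`).
* `e < 0`, `t + e ≥ 0`: `t > 0` and `vert β (t + e) = ((t+e)/t) • vert β t`, `smul_mem_Star`.
* `e < 0`, `t + e < 0`: `|t + e| = |e| - t < ρ x_v - t ≤ ρ x` (`abs_ρ_sub_le` at `x` with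
  `w = vert β t`), so `vert β (t + e) ∈ Star x` by `mem_star_of_strip`. -/
theorem vert_extend {β : ℂ} (hβ1 : ‖β‖ = 1)
    (hβ : ∀ (x : E) (p : V), p ∉ Star S.D x → ‖p 2‖ = S.ρ x → (star β * p 2).re = 0)
    {x : E} {t e : ℝ} (ht : vert β t ∈ Star S.D x)
    (he : |e| < S.ρ (ext S.D x (vert β t))) : vert β (t + e) ∈ Star S.D x := by
  rcases le_total 0 t with h | h
  · have h1 := S.g8a_aux hβ1 hβ (x := x) (s := 1) (a := t) (b := e) abs_one h (by
      rw [mul_one]
      exact ht) (by
      rw [mul_one]
      exact he)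
    rwa [mul_one] at h1
  · have e1 : -t * -1 = t := by ring
    have h1 := S.g8a_aux hβ1 hβ (x := x) (s := -1) (a := -t) (b := -e) (by
      rw [abs_neg, abs_one]) (by linarith) (by
      rw [e1]
      exact ht) (by
      rw [e1, abs_neg]
      exact he)
    have h2 : (-t + -e) * -1 = t + e := by ring
    rwa [h2] at h1

end Aff

end HRF
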