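import Pool.Agent.HRF.HDefs

/-!
# HRF-H1a : rigidity of local isometries
-/

namespace HRF

open Set Filter Topology Matrix

/-- **Rigidity.** A holomorphic local isometry of flat `ℂ³` on a connected open set is the
restriction of a flat isometry.

Proof. Let `F z = fderiv ℂ f z`; `f` is analytic, so `F` is differentiable and the second derivative
`F' z k v = (fderiv ℂ F z k) v` is symmetric in `k, v` (`ContDiffAt.isSymmSndFDerivAt` or
`second_derivative_symmetric`). Differentiate `F z v ⬝ᵥ F z w = v ⬝ᵥ w` in the direction `k`: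
`(F' k v) ⬝ᵥ (F w) + (F v) ⬝ᵥ (F' k w) = 0`. With `c(k,v,w) = (F' k v) ⬝ᵥ (F w)`:
`c(k,v,w) = c(v,k,w)` and `c(k,v,w) = -c(k,w,v)`; hence
`c(k,v,w) = c(v,k,w) = -c(v,w,k) = -c(w,v,k) = c(w,k,v) = c(k,w,v) = -c(k,v,w)`, so `c = 0`.
`F z` is injective (`F v = 0 → v ⬝ᵥ w = 0` for all `w`), so bijective (finite dimension), so
`F' k v ⬝ᵥ y = 0` for all `y` and `F' = 0`. So `F` is constant on the preconnected open set `U`
(`IsOpen.is_const_of_fderiv_eq_zero` / `IsOpen.exists_is_const_of_fderiv_eq_zero`), `F z = A₀`, and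
`f - A₀` has zero derivative, so `f z = A₀ z + b` on `U`. The matrix `A` of `A₀`
(`LinearMap.toMatrix'`) satisfies `Aᵀ A = 1` because `(A v) ⬝ᵥ (A w) = v ⬝ᵥ w`. -/
theorem rigidity {U : Set V} (hU : IsOpen U) (hUc : IsPreconnected U) {z₀ : V} (hz₀ : z₀ ∈ U)
    {f : V → V} (hf : AnalyticOnNhd ℂ f U)
    (hiso : ∀ z ∈ U, ∀ v w : V, (fderiv ℂ f z v) ⬝ᵥ (fderiv ℂ f z w) = v ⬝ᵥ w) :
    ∃ g ∈ FI, ∀ z ∈ U, f z = g z := by
  classical
  set F : V → V →L[ℂ] V := fderiv ℂ f with hF
  have hFan : AnalyticOnNhd ℂ F U := hf.fderiv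
  have hFd : ∀ z ∈ U, DifferentiableAt ℂ F z := fun z hz => (hFan z hz).differentiableAt
  have hsymm : ∀ z ∈ U, ∀ k v : V, fderiv ℂ F z k v = fderiv ℂ F z v k := by
    intro z hz k v
    have h1 : IsSymmSndFDerivAt ℂ f z :=
      ((hf z hz).contDiffAt (n := 2)).isSymmSndFDerivAt (by simp)
    exact h1 k v
  -- differentiate the isometry relation
  have hdiff : ∀ z ∈ U, ∀ k v w : V,
      (fderiv ℂ F z k v) ⬝ᵥ (F z w) + (F z v) ⬝ᵥ (fderiv ℂ F z k w) = 0 := by
    intro z hz k v w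
    have hFz : HasFDerivAt F (fderiv ℂ F z) z := (hFd z hz).hasFDerivAt
    have happ : ∀ (a : V) (i : Fin 3), HasFDerivAt (fun y : V => F y a i)
        ((ContinuousLinearMap.proj i).comp
          ((ContinuousLinearMap.apply ℂ V a).comp (fderiv ℂ F z))) z := by
      intro a i
      exact (ContinuousLinearMap.proj (R := ℂ) (φ := fun _ : Fin 3 => ℂ) i).hasFDerivAt.comp z
        (((ContinuousLinearMap.apply ℂ V a).hasFDerivAt).comp z hFz)
    have hsum : HasFDerivAt (fun y : V => ∑ i, F y v i * F y w i)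
        (∑ i, (F z v i • ((ContinuousLinearMap.proj i).comp
          ((ContinuousLinearMap.apply ℂ V w).comp (fderiv ℂ F z))) +
          F z w i • ((ContinuousLinearMap.proj i).comp
          ((ContinuousLinearMap.apply ℂ V v).comp (fderiv ℂ F z))))) z :=
      HasFDerivAt.fun_sum fun i _ => (happ v i).mul (happ w i)
    have hconst : HasFDerivAt (fun y : V => ∑ i, F y v i * F y w i) (0 : V →L[ℂ] ℂ) z := by
      have h1 : HasFDerivAt (fun _ : V => v ⬝ᵥ w) (0 : V →L[ℂ] ℂ) z := hasFDerivAt_const _ _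
      refine h1.congr_of_eventuallyEq ?_
      filter_upwards [hU.mem_nhds hz] with y hy
      exact hiso y hy v w
    have h2 := hsum.unique hconst
    have h3 := congrArg (fun L : V →L[ℂ] ℂ => L k) h2
    simp only [_root_.sum_apply, _root_.add_apply,
      _root_.smul_apply, ContinuousLinearMap.comp_apply,
      ContinuousLinearMap.proj_apply, ContinuousLinearMap.apply_apply, smul_eq_mul,
      _root_.zero_apply] at h3
    rw [Finset.sum_add_distrib] at h3
    rw [dotProduct_comm (fderiv ℂ F z k v), add_comm]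
    exact h3
  have hzero : ∀ z ∈ U, fderiv ℂ F z = 0 := by
    intro z hz
    have hanti : ∀ k v w : V, (fderiv ℂ F z k v) ⬝ᵥ (F z w) = -((fderiv ℂ F z k w) ⬝ᵥ (F z v)) := by
      intro k v w
      have h1 := hdiff z hz k v w
      rw [dotProduct_comm (F z v)] at h1
      exact eq_neg_of_add_eq_zero_left h1
    have hc : ∀ k v w : V, (fderiv ℂ F z k v) ⬝ᵥ (F z w) = 0 := by
      intro k v w
      have h1 : (fderiv ℂ F z k v) ⬝ᵥ (F z w) = -((fderiv ℂ F z k v) ⬝ᵥ (F z w)) := by
        calc (fderiv ℂ F z k v) ⬝ᵥ (F z w) = (fderiv ℂ F z v k) ⬝ᵥ (F z w) := by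
              rw [hsymm z hz k v]
          _ = -((fderiv ℂ F z v w) ⬝ᵥ (F z k)) := hanti v k w
          _ = -((fderiv ℂ F z w v) ⬝ᵥ (F z k)) := by rw [hsymm z hz v w]
          _ = (fderiv ℂ F z w k) ⬝ᵥ (F z v) := by rw [hanti w v k, neg_neg]
          _ = (fderiv ℂ F z k w) ⬝ᵥ (F z v) := by rw [hsymm z hz w k]
          _ = -((fderiv ℂ F z k v) ⬝ᵥ (F z w)) := hanti k w v
      exact self_eq_neg.1 h1
    have hinj : Function.Injective (F z : V →ₗ[ℂ] V) := by
      rw [← LinearMap.ker_eq_bot, LinearMap.ker_eq_bot']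
      intro v hv
      apply dotProduct_eq_zero
      intro w
      rw [← hiso z hz v w]
      have h1 : F z v = 0 := hv
      change F z v ⬝ᵥ F z w = 0
      rw [h1, zero_dotProduct]
    have hsurj : Function.Surjective (F z : V →ₗ[ℂ] V) :=
      LinearMap.injective_iff_surjective.1 hinj
    ext k v : 2
    apply dotProduct_eq_zero
    intro y
    obtain ⟨w, hw⟩ := hsurj y
    rw [← hw]
    exact hc k v w
  have hFc : ∀ z ∈ U, F z = F z₀ := fun z hz =>
    hU.is_const_of_fderiv_eq_zero hUc (fun y hy => (hFd y hy).differentiableWithinAt)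
      (fun y hy => hzero y hy) hz hz₀
  have hfd : ∀ z ∈ U, DifferentiableAt ℂ f z := fun z hz => (hf z hz).differentiableAt
  set b : V := f z₀ - F z₀ z₀ with hb
  have hfz : ∀ z ∈ U, f z = F z₀ z + b := by
    intro z hz
    have h1 := hU.is_const_of_fderiv_eq_zero (f := fun y => f y - F z₀ y) hUc
      (fun y hy => ((hfd y hy).sub (F z₀).differentiableAt).differentiableWithinAt)
      (fun y hy => by
        have h2 : fderiv ℂ (fun y => f y - F z₀ y) y = 0 := by
          rw [fderiv_fun_sub (hfd y hy) (F z₀).differentiableAt, ContinuousLinearMap.fderiv]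
          rw [← hF, hFc y hy, sub_self]
        exact h2) hz hz₀
    rw [hb, ← h1]
    abel
  set A : Mat := LinearMap.toMatrix' (F z₀ : V →ₗ[ℂ] V) with hA
  have hAF : ∀ v, A *ᵥ v = F z₀ v := by
    intro v
    rw [hA, LinearMap.toMatrix'_mulVec]
    rfl
  have hAA : Aᵀ * A = 1 := by
    ext i j
    have h1 := hiso z₀ hz₀ (Pi.single i 1) (Pi.single j 1)
    have h2 : (A *ᵥ Pi.single i 1) ⬝ᵥ (A *ᵥ Pi.single j 1) =
        (Pi.single i 1 : V) ⬝ᵥ Pi.single j 1 := by
      rw [hAF, hAF]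
      exact h1
    rw [mulVec_single_one, mulVec_single_one] at h2
    rw [mul_apply, one_apply]
    have h3 : (Pi.single i 1 : V) ⬝ᵥ Pi.single j 1 = if i = j then 1 else 0 := by
      rw [single_one_dotProduct, Pi.single_apply]
    rw [h3] at h2
    rw [← h2]
    rfl
  have hAA' : A * Aᵀ = 1 := mul_eq_one_comm.mp hAA
  refine ⟨⟨fun z => A *ᵥ z + b, fun z => Aᵀ *ᵥ (z - b), fun z => ?_, fun z => ?_⟩,
    ⟨A, b, hAA, fun z => rfl⟩, fun z hz => ?_⟩
  · simp only [add_sub_cancel_right]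
    rw [mulVec_mulVec, hAA, one_mulVec]
  · simp only
    rw [mulVec_mulVec, hAA', one_mulVec, sub_add_cancel]
  · change f z = A *ᵥ z + b
    rw [hAF, hfz z hz]

end HRF
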