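import Pool.Agent.HRF.H1a

/-!
# HRF-H1b : rigidity of local isometries
-/

namespace HRF

open Set Filter Topology Matrix

/-- Two affine maps agreeing near a point are equal.

Proof. `A z + b = A' z + b'` for `z` near `z₀`; so `(A - A') v = 0` for small `v`, hence for all
`v`; then `b = b'`. -/
theorem FI_eq_of_eventually {g g' : Equiv.Perm V} (hg : g ∈ FI) (hg' : g' ∈ FI) {z₀ : V}
    (h : ∀ᶠ z in 𝓝 z₀, g z = g' z) : g = g' := by
  obtain ⟨A, b, -, hA⟩ := hg
  obtain ⟨A', b', -, hA'⟩ := hg'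
  have h0 : A *ᵥ z₀ + b = A' *ᵥ z₀ + b' := by
    rw [← hA, ← hA']
    exact h.self_of_nhds
  have h1 : ∀ v : V, A *ᵥ v = A' *ᵥ v := by
    intro v
    have ht : Tendsto (fun t : ℂ => z₀ + t • v) (𝓝 0) (𝓝 z₀) :=
      (continuous_const.add (continuous_id.smul continuous_const)).tendsto' 0 z₀ (by simp)
    have h2 : ∀ᶠ t in 𝓝[≠] (0 : ℂ), g (z₀ + t • v) = g' (z₀ + t • v) :=
      (ht.eventually h).filter_mono nhdsWithin_le_nhds
    obtain ⟨t, ht1, ht0⟩ := (h2.and self_mem_nhdsWithin).exists
    rw [hA, hA', mulVec_add, mulVec_add, mulVec_smul, mulVec_smul] at ht1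
    have h3 : t • (A *ᵥ v) = t • (A' *ᵥ v) := by
      have h4 : (A *ᵥ z₀ + b) + t • (A *ᵥ v) = (A *ᵥ z₀ + b) + t • (A' *ᵥ v) := by
        calc (A *ᵥ z₀ + b) + t • (A *ᵥ v) = A *ᵥ z₀ + t • (A *ᵥ v) + b := by abel
          _ = A' *ᵥ z₀ + t • (A' *ᵥ v) + b' := ht1
          _ = (A' *ᵥ z₀ + b') + t • (A' *ᵥ v) := by abel
          _ = (A *ᵥ z₀ + b) + t • (A' *ᵥ v) := by rw [h0]
      exact add_left_cancel h4
    exact smul_right_injective V ht0 h3
  have hb : b = b' := by
    rw [h1 z₀] at h0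
    exact add_left_cancel h0
  apply Equiv.ext
  intro z
  rw [hA, hA', h1, hb]

/-- Elements of `FI` are homeomorphisms. -/
theorem continuous_FI {g : Equiv.Perm V} (hg : g ∈ FI) : Continuous g := by
  obtain ⟨A, b, -, hA⟩ := hg
  have h1 : (g : V → V) = fun z => A *ᵥ z + b := funext hA
  rw [h1]
  exact (continuous_const.matrix_mulVec continuous_id).add continuous_const

/-- **Transition elements.** Proof. Let `f = e.symm.trans e'` (as a function `e' ∘ e.symm`), analytic
and isometric on its open source, which contains `e m`. On a ball around `e m` inside the source,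
`rigidity` gives `g ∈ FI` with `e' (e.symm z) = g z`; for `m'` near `m`, `e m'` is in the ball and
`e' m' = e' (e.symm (e m')) = g (e m')`. Uniqueness: if `g, g'` both work then `g z = g' z` for `z`
near `e m` (`z = e m'` with `m' = e.symm z` near `m`), so `g = g'`. -/
theorem exists_unique_transition {M : Type*} [TopologicalSpace M] [ChartedSpace V M]
    (hM : FlatAtlas M) {e e' : OpenPartialHomeomorph M V} (he : e ∈ atlas V M)
    (he' : e' ∈ atlas V M) {m : M} (hm : m ∈ e.source) (hm' : m ∈ e'.source) :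
    ∃! g : Equiv.Perm V, g ∈ FI ∧ ∀ᶠ m' in 𝓝 m, e' m' = g (e m') := by
  obtain ⟨han, hiso⟩ := hM e he e' he'
  have hsrc : e m ∈ (e.symm.trans e').source := by
    rw [OpenPartialHomeomorph.trans_source]
    refine ⟨e.map_source hm, ?_⟩
    show e.symm (e m) ∈ e'.source
    rw [e.left_inv hm]
    exact hm'
  obtain ⟨r, hr, hball⟩ := Metric.isOpen_iff.1 (e.symm.trans e').open_source _ hsrc
  obtain ⟨g, hg, hgf⟩ := rigidity Metric.isOpen_ball (convex_ball (e m) r).isPreconnected
    (Metric.mem_ball_self hr) (han.mono hball) (fun z hz => hiso z (hball hz))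
  have hcont : ContinuousAt e m := e.continuousAt hm
  refine ⟨g, ⟨hg, ?_⟩, ?_⟩
  · filter_upwards [hcont.eventually (Metric.ball_mem_nhds (e m) hr),
      e.open_source.mem_nhds hm] with m' h1 h2
    have h3 := hgf (e m') h1
    rw [← h3]
    show e' m' = e' (e.symm (e m'))
    rw [e.left_inv h2]
  · rintro g' ⟨hg', hgm⟩
    have hsymm : Tendsto e.symm (𝓝 (e m)) (𝓝 m) := by
      have h1 := e.symm.continuousAt (x := e m) (e.map_source hm)
      rw [ContinuousAt, e.left_inv hm] at h1
      exact h1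
    refine FI_eq_of_eventually hg' hg (z₀ := e m) ?_
    filter_upwards [hsymm.eventually hgm, Metric.ball_mem_nhds (e m) hr,
      e.open_target.mem_nhds (e.map_source hm)] with z h1 h2 h3
    rw [e.right_inv h3] at h1
    rw [← h1, ← hgf z h2]
    rfl

end HRF
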