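import Pool.Agent.HRF.H1b

/-!
# HRF-H2 : the space of germs of isometric charts
-/

namespace HRF

open Set Filter Topology Matrix

universe u

/-- The space `E` of germs of isometric charts `M ⇢ ℂ³`, with its projection `p` to `M`, its
evaluation map `D`, and the action of the group `FI` by post-composition. -/
structure GermSpace (M : Type u) [TopologicalSpace M] [ChartedSpace V M] where
  E : Type u
  [top : TopologicalSpace E]
  [t2 : T2Space E]
  [act : MulAction FI E]
  p : E → M
  D : E → V
  hp : IsLocalHomeomorph p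
  hD : IsLocalHomeomorph D
  cont : ∀ g : FI, Continuous fun x : E => g • x
  p_smul : ∀ (g : FI) (x : E), p (g • x) = p x
  D_smul : ∀ (g : FI) (x : E), D (g • x) = (g : Equiv.Perm V) (D x)
  free : ∀ (g : FI) (x : E), g • x = x → g = 1
  trans : ∀ x y : E, p x = p y → ∃ g : FI, g • x = y
  /-- sections over the domains of the charts -/
  sec : ∀ e ∈ atlas V M, ∀ m ∈ e.source, ∃ s : M → E, ContinuousOn s e.source ∧
    (∀ m' ∈ e.source, p (s m') = m') ∧ ∀ m' ∈ e.source, D (s m') = e m'

/-- the group `FI` with the discrete topology -/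
def h2_F : Type := FI

instance h2_group : Group h2_F := inferInstanceAs (Group FI)

instance h2_top : TopologicalSpace h2_F := ⊥

instance h2_disc : DiscreteTopology h2_F := ⟨rfl⟩

section core

variable {M : Type u} [TopologicalSpace M] [ChartedSpace V M] (hM : FlatAtlas M)

open Classical in
/-- the transition element: `i = τ ∘ j` near `m` -/
noncomputable def h2_tau (i j : atlas V M) (m : M) : h2_F :=
  if h : m ∈ i.1.source ∧ m ∈ j.1.source then
    (⟨Classical.choose (exists_unique_transition hM j.2 i.2 h.2 h.1).exists,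
      (Classical.choose_spec (exists_unique_transition hM j.2 i.2 h.2 h.1).exists).1⟩ : FI)
  else 1

/-- the underlying permutation -/
def h2_perm (g : h2_F) : Equiv.Perm V := (show FI from g : FI).1

theorem h2_perm_mul (g g' : h2_F) (z : V) : h2_perm (g * g') z = h2_perm g (h2_perm g' z) := rfl

theorem h2_perm_one (z : V) : h2_perm 1 z = z := rfl

theorem h2_perm_mem (g : h2_F) : h2_perm g ∈ FI := (show FI from g : FI).2

theorem h2_ext {g g' : h2_F} (h : h2_perm g = h2_perm g') : g = g' := Subtype.ext h

theorem h2_tau_spec {i j : atlas V M} {m : M} (hi : m ∈ i.1.source) (hj : m ∈ j.1.source) :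
    ∀ᶠ m' in 𝓝 m, i.1 m' = h2_perm (h2_tau hM i j m) (j.1 m') := by
  unfold h2_tau
  rw [dif_pos ⟨hi, hj⟩]
  exact (Classical.choose_spec (exists_unique_transition hM j.2 i.2 hj hi).exists).2

theorem h2_tau_unique {i j : atlas V M} {m : M} (hi : m ∈ i.1.source) (hj : m ∈ j.1.source)
    {g : h2_F} (hg : ∀ᶠ m' in 𝓝 m, i.1 m' = h2_perm g (j.1 m')) : h2_tau hM i j m = g := by
  apply h2_ext
  exact (exists_unique_transition hM j.2 i.2 hj hi).unique
    ⟨h2_perm_mem _, h2_tau_spec hM hi hj⟩ ⟨h2_perm_mem _, hg⟩

theorem h2_tau_self {i : atlas V M} {m : M} (hi : m ∈ i.1.source) : h2_tau hM i i m = 1 :=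
  h2_tau_unique hM hi hi (Eventually.of_forall fun _ => rfl)

theorem h2_tau_comp {i j k : atlas V M} {m : M} (hi : m ∈ i.1.source) (hj : m ∈ j.1.source)
    (hk : m ∈ k.1.source) : h2_tau hM i j m * h2_tau hM j k m = h2_tau hM i k m := by
  symm
  apply h2_tau_unique hM hi hk
  filter_upwards [h2_tau_spec hM hi hj, h2_tau_spec hM hj hk] with m' h1 h2
  rw [h2_perm_mul, ← h2, ← h1]

theorem h2_tau_loc {i j : atlas V M} {m : M} (hi : m ∈ i.1.source) (hj : m ∈ j.1.source) :
    ∀ᶠ m' in 𝓝 m, h2_tau hM i j m' = h2_tau hM i j m := by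
  filter_upwards [(h2_tau_spec hM hi hj).eventually_nhds, i.1.open_source.mem_nhds hi,
    j.1.open_source.mem_nhds hj] with m' h1 h2 h3
  exact h2_tau_unique hM h2 h3 h1

/-- the bundle core -/
noncomputable def h2_core : FiberBundleCore (atlas V M) M h2_F where
  baseSet i := i.1.source
  isOpen_baseSet i := i.1.open_source
  indexAt m := ⟨chartAt V m, chart_mem_atlas V m⟩
  mem_baseSet_at m := mem_chart_source V m
  coordChange i j m g := g * h2_tau hM i j m
  coordChange_self i m hm g := by rw [h2_tau_self hM hm, mul_one]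
  continuousOn_coordChange i j := by
    rintro ⟨m, g⟩ ⟨⟨hi, hj⟩, _⟩
    apply ContinuousAt.continuousWithinAt
    have h1 : ∀ᶠ q : M × h2_F in 𝓝 (m, g), q.2 * h2_tau hM i j q.1 = g * h2_tau hM i j m := by
      have h2 : ∀ᶠ q : M × h2_F in 𝓝 (m, g), q.2 = g := by
        have : ∀ᶠ g' in 𝓝 g, g' = g := by
          rw [nhds_discrete]
          exact rfl
        exact (continuous_snd.tendsto (m, g)).eventually this
      have h3 : ∀ᶠ q : M × h2_F in 𝓝 (m, g), h2_tau hM i j q.1 = h2_tau hM i j m :=
        (continuous_fst.tendsto (m, g)).eventually (h2_tau_loc hM hi hj)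
      filter_upwards [h2, h3] with q h4 h5
      rw [h4, h5]
    exact (continuousAt_const (y := g * h2_tau hM i j m)).congr
      (h1.mono fun q hq => hq.symm)
  coordChange_comp i j k m hm g := by
    rw [mul_assoc, h2_tau_comp hM hm.1.1 hm.1.2 hm.2]

/-- the total space -/
abbrev h2_E : Type u := (h2_core hM).TotalSpace

/-- evaluation -/
noncomputable def h2_D (x : h2_E hM) : V := h2_perm (show h2_F from x.2) (chartAt V x.1 x.1)

theorem h2_D_eq (x : h2_E hM) (i : atlas V M) (hi : x.1 ∈ i.1.source) :
    h2_D hM x = h2_perm ((h2_core hM).localTriv i x).2 (i.1 x.1) := by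
  have h1 := (h2_tau_spec hM (i := ⟨chartAt V x.1, chart_mem_atlas V x.1⟩) (j := i)
    (mem_chart_source V x.1) hi).self_of_nhds
  change h2_perm (show h2_F from x.2) (chartAt V x.1 x.1) = h2_perm
    ((show h2_F from x.2) * h2_tau hM ⟨chartAt V x.1, chart_mem_atlas V x.1⟩ i x.1) (i.1 x.1)
  rw [h2_perm_mul, ← h1]

/-- the action -/
def h2_smul (γ : h2_F) (x : h2_E hM) : h2_E hM := ⟨x.1, γ * (show h2_F from x.2)⟩

theorem h2_smul_eq (γ : h2_F) (x : h2_E hM) (i : atlas V M) (hi : x.1 ∈ i.1.source) :
    h2_smul hM γ x = ((h2_core hM).localTriv i).toOpenPartialHomeomorph.symm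
      (x.1, γ * ((h2_core hM).localTriv i x).2) := by
  rw [FiberBundleCore.localTriv_symm_apply]
  have h1 := h2_tau_comp hM (i := ⟨chartAt V x.1, chart_mem_atlas V x.1⟩) (j := i)
    (k := ⟨chartAt V x.1, chart_mem_atlas V x.1⟩) (mem_chart_source V x.1) hi
    (mem_chart_source V x.1)
  rw [h2_tau_self hM (i := ⟨chartAt V x.1, chart_mem_atlas V x.1⟩) (mem_chart_source V x.1)] at h1
  change (⟨x.1, γ * (show h2_F from x.2)⟩ : h2_E hM) = ⟨x.1, (γ * ((show h2_F from x.2) *
    h2_tau hM ⟨chartAt V x.1, chart_mem_atlas V x.1⟩ i x.1)) *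
    h2_tau hM i ⟨chartAt V x.1, chart_mem_atlas V x.1⟩ x.1⟩
  rw [mul_assoc, mul_assoc, h1, mul_one]

theorem h2_smul_cont (γ : h2_F) : Continuous (h2_smul hM γ) := by
  rw [continuous_iff_continuousAt]
  intro x₀
  set i : atlas V M := ⟨chartAt V x₀.1, chart_mem_atlas V x₀.1⟩ with hi
  set T := ((h2_core hM).localTriv i).toOpenPartialHomeomorph with hT
  have hx₀ : x₀ ∈ T.source := mem_chart_source V x₀.1
  have hev : ∀ᶠ x in 𝓝 x₀, x ∈ T.source := T.open_source.mem_nhds hx₀
  have h1 : ContinuousAt (fun x : h2_E hM => T.symm (x.1, γ * (T x).2)) x₀ := by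
    have h2 : ContinuousAt T x₀ := T.continuousAt hx₀
    have h3 : ContinuousAt (fun x : h2_E hM => (x.1, γ * (T x).2)) x₀ := by
      refine ContinuousAt.prodMk ?_ ?_
      · exact (h2_core hM).continuous_proj.continuousAt
      · exact (continuous_of_discreteTopology (f := fun g : h2_F => γ * g)).continuousAt.comp
          (continuous_snd.continuousAt.comp h2)
    have h4 : ContinuousAt T.symm (x₀.1, γ * (T x₀).2) := by
      apply T.symm.continuousAt
      change (x₀.1, γ * (T x₀).2) ∈ ((h2_core hM).localTriv i).target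
      rw [(h2_core hM).mem_localTriv_target]
      exact mem_chart_source V x₀.1
    exact ContinuousAt.comp (f := fun x : h2_E hM => (x.1, γ * (T x).2)) (g := T.symm) h4 h3
  refine h1.congr ?_
  filter_upwards [hev] with x hx
  exact (h2_smul_eq hM γ x i hx).symm

end core

theorem h2_FI_homeo (g : h2_F) : ∃ H : V ≃ₜ V, ∀ z, H z = h2_perm g z :=
  ⟨{ toEquiv := h2_perm g
     continuous_toFun := continuous_FI (h2_perm_mem g)
     continuous_invFun := by
       have : h2_perm g⁻¹ = (h2_perm g)⁻¹ := rfl
       have h1 := continuous_FI (h2_perm_mem g⁻¹)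
       rw [this] at h1
       exact h1 }, fun _ => rfl⟩

/-- **Existence of the germ space.**

Construction. `ι = atlas V M` (as a type), `F = ↥FI` with the discrete topology. For
`i j : ι` and `m` in both sources let `τ i j m ∈ FI` be the element with
`i = τ ∘ j` near `m` (`exists_unique_transition`), and `1` outside. `FiberBundleCore ι M F`:
`baseSet i = i.source`, `indexAt m = chartAt V m`, `coordChange i j m g = g * τ i j m`.
* `coordChange_self`: `τ i i m = 1` by uniqueness.
* `coordChange_comp`: `τ i j m * τ j k m = τ i k m` by uniqueness (`i = τ_ij ∘ j = τ_ij ∘ τ_jk ∘ k`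
  near `m`).
* continuity: `m ↦ τ i j m` is locally constant on the overlap (if `i = g ∘ j` on a neighbourhood of
  `m`, it is so near every point `m'` of an open neighbourhood, so `τ i j m' = g` there), and `F` is
  discrete: `continuousOn` because the map is locally `(m', g') ↦ g' * g`.
`E = Z.TotalSpace` with `p = Z.proj`, `E` is T2: `M` should be Hausdorff (hypothesis `T2Space M`)
and `p` is a covering map (`FiberBundle.isCoveringMap`), so separated
(`IsCoveringMap.isSeparatedMap`). `hp`: `IsCoveringMap.isLocalHomeomorph`.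
`D ⟨m, g⟩ = g (chartAt V m m)`. In the trivialization `i`: if `x = ⟨m, g⟩` and
`g_i = coordChange (indexAt m) i m g = g * τ (chartAt m) i m` is its second coordinate then
`g_i (i m) = g (τ (i m)) = g (chartAt m m) = D x`. So near `x₀`, `D = g_i ∘ i ∘ p` with `g_i`
constant (discrete fibre, trivialization continuous): composition of local homeomorphisms, so `D`
is a local homeomorphism (`IsLocalHomeomorph.mk` or local-on-source arguments).
Action: `γ • ⟨m, g⟩ = ⟨m, γ * g⟩`; it is continuous: in each trivialization it is
`(m, g) ↦ (m, γ * g)` (`coordChange` is right multiplication). `free`, `trans`: left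
multiplication in the group `FI`.
`sec`: for `e ∈ atlas`, `s m' = (Z.localTriv e).symm (m', 1)`, i.e. `⟨m', coordChange e
(indexAt m') m' 1⟩`; continuous on `e.source`, `D (s m') = 1 (e m') = e m'`. -/
theorem exists_germSpace (M : Type u) [TopologicalSpace M] [T2Space M] [ChartedSpace V M]
    (hM : FlatAtlas M) : Nonempty (GermSpace M) := by
  have hcov : IsCoveringMap (h2_core hM).proj :=
    IsFiberBundle.isCoveringMap (F := h2_F) fun m => ⟨(h2_core hM).localTriv
      ⟨chartAt V m, chart_mem_atlas V m⟩, mem_chart_source V m⟩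
  have hT2 : T2Space (h2_E hM) := by
    refine ⟨fun x y hxy => ?_⟩
    by_cases hp : (h2_core hM).proj x = (h2_core hM).proj y
    · obtain ⟨s, t, hs, ht, hxs, hyt, hd⟩ := hcov.isSeparatedMap x y hp hxy
      exact ⟨s, t, hs, ht, hxs, hyt, hd⟩
    · obtain ⟨s, t, hs, ht, hxs, hyt, hd⟩ := t2_separation hp
      exact ⟨_, _, hs.preimage (h2_core hM).continuous_proj,
        ht.preimage (h2_core hM).continuous_proj, hxs, hyt, hd.preimage _⟩
  have hploc : IsLocalHomeomorph (h2_core hM).proj := hcov.isLocalHomeomorph
  have hDloc : IsLocalHomeomorph (h2_D hM) := by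
    apply IsLocalHomeomorph.mk
    intro x₀
    obtain ⟨q, hq, hqe⟩ := hploc x₀
    set i : atlas V M := ⟨chartAt V x₀.1, chart_mem_atlas V x₀.1⟩ with hi
    set T := ((h2_core hM).localTriv i).toOpenPartialHomeomorph with hT
    have hx₀ : x₀ ∈ T.source := mem_chart_source V x₀.1
    have hO : IsOpen (T.source ∩ T ⁻¹' {w | w.2 = (T x₀).2}) := by
      apply T.isOpen_inter_preimage
      have : {w : M × h2_F | w.2 = (T x₀).2} = Prod.snd ⁻¹' {(T x₀).2} := rfl
      rw [this]
      exact (isOpen_discrete _).preimage continuous_snd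
    obtain ⟨H, hH⟩ := h2_FI_homeo (T x₀).2
    refine ⟨((q.restrOpen _ hO).trans i.1).trans H.toOpenPartialHomeomorph, ?_, ?_⟩
    · simp only [OpenPartialHomeomorph.trans_source, OpenPartialHomeomorph.restrOpen_source,
        Homeomorph.toOpenPartialHomeomorph_source, Set.preimage_univ, Set.inter_univ,
        Set.mem_inter_iff, Set.mem_preimage]
      refine ⟨⟨hq, hx₀, rfl⟩, ?_⟩
      have : (q.restrOpen _ hO) x₀ = q x₀ := rfl
      rw [this, ← hqe]
      exact mem_chart_source V x₀.1
    · intro x hx
      simp only [OpenPartialHomeomorph.trans_source, OpenPartialHomeomorph.restrOpen_source,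
        Homeomorph.toOpenPartialHomeomorph_source, Set.preimage_univ, Set.inter_univ,
        Set.mem_inter_iff, Set.mem_preimage] at hx
      obtain ⟨⟨hxq, hxT, hx2⟩, hxi⟩ := hx
      change h2_D hM x = H (i.1 (q x))
      rw [hH, ← hqe, h2_D_eq hM x i hxT]
      have hx3 : (T x).2 = (T x₀).2 := hx2
      change h2_perm (T x).2 (i.1 x.1) = h2_perm (T x₀).2 (i.1 x.1)
      rw [hx3]
  let act : MulAction FI (h2_E hM) :=
    { smul := fun γ x => h2_smul hM (show h2_F from γ) x
      one_smul := by
        rintro ⟨m, g⟩
        change (⟨m, (1 : h2_F) * (show h2_F from g)⟩ : h2_E hM) = ⟨m, g⟩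
        rw [one_mul]
      mul_smul := by
        rintro γ γ' ⟨m, g⟩
        change (⟨m, ((show h2_F from γ) * (show h2_F from γ')) * (show h2_F from g)⟩ : h2_E hM) =
          ⟨m, (show h2_F from γ) * ((show h2_F from γ') * (show h2_F from g))⟩
        rw [mul_assoc] }
  exact ⟨{ E := h2_E hM
           top := inferInstance
           t2 := hT2
           act := act
           p := (h2_core hM).proj
           D := h2_D hM
           hp := hploc
           hD := hDloc
           cont := fun g => h2_smul_cont hM g
           p_smul := fun g x => rfl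
           D_smul := fun g x => rfl
           free := by
             rintro g ⟨m, a⟩ h
             have h1 : (⟨m, (show h2_F from g) * (show h2_F from a)⟩ : h2_E hM) = ⟨m, a⟩ := h
             have h2 : (show h2_F from g) * (show h2_F from a) = (show h2_F from a) :=
               congrArg (fun x : h2_E hM => (show h2_F from x.2)) h1
             have h3 : (show h2_F from g) = 1 := by
               have h4 := congrArg (fun b : h2_F => b * (show h2_F from a)⁻¹) h2
               simpa using h4
             exact h3
           trans := by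
             rintro ⟨m, a⟩ ⟨m', a'⟩ h
             have h1 : m = m' := h
             subst h1
             refine ⟨((show h2_F from a') * (show h2_F from a)⁻¹ : h2_F), ?_⟩
             change (⟨m, ((show h2_F from a') * (show h2_F from a)⁻¹) * (show h2_F from a)⟩ :
               h2_E hM) = ⟨m, a'⟩
             rw [inv_mul_cancel_right]
           sec := by
             intro e he m hm
             refine ⟨fun m' => ((h2_core hM).localTriv ⟨e, he⟩).toOpenPartialHomeomorph.symm
               (m', 1), ?_, fun m' _ => rfl, ?_⟩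
             · refine (((h2_core hM).localTriv
                 ⟨e, he⟩).toOpenPartialHomeomorph.symm.continuousOn).comp
                 (by fun_prop) ?_
               intro m' hm'
               change (m', (1 : h2_F)) ∈ ((h2_core hM).localTriv ⟨e, he⟩).target
               rw [(h2_core hM).mem_localTriv_target]
               exact hm'
             · intro m' hm'
               have h1 := (h2_tau_spec hM (i := ⟨e, he⟩)
                 (j := ⟨chartAt V m', chart_mem_atlas V m'⟩) hm'
                 (mem_chart_source V m')).self_of_nhds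
               change h2_perm (1 * h2_tau hM ⟨e, he⟩ ⟨chartAt V m', chart_mem_atlas V m'⟩ m')
                 (chartAt V m' m') = e m'
               rw [one_mul]
               exact h1.symm }⟩

end HRF
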