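import Pool.Agent.HRF.HPair

/-!
# HRF-H3b : proper discontinuity
-/

namespace HRF

open Set Filter Topology Matrix

universe u

/-- **Proper discontinuity.**

Proof. Let `C ⊆ E` be compact. For every `(x, y) ∈ C × C` there are open sets `U ∋ x`, `U' ∋ y` such
that `{γ | ∃ z ∈ U, γ • z ∈ U'}` is finite: if `p x ≠ p y`, take disjoint neighbourhoods of
`p x`, `p y` in the Hausdorff space `M` and pull back (`p (γ • z) = p z`): the set is empty. If
`p x = p y`, `y = γ₀ • x`; let `U ∋ x` be open with `p` injective on `U` and `U' = γ₀ • U`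
(open). If `z ∈ U` and `γ • z = γ₀ • z'`, `z' ∈ U`, then `p z = p z'`, so `z = z'`, and
`γ₀⁻¹ γ` fixes `z`, so `γ = γ₀`. By compactness of `C × C` finitely many `U × U'` cover it. -/
theorem DevPair.pd {M : Type u} [TopologicalSpace M] [T2Space M] [ChartedSpace V M]
    (P : DevPair M) :
    letI := P.top
    letI := P.act
    ∀ C : Set P.E, IsCompact C → {γ : P.Γ | ∃ x ∈ C, γ • x ∈ C}.Finite := by
  letI := P.top
  letI := P.act
  intro C hC
  have hp_smul : ∀ (γ : P.Γ) (z : P.E), P.p (γ • z) = P.p z := fun γ z =>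
    ((P.fibre z (γ • z)).2 ⟨γ, rfl⟩).symm
  -- local claim
  have hloc : ∀ x y : P.E, ∃ U ∈ 𝓝 x, ∃ U' ∈ 𝓝 y, {γ : P.Γ | ∃ z ∈ U, γ • z ∈ U'}.Finite := by
    intro x y
    have hpc : Continuous P.p := P.hp.continuous
    by_cases hxy : P.p x = P.p y
    · obtain ⟨γ₀, rfl⟩ := (P.fibre x y).1 hxy
      obtain ⟨e, hx, he⟩ := P.hp x
      refine ⟨e.source, e.open_source.mem_nhds hx, (fun z => γ₀⁻¹ • z) ⁻¹' e.source, ?_, ?_⟩
      · apply (P.cont γ₀⁻¹).continuousAt.preimage_mem_nhds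
        rw [inv_smul_smul]
        exact e.open_source.mem_nhds hx
      · refine (finite_singleton γ₀).subset ?_
        rintro γ ⟨z, hz, hz'⟩
        have hz'' : γ₀⁻¹ • γ • z ∈ e.source := hz'
        have h1 : P.p (γ₀⁻¹ • γ • z) = P.p z := by rw [hp_smul, hp_smul]
        rw [he] at h1
        have h2 : γ₀⁻¹ • γ • z = z := e.injOn hz'' hz h1
        rw [smul_smul] at h2
        have h3 := P.free _ _ h2
        exact (inv_mul_eq_one.1 h3).symm
    · obtain ⟨U, W, hU, hW, hxU, hyW, hd⟩ := t2_separation hxy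
      refine ⟨P.p ⁻¹' U, (hU.preimage hpc).mem_nhds hxU, P.p ⁻¹' W,
        (hW.preimage hpc).mem_nhds hyW, ?_⟩
      refine finite_empty.subset ?_
      rintro γ ⟨z, hz, hz'⟩
      have h1 : P.p z ∈ U := hz
      have h2 : P.p (γ • z) ∈ W := hz'
      rw [hp_smul] at h2
      exact (Set.disjoint_left.1 hd h1 h2).elim
  have hmain : {γ : P.Γ | ∃ z, (z, γ • z) ∈ C ×ˢ C}.Finite := by
    refine (hC.prod hC).induction_on (p := fun s => {γ : P.Γ | ∃ z, (z, γ • z) ∈ s}.Finite)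
      ?_ ?_ ?_ ?_
    · refine finite_empty.subset ?_
      rintro γ ⟨z, hz⟩
      exact hz.elim
    · intro s t hst ht
      exact ht.subset fun γ ⟨z, hz⟩ => ⟨z, hst hz⟩
    · intro s t hs ht
      refine (hs.union ht).subset ?_
      rintro γ ⟨z, hz | hz⟩
      · exact Or.inl ⟨z, hz⟩
      · exact Or.inr ⟨z, hz⟩
    · rintro ⟨x, y⟩ _
      obtain ⟨U, hU, U', hU', hf⟩ := hloc x y
      refine ⟨U ×ˢ U', mem_nhdsWithin_of_mem_nhds (prod_mem_nhds hU hU'), ?_⟩
      exact hf.subset fun γ ⟨z, hz⟩ => ⟨z, hz.1, hz.2⟩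
  exact hmain.subset fun γ ⟨z, hz, hz'⟩ => ⟨z, hz, hz'⟩

end HRF
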