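import Pool.Agent.HRF.HPair

/-!
# HRF-H3c : cocompactness
-/

namespace HRF

open Set Filter Topology Matrix

universe u

theorem h3c_cpt_nhds {E : Type*} [TopologicalSpace E] {D : E → V} (hD : IsLocalHomeomorph D)
    (x : E) : ∃ N : Set E, IsCompact N ∧ N ∈ 𝓝 x := by
  obtain ⟨e, hx, -⟩ := hD x
  obtain ⟨r, hr, hball⟩ := Metric.nhds_basis_closedBall.mem_iff.1
    (e.open_target.mem_nhds (e.map_source hx))
  refine ⟨e.symm '' Metric.closedBall (e x) r, ?_, ?_⟩
  · exact (isCompact_closedBall (e x) r).image_of_continuousOn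
      (e.continuousOn_symm.mono hball)
  · refine mem_of_superset (inter_mem (e.open_source.mem_nhds hx)
      (e.continuousAt hx (Metric.closedBall_mem_nhds (e x) hr))) ?_
    rintro y ⟨hy1, hy2⟩
    exact ⟨e y, hy2, e.left_inv hy1⟩

/-- **Cocompactness.**

Proof. `E` is locally compact (locally homeomorphic to `V`). For every `m : M` choose `x` with
`p x = m` and a compact neighbourhood `N_x`; `p '' N_x` is a neighbourhood of `m` (`p` is an open
map). Finitely many `p '' N_x` cover the compact `M`; `K` = union of these `N_x`. For `y : E`,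
`p y ∈ p '' N_x` for one of them, `p y = p x'`, `x' ∈ N_x`, and `fibre` gives `γ • y = x' ∈ K`. -/
theorem DevPair.cocompact {M : Type u} [TopologicalSpace M] [CompactSpace M] [ChartedSpace V M]
    (P : DevPair M) :
    letI := P.top
    letI := P.act
    ∃ K : Set P.E, IsCompact K ∧ ∀ x : P.E, ∃ γ : P.Γ, γ • x ∈ K := by
  letI := P.top
  letI := P.act
  choose N hN hN2 using fun x : P.E => h3c_cpt_nhds P.hD x
  choose s hs using P.surj
  obtain ⟨t, ht⟩ := CompactSpace.elim_nhds_subcover (fun m : M => P.p '' N (s m)) (fun m => by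
    have := P.hp.isOpenMap.image_mem_nhds (hN2 (s m))
    rwa [hs m] at this)
  refine ⟨⋃ m ∈ t, N (s m), t.isCompact_biUnion fun m _ => hN (s m), fun y => ?_⟩
  have hy : P.p y ∈ ⋃ m ∈ t, P.p '' N (s m) := by rw [ht]; exact mem_univ _
  simp only [mem_iUnion] at hy
  obtain ⟨m, hm, x', hx', hp⟩ := hy
  obtain ⟨γ, hγ⟩ := (P.fibre y x').1 hp.symm
  refine ⟨γ, ?_⟩
  simp only [mem_iUnion]
  exact ⟨m, hm, by rw [hγ]; exact hx'⟩

end HRF
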