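import Pool.Agent.HRF.Defs

/-!
# HRF-HDefs : flat isometries, flat atlases
-/

namespace HRF

open Set Filter Topology Matrix

/-- `f` is an isometry of flat `ℂ³`: `z ↦ A z + b` with `A ∈ O(3,ℂ)`. -/
def IsFI (f : V → V) : Prop := ∃ (A : Mat) (b : V), Aᵀ * A = 1 ∧ ∀ z, f z = A *ᵥ z + b

/-- The group of isometries of flat `ℂ³`, as a group of permutations of `ℂ³`. -/
def FI : Subgroup (Equiv.Perm V) where
  carrier := {g | IsFI g}
  mul_mem' := by
    rintro g h ⟨A, b, hA, hg⟩ ⟨B, c, hB, hh⟩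
    refine ⟨A * B, A *ᵥ c + b, ?_, fun z => ?_⟩
    · rw [transpose_mul, Matrix.mul_assoc, ← Matrix.mul_assoc Aᵀ, hA, Matrix.one_mul, hB]
    · rw [Equiv.Perm.mul_apply, hh, hg, mulVec_add, mulVec_mulVec, add_assoc]
  one_mem' := ⟨1, 0, by simp, fun z => by simp⟩
  inv_mem' := by
    rintro g ⟨A, b, hA, hg⟩
    have hA' : A * Aᵀ = 1 := mul_eq_one_comm.mp hA
    refine ⟨Aᵀ, -(Aᵀ *ᵥ b), by rw [transpose_transpose, hA'], fun z => ?_⟩
    rw [Equiv.Perm.inv_eq_iff_eq, hg, mulVec_add, mulVec_neg, mulVec_mulVec, mulVec_mulVec, hA']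
    simp

/-- A flat atlas: the charts take values in `ℂ³`, the transition maps are holomorphic and preserve
the bilinear form `v ⬝ᵥ w = v₀ w₀ + v₁ w₁ + v₂ w₂`. -/
def FlatAtlas (M : Type*) [TopologicalSpace M] [ChartedSpace V M] : Prop :=
  ∀ e ∈ atlas V M, ∀ e' ∈ atlas V M,
    AnalyticOnNhd ℂ (e.symm.trans e') (e.symm.trans e').source ∧
      ∀ z ∈ (e.symm.trans e').source, ∀ v w : V,
        (fderiv ℂ (e.symm.trans e') z v) ⬝ᵥ (fderiv ℂ (e.symm.trans e') z w) = v ⬝ᵥ w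

end HRF
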