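import Pool.Agent.HRF.G14
import Pool.Agent.HRF.HDefs

/-!
# HRF-H4 : completeness for a group of flat isometries (determinants `±1`)
-/

namespace HRF

open Set Filter Topology Matrix

theorem h4_affine_unique {A A' : Mat} {b b' : V} (h : ∀ z : V, A *ᵥ z + b = A' *ᵥ z + b') :
    A = A' ∧ b = b' := by
  have hb : b = b' := by simpa using h 0
  refine ⟨?_, hb⟩
  have h1 : ∀ z : V, A *ᵥ z = A' *ᵥ z := by
    intro z
    have := h z
    rw [hb] at this
    exact add_right_cancel this
  ext i j
  have h2 := congrFun (h1 (Pi.single j 1)) i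
  simpa using h2

theorem h4_det {A : Mat} (h : Aᵀ * A = 1) : A.det = 1 ∨ A.det = -1 := by
  have h1 := congrArg Matrix.det h
  rw [det_mul, det_transpose, det_one] at h1
  exact mul_self_eq_one_iff.1 h1

/-- **Completeness.** Let `E` be connected Hausdorff, `D : E → ℂ³` a local homeomorphism, `Γ` a
group of flat isometries acting on `E` properly discontinuously and cocompactly such that `D` is
equivariant. Then `D` is bijective.

Proof. For `γ ∈ Γ` choose `A γ, b γ` with `γ z = A γ z + b γ`, `(A γ)ᵀ A γ = 1` (`hΓ`); they are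
unique (`γ 0 = b`, then `A` is determined by its values), so `A (γγ') = A γ A γ'`,
`b (γγ') = A γ b γ' + b γ`, `A 1 = 1`. `det (A γ) = ±1`. Let `Γ⁺ : Subgroup Γ` be the elements with
`det = 1`. Build `Dev Γ⁺ E`: `L γ = A γ`, etc.; `pd`: the set for `Γ⁺` is the preimage of the
finite set for `Γ` under the injection. `K`, `cover`: if `Γ⁺ = Γ` take the given `K`; otherwise
choose `γ₁` with `det = -1` and take `K ∪ γ₁ • K` (compact, image under a continuous map): if
`γ • x ∈ K` and `det γ = -1` then `γ₁ γ ∈ Γ⁺` and `γ₁ γ • x ∈ γ₁ • K`. Apply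
`Dev.bijective`. -/
theorem bijective_of_group {E : Type*} [TopologicalSpace E] [T2Space E] [ConnectedSpace E]
    {D : E → V} (hD : IsLocalHomeomorph D) (Γ : Subgroup (Equiv.Perm V))
    (hΓ : ∀ g ∈ Γ, IsFI g) [MulAction Γ E] (hc : ∀ γ : Γ, Continuous fun x : E => γ • x)
    (he : ∀ (γ : Γ) (x : E), D (γ • x) = (γ : Equiv.Perm V) (D x))
    (pd : ∀ C : Set E, IsCompact C → {γ : Γ | ∃ x ∈ C, γ • x ∈ C}.Finite) {K : Set E}
    (hK : IsCompact K) (hcov : ∀ x : E, ∃ γ : Γ, γ • x ∈ K) : Function.Bijective D := by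
  classical
  choose A b hA hAb using fun γ : Γ => hΓ γ.1 γ.2
  have hmul : ∀ γ γ' : Γ, A (γ * γ') = A γ * A γ' ∧ b (γ * γ') = A γ *ᵥ b γ' + b γ := by
    intro γ γ'
    apply h4_affine_unique
    intro z
    rw [← hAb (γ * γ') z, Subgroup.coe_mul, Equiv.Perm.mul_apply, hAb γ' z, hAb γ,
      mulVec_add, mulVec_mulVec, add_assoc]
  have hone : A 1 = 1 ∧ b 1 = 0 := by
    apply h4_affine_unique
    intro z
    rw [← hAb 1 z]
    simp
  let Γp : Subgroup Γ :=
    { carrier := {γ | (A γ).det = 1}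
      mul_mem' := by
        intro γ γ' h h'
        change (A (γ * γ')).det = 1
        rw [(hmul γ γ').1, det_mul]
        have h1 : (A γ).det = 1 := h
        have h2 : (A γ').det = 1 := h'
        rw [h1, h2, one_mul]
      one_mem' := by
        change (A 1).det = 1
        rw [hone.1, det_one]
      inv_mem' := by
        intro γ h
        change (A γ⁻¹).det = 1
        have h1 := congrArg Matrix.det (hmul γ⁻¹ γ).1
        rw [inv_mul_cancel, hone.1, det_mul, det_one] at h1
        have h2 : (A γ).det = 1 := h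
        rw [h2, mul_one] at h1
        exact h1.symm }
  have hcov' : ∃ K' : Set E, IsCompact K' ∧ ∀ x : E, ∃ γ : Γp, γ • x ∈ K' := by
    by_cases hall : ∀ γ : Γ, (A γ).det = 1
    · refine ⟨K, hK, fun x => ?_⟩
      obtain ⟨γ, hγ⟩ := hcov x
      exact ⟨⟨γ, hall γ⟩, hγ⟩
    · push Not at hall
      obtain ⟨γ₁, hγ₁⟩ := hall
      have hd1 : (A γ₁).det = -1 := (h4_det (hA γ₁)).resolve_left hγ₁
      refine ⟨K ∪ (fun x : E => γ₁ • x) '' K, hK.union (hK.image (hc γ₁)), fun x => ?_⟩
      obtain ⟨γ, hγ⟩ := hcov x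
      rcases h4_det (hA γ) with h | h
      · exact ⟨⟨γ, h⟩, Or.inl hγ⟩
      · have h2 : (A (γ₁ * γ)).det = 1 := by
          rw [(hmul γ₁ γ).1, det_mul, hd1, h]
          norm_num
        refine ⟨⟨γ₁ * γ, h2⟩, Or.inr ⟨γ • x, hγ, ?_⟩⟩
        change γ₁ • (γ • x) = (γ₁ * γ) • x
        rw [mul_smul]
  obtain ⟨K', hK', hcov''⟩ := hcov'
  let S : Dev Γp E :=
    { D := D
      hD := hD
      L := fun γ => A γ.1
      b := fun γ => b γ.1
      orth := fun γ => hA γ.1
      det_one := fun γ => γ.2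
      L_one := hone.1
      L_mul := fun γ γ' => (hmul γ.1 γ'.1).1
      b_mul := fun γ γ' => (hmul γ.1 γ'.1).2
      equiv := fun γ x => by
        change D ((γ : Γ) • x) = A γ.1 *ᵥ D x + b γ.1
        rw [he, hAb]
      cont := fun γ => hc γ.1
      pd := fun C hC => by
        refine Set.Finite.preimage (f := (Subtype.val : Γp → Γ)) ?_ (pd C hC)
        exact Subtype.val_injective.injOn
      K := K'
      hK := hK'
      cover := hcov'' }
  exact S.bijective

end HRF
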