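import Pool.Agent.HRF.H3a
import Pool.Agent.HRF.H3b
import Pool.Agent.HRF.H3c
import Pool.Agent.HRF.H4

/-!
# HRF-H5 : the theorem
-/

namespace HRF

open Set Filter Topology Matrix

universe u

theorem h5_main {M : Type u} [TopologicalSpace M] [ChartedSpace V M]
    {E : Type u} [TopologicalSpace E] (Γ : Subgroup (Equiv.Perm V))
    (hΓ : ∀ g ∈ Γ, IsFI g) [MulAction Γ E] (p : E → M) (D : E → V)
    (hp : IsLocalHomeomorph p) (hD : IsLocalHomeomorph D)
    (D_smul : ∀ (g : Γ) (x : E), D (g • x) = (g : Equiv.Perm V) (D x))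
    (free : ∀ (g : Γ) (x : E), g • x = x → g = 1)
    (surj : Function.Surjective p)
    (fibre : ∀ x y : E, p x = p y ↔ ∃ g : Γ, g • x = y)
    (chart : ∀ x : E, ∀ e ∈ atlas V M, p x ∈ e.source →
      ∃ g : Equiv.Perm V, IsFI g ∧ ∀ᶠ y in 𝓝 x, e (p y) = g (D y))
    (hb : Function.Bijective D)
    (pd : ∀ C : Set E, IsCompact C → {γ : Γ | ∃ x ∈ C, γ • x ∈ C}.Finite) :
    ∃ (Γ : Subgroup (Equiv.Perm V)) (Φ : MulAction.orbitRel.Quotient Γ V ≃ₜ M),
      (∀ g ∈ Γ, IsFI g) ∧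
      (∀ g ∈ Γ, ∀ z : V, g z = z → g = 1) ∧
      (∀ C : Set V, IsCompact C → {g : Equiv.Perm V | g ∈ Γ ∧ ∃ z ∈ C, g z ∈ C}.Finite) ∧
      ∀ z : V, ∀ e ∈ atlas V M, Φ (Quotient.mk'' z) ∈ e.source →
        ∃ g : V → V, IsFI g ∧ ∀ᶠ w in 𝓝 z, e (Φ (Quotient.mk'' w)) = g w := by
  obtain ⟨H, hH⟩ : ∃ H : E ≃ₜ V, ∀ x, H x = D x :=
    ⟨(hD.isOpenEmbedding_of_injective hb.1).toHomeomorphOfSurjective hb.2, fun _ => rfl⟩
  have hDs : ∀ z, D (H.symm z) = z := fun z => by rw [← hH, H.apply_symm_apply]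
  have hact : ∀ (g : Γ) (z : V), H.symm ((g : Equiv.Perm V) z) = g • H.symm z := by
    intro g z
    apply hb.1
    rw [hDs, D_smul, hDs]
  have hfc : Continuous fun z : V => p (H.symm z) := hp.continuous.comp H.symm.continuous
  have hfo : IsOpenMap fun z : V => p (H.symm z) := hp.isOpenMap.comp H.symm.isOpenMap
  have hrel : ∀ z w : V, (MulAction.orbitRel Γ V) z w → p (H.symm z) = p (H.symm w) := by
    intro z w h
    rw [MulAction.orbitRel_apply] at h
    obtain ⟨g, hg⟩ := h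
    have hg' : (g : Equiv.Perm V) w = z := hg
    rw [← hg', hact]
    exact ((fibre _ _).2 ⟨g, rfl⟩).symm
  let F : MulAction.orbitRel.Quotient Γ V → M := Quotient.lift (fun z : V => p (H.symm z)) hrel
  have hF : ∀ z : V, F (Quotient.mk'' z) = p (H.symm z) := fun z => rfl
  have hFc : Continuous F := hfc.quotient_lift hrel
  have hFi : Function.Injective F := by
    intro a b
    refine Quotient.inductionOn₂' a b fun z w h => ?_
    obtain ⟨g, hg⟩ := (fibre _ _).1 (show p (H.symm z) = p (H.symm w) from h)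
    apply Quotient.sound'
    rw [MulAction.orbitRel_apply]
    refine ⟨g⁻¹, ?_⟩
    change ((g⁻¹ : Γ) : Equiv.Perm V) w = z
    apply H.symm.injective
    rw [hact, ← hg, inv_smul_smul]
  have hFo : IsOpenMap F := by
    intro U hU
    have h1 : F '' U = (fun z : V => p (H.symm z)) '' (Quotient.mk'' ⁻¹' U) := by
      ext m
      constructor
      · rintro ⟨a, ha, rfl⟩
        revert ha
        refine Quotient.inductionOn' a fun z ha => ?_
        exact ⟨z, ha, rfl⟩
      · rintro ⟨z, hz, rfl⟩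
        exact ⟨Quotient.mk'' z, hz, rfl⟩
    rw [h1]
    exact hfo _ (hU.preimage continuous_quotient_mk')
  have hFs : Function.Surjective F := by
    intro m
    obtain ⟨x, rfl⟩ := surj m
    exact ⟨Quotient.mk'' (D x), by rw [hF, ← hH, H.symm_apply_apply]⟩
  obtain ⟨Φ, hΦ⟩ : ∃ Φ : MulAction.orbitRel.Quotient Γ V ≃ₜ M, ∀ a, Φ a = F a :=
    ⟨(IsOpenEmbedding.of_continuous_injective_isOpenMap hFc hFi hFo).toHomeomorphOfSurjective hFs,
      fun _ => rfl⟩
  refine ⟨Γ, Φ, hΓ, ?_, ?_, ?_⟩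
  · intro g hg z hz
    have h1 : (⟨g, hg⟩ : Γ) • H.symm z = H.symm z := by
      rw [← hact]
      exact congrArg H.symm hz
    exact congrArg Subtype.val (free _ _ h1)
  · intro C hC
    have h1 := pd (H.symm '' C) (hC.image H.symm.continuous)
    refine (h1.image Subtype.val).subset ?_
    rintro g ⟨hg, z, hz, hgz⟩
    refine ⟨⟨g, hg⟩, ⟨H.symm z, ⟨z, hz, rfl⟩, ?_⟩, rfl⟩
    rw [← hact]
    exact ⟨g z, hgz, rfl⟩
  · intro z e he hz
    rw [hΦ, hF] at hz
    obtain ⟨g, hg, hev⟩ := chart (H.symm z) e he hz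
    refine ⟨g, hg, ?_⟩
    have h1 : ∀ᶠ w in 𝓝 z, e (p (H.symm w)) = g (D (H.symm w)) :=
      H.symm.continuous.continuousAt.eventually hev
    filter_upwards [h1] with w hw
    rw [hΦ, hF, hw, hDs]

/-- **Theorem.** A compact connected Hausdorff space with a flat atlas is complete: it is isometric
to `Γ \ ℂ³` for a group `Γ` of isometries acting freely and properly discontinuously.

Proof. `exists_devPair`: `P`. `bijective_of_group` (with `DevPair.pd`, `DevPair.cocompact`):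
`P.D` is bijective, hence a homeomorphism `D : E ≃ₜ V`. `Γ = P.Γ`. Free: if `g z = z`, `x = D⁻¹ z`,
then `D (g • x) = g z = z = D x` so `g • x = x`, `g = 1`. Properly discontinuous: transport by the
homeomorphism `D`. `Φ`: the map `p ∘ D⁻¹ : V → M` is continuous, open, surjective, and its fibres
are the `Γ`-orbits (`fibre`, `D_smul`); so it descends to a homeomorphism of the quotient
(`Quotient.lift`, `IsOpenQuotientMap`/`Homeomorph.homeomorphOfContinuousOpen` or
`IsQuotientMap.homeomorph`). The last property is `chart` transported by `D⁻¹`. -/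
theorem main_theorem (M : Type u) [TopologicalSpace M] [T2Space M] [CompactSpace M]
    [ConnectedSpace M] [ChartedSpace V M] (hM : FlatAtlas M) :
    ∃ (Γ : Subgroup (Equiv.Perm V)) (Φ : MulAction.orbitRel.Quotient Γ V ≃ₜ M),
      (∀ g ∈ Γ, IsFI g) ∧
      (∀ g ∈ Γ, ∀ z : V, g z = z → g = 1) ∧
      (∀ C : Set V, IsCompact C → {g : Equiv.Perm V | g ∈ Γ ∧ ∃ z ∈ C, g z ∈ C}.Finite) ∧
      ∀ z : V, ∀ e ∈ atlas V M, Φ (Quotient.mk'' z) ∈ e.source →
        ∃ g : V → V, IsFI g ∧ ∀ᶠ w in 𝓝 z, e (Φ (Quotient.mk'' w)) = g w := by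
  obtain ⟨P⟩ := exists_devPair M hM
  obtain ⟨K, hK, hcov⟩ := P.cocompact
  have hb : Function.Bijective P.D :=
    @bijective_of_group P.E P.top P.t2 P.conn P.D P.hD P.Γ P.hΓ P.act P.cont P.D_smul P.pd K
      hK hcov
  exact @h5_main M _ _ P.E P.top P.Γ P.hΓ P.act P.p P.D P.hp P.hD P.D_smul P.free P.surj
    P.fibre P.chart hb P.pd

end HRF
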