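import Pool.Agent.HRF.HDefs

/-!
# HRF-HPair : developing pairs
-/

namespace HRF

open Set Filter Topology Matrix

universe u

/-- A developing pair of `M`. -/
structure DevPair (M : Type u) [TopologicalSpace M] [ChartedSpace V M] where
  E : Type u
  [top : TopologicalSpace E]
  [t2 : T2Space E]
  [conn : ConnectedSpace E]
  Γ : Subgroup (Equiv.Perm V)
  hΓ : ∀ g ∈ Γ, IsFI g
  [act : MulAction Γ E]
  p : E → M
  D : E → V
  hp : IsLocalHomeomorph p
  hD : IsLocalHomeomorph D
  cont : ∀ g : Γ, Continuous fun x : E => g • x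
  D_smul : ∀ (g : Γ) (x : E), D (g • x) = (g : Equiv.Perm V) (D x)
  free : ∀ (g : Γ) (x : E), g • x = x → g = 1
  surj : Function.Surjective p
  fibre : ∀ x y : E, p x = p y ↔ ∃ g : Γ, g • x = y
  /-- in the charts of `M`, `p` is an isometry composed with `D` -/
  chart : ∀ x : E, ∀ e ∈ atlas V M, p x ∈ e.source →
    ∃ g : Equiv.Perm V, IsFI g ∧ ∀ᶠ y in 𝓝 x, e (p y) = g (D y)

end HRF
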